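import Pool.Agent.H74.ZS.ContA
import Pool.Agent.PairCorr.E_Size

/-!
# The integral of `Xi Xi`

`xi_line`: `even_line` with `f w = Xi (1/2 + it + w) Xi (1/2 - it + w) e^{w²}`, `σ = 3/4`.  Entire: `differentiable_Xi`; even: `Xi_one_sub`
(`Xi (1/2 + it - w) = Xi (1/2 - it + w)`); bound: `xi_growth`.

`xi_growth`: `exists_log_Xi_upper` (real part `1/2 + x ≥ 1/2`, `‖1/2 ± it + w‖ ≤ 2 + |t| + |v|`; it needs norm `≥ 1`, so use the
maximum over the compact set of the points of norm `≤ 1`, `IsCompact.exists_bound_of_continuousOn`), so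
`‖f‖ ≤ exp (2 (5/8 log r + C r) + C') e^{9/16 - v²}` with `r = 2 + |t| + |v|`, `log r ≤ r`, and `K |v| - v² ≤ K²/2 - v²/2`.
-/

namespace Pool.Agent.H74.ZS

open MeasureTheory Complex Pool.Agent.PairCorr Pool.Agent.PairCorr.ERV
open scoped Real

lemma cont_Xi_bound : ∃ D C : ℝ, 0 < D ∧ 0 < C ∧ ∀ z : ℂ, 1 / 2 ≤ z.re → z.re ≤ 5 / 4 → ∀ r : ℝ, 1 ≤ r →
    ‖z‖ ≤ r → ‖Xi z‖ ≤ D * Real.exp (C * r) := by
  obtain ⟨C, hC, h⟩ := exists_log_Xi_upper
  obtain ⟨B, hB⟩ := (isCompact_closedBall (0 : ℂ) 1).exists_bound_of_continuousOn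
    (f := Xi) differentiable_Xi.continuous.continuousOn
  refine ⟨|B| + 1, C + 1, by positivity, by positivity, ?_⟩
  intro z hz1 hz2 r hr hzr
  have he : 1 ≤ Real.exp ((C + 1) * r) := Real.one_le_exp (by positivity)
  rcases le_total ‖z‖ 1 with h1 | h1
  · have h2 := hB z (by simpa using h1)
    calc ‖Xi z‖ ≤ B := h2
      _ ≤ |B| + 1 := (le_abs_self B).trans (by linarith)
      _ = (|B| + 1) * 1 := (mul_one _).symm
      _ ≤ _ := mul_le_mul_of_nonneg_left he (by positivity)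
  · rcases (norm_nonneg (Xi z)).eq_or_lt' with h0 | h0
    · rw [h0]; positivity
    · have h2 := h z hz1 h1
      have h3 : Real.log ‖z‖ ≤ ‖z‖ := (Real.log_le_sub_one_of_pos (by linarith)).trans (by linarith)
      have h4 : 0 ≤ Real.log ‖z‖ := Real.log_nonneg h1
      have h5 : z.re / 2 * Real.log ‖z‖ ≤ 1 * ‖z‖ := by
        apply mul_le_mul _ h3 h4 (by norm_num)
        linarith
      have h6 : Real.log ‖Xi z‖ ≤ (C + 1) * r := by
        calc Real.log ‖Xi z‖ ≤ z.re / 2 * Real.log ‖z‖ + C * ‖z‖ := h2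
          _ ≤ 1 * ‖z‖ + C * ‖z‖ := by linarith
          _ = (C + 1) * ‖z‖ := by ring
          _ ≤ (C + 1) * r := mul_le_mul_of_nonneg_left hzr (by positivity)
      calc ‖Xi z‖ = Real.exp (Real.log ‖Xi z‖) := (Real.exp_log h0).symm
        _ ≤ Real.exp ((C + 1) * r) := Real.exp_le_exp.2 h6
        _ = 1 * Real.exp ((C + 1) * r) := (one_mul _).symm
        _ ≤ (|B| + 1) * Real.exp ((C + 1) * r) := by
          apply mul_le_mul_of_nonneg_right _ (Real.exp_pos _).le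
          have := abs_nonneg B
          linarith

theorem xi_growth (t : ℝ) : ∃ M : ℝ, ∀ x v : ℝ, 0 ≤ x → x ≤ 3 / 4 →
    ‖Xi (1 / 2 + t * I + ((x : ℂ) + v * I)) * Xi (1 / 2 - t * I + ((x : ℂ) + v * I)) *
      cexp (((x : ℂ) + v * I) ^ 2)‖ ≤ M * Real.exp (-(v ^ 2) / 2) := by
  obtain ⟨D, C, hD, hC, h⟩ := cont_Xi_bound
  refine ⟨D ^ 2 * Real.exp (2 * C * (2 + |t|) + 9 / 16 + 2 * C ^ 2), ?_⟩
  intro x v hx hx2
  have hr : 1 ≤ 2 + |t| + |v| := by
    have h1 := abs_nonneg t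
    have h2 := abs_nonneg v
    linarith
  have key : ∀ τ : ℝ, |τ| = |t| →
      ‖Xi (1 / 2 + τ * I + ((x : ℂ) + v * I))‖ ≤ D * Real.exp (C * (2 + |t| + |v|)) := by
    intro τ hτ
    have e1 : (1 / 2 + τ * I + ((x : ℂ) + v * I) : ℂ).re = 1 / 2 + x := by simp
    refine h _ (by rw [e1]; linarith) (by rw [e1]; linarith) _ hr ?_
    have e2 : (1 / 2 + τ * I + ((x : ℂ) + v * I) : ℂ) = (((1 / 2 + x : ℝ)) : ℂ) + ((τ + v : ℝ) : ℂ) * I := by
      push_cast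
      ring
    rw [e2]
    calc ‖(((1 / 2 + x : ℝ)) : ℂ) + ((τ + v : ℝ) : ℂ) * I‖ ≤ ‖(((1 / 2 + x : ℝ)) : ℂ)‖ + ‖((τ + v : ℝ) : ℂ) * I‖ :=
          norm_add_le _ _
      _ = |1 / 2 + x| + |τ + v| := by
        rw [norm_mul, Complex.norm_I, mul_one, Complex.norm_real, Complex.norm_real, Real.norm_eq_abs,
          Real.norm_eq_abs]
      _ ≤ 2 + (|τ| + |v|) := by
        apply add_le_add _ (abs_add_le _ _)
        rw [abs_of_nonneg (by linarith)]
        linarith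
      _ = 2 + |t| + |v| := by rw [hτ]; ring
  have k1 := key t rfl
  have k2 := key (-t) (abs_neg t)
  have e3 : (1 / 2 + ((-t : ℝ) : ℂ) * I + ((x : ℂ) + v * I) : ℂ) = 1 / 2 - t * I + ((x : ℂ) + v * I) := by
    push_cast
    ring
  rw [e3] at k2
  rw [norm_mul, norm_mul, contA_exp_norm]
  calc ‖Xi (1 / 2 + t * I + ((x : ℂ) + v * I))‖ * ‖Xi (1 / 2 - t * I + ((x : ℂ) + v * I))‖ * Real.exp (x ^ 2 - v ^ 2)
      ≤ (D * Real.exp (C * (2 + |t| + |v|))) * (D * Real.exp (C * (2 + |t| + |v|))) * Real.exp (x ^ 2 - v ^ 2) := by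
        gcongr
    _ = D ^ 2 * Real.exp (C * (2 + |t| + |v|) + C * (2 + |t| + |v|) + (x ^ 2 - v ^ 2)) := by
        rw [Real.exp_add, Real.exp_add]; ring
    _ ≤ D ^ 2 * Real.exp ((2 * C * (2 + |t|) + 9 / 16 + 2 * C ^ 2) + -(v ^ 2) / 2) := by
        refine mul_le_mul_of_nonneg_left (Real.exp_le_exp.2 ?_) (by positivity)
        have h1 := sq_nonneg (|v| - 2 * C)
        have h2 := sq_abs v
        nlinarith
    _ = _ := by rw [Real.exp_add]; ring

theorem xi_line (t : ℝ) :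
    ∫ v : ℝ, Xi (1 / 2 + t * I + (((3 / 4 : ℝ) : ℂ) + v * I)) *
      Xi (1 / 2 - t * I + (((3 / 4 : ℝ) : ℂ) + v * I)) *
      cexp ((((3 / 4 : ℝ) : ℂ) + v * I) ^ 2) / (((3 / 4 : ℝ) : ℂ) + v * I) =
      π * (Xi (1 / 2 + t * I) * Xi (1 / 2 - t * I)) := by
  obtain ⟨M, hM⟩ := xi_growth t
  have hf : Differentiable ℂ (fun w : ℂ => Xi (1 / 2 + t * I + w) * Xi (1 / 2 - t * I + w) * cexp (w ^ 2)) := by
    have h1 : Differentiable ℂ (fun w : ℂ => Xi (1 / 2 + t * I + w)) :=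
      differentiable_Xi.comp (by fun_prop)
    have h2 : Differentiable ℂ (fun w : ℂ => Xi (1 / 2 - t * I + w)) :=
      differentiable_Xi.comp (by fun_prop)
    have h3 : Differentiable ℂ (fun w : ℂ => cexp (w ^ 2)) := by fun_prop
    exact (h1.mul h2).mul h3
  have heven : ∀ w : ℂ, Xi (1 / 2 + t * I + -w) * Xi (1 / 2 - t * I + -w) * cexp ((-w) ^ 2) =
      Xi (1 / 2 + t * I + w) * Xi (1 / 2 - t * I + w) * cexp (w ^ 2) := by
    intro w
    have e1 : (1 / 2 + t * I + -w : ℂ) = 1 - (1 / 2 - t * I + w) := by ring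
    have e2 : (1 / 2 - t * I + -w : ℂ) = 1 - (1 / 2 + t * I + w) := by ring
    rw [e1, e2, Xi_one_sub, Xi_one_sub, neg_sq]
    ring
  have h := even_line _ hf heven (3 / 4) (by norm_num) M hM
  rw [h]
  simp

end Pool.Agent.H74.ZS
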