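import Pool.Agent.H74.ZS.ExpD

/-!
# Expansion of the main term: the integral of zeta functions

`exp_left`: for `Re s > 1` `ζ(s) = ∑_n 1/(n+1)^s` (`zeta_eq_tsum_one_div_nat_add_one_cpow`).  With `w = 3/4 + iv`, `s1 = 1/2 + it + w`,
`s2 = 1/2 - it + w` (real parts `5/4`): `ζ(s1) ζ(s2) (t/2π)^w e^{w²}/w = ∑_{n ∈ ℕ×ℕ} an t n · cexp (w² - ln t n * w)/w`
(`(n.1+1)^(-s1) = (n.1+1)^(-1/2) nt t (n.1+1) (n.1+1)^(-w)`), absolutely: the norm of the term is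
`((n.1+1)(n.2+1))^(-5/4) (t/2π)^(3/4) e^{9/16 - v²}/‖w‖`.  Exchange sum and integral
(`MeasureTheory.hasSum_integral_of_summable_integral_norm`), and `gauss_line` (`Lin.lean`, use its statement).
-/

namespace Pool.Agent.H74.ZS

open MeasureTheory Complex Pool.Agent.H14.PT
open scoped Real ComplexConjugate

/-- the terms -/
noncomputable def expLF (t : ℝ) (n : ℕ × ℕ) (v : ℝ) : ℂ :=
  an t n * (cexp ((((3 / 4 : ℝ) : ℂ) + v * I) ^ 2 - ((ln t n : ℝ) : ℂ) * (((3 / 4 : ℝ) : ℂ) + v * I)) /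
    (((3 / 4 : ℝ) : ℂ) + v * I))

/-- the norm in the variable `v` -/
noncomputable def expLphi (v : ℝ) : ℝ :=
  Real.exp (9 / 16 - v ^ 2) / ‖((3 / 4 : ℝ) : ℂ) + v * I‖

lemma expL_re (v : ℝ) : ((((3 / 4 : ℝ) : ℂ) + v * I) : ℂ).re = 3 / 4 := by
  simp

lemma expL_ne (v : ℝ) : ((((3 / 4 : ℝ) : ℂ) + v * I) : ℂ) ≠ 0 := by
  intro h
  have := congrArg Complex.re h
  rw [expL_re] at this
  norm_num at this

lemma expL_norm_ge (v : ℝ) : 3 / 4 ≤ ‖((3 / 4 : ℝ) : ℂ) + v * I‖ := by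
  have h1 := Complex.abs_re_le_norm (((3 / 4 : ℝ) : ℂ) + v * I)
  rw [expL_re] at h1
  rwa [abs_of_pos (by norm_num : (0 : ℝ) < 3 / 4)] at h1

lemma expLF_norm (t : ℝ) (n : ℕ × ℕ) (v : ℝ) :
    ‖expLF t n v‖ = (‖an t n‖ * Real.exp (-(3 / 4 * ln t n))) * expLphi v := by
  unfold expLF expLphi
  rw [norm_mul, norm_div, Complex.norm_exp]
  have h1 : ((((3 / 4 : ℝ) : ℂ) + v * I) ^ 2 - ((ln t n : ℝ) : ℂ) * (((3 / 4 : ℝ) : ℂ) + v * I)).re =
      -(3 / 4 * ln t n) + (9 / 16 - v ^ 2) := by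
    simp [pow_two]
    ring
  rw [h1, Real.exp_add]
  ring

lemma expLphi_continuous : Continuous expLphi := by
  unfold expLphi
  refine Continuous.div (by fun_prop) (by fun_prop) ?_
  intro v
  exact norm_ne_zero_iff.2 (expL_ne v)

lemma expLphi_integrable : Integrable expLphi := by
  have h1 : Integrable (fun v : ℝ => (4 / 3 * Real.exp (9 / 16)) * Real.exp (-1 * v ^ 2)) :=
    (integrable_exp_neg_mul_sq (by norm_num)).const_mul _
  refine h1.mono' expLphi_continuous.aestronglyMeasurable (Filter.Eventually.of_forall fun v => ?_)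
  unfold expLphi
  have h2 := expL_norm_ge v
  rw [Real.norm_of_nonneg (by positivity)]
  rw [show (9 / 16 - v ^ 2 : ℝ) = 9 / 16 + -1 * v ^ 2 by ring, Real.exp_add]
  rw [div_le_iff₀ (by linarith)]
  have h3 : 0 < Real.exp (9 / 16) * Real.exp (-1 * v ^ 2) := by positivity
  nlinarith

lemma expLF_continuous (t : ℝ) (n : ℕ × ℕ) : Continuous (expLF t n) := by
  unfold expLF
  refine Continuous.mul (by fun_prop) (Continuous.div (by fun_prop) (by fun_prop) ?_)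
  intro v
  exact expL_ne v

lemma expLF_integrable (t : ℝ) (n : ℕ × ℕ) : Integrable (expLF t n) := by
  refine (expLphi_integrable.const_mul (‖an t n‖ * Real.exp (-(3 / 4 * ln t n)))).mono'
    (expLF_continuous t n).aestronglyMeasurable (Filter.Eventually.of_forall fun v => ?_)
  rw [expLF_norm]

lemma expL_coeff (t : ℝ) (ht : 1 ≤ t) (n : ℕ × ℕ) :
    ‖an t n‖ * Real.exp (-(3 / 4 * ln t n)) =
      (t / (2 * π)) ^ (3 / 4 : ℝ) * (((n.1 : ℝ) + 1) ^ (-(5 / 4) : ℝ) * ((n.2 : ℝ) + 1) ^ (-(5 / 4) : ℝ)) := by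
  have hpi := Real.pi_pos
  have h1 : (0 : ℝ) < (((n.1 + 1) * (n.2 + 1) : ℕ) : ℝ) := by positivity
  have h2 : (((n.1 + 1) * (n.2 + 1) : ℕ) : ℝ) = ((n.1 : ℝ) + 1) * ((n.2 : ℝ) + 1) := by push_cast; ring
  have h3 : ln t n = Real.log (((n.1 + 1) * (n.2 + 1) : ℕ) : ℝ) - Real.log (t / (2 * π)) := by
    unfold ln
    rw [← Real.log_div h1.ne' (by positivity)]
    congr 1
    field_simp
  rw [norm_an, ← Real.mul_rpow (by positivity) (by positivity), ← h2, h3]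
  rw [Real.rpow_def_of_pos h1, Real.rpow_def_of_pos h1, Real.rpow_def_of_pos (by positivity : 0 < t / (2 * π)),
    ← Real.exp_add, ← Real.exp_add]
  congr 1
  ring

lemma expL_summable_one : Summable (fun n : ℕ => ((n : ℝ) + 1) ^ (-(5 / 4) : ℝ)) := by
  have h1 : Summable (fun n : ℕ => ((n : ℝ)) ^ (-(5 / 4) : ℝ)) :=
    Real.summable_nat_rpow.2 (by norm_num)
  have h2 := (summable_nat_add_iff 1).2 h1
  simpa using h2

lemma expL_summable_two : Summable (fun n : ℕ × ℕ =>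
    ((n.1 : ℝ) + 1) ^ (-(5 / 4) : ℝ) * ((n.2 : ℝ) + 1) ^ (-(5 / 4) : ℝ)) :=
  expL_summable_one.mul_of_nonneg expL_summable_one (fun n => by positivity) (fun n => by positivity)

lemma expL_zeta (s : ℂ) (hs : s.re = 5 / 4) :
    HasSum (fun n : ℕ => 1 / ((n : ℂ) + 1) ^ s) (riemannZeta s) ∧
      Summable (fun n : ℕ => ‖1 / ((n : ℂ) + 1) ^ s‖) := by
  have h1 : Summable (fun n : ℕ => ‖1 / ((n : ℂ) + 1) ^ s‖) := by
    refine expL_summable_one.congr fun n => ?_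
    have h2 : ((n : ℂ) + 1) = (((n : ℝ) + 1 : ℝ) : ℂ) := by push_cast; ring
    rw [norm_div, norm_one, h2, Complex.norm_cpow_eq_rpow_re_of_pos (by positivity), hs,
      Real.rpow_neg (by positivity), one_div]
  refine ⟨?_, h1⟩
  rw [zeta_eq_tsum_one_div_nat_add_one_cpow (by rw [hs]; norm_num)]
  exact h1.of_norm.hasSum

lemma expL_term (t : ℝ) (ht : 1 ≤ t) (n : ℕ × ℕ) (v : ℝ) :
    (1 / ((n.1 : ℂ) + 1) ^ (1 / 2 + t * I + (((3 / 4 : ℝ) : ℂ) + v * I))) *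
      (1 / ((n.2 : ℂ) + 1) ^ (1 / 2 - t * I + (((3 / 4 : ℝ) : ℂ) + v * I))) *
      ((((t / (2 * π) : ℝ) : ℂ) ^ (((3 / 4 : ℝ) : ℂ) + v * I)) *
        cexp ((((3 / 4 : ℝ) : ℂ) + v * I) ^ 2) / (((3 / 4 : ℝ) : ℂ) + v * I)) = expLF t n v := by
  have hpi := Real.pi_pos
  set w : ℂ := ((3 / 4 : ℝ) : ℂ) + v * I with hw
  have ha : (0 : ℝ) < (n.1 : ℝ) + 1 := by positivity
  have hb : (0 : ℝ) < (n.2 : ℝ) + 1 := by positivity
  have hc : (0 : ℝ) < t / (2 * π) := by positivity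
  have ha' : ((n.1 : ℂ) + 1) = (((n.1 : ℝ) + 1 : ℝ) : ℂ) := by push_cast; ring
  have hb' : ((n.2 : ℂ) + 1) = (((n.2 : ℝ) + 1 : ℝ) : ℂ) := by push_cast; ring
  have e1 : ∀ (x : ℝ), 0 < x → ∀ z : ℂ, ((x : ℝ) : ℂ) ^ z = cexp (((Real.log x : ℝ) : ℂ) * z) := by
    intro x hx z
    rw [Complex.cpow_def_of_ne_zero (by exact_mod_cast hx.ne'), Complex.ofReal_log hx.le]
  have h2 : (((n.1 + 1) * (n.2 + 1) : ℕ) : ℝ) = ((n.1 : ℝ) + 1) * ((n.2 : ℝ) + 1) := by push_cast; ring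
  have h3 : ln t n = Real.log ((n.1 : ℝ) + 1) + Real.log ((n.2 : ℝ) + 1) - Real.log (t / (2 * π)) := by
    unfold ln
    rw [← Real.log_mul ha.ne' hb.ne', ← Real.log_div (by positivity) (by positivity), h2]
    congr 1
    field_simp
  have h4 : (((((n.1 + 1) * (n.2 + 1) : ℕ) : ℝ) ^ (-(1 / 2) : ℝ) : ℝ) : ℂ) =
      cexp (((Real.log ((n.1 : ℝ) + 1) + Real.log ((n.2 : ℝ) + 1) : ℝ) : ℂ) * (-(1 / 2))) := by
    rw [h2, Real.rpow_def_of_pos (by positivity), Real.log_mul ha.ne' hb.ne', Complex.ofReal_exp]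
    congr 1
    push_cast
    ring
  have h5 : nt t (n.1 + 1) = cexp (-(((Real.log ((n.1 : ℝ) + 1) : ℝ) : ℂ) * (t * I))) := by
    unfold nt Pool.Agent.H74.PZ.ee
    congr 1
    push_cast
    ring
  have h6 : conj (nt t (n.2 + 1)) = cexp (((Real.log ((n.2 : ℝ) + 1) : ℝ) : ℂ) * (t * I)) := by
    unfold nt Pool.Agent.H74.PZ.ee
    rw [← Complex.exp_conj]
    congr 1
    rw [map_mul, Complex.conj_I, Complex.conj_ofReal]
    push_cast
    ring
  unfold expLF an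
  rw [h5, h6, h4, h3, ha', hb', e1 _ ha, e1 _ hb, e1 _ hc]
  have g1 : ∀ z : ℂ, 1 / cexp z = cexp (-z) := fun z => by rw [one_div, Complex.exp_neg]
  rw [g1, g1, ← hw]
  have g2 : ∀ a b c d : ℂ, cexp a * cexp b * (cexp c * cexp d / w) = cexp (a + b + (c + d)) / w := by
    intro a b c d
    rw [Complex.exp_add, Complex.exp_add, Complex.exp_add]
    ring
  have g3 : ∀ a b c d : ℂ, cexp a * cexp b * cexp c * (cexp d / w) = cexp (a + b + c + d) / w := by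
    intro a b c d
    rw [Complex.exp_add, Complex.exp_add, Complex.exp_add]
    ring
  rw [g2, g3]
  congr 2
  push_cast
  ring

theorem exp_left (t : ℝ) (ht : 1 ≤ t) :
    HasSum (fun n : ℕ × ℕ => an t n * ((2 * π * ∫ s in Set.Ioi (ln t n), gs s : ℝ) : ℂ))
      (∫ v : ℝ, riemannZeta (1 / 2 + t * I + (((3 / 4 : ℝ) : ℂ) + v * I)) *
        riemannZeta (1 / 2 - t * I + (((3 / 4 : ℝ) : ℂ) + v * I)) *
        (((t / (2 * π) : ℝ) : ℂ) ^ (((3 / 4 : ℝ) : ℂ) + v * I)) *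
        cexp ((((3 / 4 : ℝ) : ℂ) + v * I) ^ 2) / (((3 / 4 : ℝ) : ℂ) + v * I)) := by
  have h1 : Summable fun n : ℕ × ℕ => ∫ v, ‖expLF t n v‖ := by
    have h2 : ∀ n : ℕ × ℕ, ∫ v, ‖expLF t n v‖ =
        ((t / (2 * π)) ^ (3 / 4 : ℝ) * ∫ v, expLphi v) *
          (((n.1 : ℝ) + 1) ^ (-(5 / 4) : ℝ) * ((n.2 : ℝ) + 1) ^ (-(5 / 4) : ℝ)) := by
      intro n
      simp_rw [expLF_norm, expL_coeff t ht n]
      rw [integral_const_mul]
      ring
    simp_rw [h2]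
    exact expL_summable_two.mul_left _
  have h3 := hasSum_integral_of_summable_integral_norm (expLF_integrable t) h1
  have h4 : ∀ n : ℕ × ℕ, ∫ v, expLF t n v = an t n * ((2 * π * ∫ s in Set.Ioi (ln t n), gs s : ℝ) : ℂ) := by
    intro n
    unfold expLF
    rw [integral_const_mul, gauss_line (3 / 4) (by norm_num) (ln t n)]
  simp_rw [h4] at h3
  have h5 : ∀ v : ℝ, riemannZeta (1 / 2 + t * I + (((3 / 4 : ℝ) : ℂ) + v * I)) *
        riemannZeta (1 / 2 - t * I + (((3 / 4 : ℝ) : ℂ) + v * I)) *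
        (((t / (2 * π) : ℝ) : ℂ) ^ (((3 / 4 : ℝ) : ℂ) + v * I)) *
        cexp ((((3 / 4 : ℝ) : ℂ) + v * I) ^ 2) / (((3 / 4 : ℝ) : ℂ) + v * I) = ∑' n : ℕ × ℕ, expLF t n v := by
    intro v
    obtain ⟨k1, k2⟩ := expL_zeta (1 / 2 + t * I + (((3 / 4 : ℝ) : ℂ) + v * I)) (by simp; norm_num)
    obtain ⟨k3, k4⟩ := expL_zeta (1 / 2 - t * I + (((3 / 4 : ℝ) : ℂ) + v * I)) (by simp; norm_num)
    have k5 := tsum_mul_tsum_of_summable_norm k2 k4
    rw [k1.tsum_eq, k3.tsum_eq] at k5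
    rw [mul_assoc (riemannZeta _ * riemannZeta _), mul_div_assoc (riemannZeta _ * riemannZeta _), k5,
      ← tsum_mul_right]
    exact tsum_congr fun n => expL_term t ht n v
  simp_rw [h5]
  exact h3

end Pool.Agent.H74.ZS
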