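import Pool.Agent.H74.ZS.ExpD

/-!
# Expansion of the main term: the integral of hyperbola sums

`exp_right`: `TTt t ⌊e^u/2π⌋₊ = ∑_{n ∈ ℕ×ℕ} an t n · 1[log (2π (n.1+1)(n.2+1)) ≤ u]` (`(n.1+1)(n.2+1) ≤ ⌊e^u/2π⌋₊ ↔
(n.1+1)(n.2+1) ≤ e^u/2π`, `Nat.le_floor_iff`; a finite sum: `hasSum_sum_of_ne_finset_zero` after reindexing
`hyp` by `n ↦ (n.1 - 1, n.2 - 1)`, compare `Pool/Agent/H14/PT/Afe3.lean`, proof of `afe_discrete`).  Exchange
(`MeasureTheory.hasSum_integral_of_summable_integral_norm`, `∑ |an| ∫_{s > ln} gs ≤ ∑ ((n.1+1)(n.2+1))^(-1/2) 2 exp (-(3/4) ln t n)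
= 2 (t/2π)^(3/4) ∑ ((n.1+1)(n.2+1))^(-5/4) < ∞` by `gs_tail`), and
`∫_u gs (u - log t) 1[log (2π..) ≤ u] du = ∫_{s ≥ ln t n} gs s ds` (translation `s = u - log t`).
`exp_right_integrable`: the same.
-/

namespace Pool.Agent.H74.ZS

open MeasureTheory Complex Pool.Agent.H14.PT
open scoped Real ComplexConjugate

/-- the product `(n.1+1)(n.2+1)` -/
private def nn (n : ℕ × ℕ) : ℕ := (n.1 + 1) * (n.2 + 1)

private lemma nn_pos (n : ℕ × ℕ) : 0 < nn n := by unfold nn; positivity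

private lemma nn_le_floor (n : ℕ × ℕ) (u : ℝ) :
    nn n ≤ ⌊Real.exp u / (2 * π)⌋₊ ↔ Real.log (2 * π * (nn n : ℝ)) ≤ u := by
  have hpos : (0 : ℝ) < nn n := by exact_mod_cast nn_pos n
  rw [Nat.le_floor_iff (by positivity), le_div_iff₀ (by positivity),
    Real.log_le_iff_le_exp (by positivity), mul_comm]

/-- the summand -/
private noncomputable def gg (t : ℝ) (n : ℕ × ℕ) (u : ℝ) : ℂ :=
  an t n * (((Set.Ici (ln t n)).indicator gs (u - Real.log t) : ℝ) : ℂ)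

private lemma ln_eq (t : ℝ) (ht : 1 ≤ t) (n : ℕ × ℕ) :
    ln t n = Real.log (2 * π * (nn n : ℝ)) - Real.log t := by
  have hpos : (0 : ℝ) < nn n := by exact_mod_cast nn_pos n
  unfold ln
  rw [← Real.log_div (by positivity) (by positivity)]
  rfl

private lemma mem_iff (t : ℝ) (ht : 1 ≤ t) (n : ℕ × ℕ) (u : ℝ) :
    u - Real.log t ∈ Set.Ici (ln t n) ↔ nn n ≤ ⌊Real.exp u / (2 * π)⌋₊ := by
  rw [nn_le_floor, Set.mem_Ici, ln_eq t ht]
  constructor <;> intro h <;> linarith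

private lemma hasSum_gg (t : ℝ) (ht : 1 ≤ t) (u : ℝ) :
    HasSum (fun n : ℕ × ℕ => gg t n u)
      (((gs (u - Real.log t) : ℝ) : ℂ) * TTt t ⌊Real.exp u / (2 * π)⌋₊) := by
  set N : ℕ := ⌊Real.exp u / (2 * π)⌋₊ with hN
  set φ : ℕ × ℕ → ℕ × ℕ := fun n => (n.1 - 1, n.2 - 1) with hφ
  have hinj : Set.InjOn φ (hyp N : Set (ℕ × ℕ)) := by
    intro x hx y hy hxy
    rw [Finset.mem_coe, mem_hyp] at hx hy
    simp only [hφ, Prod.mk.injEq] at hxy
    ext
    · omega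
    · omega
  have h0 : ∀ n ∉ (hyp N).image φ, gg t n u = 0 := by
    intro n hn
    unfold gg
    rw [Set.indicator_of_notMem]
    · simp
    · rw [mem_iff t ht]
      intro h
      apply hn
      rw [Finset.mem_image]
      refine ⟨(n.1 + 1, n.2 + 1), mem_hyp.mpr ⟨by simp, by simp, h⟩, by simp [hφ]⟩
  have h1 : HasSum (fun n : ℕ × ℕ => gg t n u) (∑ n ∈ (hyp N).image φ, gg t n u) :=
    hasSum_sum_of_ne_finset_zero h0
  rw [Finset.sum_image hinj] at h1
  convert h1 using 1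
  unfold TTt
  rw [Finset.mul_sum]
  refine Finset.sum_congr rfl fun n hn => ?_
  rw [mem_hyp] at hn
  obtain ⟨h2, h3, h4⟩ := hn
  have e1 : n.1 - 1 + 1 = n.1 := by omega
  have e2 : n.2 - 1 + 1 = n.2 := by omega
  unfold gg
  rw [Set.indicator_of_mem]
  · unfold an
    simp only [hφ, e1, e2]
    ring
  · rw [mem_iff t ht]
    unfold nn
    simp only [hφ, e1, e2]
    exact h4

private lemma integrable_ind (lam c : ℝ) :
    Integrable (fun u : ℝ => (Set.Ici lam).indicator gs (u - c)) := by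
  have h1 : Integrable ((Set.Ici lam).indicator gs) := integrable_gs.indicator measurableSet_Ici
  exact h1.comp_sub_right c

private lemma integral_ind (lam c : ℝ) :
    ∫ u : ℝ, (Set.Ici lam).indicator gs (u - c) = ∫ s in Set.Ioi lam, gs s := by
  rw [integral_sub_right_eq_self (fun u => (Set.Ici lam).indicator gs u) c,
    integral_indicator measurableSet_Ici, integral_Ici_eq_integral_Ioi]

private lemma integrable_gg (t : ℝ) (n : ℕ × ℕ) : Integrable (gg t n) := by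
  unfold gg
  exact ((integrable_ind (ln t n) (Real.log t)).ofReal).const_mul _

private lemma integral_gg (t : ℝ) (n : ℕ × ℕ) :
    ∫ u : ℝ, gg t n u = an t n * ((∫ s in Set.Ioi (ln t n), gs s : ℝ) : ℂ) := by
  unfold gg
  rw [integral_const_mul, ← integral_ind (ln t n) (Real.log t)]
  congr 1
  exact integral_ofReal

private lemma integral_norm_gg (t : ℝ) (n : ℕ × ℕ) :
    ∫ u : ℝ, ‖gg t n u‖ = (nn n : ℝ) ^ (-(1 / 2) : ℝ) * ∫ s in Set.Ioi (ln t n), gs s := by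
  have h1 : ∀ u : ℝ, ‖gg t n u‖ =
      (nn n : ℝ) ^ (-(1 / 2) : ℝ) * (Set.Ici (ln t n)).indicator gs (u - Real.log t) := by
    intro u
    unfold gg
    rw [norm_mul, norm_an, Complex.norm_real, Real.norm_of_nonneg]
    · rfl
    · exact Set.indicator_nonneg (fun s _ => gs_nonneg s) _
  simp_rw [h1]
  rw [integral_const_mul, integral_ind]

private lemma summable_nn : Summable (fun n : ℕ × ℕ => (nn n : ℝ) ^ (-(5 / 4) : ℝ)) := by
  have h1 : Summable (fun k : ℕ => ((k + 1 : ℕ) : ℝ) ^ (-(5 / 4) : ℝ)) := by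
    have h2 : Summable (fun k : ℕ => ((k : ℝ)) ^ (-(5 / 4) : ℝ)) :=
      Real.summable_nat_rpow.mpr (by norm_num)
    exact (summable_nat_add_iff 1).mpr h2
  have h3 := h1.mul_of_nonneg h1 (fun k => by positivity) (fun k => by positivity)
  refine h3.congr fun n => ?_
  unfold nn
  push_cast
  rw [Real.mul_rpow (by positivity) (by positivity)]

private lemma summable_int (t : ℝ) (ht : 1 ≤ t) :
    Summable (fun n : ℕ × ℕ => ∫ u : ℝ, ‖gg t n u‖) := by
  have hK := summable_nn.mul_left (2 * (t / (2 * π)) ^ (3 / 4 : ℝ))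
  refine Summable.of_nonneg_of_le (fun n => integral_nonneg fun u => norm_nonneg _) (fun n => ?_) hK
  have hpos : (0 : ℝ) < nn n := by exact_mod_cast nn_pos n
  have ht0 : 0 < t := by linarith
  rw [integral_norm_gg]
  have h1 := gs_tail (ln t n)
  have h2 : Real.exp (-(3 / 4 * ln t n)) =
      (t / (2 * π)) ^ (3 / 4 : ℝ) * (nn n : ℝ) ^ (-(3 / 4) : ℝ) := by
    have e1 : ln t n = Real.log (2 * π * (nn n : ℝ) / t) := rfl
    rw [e1, Real.rpow_def_of_pos (by positivity), Real.rpow_def_of_pos hpos, ← Real.exp_add]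
    congr 1
    rw [Real.log_div (by positivity) (by positivity), Real.log_mul (by positivity) (by positivity),
      Real.log_div (by positivity) (by positivity)]
    ring
  rw [h2] at h1
  calc (nn n : ℝ) ^ (-(1 / 2) : ℝ) * ∫ s in Set.Ioi (ln t n), gs s
      ≤ (nn n : ℝ) ^ (-(1 / 2) : ℝ) *
        (2 * ((t / (2 * π)) ^ (3 / 4 : ℝ) * (nn n : ℝ) ^ (-(3 / 4) : ℝ))) :=
        mul_le_mul_of_nonneg_left h1 (by positivity)
    _ = 2 * (t / (2 * π)) ^ (3 / 4 : ℝ) *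
        ((nn n : ℝ) ^ (-(1 / 2) : ℝ) * (nn n : ℝ) ^ (-(3 / 4) : ℝ)) := by ring
    _ = 2 * (t / (2 * π)) ^ (3 / 4 : ℝ) * (nn n : ℝ) ^ (-(5 / 4) : ℝ) := by
        rw [← Real.rpow_add hpos]
        norm_num

theorem exp_right (t : ℝ) (ht : 1 ≤ t) :
    HasSum (fun n : ℕ × ℕ => an t n * ((2 * π * ∫ s in Set.Ioi (ln t n), gs s : ℝ) : ℂ))
      (2 * π * ∫ u : ℝ, ((gs (u - Real.log t) : ℝ) : ℂ) * TTt t ⌊Real.exp u / (2 * π)⌋₊) := by
  have h1 := hasSum_integral_of_summable_integral_norm (integrable_gg t) (summable_int t ht)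
  have h2 : ∫ u : ℝ, ∑' n : ℕ × ℕ, gg t n u =
      ∫ u : ℝ, ((gs (u - Real.log t) : ℝ) : ℂ) * TTt t ⌊Real.exp u / (2 * π)⌋₊ :=
    integral_congr_ae (Filter.Eventually.of_forall fun u => (hasSum_gg t ht u).tsum_eq)
  rw [h2] at h1
  have h3 : (fun n : ℕ × ℕ => an t n * ((2 * π * ∫ s in Set.Ioi (ln t n), gs s : ℝ) : ℂ)) =
      fun n : ℕ × ℕ => 2 * (π : ℂ) * ∫ u : ℝ, gg t n u := by
    funext n
    rw [integral_gg]
    push_cast
    ring
  rw [h3]
  exact h1.mul_left (2 * (π : ℂ))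

/-- the integrand is integrable -/
theorem exp_right_integrable (t : ℝ) (ht : 1 ≤ t) :
    Integrable (fun u : ℝ => ((gs (u - Real.log t) : ℝ) : ℂ) * TTt t ⌊Real.exp u / (2 * π)⌋₊) := by
  have hmeas : Measurable (fun u : ℝ => TTt t ⌊Real.exp u / (2 * π)⌋₊) := by
    have h1 : Measurable (fun N : ℕ => TTt t N) := measurable_from_nat
    exact h1.comp (Nat.measurable_floor.comp (by fun_prop))
  have hmeas2 : Measurable (fun u : ℝ => ((gs (u - Real.log t) : ℝ) : ℂ)) :=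
    (Complex.measurable_ofReal.comp continuous_gs.measurable).comp (measurable_id.sub_const _)
  have hb := (integrable_cexp_quadratic' (b := -(1 / 4 : ℂ)) (by norm_num)
    ((Real.log t / 2 + 2 : ℝ) : ℂ) ((-(Real.log t) ^ 2 / 4 : ℝ) : ℂ)).norm
  refine Integrable.mono' hb (hmeas2.mul hmeas).aestronglyMeasurable
    (Filter.Eventually.of_forall fun u => ?_)
  have h1 := norm_TTt_le t ⌊Real.exp u / (2 * π)⌋₊
  have h2 : ((⌊Real.exp u / (2 * π)⌋₊ : ℕ) : ℝ) ≤ Real.exp u := by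
    refine (Nat.floor_le (by positivity)).trans ?_
    rw [div_le_iff₀ (by positivity)]
    have := Real.exp_pos u
    have := Real.pi_gt_three
    nlinarith
  have h3 : ‖TTt t ⌊Real.exp u / (2 * π)⌋₊‖ ≤ Real.exp (2 * u) := by
    refine h1.trans ?_
    calc ((⌊Real.exp u / (2 * π)⌋₊ : ℕ) : ℝ) ^ 2 ≤ Real.exp u ^ 2 :=
          pow_le_pow_left₀ (by positivity) h2 2
      _ = Real.exp (2 * u) := by rw [← Real.exp_nat_mul]; norm_num
  have h4 : gs (u - Real.log t) ≤ Real.exp (-((u - Real.log t) ^ 2) / 4) := by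
    unfold gs
    apply div_le_self (Real.exp_pos _).le
    have : (1 : ℝ) ≤ Real.sqrt Real.pi := by
      rw [Real.one_le_sqrt]
      linarith [Real.pi_gt_three]
    linarith
  rw [norm_mul, Complex.norm_real, Real.norm_of_nonneg (gs_nonneg _), Complex.norm_exp]
  refine (mul_le_mul h4 h3 (norm_nonneg _) (Real.exp_pos _).le).trans (le_of_eq ?_)
  rw [← Real.exp_add]
  congr 1
  have e1 : (-(1 / 4 : ℂ) * (u : ℂ) ^ 2 + ((Real.log t / 2 + 2 : ℝ) : ℂ) * u +
      ((-(Real.log t) ^ 2 / 4 : ℝ) : ℂ)) =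
      ((-(1 / 4) * u ^ 2 + (Real.log t / 2 + 2) * u + -(Real.log t) ^ 2 / 4 : ℝ) : ℂ) := by
    push_cast
    ring
  rw [e1, Complex.ofReal_re]
  ring

end Pool.Agent.H74.ZS
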