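import Pool.Agent.H74.ZS.Rho
import Pool.Agent.H74.ZS.Cont
import Pool.Agent.H74.ZS.ExpL
import Pool.Agent.H74.ZS.ExpR

/-!
# Approximate functional equation for `|ζ(1/2 + it)|²`

`zs_afe`.  `t ≥ 16`, `w = 3/4 + iv`.  `Xi s = pref s * ζ s` for `s ≠ 1`, `Re s > -2` (`Xi_eq`, `zeta1_eq_mul` in
`Pool/Agent/PairCorr/Growth.lean`), so dividing `xi_line` by `pref (1/2+it) pref (1/2-it) ≠ 0` (`gfac_ne_zero`):
`π ζ(1/2+it) ζ(1/2-it) = ∫ ζ(1/2+it+w) ζ(1/2-it+w) rhoT t w e^{w²}/w dv`, and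
`ζ(1/2-it) = conj ζ(1/2+it)` (`riemannZeta_conj`), so the left side is `π |ζ(1/2+it)|²`.  By `exp_left`, `exp_right`
(`HasSum.unique`) the same integral with `(t/2π)^w` instead of `rhoT` is `2π ∫ gs (u - log t) TTt t ⌊..⌋`.  The
difference of the integrals: `‖ζ(5/4 + ...)‖ ≤ Z := ∑ n^(-5/4)` (`norm_zeta_le`), `rho_bound`,
`‖e^{w²}‖ = e^{9/16 - v²}`, `‖w‖ ≥ 3/4`: `≤ Z² C t^(-1/4) (4/3) e^{9/16} ∫ (1+v²) e^{C|v| - v²} dv`.
Integrability of both integrands: continuity in `v` (the denominators do not vanish; `ζ` is continuous on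
`Re s = 5/4`; for the first one it is `Xi..Xi..` times a constant) and the bounds (`rho_far`).
-/

namespace Pool.Agent.H74.ZS

open MeasureTheory Complex Pool.Agent.PairCorr Pool.Agent.PairCorr.ERV
open scoped Real ComplexConjugate

theorem norm_zeta_le : ∃ C : ℝ, 0 < C ∧ ∀ s : ℂ, s.re = 5 / 4 → ‖riemannZeta s‖ ≤ C := by
  have hsum : Summable (fun n : ℕ => 1 / ((n : ℝ) + 1) ^ (5 / 4 : ℝ)) := by
    have h1 := (summable_nat_add_iff 1).mpr (Real.summable_one_div_nat_rpow.mpr (by norm_num : (1 : ℝ) < 5 / 4))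
    simpa using h1
  have hnn : 0 ≤ ∑' n : ℕ, 1 / ((n : ℝ) + 1) ^ (5 / 4 : ℝ) := tsum_nonneg fun n => by positivity
  refine ⟨(∑' n : ℕ, 1 / ((n : ℝ) + 1) ^ (5 / 4 : ℝ)) + 1, by positivity, fun s hs => ?_⟩
  rw [zeta_eq_tsum_one_div_nat_add_one_cpow (by rw [hs]; norm_num)]
  have hn : ∀ n : ℕ, ‖1 / ((n : ℂ) + 1) ^ s‖ = 1 / ((n : ℝ) + 1) ^ (5 / 4 : ℝ) := by
    intro n
    rw [norm_div, norm_one]
    have h1 : ((n : ℂ) + 1) = (((n : ℝ) + 1 : ℝ) : ℂ) := by push_cast; rfl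
    rw [h1, Complex.norm_cpow_eq_rpow_re_of_pos (by positivity), hs]
  have hsn : Summable (fun n : ℕ => ‖1 / ((n : ℂ) + 1) ^ s‖) := by
    simp_rw [hn]
    exact hsum
  refine (norm_tsum_le_tsum_norm hsn).trans ?_
  simp_rw [hn]
  linarith

lemma afe_Xi {z : ℂ} (hz : -2 < z.re) (h1 : z ≠ 1) : ERV.Xi z = pref z * riemannZeta z := by
  rw [Xi_eq hz, zeta1_eq_mul h1]
  unfold pref
  ring

lemma afe_ne_one {z : ℂ} (h : z.re ≠ 1) : z ≠ 1 := by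
  intro h1
  apply h
  rw [h1, one_re]

lemma afe_re (t : ℝ) (v : ℝ) : (1 / 2 + t * I + (((3 / 4 : ℝ) : ℂ) + v * I)).re = 5 / 4 ∧
    (1 / 2 - t * I + (((3 / 4 : ℝ) : ℂ) + v * I)).re = 5 / 4 := by
  constructor <;> simp <;> norm_num

lemma afe_w_ne (v : ℝ) : ((3 / 4 : ℝ) : ℂ) + v * I ≠ 0 := by
  intro h
  have := congrArg Complex.re h
  simp at this

/-- the left integrand -/
noncomputable def afeF1 (t v : ℝ) : ℂ :=
  riemannZeta (1 / 2 + t * I + (((3 / 4 : ℝ) : ℂ) + v * I)) *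
    riemannZeta (1 / 2 - t * I + (((3 / 4 : ℝ) : ℂ) + v * I)) *
    rhoT t (((3 / 4 : ℝ) : ℂ) + v * I) *
    cexp ((((3 / 4 : ℝ) : ℂ) + v * I) ^ 2) / (((3 / 4 : ℝ) : ℂ) + v * I)

/-- the right integrand -/
noncomputable def afeF2 (t v : ℝ) : ℂ :=
  riemannZeta (1 / 2 + t * I + (((3 / 4 : ℝ) : ℂ) + v * I)) *
    riemannZeta (1 / 2 - t * I + (((3 / 4 : ℝ) : ℂ) + v * I)) *
    (((t / (2 * π) : ℝ) : ℂ) ^ (((3 / 4 : ℝ) : ℂ) + v * I)) *
    cexp ((((3 / 4 : ℝ) : ℂ) + v * I) ^ 2) / (((3 / 4 : ℝ) : ℂ) + v * I)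

lemma afe_pref_ne (t : ℝ) : pref (1 / 2 + t * I) * pref (1 / 2 - t * I) ≠ 0 := by
  have h1 : (1 / 2 + t * I : ℂ).re = 1 / 2 := by simp
  have h2 : (1 / 2 - t * I : ℂ).re = 1 / 2 := by simp
  refine mul_ne_zero (rhoEq_pref_ne _ ?_ (by rw [h1]; norm_num)) (rhoEq_pref_ne _ ?_ (by rw [h2]; norm_num))
  · intro h
    have := congrArg Complex.re h
    rw [sub_re, h1, one_re, zero_re] at this
    norm_num at this
  · intro h
    have := congrArg Complex.re h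
    rw [sub_re, h2, one_re, zero_re] at this
    norm_num at this

lemma afe_F1_eq (t v : ℝ) : ERV.Xi (1 / 2 + t * I + (((3 / 4 : ℝ) : ℂ) + v * I)) *
      ERV.Xi (1 / 2 - t * I + (((3 / 4 : ℝ) : ℂ) + v * I)) *
      cexp ((((3 / 4 : ℝ) : ℂ) + v * I) ^ 2) / (((3 / 4 : ℝ) : ℂ) + v * I) =
      (pref (1 / 2 + t * I) * pref (1 / 2 - t * I)) * afeF1 t v := by
  obtain ⟨h1, h2⟩ := afe_re t v
  rw [afe_Xi (by rw [h1]; norm_num) (afe_ne_one (by rw [h1]; norm_num)),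
    afe_Xi (by rw [h2]; norm_num) (afe_ne_one (by rw [h2]; norm_num))]
  have hp := afe_pref_ne t
  unfold afeF1 rhoT
  generalize (((3 / 4 : ℝ) : ℂ) + v * I) = w at *
  generalize riemannZeta (1 / 2 + t * I + w) = z1
  generalize riemannZeta (1 / 2 - t * I + w) = z2
  generalize pref (1 / 2 + t * I + w) = p1
  generalize pref (1 / 2 - t * I + w) = p2
  generalize pref (1 / 2 + t * I) * pref (1 / 2 - t * I) = p at *
  generalize cexp (w ^ 2) = e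
  field_simp

lemma afe_I1 (t : ℝ) : ∫ v : ℝ, afeF1 t v = π * (riemannZeta (1 / 2 + t * I) * riemannZeta (1 / 2 - t * I)) := by
  have h := xi_line t
  simp_rw [afe_F1_eq] at h
  rw [integral_const_mul] at h
  have h1 : (1 / 2 + t * I : ℂ).re = 1 / 2 := by simp
  have h2 : (1 / 2 - t * I : ℂ).re = 1 / 2 := by simp
  rw [afe_Xi (by rw [h1]; norm_num) (afe_ne_one (by rw [h1]; norm_num)),
    afe_Xi (by rw [h2]; norm_num) (afe_ne_one (by rw [h2]; norm_num))] at h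
  apply mul_left_cancel₀ (afe_pref_ne t)
  rw [h]
  ring

lemma afe_cont_w : Continuous (fun v : ℝ => (((3 / 4 : ℝ) : ℂ) + v * I)) := by fun_prop

lemma afe_cont1 (t : ℝ) : Continuous (afeF1 t) := by
  have h : afeF1 t = fun v : ℝ => (pref (1 / 2 + t * I) * pref (1 / 2 - t * I))⁻¹ *
      (ERV.Xi (1 / 2 + t * I + (((3 / 4 : ℝ) : ℂ) + v * I)) *
      ERV.Xi (1 / 2 - t * I + (((3 / 4 : ℝ) : ℂ) + v * I)) *
      cexp ((((3 / 4 : ℝ) : ℂ) + v * I) ^ 2) / (((3 / 4 : ℝ) : ℂ) + v * I)) := by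
    funext v
    rw [afe_F1_eq, inv_mul_cancel_left₀ (afe_pref_ne t)]
  rw [h]
  have hX := differentiable_Xi.continuous
  refine continuous_const.mul (Continuous.div ?_ (by fun_prop) afe_w_ne)
  refine Continuous.mul (Continuous.mul ?_ ?_) (by fun_prop)
  · exact hX.comp (by fun_prop)
  · exact hX.comp (by fun_prop)

lemma afe_cont2 {t : ℝ} (ht : 0 < t) : Continuous (afeF2 t) := by
  unfold afeF2
  have hz : ∀ g : ℝ → ℂ, Continuous g → (∀ v, (g v).re = 5 / 4) → Continuous (fun v => riemannZeta (g v)) := by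
    intro g hg hre
    rw [continuous_iff_continuousAt]
    intro v
    exact ContinuousAt.comp (f := g) (differentiableAt_riemannZeta
      (afe_ne_one (by rw [hre]; norm_num))).continuousAt hg.continuousAt
  refine Continuous.div ?_ (by fun_prop) afe_w_ne
  refine Continuous.mul (Continuous.mul (Continuous.mul ?_ ?_) ?_) (by fun_prop)
  · exact hz _ (by fun_prop) fun v => (afe_re t v).1
  · exact hz _ (by fun_prop) fun v => (afe_re t v).2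
  · have hne : ((t / (2 * π) : ℝ) : ℂ) ≠ 0 := by
      exact_mod_cast (by positivity : (0 : ℝ) < t / (2 * π)).ne'
    exact Continuous.const_cpow (by fun_prop) (Or.inl hne)

lemma afe_exp_norm (v : ℝ) : ‖cexp ((((3 / 4 : ℝ) : ℂ) + v * I) ^ 2)‖ = Real.exp (9 / 16 - v ^ 2) := by
  rw [Complex.norm_exp]
  congr 1
  rw [sq]
  simp
  ring

lemma afe_w_norm (v : ℝ) : 3 / 4 ≤ ‖(((3 / 4 : ℝ) : ℂ) + v * I)‖ := by
  have h := Complex.abs_re_le_norm (((3 / 4 : ℝ) : ℂ) + v * I)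
  have h1 : (((3 / 4 : ℝ) : ℂ) + v * I).re = 3 / 4 := by simp
  rw [h1, abs_of_pos (by norm_num)] at h
  exact h

lemma afe_exp_bound (C v : ℝ) : (1 + v ^ 2) * Real.exp (C * |v|) * Real.exp (9 / 16 - v ^ 2) ≤
    4 * Real.exp (C ^ 2 / 2 + 9 / 16) * Real.exp (-(1 / 4) * v ^ 2) := by
  have h1 : 1 + v ^ 2 ≤ 4 * Real.exp (v ^ 2 / 4) := by
    have := Real.add_one_le_exp (v ^ 2 / 4)
    linarith
  have h2 : C * |v| ≤ C ^ 2 / 2 + v ^ 2 / 2 := by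
    have := sq_nonneg (C - |v|)
    have h3 : |v| ^ 2 = v ^ 2 := sq_abs v
    nlinarith
  calc (1 + v ^ 2) * Real.exp (C * |v|) * Real.exp (9 / 16 - v ^ 2)
      ≤ (4 * Real.exp (v ^ 2 / 4)) * Real.exp (C ^ 2 / 2 + v ^ 2 / 2) * Real.exp (9 / 16 - v ^ 2) := by
        gcongr
    _ = 4 * Real.exp (C ^ 2 / 2 + 9 / 16) * Real.exp (-(1 / 4) * v ^ 2) := by
        rw [mul_assoc, mul_assoc, mul_assoc, ← Real.exp_add, ← Real.exp_add, ← Real.exp_add]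
        congr 2
        ring

lemma afe_bound {Z : ℝ} (hZ0 : 0 < Z) (hZ : ∀ s : ℂ, s.re = 5 / 4 → ‖riemannZeta s‖ ≤ Z) (t v : ℝ) (g : ℂ)
    (e : ℝ) (hg : ‖g‖ ≤ e) :
    ‖riemannZeta (1 / 2 + t * I + (((3 / 4 : ℝ) : ℂ) + v * I)) *
      riemannZeta (1 / 2 - t * I + (((3 / 4 : ℝ) : ℂ) + v * I)) * g *
      cexp ((((3 / 4 : ℝ) : ℂ) + v * I) ^ 2) / (((3 / 4 : ℝ) : ℂ) + v * I)‖ ≤
      Z ^ 2 * (4 / 3) * (e * Real.exp (9 / 16 - v ^ 2)) := by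
  obtain ⟨h1, h2⟩ := afe_re t v
  have hw := afe_w_norm v
  have he : 0 ≤ e := (norm_nonneg _).trans hg
  rw [norm_div, norm_mul, norm_mul, norm_mul, afe_exp_norm, div_le_iff₀ (by linarith)]
  have h3 := hZ _ h1
  have h4 := hZ _ h2
  calc _ ≤ Z * Z * e * Real.exp (9 / 16 - v ^ 2) := by gcongr
    _ = Z ^ 2 * (4 / 3) * (e * Real.exp (9 / 16 - v ^ 2)) * (3 / 4) := by ring
    _ ≤ _ := by gcongr

lemma afe_int_maj (K : ℝ) : Integrable (fun v : ℝ => K * Real.exp (-(1 / 4) * v ^ 2)) :=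
  (integrable_exp_neg_mul_sq (by norm_num : (0 : ℝ) < 1 / 4)).const_mul K

lemma afe_diff (t v : ℝ) : afeF1 t v - afeF2 t v =
    riemannZeta (1 / 2 + t * I + (((3 / 4 : ℝ) : ℂ) + v * I)) *
      riemannZeta (1 / 2 - t * I + (((3 / 4 : ℝ) : ℂ) + v * I)) *
      (rhoT t (((3 / 4 : ℝ) : ℂ) + v * I) - (((t / (2 * π) : ℝ) : ℂ) ^ (((3 / 4 : ℝ) : ℂ) + v * I))) *
      cexp ((((3 / 4 : ℝ) : ℂ) + v * I) ^ 2) / (((3 / 4 : ℝ) : ℂ) + v * I) := by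
  unfold afeF1 afeF2
  ring

lemma afe_int2 {t : ℝ} (ht : 0 < t) : Integrable (afeF2 t) := by
  obtain ⟨Z, hZ0, hZ⟩ := norm_zeta_le
  refine Integrable.mono' (afe_int_maj (Z ^ 2 * (4 / 3) * ((t / (2 * π)) ^ (3 / 4 : ℝ) * (4 * Real.exp (9 / 16)))))
    (afe_cont2 ht).aestronglyMeasurable (Filter.Eventually.of_forall fun v => ?_)
  have h1 : ‖((t / (2 * π) : ℝ) : ℂ) ^ (((3 / 4 : ℝ) : ℂ) + v * I)‖ ≤ (t / (2 * π)) ^ (3 / 4 : ℝ) := by
    rw [Complex.norm_cpow_eq_rpow_re_of_pos (by positivity)]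
    have h2 : (((3 / 4 : ℝ) : ℂ) + v * I).re = 3 / 4 := by simp
    rw [h2]
  refine (afe_bound hZ0 hZ t v _ _ h1).trans ?_
  have h3 := afe_exp_bound 0 v
  have h4 : Real.exp (9 / 16 - v ^ 2) ≤ 4 * Real.exp (9 / 16) * Real.exp (-(1 / 4) * v ^ 2) := by
    refine le_trans ?_ (h3.trans (le_of_eq (by norm_num)))
    rw [zero_mul, Real.exp_zero, mul_one]
    refine le_mul_of_one_le_left (Real.exp_pos _).le ?_
    nlinarith [sq_nonneg v]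
  calc Z ^ 2 * (4 / 3) * ((t / (2 * π)) ^ (3 / 4 : ℝ) * Real.exp (9 / 16 - v ^ 2))
      ≤ Z ^ 2 * (4 / 3) * ((t / (2 * π)) ^ (3 / 4 : ℝ) * (4 * Real.exp (9 / 16) * Real.exp (-(1 / 4) * v ^ 2))) := by
        gcongr
    _ = _ := by ring

theorem afe_close : ∃ K : ℝ, 0 < K ∧ ∀ t : ℝ, 16 ≤ t →
    ‖(∫ v : ℝ, afeF1 t v) - ∫ v : ℝ, afeF2 t v‖ ≤ K * t ^ (-(1 / 4) : ℝ) := by
  obtain ⟨Z, hZ0, hZ⟩ := norm_zeta_le
  obtain ⟨C, hC, hrho⟩ := rho_bound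
  set J := ∫ v : ℝ, Real.exp (-(1 / 4) * v ^ 2) with hJ
  have hJ0 : 0 ≤ J := integral_nonneg fun v => (Real.exp_pos _).le
  refine ⟨Z ^ 2 * (4 / 3) * (C * (4 * Real.exp (C ^ 2 / 2 + 9 / 16))) * (J + 1), by positivity, fun t ht => ?_⟩
  have ht0 : 0 < t := by linarith
  have hb : ∀ v : ℝ, ‖afeF1 t v - afeF2 t v‖ ≤
      (Z ^ 2 * (4 / 3) * (C * t ^ (-(1 / 4) : ℝ) * (4 * Real.exp (C ^ 2 / 2 + 9 / 16)))) *
        Real.exp (-(1 / 4) * v ^ 2) := by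
    intro v
    rw [afe_diff]
    refine (afe_bound hZ0 hZ t v _ _ (hrho t ht v)).trans ?_
    have h1 := afe_exp_bound C v
    calc Z ^ 2 * (4 / 3) * (C * t ^ (-(1 / 4) : ℝ) * ((1 + v ^ 2) * Real.exp (C * |v|)) * Real.exp (9 / 16 - v ^ 2))
        = Z ^ 2 * (4 / 3) * (C * t ^ (-(1 / 4) : ℝ) * ((1 + v ^ 2) * Real.exp (C * |v|) * Real.exp (9 / 16 - v ^ 2))) := by
          ring
      _ ≤ Z ^ 2 * (4 / 3) * (C * t ^ (-(1 / 4) : ℝ) *
            (4 * Real.exp (C ^ 2 / 2 + 9 / 16) * Real.exp (-(1 / 4) * v ^ 2))) := by gcongr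
      _ = _ := by ring
  have hint : Integrable (fun v => afeF1 t v - afeF2 t v) :=
    Integrable.mono' (afe_int_maj _) ((afe_cont1 t).sub (afe_cont2 ht0)).aestronglyMeasurable
      (Filter.Eventually.of_forall hb)
  have hi2 := afe_int2 ht0
  have hi1 : Integrable (afeF1 t) := by
    have := hint.add hi2
    refine this.congr (Filter.Eventually.of_forall fun v => ?_)
    simp
  rw [← integral_sub hi1 hi2]
  refine (norm_integral_le_of_norm_le (afe_int_maj _) (Filter.Eventually.of_forall hb)).trans ?_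
  rw [integral_const_mul, ← hJ]
  have hp : 0 ≤ t ^ (-(1 / 4) : ℝ) := by positivity
  calc Z ^ 2 * (4 / 3) * (C * t ^ (-(1 / 4) : ℝ) * (4 * Real.exp (C ^ 2 / 2 + 9 / 16))) * J
      = (Z ^ 2 * (4 / 3) * (C * (4 * Real.exp (C ^ 2 / 2 + 9 / 16))) * J) * t ^ (-(1 / 4) : ℝ) := by ring
    _ ≤ (Z ^ 2 * (4 / 3) * (C * (4 * Real.exp (C ^ 2 / 2 + 9 / 16))) * (J + 1)) * t ^ (-(1 / 4) : ℝ) := by
        gcongr
        linarith

theorem zs_afe : ∃ C : ℝ, 0 < C ∧ ∀ t : ℝ, 16 ≤ t →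
    ‖((‖riemannZeta (1 / 2 + t * I)‖ ^ 2 : ℝ) : ℂ) -
      2 * ∫ u : ℝ, ((gs (u - Real.log t) : ℝ) : ℂ) * TTt t ⌊Real.exp u / (2 * π)⌋₊‖ ≤
      C * t ^ (-(1 / 4) : ℝ) := by
  obtain ⟨K, hK, hclose⟩ := afe_close
  refine ⟨K / π, by positivity, fun t ht => ?_⟩
  have h1 := hclose t ht
  have hI2 : ∫ v : ℝ, afeF2 t v =
      2 * π * ∫ u : ℝ, ((gs (u - Real.log t) : ℝ) : ℂ) * TTt t ⌊Real.exp u / (2 * π)⌋₊ :=
    (exp_left t (by linarith)).unique (exp_right t (by linarith))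
  have hconj : riemannZeta (1 / 2 - t * I) = conj (riemannZeta (1 / 2 + t * I)) := by
    rw [← riemannZeta_conj]
    congr 1
    apply Complex.ext <;> simp
  rw [afe_I1, hI2, hconj] at h1
  have hz : riemannZeta (1 / 2 + t * I) * conj (riemannZeta (1 / 2 + t * I)) =
      ((‖riemannZeta (1 / 2 + t * I)‖ ^ 2 : ℝ) : ℂ) := by
    rw [Complex.mul_conj, Complex.normSq_eq_norm_sq]
  rw [hz] at h1
  set J := ∫ u : ℝ, ((gs (u - Real.log t) : ℝ) : ℂ) * TTt t ⌊Real.exp u / (2 * π)⌋₊ with hJ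
  set z : ℂ := ((‖riemannZeta (1 / 2 + t * I)‖ ^ 2 : ℝ) : ℂ) with hzdef
  have h2 : (π : ℂ) * z - 2 * π * J = π * (z - 2 * J) := by ring
  rw [h2, norm_mul, Complex.norm_real, Real.norm_of_nonneg Real.pi_pos.le] at h1
  rw [div_mul_eq_mul_div, le_div_iff₀ Real.pi_pos]
  linarith

end Pool.Agent.H74.ZS
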