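import Pool.Agent.H74.ZS.Defs
import Pool.Agent.H74.TS.Param
import Pool.Agent.H14.PT.S2b

/-!
# Parameters: the constant of a separated set, the size condition, the mollifier
-/

namespace Pool.Agent.H74.ZS

open Finset Pool.Agent.H14.PT Pool.Agent.H74.TS Pool.Agent.H74.PZ
open scoped ComplexConjugate

/-- the constant attached to a separated set of diameter at most `T` -/
noncomputable def hG (T : ℝ) (A : Finset ℝ) : ℝ := 2400 * T * Real.log T / A.card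

/-- the condition on the two sets -/
structure CdT (ε T : ℝ) (A B : Finset ℝ) : Prop where
  neA : A.Nonempty
  neB : B.Nonempty
  sepA : SepR A
  sepB : SepR B
  bdA : ∀ a ∈ A, |a| ≤ 2 * T
  bdB : ∀ b ∈ B, |b| ≤ 2 * T
  sum : ∀ a ∈ A, ∀ b ∈ B, T ≤ a + b ∧ a + b ≤ 2 * T
  size : Real.log (hG T A) + 2 * Real.log (hG T B) ≤ (1 - ε) * Real.log T

/-- the mollifier with the parameters -/
noncomputable def Mz (ε : ℝ) (Z : ℕ) (T t : ℝ) : ℂ :=
  Mt (MfS (tz Z (Real.log T)) (ty ε (Real.log T)) (ty ε (Real.log T)))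
    (wS (tz Z (Real.log T)) (ty ε (Real.log T)) (ty ε (Real.log T))) t

lemma norm_Mt_le (Mf : Finset ℕ) (w : ℕ → ℝ) (t : ℝ) {Y : ℕ}
    (hM : ∀ m ∈ Mf, 1 ≤ m ∧ m ≤ Y) (hw : ∀ m, |w m| ≤ 1) : ‖Mt Mf w t‖ ≤ Y := by
  unfold Mt
  refine (norm_sum_le _ _).trans ?_
  have h1 : ∀ m ∈ Mf, ‖((w m * (m : ℝ) ^ (-(1 / 2) : ℝ) : ℝ) : ℂ) * nt t m‖ ≤ 1 := by
    intro m hm
    rw [norm_mul, Complex.norm_real, Real.norm_eq_abs, abs_mul, norm_nt, mul_one,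
      abs_of_nonneg (by positivity : (0 : ℝ) ≤ (m : ℝ) ^ (-(1 / 2) : ℝ))]
    have h2 : (m : ℝ) ^ (-(1 / 2) : ℝ) ≤ 1 :=
      Real.rpow_le_one_of_one_le_of_nonpos (by exact_mod_cast (hM m hm).1) (by norm_num)
    calc |w m| * (m : ℝ) ^ (-(1 / 2) : ℝ) ≤ 1 * 1 := by
          gcongr
          exact hw m
      _ = 1 := by norm_num
  refine (Finset.sum_le_sum h1).trans ?_
  rw [Finset.sum_const, nsmul_eq_mul, mul_one]
  have h3 : Mf ⊆ Icc 1 Y := fun m hm => Finset.mem_Icc.mpr (hM m hm)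
  have h4 := Finset.card_le_card h3
  rw [Nat.card_Icc] at h4
  exact_mod_cast (by omega : Mf.card ≤ Y)

lemma norm_TTt_term (t : ℝ) (n : ℕ × ℕ) : ‖nt t n.1 * conj (nt t n.2) *
    (((((n.1 * n.2 : ℕ) : ℝ)) ^ (-(1 / 2) : ℝ) : ℝ) : ℂ)‖ =
      (((n.1 * n.2 : ℕ) : ℝ)) ^ (-(1 / 2) : ℝ) := by
  rw [norm_mul, norm_mul, RCLike.norm_conj, norm_nt, norm_nt, Complex.norm_real,
    Real.norm_of_nonneg (by positivity)]
  ring

lemma norm_TTt_le (t : ℝ) (N : ℕ) : ‖TTt t N‖ ≤ (N : ℝ) ^ 2 := by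
  unfold TTt
  refine (norm_sum_le _ _).trans ?_
  have h1 : ∀ n ∈ hyp N, ‖nt t n.1 * conj (nt t n.2) *
      (((((n.1 * n.2 : ℕ) : ℝ)) ^ (-(1 / 2) : ℝ) : ℝ) : ℂ)‖ ≤ 1 := by
    intro n hn
    rw [norm_TTt_term]
    obtain ⟨h1, h2, _⟩ := mem_hyp.mp hn
    apply Real.rpow_le_one_of_one_le_of_nonpos _ (by norm_num)
    exact_mod_cast Nat.mul_pos h1 h2
  refine (Finset.sum_le_sum h1).trans ?_
  rw [Finset.sum_const, nsmul_eq_mul, mul_one]
  have : (hyp N).card ≤ N * N := by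
    unfold hyp
    refine (Finset.card_filter_le _ _).trans ?_
    rw [Finset.card_product, Nat.card_Icc]
    simp
  calc ((hyp N).card : ℝ) ≤ ((N * N : ℕ) : ℝ) := by exact_mod_cast this
    _ = (N : ℝ) ^ 2 := by push_cast; ring

lemma TTt_zero (t : ℝ) : TTt t 0 = 0 := by
  unfold TTt hyp
  simp

/-- size of the mollifier -/
lemma norm_Mz_le {ε T : ℝ} {Z : ℕ} (hB : Bg ε Z (Real.log T)) (t : ℝ) :
    ‖Mz ε Z T t‖ ≤ Real.exp (ε / 500 * Real.log T) := by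
  unfold Mz
  refine (norm_Mt_le _ _ t (Y := ty ε (Real.log T) * ty ε (Real.log T))
    (fun m hm => MfS_bounds hm) (fun m => abs_wS_le hB.Y_two m)).trans ?_
  have h1 := hB.Y_hi
  push_cast
  calc (ty ε (Real.log T) : ℝ) * ty ε (Real.log T)
      ≤ Real.exp (ε / 1000 * Real.log T) * Real.exp (ε / 1000 * Real.log T) := by gcongr
    _ = _ := by rw [← Real.exp_add]; congr 1; ring

end Pool.Agent.H74.ZS
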