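import Pool.Agent.H74.ZS.Large
import Pool.Agent.H14.PT.Dyad

/-!
# Sum over the fractions, large regime

This is `sum_large` of `Pool/Agent/H14/PT/Dyad.lean`: copy the proof, with `P.card` replaced by
`∑ p ∈ P, ww v1 v2 p` and `box_large` by `wbox_large ε (ε3 / 2)`.  The function to be summed is
`f p = ww v1 v2 p * (ab)^(-1/2)`, and on the block `blk P i j`,
`∑ f ≤ (2^i 2^j)^(-1/2) ∑ ww v1 v2 p`.  The block condition becomes
`log (2^i 2^j) ≤ (1 + ε/20) log q ≤ (1 + ε/10) log q`; for `blocks_bound` use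
`q^(1+ε/20) ≤ q^1.05`.
-/

namespace Pool.Agent.H74.ZS

open Finset Pool.Agent.H14.PT Pool.Agent.H74.TS

/-- reduced fractions with non-zero numerator and denominator -/
def Red (p : ℕ × ℕ) : Prop := Nat.Coprime p.1 p.2 ∧ p.1 ≠ 0 ∧ p.2 ≠ 0

lemma blk_IB {P : Finset (ℕ × ℕ)} (hP : ∀ p ∈ P, Red p) (i j : ℕ) :
    ∀ p ∈ blk P i j, IB (2 ^ i) (2 ^ j) p := by
  intro p hp
  obtain ⟨hpP, ⟨h1, h2⟩, h3, h4⟩ := Finset.mem_filter.mp hp
  obtain ⟨a1, a2, a3⟩ := hP p hpP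
  refine ⟨a1, a2, a3, ?_, ?_, ?_⟩
  · have : p.1 ≤ 2 * 2 ^ i := by rw [pow_succ] at h2; omega
    exact_mod_cast this
  · exact_mod_cast h3
  · have : p.2 ≤ 2 * 2 ^ j := by rw [pow_succ] at h4; omega
    exact_mod_cast this

theorem wsum_large (ε ε3 : ℝ) (hε : 0 < ε) (hε3 : 0 < ε3) (hε1 : ε ≤ 1 / 10) (hε31 : ε3 ≤ 1 / 10) :
    ∃ c : ℝ, 0 < c ∧ ∃ Q0 : ℝ, ∀ (q : ℝ), Q0 ≤ Real.log q →
      ∀ (h1 h2 : ℝ) (v1 v2 : ℕ × ℕ → ℝ), KG q h1 v1 → KG q h2 v2 →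
      Real.log h1 + 2 * Real.log h2 ≤ (1 - ε) * Real.log q →
      ∀ (P : Finset (ℕ × ℕ)),
      (∀ p ∈ P, Red p ∧ q ^ ε3 ≤ ((p.1 * p.2 : ℕ) : ℝ) ∧
        ((p.1 * p.2 : ℕ) : ℝ) ≤ q ^ (1 + ε / 20)) →
      ∑ p ∈ P, ww v1 v2 p * (((p.1 * p.2 : ℕ) : ℝ)) ^ (-(1 / 2) : ℝ) ≤ q ^ (-c) := by
  obtain ⟨c, hc, hc1, Q0, hbox⟩ := wbox_large ε (ε3 / 2) hε (by positivity) hε1 (by linarith)
  obtain ⟨Q1, hQ11, hQ1⟩ := poly_le_exp 2 9 (c / 2) (by positivity)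
  refine ⟨c / 2, by positivity, max (max Q0 Q1) (max 2 (2 * Real.log 4 / ε3)), ?_⟩
  intro q hq h1 h2 v1 v2 hv1 hv2 hH P hP
  set L := Real.log q with hL
  have hLQ0 : Q0 ≤ L := (le_max_left _ _).trans ((le_max_left _ _).trans hq)
  have hLQ1 : Q1 ≤ L := (le_max_right _ _).trans ((le_max_left _ _).trans hq)
  have hL2 : 2 ≤ L := (le_max_left _ _).trans ((le_max_right _ _).trans hq)
  have hL4 : 2 * Real.log 4 / ε3 ≤ L := (le_max_right _ _).trans ((le_max_right _ _).trans hq)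
  have hqpos : (0 : ℝ) < q := hv1.qpos
  have hqexp : ∀ r : ℝ, q ^ r = Real.exp (r * L) := fun r => by
    rw [Real.rpow_def_of_pos hqpos, mul_comm]
  obtain ⟨M, hM3, hM⟩ := blocks_bound L hL2
  have hsum := dyadic_sum P (fun p hp => ⟨(hP p hp).1.2.1, (hP p hp).1.2.2⟩)
    (fun p => ww v1 v2 p * (((p.1 * p.2 : ℕ) : ℝ)) ^ (-(1 / 2) : ℝ)) M ?_ (q ^ (-c)) ?_
  · refine hsum.trans ?_
    have h1 : (M : ℝ) ^ 2 ≤ 9 * L ^ 2 := by
      have : (0 : ℝ) ≤ M := by positivity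
      nlinarith
    have h2 := hQ1 L hLQ1
    rw [hqexp, hqexp]
    calc (M : ℝ) ^ 2 * Real.exp (-c * L) ≤ Real.exp (c / 2 * L) * Real.exp (-c * L) := by
          gcongr; linarith
      _ = Real.exp (-(c / 2) * L) := by rw [← Real.exp_add]; congr 1; ring
  · intro p hp
    obtain ⟨⟨_, h1, h2⟩, _, h4⟩ := hP p hp
    rw [hqexp] at h4
    have h4' : ((p.1 * p.2 : ℕ) : ℝ) ≤ Real.exp (1.05 * L) := by
      refine h4.trans (Real.exp_le_exp.mpr ?_)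
      have : 1 + ε / 20 ≤ 1.05 := by norm_num; linarith
      nlinarith
    have h5 : ((p.1 : ℕ) : ℝ) ≤ ((p.1 * p.2 : ℕ) : ℝ) := by
      exact_mod_cast Nat.le_mul_of_pos_right _ (Nat.pos_of_ne_zero h2)
    have h6 : ((p.2 : ℕ) : ℝ) ≤ ((p.1 * p.2 : ℕ) : ℝ) := by
      exact_mod_cast Nat.le_mul_of_pos_left _ (Nat.pos_of_ne_zero h1)
    exact ⟨hM _ (h5.trans h4'), hM _ (h6.trans h4')⟩
  · intro i j
    change ∑ p ∈ blk P i j, _ ≤ _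
    rcases (blk P i j).eq_empty_or_nonempty with he | ⟨p0, hp0⟩
    · rw [he, Finset.sum_empty]; positivity
    have hAB : (0 : ℝ) < 2 ^ i * 2 ^ j := by positivity
    obtain ⟨b1, b2⟩ := blk_prod_bounds hp0
    obtain ⟨_, c2, c3⟩ := hP p0 (Finset.mem_filter.mp hp0).1
    have hlow : ε3 / 2 * L ≤ Real.log ((2 : ℝ) ^ i * 2 ^ j) := by
      have e1 : q ^ ε3 ≤ 4 * (2 ^ i * 2 ^ j) := c2.trans b2
      have e2 := Real.log_le_log (by positivity) e1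
      rw [Real.log_rpow hqpos, Real.log_mul (x := 4) (by norm_num) hAB.ne'] at e2
      have e3 : Real.log 4 ≤ ε3 / 2 * L := by
        rw [div_le_iff₀ hε3] at hL4
        linarith
      linarith
    have hup : Real.log ((2 : ℝ) ^ i * 2 ^ j) ≤ (1 + ε / 10) * L := by
      have e2 := Real.log_le_log hAB (b1.trans c3)
      rw [Real.log_rpow hqpos] at e2
      have : 0 ≤ ε * L := by positivity
      nlinarith
    have hcard := hbox q hLQ0 h1 h2 v1 v2 hv1 hv2 hH (blk P i j) (2 ^ i) (2 ^ j)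
      (one_le_pow₀ (by norm_num)) (one_le_pow₀ (by norm_num)) hlow hup
      (blk_IB (fun p hp => (hP p hp).1) i j)
    calc ∑ p ∈ blk P i j, ww v1 v2 p * (((p.1 * p.2 : ℕ) : ℝ)) ^ (-(1 / 2) : ℝ)
        ≤ ∑ p ∈ blk P i j, ww v1 v2 p * ((2 : ℝ) ^ i * 2 ^ j) ^ (-(1 / 2) : ℝ) := by
          refine Finset.sum_le_sum fun p hp => ?_
          exact mul_le_mul_of_nonneg_left
            (Real.rpow_le_rpow_of_nonpos hAB (blk_prod_bounds hp).1 (by norm_num))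
            (ww_nonneg v1 v2 p)
      _ = (∑ p ∈ blk P i j, ww v1 v2 p) * ((2 : ℝ) ^ i * 2 ^ j) ^ (-(1 / 2) : ℝ) := by
          rw [Finset.sum_mul]
      _ ≤ (((2 : ℝ) ^ i * 2 ^ j) ^ (1 / 2 : ℝ) * q ^ (-c)) * ((2 : ℝ) ^ i * 2 ^ j) ^ (-(1 / 2) : ℝ) := by
          gcongr
      _ = q ^ (-c) * (((2 : ℝ) ^ i * 2 ^ j) ^ (1 / 2 : ℝ) * ((2 : ℝ) ^ i * 2 ^ j) ^ (-(1 / 2) : ℝ)) := by
          ring
      _ = q ^ (-c) := by
          rw [← Real.rpow_add hAB]; norm_num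

end Pool.Agent.H74.ZS
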