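import Pool.Agent.H74.ZS.Rough
import Pool.Agent.H74.ZS.SumL

/-!
# Sums over the fractions, rough regime, and over small primes

`tau_few'`: as `tau_few` (`H14/PT/Dyad.lean`): `τ(n) ≤ 2^Ω(n) ≤ 2 * 2^(log n / log z)` and
`log 2 * (log n / log z) ≤ (ε/100) log n`.

`wsum_rough` is `sum_rough` of `Pool/Agent/H14/PT/Dyad.lean`: copy the proof, with `P.card` replaced
by `∑ p ∈ P, ww v1 v2 p`, `box_rough` by `wbox_rough` and the exponents changed.  On a block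
`blk P i j`, with `X = 2^i 2^j ≥ z / 4`:
`∑ ww τ(ab) (ab)^(-1/2) ≤ (2 L (8X)^(1/2 - ε/8)) * 2 X^(-1/2 + ε/100)
≤ 4 L * 8^(1/2) * X^(-ε/9) ≤ 12 L * (z/4)^(-ε/9) ≤ 24 L z^(-ε/9)`, and there are
`M^2 ≤ 9 L^2` blocks: total `≤ 216 L^3 z^(-ε/9) ≤ 300 L^3 z^(-ε/16)` (`z ≥ 1`).
-/

namespace Pool.Agent.H74.ZS

open Finset Pool.Agent.H14.PT Pool.Agent.H74.TS
open scoped ArithmeticFunction.Omega

theorem tau_few' {z ε : ℝ} (hε : 0 < ε) (hz : 100 / ε ≤ Real.log z) {n : ℕ} (hn : n ≠ 0)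
    (h : Few z n) : (n.divisors.card : ℝ) ≤ 2 * (n : ℝ) ^ (ε / 100) := by
  have hn0 : (0 : ℝ) < n := by exact_mod_cast Nat.pos_of_ne_zero hn
  have hn1 : (1 : ℝ) ≤ n := by exact_mod_cast Nat.one_le_iff_ne_zero.mpr hn
  have hlog : 0 ≤ Real.log n := Real.log_nonneg hn1
  have hz0 : 0 < Real.log z := lt_of_lt_of_le (by positivity) hz
  have h1 : (n.divisors.card : ℝ) ≤ (2 : ℝ) ^ (Ω n) := by exact_mod_cast tau_le_two_pow_Omega n hn
  have h2 : (2 : ℝ) ^ (Ω n) ≤ (2 : ℝ) ^ (1 + Real.log n / Real.log z) := by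
    rw [← Real.rpow_natCast]
    exact Real.rpow_le_rpow_of_exponent_le (by norm_num) h
  refine h1.trans (h2.trans ?_)
  rw [Real.rpow_add (by norm_num), Real.rpow_one]
  refine mul_le_mul_of_nonneg_left ?_ (by norm_num)
  rw [Real.rpow_def_of_pos (by norm_num), Real.rpow_def_of_pos hn0]
  apply Real.exp_le_exp.mpr
  have hl2 : Real.log 2 ≤ 1 := by have := Real.log_two_lt_d9; linarith
  have hl20 : 0 ≤ Real.log 2 := Real.log_nonneg (by norm_num)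
  have h3 : Real.log n / Real.log z ≤ Real.log n * (ε / 100) := by
    rw [div_le_iff₀ hz0, mul_assoc]
    refine le_mul_of_one_le_right hlog ?_
    have h5 := mul_le_mul_of_nonneg_left hz (show (0 : ℝ) ≤ ε / 100 by positivity)
    have h6 : ε / 100 * (100 / ε) = 1 := by field_simp
    linarith
  have h4 : 0 ≤ Real.log n / Real.log z := div_nonneg hlog hz0.le
  nlinarith

theorem wsum_rough {q : ℝ} {h1 h2 : ℝ} {v1 v2 : ℕ × ℕ → ℝ} (hv1 : KG q h1 v1)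
    (hv2 : KG q h2 v2) {ε : ℝ} (hε : 0 < ε) (hε1 : ε ≤ 1 / 10) (P : Finset (ℕ × ℕ))
    (z : ℝ) (hz0 : 0 < z) (hz : 100 / ε ≤ Real.log z) (hL : 2 ≤ Real.log q)
    (hzL : (100 / ε) * Real.log (Real.log q) ≤ Real.log z)
    (hd : Real.log (2 * Real.sqrt (h1 * h2)) ≤ (1 / 2 - ε / 4) * Real.log q)
    (hP : ∀ p ∈ P, Red p ∧ z ≤ ((p.1 * p.2 : ℕ) : ℝ) ∧
      (100 / ε) * Real.log (8 * ((p.1 * p.2 : ℕ) : ℝ)) ≤ Real.log q ∧ Few z (p.1 * p.2)) :
    ∑ p ∈ P, ww v1 v2 p *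
      (((p.1 * p.2).divisors.card : ℝ) * (((p.1 * p.2 : ℕ) : ℝ)) ^ (-(1 / 2) : ℝ)) ≤
      300 * (Real.log q) ^ 3 * z ^ (-(ε / 16)) := by
  set L := Real.log q with hLdef
  have hε100 : 1 ≤ 100 / ε := by
    rw [le_div_iff₀ hε]
    linarith
  obtain ⟨M, hM3, hM⟩ := blocks_bound L hL
  have hM' : ∀ n : ℕ, n ≠ 0 → (100 / ε) * Real.log (8 * (n : ℝ)) ≤ L → n < 2 ^ M := by
    intro n hn h
    have hn0 : (0 : ℝ) < n := by exact_mod_cast Nat.pos_of_ne_zero hn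
    have hn1 : (1 : ℝ) ≤ n := by exact_mod_cast Nat.one_le_iff_ne_zero.mpr hn
    apply hM
    have h1 : Real.log n ≤ 1.05 * L := by
      have h8 : 0 < Real.log 8 := Real.log_pos (by norm_num)
      have hln : 0 ≤ Real.log n := Real.log_nonneg hn1
      have h9 : Real.log (8 * (n : ℝ)) = Real.log 8 + Real.log n :=
        Real.log_mul (by norm_num) hn0.ne'
      have h10 : Real.log (8 * (n : ℝ)) ≤ (100 / ε) * Real.log (8 * (n : ℝ)) := by
        refine le_mul_of_one_le_left ?_ hε100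
        rw [h9]; positivity
      linarith
    calc (n : ℝ) = Real.exp (Real.log n) := (Real.exp_log hn0).symm
      _ ≤ _ := Real.exp_le_exp.mpr h1
  have hsum := dyadic_sum P (fun p hp => ⟨(hP p hp).1.2.1, (hP p hp).1.2.2⟩)
    (fun p => ww v1 v2 p *
      (((p.1 * p.2).divisors.card : ℝ) * (((p.1 * p.2 : ℕ) : ℝ)) ^ (-(1 / 2) : ℝ))) M ?_
    (24 * L * z ^ (-(ε / 16))) ?_
  · refine hsum.trans ?_
    have h1 : (M : ℝ) ^ 2 ≤ 9 * L ^ 2 := by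
      have : (0 : ℝ) ≤ M := by positivity
      nlinarith
    have hz1 : 0 ≤ z ^ (-(ε / 16)) := by positivity
    calc (M : ℝ) ^ 2 * (24 * L * z ^ (-(ε / 16))) ≤ (9 * L ^ 2) * (24 * L * z ^ (-(ε / 16))) := by
          gcongr
      _ ≤ 300 * L ^ 3 * z ^ (-(ε / 16)) := by
          have : 0 ≤ L ^ 3 * z ^ (-(ε / 16)) := by positivity
          nlinarith
  · intro p hp
    obtain ⟨⟨_, h1, h2⟩, _, h4, _⟩ := hP p hp
    have h5 : p.1 ≤ p.1 * p.2 := Nat.le_mul_of_pos_right _ (Nat.pos_of_ne_zero h2)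
    have h6 : p.2 ≤ p.1 * p.2 := Nat.le_mul_of_pos_left _ (Nat.pos_of_ne_zero h1)
    have h7 := hM' _ (Nat.mul_ne_zero h1 h2) h4
    exact ⟨h5.trans_lt h7, h6.trans_lt h7⟩
  · intro i j
    change ∑ p ∈ blk P i j, _ ≤ _
    rcases (blk P i j).eq_empty_or_nonempty with he | ⟨p0, hp0⟩
    · rw [he, Finset.sum_empty]; positivity
    have hAB : (0 : ℝ) < 2 ^ i * 2 ^ j := by positivity
    have hAB1 : (1 : ℝ) ≤ 2 ^ i * 2 ^ j := by
      have e1 : (1 : ℝ) ≤ 2 ^ i := one_le_pow₀ (by norm_num)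
      have e2 : (1 : ℝ) ≤ 2 ^ j := one_le_pow₀ (by norm_num)
      nlinarith
    obtain ⟨b1, b2⟩ := blk_prod_bounds hp0
    obtain ⟨_, c2, c3, _⟩ := hP p0 (Finset.mem_filter.mp hp0).1
    have hup : (100 / ε) * Real.log (8 * 2 ^ i * 2 ^ j) ≤ L := by
      refine le_trans ?_ c3
      rw [mul_assoc]
      have := Real.log_le_log (show (0 : ℝ) < 8 * (2 ^ i * 2 ^ j) by positivity)
        (mul_le_mul_of_nonneg_left b1 (by norm_num : (0 : ℝ) ≤ 8))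
      exact mul_le_mul_of_nonneg_left this (by positivity)
    have hcard := wbox_rough hv1 hv2 hε hε1 (blk P i j) (2 ^ i) (2 ^ j) (one_le_pow₀ (by norm_num))
      (one_le_pow₀ (by norm_num)) z hz (by linarith) hzL hup hd
      (blk_IB (fun p hp => (hP p hp).1) i j)
      (fun p hp => (hP p (Finset.mem_filter.mp hp).1).2.2.2)
    rw [← hLdef] at hcard
    have hterm : ∀ p ∈ blk P i j,
        ww v1 v2 p *
          (((p.1 * p.2).divisors.card : ℝ) * (((p.1 * p.2 : ℕ) : ℝ)) ^ (-(1 / 2) : ℝ)) ≤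
          ww v1 v2 p * (2 * ((2 : ℝ) ^ i * 2 ^ j) ^ (-(1 / 2) + ε / 100)) := by
      intro p hp
      refine mul_le_mul_of_nonneg_left ?_ (ww_nonneg v1 v2 p)
      obtain ⟨⟨_, h1, h2⟩, _, _, h4⟩ := hP p (Finset.mem_filter.mp hp).1
      have hn := Nat.mul_ne_zero h1 h2
      have hn0 : (0 : ℝ) < ((p.1 * p.2 : ℕ) : ℝ) := by exact_mod_cast Nat.pos_of_ne_zero hn
      have h5 := tau_few' hε hz hn h4
      calc _ ≤ (2 * (((p.1 * p.2 : ℕ) : ℝ)) ^ (ε / 100)) * (((p.1 * p.2 : ℕ) : ℝ)) ^ (-(1 / 2) : ℝ) := by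
            gcongr
        _ = 2 * (((p.1 * p.2 : ℕ) : ℝ)) ^ (-(1 / 2) + ε / 100) := by
            rw [mul_assoc, ← Real.rpow_add hn0, add_comm (ε / 100)]
        _ ≤ _ := mul_le_mul_of_nonneg_left
            (Real.rpow_le_rpow_of_nonpos hAB (blk_prod_bounds hp).1 (by linarith)) (by norm_num)
    have h8 : (8 : ℝ) ^ (1 / 2 - ε / 8) ≤ 3 := by
      calc (8 : ℝ) ^ (1 / 2 - ε / 8) ≤ (8 : ℝ) ^ (1 / 2 : ℝ) :=
            Real.rpow_le_rpow_of_exponent_le (by norm_num) (by linarith)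
        _ ≤ (9 : ℝ) ^ (1 / 2 : ℝ) := Real.rpow_le_rpow (by norm_num) (by norm_num) (by norm_num)
        _ = 3 := by
            rw [show (9 : ℝ) = 3 ^ (2 : ℝ) by norm_num, ← Real.rpow_mul (by norm_num)]
            norm_num
    have h4 : (z / 4) ^ (-(ε / 16)) ≤ 2 * z ^ (-(ε / 16)) := by
      rw [Real.div_rpow hz0.le (by norm_num), div_eq_mul_inv, ← Real.rpow_neg (by norm_num), neg_neg,
        mul_comm]
      gcongr
      calc (4 : ℝ) ^ (ε / 16) ≤ (4 : ℝ) ^ (1 / 2 : ℝ) :=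
            Real.rpow_le_rpow_of_exponent_le (by norm_num) (by linarith)
        _ = 2 := by
            rw [show (4 : ℝ) = 2 ^ (2 : ℝ) by norm_num, ← Real.rpow_mul (by norm_num)]
            norm_num
    have h5 : ((2 : ℝ) ^ i * 2 ^ j) ^ (-(ε / 16)) ≤ (z / 4) ^ (-(ε / 16)) := by
      refine Real.rpow_le_rpow_of_nonpos (by positivity) ?_ (by linarith)
      have := c2.trans b2
      linarith
    have h6 : ((2 : ℝ) ^ i * 2 ^ j) ^ (-(ε / 8) + ε / 100) ≤ ((2 : ℝ) ^ i * 2 ^ j) ^ (-(ε / 16)) :=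
      Real.rpow_le_rpow_of_exponent_le hAB1 (by linarith)
    calc ∑ p ∈ blk P i j, ww v1 v2 p *
          (((p.1 * p.2).divisors.card : ℝ) * (((p.1 * p.2 : ℕ) : ℝ)) ^ (-(1 / 2) : ℝ))
        ≤ ∑ p ∈ blk P i j, ww v1 v2 p * (2 * ((2 : ℝ) ^ i * 2 ^ j) ^ (-(1 / 2) + ε / 100)) :=
          Finset.sum_le_sum hterm
      _ = (∑ p ∈ blk P i j, ww v1 v2 p) * (2 * ((2 : ℝ) ^ i * 2 ^ j) ^ (-(1 / 2) + ε / 100)) := by
          rw [Finset.sum_mul]
      _ ≤ (2 * L * (8 * 2 ^ i * 2 ^ j) ^ (1 / 2 - ε / 8)) *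
            (2 * ((2 : ℝ) ^ i * 2 ^ j) ^ (-(1 / 2) + ε / 100)) := by
          gcongr
      _ = 4 * L * (8 : ℝ) ^ (1 / 2 - ε / 8) * (((2 : ℝ) ^ i * 2 ^ j) ^ (1 / 2 - ε / 8) *
            ((2 : ℝ) ^ i * 2 ^ j) ^ (-(1 / 2) + ε / 100)) := by
          rw [mul_assoc (8 : ℝ), Real.mul_rpow (x := 8) (by norm_num) hAB.le]
          ring
      _ = 4 * L * (8 : ℝ) ^ (1 / 2 - ε / 8) * ((2 : ℝ) ^ i * 2 ^ j) ^ (-(ε / 8) + ε / 100) := by
          rw [← Real.rpow_add hAB]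
          congr 2
          ring
      _ ≤ 4 * L * 3 * (2 * z ^ (-(ε / 16))) := by
          have := h6.trans (h5.trans h4)
          gcongr
      _ = 24 * L * z ^ (-(ε / 16)) := by ring

end Pool.Agent.H74.ZS
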