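import Pool.Agent.H74.ZS.Pt
import Pool.Agent.H74.ZS.Afe

/-!
# The mollified second moment

`wS2_t`.  With `t = x.1 + x.2 ∈ [T, 2T]`, `T ≥ 16`: by `zs_afe`
`∑_x ‖Mz‖² ‖ζ‖² ≤ ‖∑_x ‖Mz‖² · 2 ∫ gs (u - log t) TTt t ⌊..⌋ du‖ + ∑_x ‖Mz‖² C t^(-1/4)`
`= 2 ‖∫ (∑_x gs (u - log t) ‖Mz‖² TTt ..) du‖ + ...` (finite sum and integral, `exp_right_integrable`)
`≤ 2 C' X ∫ exp (-(u - L)²/32) du + X exp (ε/250 L) C T^(-1/4)` (`MeasureTheory.norm_integral_le_of_norm_le`, `zs_point`,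
`norm_Mz_le`, `T^(-1/4) = exp (-L/4)`, `ε/250 ≤ 1/4`), `X = |A||B|`, `∫ exp (-(u-L)²/32) du = √(32π) ≤ 11`.
-/

namespace Pool.Agent.H74.ZS

open Finset MeasureTheory Complex Pool.Agent.H14.PT Pool.Agent.H74.TS
open scoped Real

lemma secT_gauss_eq (L : ℝ) : (fun u : ℝ => Real.exp (-(u - L) ^ 2 / 32)) =
    fun u : ℝ => (fun v : ℝ => Real.exp (-(1 / 32) * v ^ 2)) (u - L) := by
  funext u
  simp only
  congr 1
  ring

lemma secT_gauss_int (L : ℝ) : Integrable (fun u : ℝ => Real.exp (-(u - L) ^ 2 / 32)) := by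
  rw [secT_gauss_eq]
  exact (integrable_exp_neg_mul_sq (by norm_num : (0 : ℝ) < 1 / 32)).comp_sub_right L

lemma secT_gauss_val (L : ℝ) : ∫ u : ℝ, Real.exp (-(u - L) ^ 2 / 32) ≤ 11 := by
  rw [secT_gauss_eq, integral_sub_right_eq_self (fun v : ℝ => Real.exp (-(1 / 32) * v ^ 2)) L,
    integral_gaussian]
  rw [Real.sqrt_le_left (by norm_num)]
  have := Real.pi_lt_d2
  rw [div_le_iff₀ (by norm_num)]
  linarith

lemma secT_sum {ι : Type*} (s : Finset ι) (m z : ι → ℝ) (J : ι → ℂ) (e : ι → ℝ)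
    (hm : ∀ x ∈ s, 0 ≤ m x) (hz : ∀ x ∈ s, 0 ≤ z x) (h : ∀ x ∈ s, ‖((z x : ℝ) : ℂ) - 2 * J x‖ ≤ e x) :
    ∑ x ∈ s, m x * z x ≤ 2 * ‖∑ x ∈ s, ((m x : ℝ) : ℂ) * J x‖ + ∑ x ∈ s, m x * e x := by
  have h1 : ∑ x ∈ s, m x * z x = ‖((∑ x ∈ s, m x * z x : ℝ) : ℂ)‖ := by
    rw [Complex.norm_real, Real.norm_of_nonneg]
    exact Finset.sum_nonneg fun x hx => mul_nonneg (hm x hx) (hz x hx)
  have h2 : ((∑ x ∈ s, m x * z x : ℝ) : ℂ) =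
      2 * ∑ x ∈ s, ((m x : ℝ) : ℂ) * J x + ∑ x ∈ s, ((m x : ℝ) : ℂ) * (((z x : ℝ) : ℂ) - 2 * J x) := by
    push_cast
    rw [Finset.mul_sum, ← Finset.sum_add_distrib]
    refine Finset.sum_congr rfl fun x _ => ?_
    ring
  rw [h1, h2]
  refine (norm_add_le _ _).trans ?_
  rw [norm_mul]
  have h3 : ‖(2 : ℂ)‖ = 2 := by norm_num
  rw [h3]
  have h4 : ‖∑ x ∈ s, ((m x : ℝ) : ℂ) * (((z x : ℝ) : ℂ) - 2 * J x)‖ ≤ ∑ x ∈ s, m x * e x := by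
    refine (norm_sum_le _ _).trans (Finset.sum_le_sum fun x hx => ?_)
    rw [norm_mul, Complex.norm_real, Real.norm_of_nonneg (hm x hx)]
    exact mul_le_mul_of_nonneg_left (h x hx) (hm x hx)
  linarith

theorem wS2_t (ε : ℝ) (Z : ℕ) (hε : 0 < ε) (hε1 : ε ≤ 1 / 10) (hZ : 400 ≤ ε * Z) :
    ∃ C Q0 : ℝ, 0 < C ∧ ∀ T : ℝ, Q0 ≤ Real.log T → Bg ε Z (Real.log T) →
    ∀ (A B : Finset ℝ), CdT ε T A B →
    ∑ x ∈ A ×ˢ B, ‖Mz ε Z T (x.1 + x.2)‖ ^ 2 *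
      ‖riemannZeta (1 / 2 + ((x.1 + x.2 : ℝ) : ℂ) * I)‖ ^ 2 ≤ C * ((A.card : ℝ) * B.card) := by
  obtain ⟨C1, Q1, hC1, hpt⟩ := zs_point ε Z hε hε1 hZ
  obtain ⟨C2, hC2, hafe⟩ := zs_afe
  refine ⟨22 * C1 + C2, Q1, by positivity, ?_⟩
  intro T hQ hB A B hcd
  have hpt' := hpt T hQ hB A B hcd
  set L := Real.log T with hLdef
  have hL24 := hB.hL24
  have hL0 : 0 < L := by linarith
  obtain ⟨a0, ha0⟩ := hcd.neA
  obtain ⟨b0, hb0⟩ := hcd.neB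
  have hT0 : 0 < T := ptA_T_pos (by linarith) (hcd.sum a0 ha0 b0 hb0).1 (hcd.sum a0 ha0 b0 hb0).2
  have hT16 : 16 ≤ T := by
    have h1 : Real.log 16 ≤ L := by
      have h2 := Real.log_le_sub_one_of_pos (by norm_num : (0 : ℝ) < 16)
      linarith
    exact (Real.log_le_log_iff (by norm_num) hT0).mp h1
  have hX : 0 ≤ (A.card : ℝ) * B.card := by positivity
  set X : ℝ := (A.card : ℝ) * B.card with hXdef
  have ht16 : ∀ x ∈ A ×ˢ B, T ≤ x.1 + x.2 := by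
    intro x hx
    rw [Finset.mem_product] at hx
    exact (hcd.sum x.1 hx.1 x.2 hx.2).1
  have h1 := secT_sum (A ×ˢ B) (fun x => ‖Mz ε Z T (x.1 + x.2)‖ ^ 2)
    (fun x => ‖riemannZeta (1 / 2 + ((x.1 + x.2 : ℝ) : ℂ) * I)‖ ^ 2)
    (fun x => ∫ u : ℝ, ((gs (u - Real.log (x.1 + x.2)) : ℝ) : ℂ) * TTt (x.1 + x.2) ⌊Real.exp u / (2 * π)⌋₊)
    (fun x => C2 * (x.1 + x.2) ^ (-(1 / 4) : ℝ)) (fun x _ => by positivity) (fun x _ => by positivity)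
    (fun x hx => hafe (x.1 + x.2) (hT16.trans (ht16 x hx)))
  refine h1.trans ?_
  have h2 : ∑ x ∈ A ×ˢ B, ‖Mz ε Z T (x.1 + x.2)‖ ^ 2 * (C2 * (x.1 + x.2) ^ (-(1 / 4) : ℝ)) ≤ C2 * X := by
    have h3 : ∀ x ∈ A ×ˢ B, ‖Mz ε Z T (x.1 + x.2)‖ ^ 2 * (C2 * (x.1 + x.2) ^ (-(1 / 4) : ℝ)) ≤ C2 := by
      intro x hx
      have g2 : ‖Mz ε Z T (x.1 + x.2)‖ ^ 2 ≤ Real.exp (ε / 250 * L) := by
        have h1 := pow_le_pow_left₀ (norm_nonneg _) (norm_Mz_le hB (x.1 + x.2)) 2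
        rw [← Real.exp_nat_mul] at h1
        refine h1.trans (le_of_eq ?_)
        congr 1
        push_cast
        ring
      have g3 : (x.1 + x.2) ^ (-(1 / 4) : ℝ) ≤ Real.exp (-(1 / 4) * L) := by
        refine (Real.rpow_le_rpow_of_nonpos hT0 (ht16 x hx) (by norm_num)).trans (le_of_eq ?_)
        rw [Real.rpow_def_of_pos hT0, mul_comm]
      have hx0 : 0 < x.1 + x.2 := hT0.trans_le (ht16 x hx)
      calc ‖Mz ε Z T (x.1 + x.2)‖ ^ 2 * (C2 * (x.1 + x.2) ^ (-(1 / 4) : ℝ))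
          ≤ Real.exp (ε / 250 * L) * (C2 * Real.exp (-(1 / 4) * L)) := by gcongr
        _ = C2 * Real.exp (ε / 250 * L + -(1 / 4) * L) := by rw [Real.exp_add]; ring
        _ ≤ C2 * 1 := by
            refine mul_le_mul_of_nonneg_left ?_ hC2.le
            rw [Real.exp_le_one_iff]
            have : ε / 250 * L ≤ 1 / 4 * L := mul_le_mul_of_nonneg_right (by linarith) hL0.le
            linarith
        _ = C2 := mul_one _
    refine (Finset.sum_le_sum h3).trans (le_of_eq ?_)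
    rw [Finset.sum_const, nsmul_eq_mul, Finset.card_product, hXdef]
    push_cast
    ring
  have h4 : ∑ x ∈ A ×ˢ B, ((‖Mz ε Z T (x.1 + x.2)‖ ^ 2 : ℝ) : ℂ) *
      (∫ u : ℝ, ((gs (u - Real.log (x.1 + x.2)) : ℝ) : ℂ) * TTt (x.1 + x.2) ⌊Real.exp u / (2 * π)⌋₊) =
      ∫ u : ℝ, ∑ x ∈ A ×ˢ B, ((gs (u - Real.log (x.1 + x.2)) : ℝ) : ℂ) *
      (((‖Mz ε Z T (x.1 + x.2)‖ ^ 2 : ℝ) : ℂ) * TTt (x.1 + x.2) ⌊Real.exp u / (2 * π)⌋₊) := by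
    rw [integral_finsetSum]
    · refine Finset.sum_congr rfl fun x _ => ?_
      rw [← integral_const_mul]
      congr 1
      funext u
      ring
    · intro x hx
      have h5 := (exp_right_integrable (x.1 + x.2) (by linarith [ht16 x hx])).const_mul
        ((‖Mz ε Z T (x.1 + x.2)‖ ^ 2 : ℝ) : ℂ)
      refine h5.congr (Filter.Eventually.of_forall fun u => ?_)
      simp only
      ring
  have h5 : ‖∑ x ∈ A ×ˢ B, ((‖Mz ε Z T (x.1 + x.2)‖ ^ 2 : ℝ) : ℂ) *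
      (∫ u : ℝ, ((gs (u - Real.log (x.1 + x.2)) : ℝ) : ℂ) * TTt (x.1 + x.2) ⌊Real.exp u / (2 * π)⌋₊)‖ ≤
      C1 * X * 11 := by
    rw [h4]
    refine (norm_integral_le_of_norm_le ((secT_gauss_int L).const_mul (C1 * X))
      (Filter.Eventually.of_forall hpt')).trans ?_
    rw [integral_const_mul]
    exact mul_le_mul_of_nonneg_left (secT_gauss_val L) (by positivity)
  have h6 := add_le_add (mul_le_mul_of_nonneg_left h5 (by norm_num : (0 : ℝ) ≤ 2)) h2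
  refine h6.trans (le_of_eq ?_)
  ring

end Pool.Agent.H74.ZS
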