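import Pool.Agent.H74.ZS.FirT
import Pool.Agent.H74.ZS.SecT
import Pool.Agent.H74.TS.Main

/-!
# The count for separated sets

`zs_count_sep`: as `wcount_par` of `Pool/Agent/H74/TS/Main.lean`: Cauchy-Schwarz (`Pool.Agent.H74.TS.csq_norm_sum_le`), `wS1_t`, `wS2_t`,
`bg_facts`; `c = 1/(4C)`.

`zs_count_sep'`: for separated sets `A, B` with `T ≤ a + b ≤ 2T` and `T^(2+ε) ≤ |A||B|²` (no other condition).  First `ε ≤ 1/10` without
loss (`T ≥ 1`: replace `ε` by `min ε (1/10)`).  Shift: fix `a1 ∈ A` and replace `A`, `B` by `A - a1`, `B + a1` (images; cardinalities, sums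
`a + b` and the count do not change: bijection `(a, b) ↦ (a - a1, b + a1)`); then `|a| ≤ T`, `T ≤ b ≤ 2T`.
`CdT (ε/2) T`: `log hG A + 2 log hG B = 3 log (2400 T L) - log (|A||B|²) ≤ 3 log (2400) + 3 L + 3 log L - (2 + ε) L
= (1 - ε) L + 3 log 2400 + 3 log L ≤ (1 - ε/2) L` for large `L = log T`.
-/

namespace Pool.Agent.H74.ZS

open Finset Pool.Agent.H14.PT Pool.Agent.H74.TS Pool.Agent.H74.PZ
open scoped ComplexConjugate Real

theorem zs_count_sep (ε : ℝ) (hε : 0 < ε) (hε1 : ε ≤ 1 / 10) : ∃ c Q0 : ℝ, 0 < c ∧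
    ∀ T : ℝ, Q0 ≤ Real.log T → ∀ (A B : Finset ℝ), CdT ε T A B →
    ∀ S : Finset (ℝ × ℝ), (∀ x ∈ A ×ˢ B,
      riemannZeta (1 / 2 + ((x.1 + x.2 : ℝ) : ℂ) * Complex.I) ≠ 0 → x ∈ S) →
    c * ((A.card : ℝ) * B.card) ≤ (S.card : ℝ) := by
  classical
  obtain ⟨Z, hZ'⟩ := exists_nat_ge (400 / ε)
  have hZ : 400 ≤ ε * Z := by
    rw [div_le_iff₀ hε] at hZ'
    linarith
  obtain ⟨C, Q1, hC, hS2⟩ := wS2_t ε Z hε hε1 hZ
  obtain ⟨Q2, hS1⟩ := wS1_t ε Z hε hε1 hZ
  obtain ⟨Q3, hbig⟩ := bg_facts ε Z hε hε1 hZ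
  refine ⟨1 / (4 * C), max (max Q1 Q2) Q3, by positivity, ?_⟩
  intro T hq A B hcd S hS
  have hq1 : Q1 ≤ Real.log T := (le_max_left _ _).trans ((le_max_left _ _).trans hq)
  have hq2 : Q2 ≤ Real.log T := (le_max_right _ _).trans ((le_max_left _ _).trans hq)
  have hB : Bg ε Z (Real.log T) := hbig _ ((le_max_right _ _).trans hq)
  have h2 := hS2 T hq1 hB A B hcd
  have h1 := hS1 T hq2 hB A B hcd
  set f : ℝ × ℝ → ℂ := fun x => Mz ε Z T (x.1 + x.2) *
      riemannZeta (1 / 2 + ((x.1 + x.2 : ℝ) : ℂ) * Complex.I) with hf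
  have hcs := Pool.Agent.H74.TS.csq_norm_sum_le (A ×ˢ B) f
  have hf2 : ∑ x ∈ A ×ˢ B, ‖f x‖ ^ 2 ≤ C * ((A.card : ℝ) * B.card) := by
    refine le_trans (le_of_eq ?_) h2
    refine Finset.sum_congr rfl fun x _ => ?_
    simp only [hf]
    rw [norm_mul, mul_pow]
  have hcard : ((A ×ˢ B).filter fun x => f x ≠ 0).card ≤ S.card := by
    refine Finset.card_le_card ?_
    intro x hx
    obtain ⟨a1, a2⟩ := Finset.mem_filter.mp hx
    refine hS x a1 ?_
    intro h0
    apply a2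
    simp only [hf]
    rw [h0, mul_zero]
  have hXpos : (0 : ℝ) < (A.card : ℝ) * B.card := by
    have h3 : (0 : ℝ) < A.card := by exact_mod_cast hcd.neA.card_pos
    have h4 : (0 : ℝ) < B.card := by exact_mod_cast hcd.neB.card_pos
    positivity
  set M : ℝ := (A.card : ℝ) * B.card with hM
  have hnn : 0 ≤ ‖∑ x ∈ A ×ˢ B, f x‖ := norm_nonneg _
  have h3 : M ^ 2 / 4 ≤ ‖∑ x ∈ A ×ˢ B, f x‖ ^ 2 := by
    have : M / 2 ≤ ‖∑ x ∈ A ×ˢ B, f x‖ := h1
    nlinarith
  have hScard : (((A ×ˢ B).filter fun x => f x ≠ 0).card : ℝ) ≤ S.card := by exact_mod_cast hcard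
  have h4 : M ^ 2 / 4 ≤ (S.card : ℝ) * (C * M) := by
    refine h3.trans (hcs.trans ?_)
    have h5 : 0 ≤ ∑ x ∈ A ×ˢ B, ‖f x‖ ^ 2 := Finset.sum_nonneg fun _ _ => by positivity
    calc _ ≤ (S.card : ℝ) * ∑ x ∈ A ×ˢ B, ‖f x‖ ^ 2 := by gcongr
      _ ≤ _ := by gcongr
  have h5 : M / 4 ≤ S.card * C := by
    have h6 : M / 4 * M ≤ (S.card * C) * M := by
      calc _ = M ^ 2 / 4 := by ring
        _ ≤ _ := h4
        _ = _ := by ring
    exact le_of_mul_le_mul_right h6 hXpos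
  rw [div_mul_eq_mul_div, one_mul, div_le_iff₀ (by positivity)]
  linarith

/-- the condition on the sizes, for large `T` -/
lemma cntT_size (ε : ℝ) (hε : 0 < ε) : ∃ Q0 : ℝ, ∀ T : ℝ, 1 < T → Q0 ≤ Real.log T →
    ∀ A B : Finset ℝ, A.Nonempty → B.Nonempty →
    T ^ (2 + ε) ≤ (A.card : ℝ) * (B.card : ℝ) ^ 2 →
    Real.log (hG T A) + 2 * Real.log (hG T B) ≤ (1 - ε / 2) * Real.log T := by
  obtain ⟨Q1, hQ11, hQ1⟩ := poly_le_exp 1 1 (ε / 24) (by positivity)
  refine ⟨max Q1 (max 1 (12 * Real.log 2400 / ε)), fun T hT1 hq A B hA hB hAB => ?_⟩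
  have hT0 : 0 < T := by linarith
  have hq1 : Q1 ≤ Real.log T := (le_max_left _ _).trans hq
  have hq2 : 1 ≤ Real.log T := (le_max_left _ _).trans ((le_max_right _ _).trans hq)
  have hq3 : 12 * Real.log 2400 / ε ≤ Real.log T :=
    (le_max_right _ _).trans ((le_max_right _ _).trans hq)
  have hA0 : (0 : ℝ) < A.card := by exact_mod_cast hA.card_pos
  have hB0 : (0 : ℝ) < B.card := by exact_mod_cast hB.card_pos
  set L := Real.log T with hL
  have hLpos : 0 < L := by linarith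
  have h1 := hQ1 L hq1
  rw [pow_one, one_mul] at h1
  have h2 : Real.log L ≤ ε / 24 * L := by
    have := Real.log_le_log hLpos h1
    rwa [Real.log_exp] at this
  have h3 : 12 * Real.log 2400 ≤ ε * L := by
    rw [div_le_iff₀ hε] at hq3
    linarith
  have h4 : (2 + ε) * L ≤ Real.log A.card + 2 * Real.log B.card := by
    have h5 := Real.log_le_log (by positivity) hAB
    rw [Real.log_rpow hT0, Real.log_mul hA0.ne' (by positivity), Real.log_pow] at h5
    push_cast at h5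
    exact h5
  have h6 : ∀ D : Finset ℝ, (0 : ℝ) < D.card →
      Real.log (hG T D) = Real.log 2400 + L + Real.log L - Real.log D.card := by
    intro D hD
    unfold hG
    rw [Real.log_div (by positivity) hD.ne', Real.log_mul (by positivity) hLpos.ne',
      Real.log_mul (by norm_num) hT0.ne']
  rw [h6 A hA0, h6 B hB0]
  nlinarith

theorem zs_count_sep' (ε : ℝ) (hε : 0 < ε) : ∃ c T0 : ℝ, 0 < c ∧
    ∀ T : ℝ, T0 ≤ T → ∀ (A B : Finset ℝ), SepR A → SepR B →
    (∀ a ∈ A, ∀ b ∈ B, T ≤ a + b ∧ a + b ≤ 2 * T) →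
    T ^ (2 + ε) ≤ (A.card : ℝ) * (B.card : ℝ) ^ 2 →
    ∀ S : Finset (ℝ × ℝ), (∀ x ∈ A ×ˢ B,
      riemannZeta (1 / 2 + ((x.1 + x.2 : ℝ) : ℂ) * Complex.I) ≠ 0 → x ∈ S) →
    c * ((A.card : ℝ) * B.card) ≤ (S.card : ℝ) := by
  classical
  set ε' : ℝ := min ε (1 / 10) with hε'
  have hε'0 : 0 < ε' := lt_min hε (by norm_num)
  have hε'1 : ε' ≤ 1 / 10 := min_le_right _ _
  have hε'2 : ε' ≤ ε := min_le_left _ _
  obtain ⟨c, Q1, hc, hcnt⟩ := zs_count_sep (ε' / 2) (by positivity) (by linarith)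
  obtain ⟨Q2, hsize⟩ := cntT_size ε' hε'0
  refine ⟨c, max 2 (Real.exp (max Q1 Q2)), hc, ?_⟩
  intro T hT A B hA hB hAB hcard S hS
  have hT2 : 2 ≤ T := (le_max_left _ _).trans hT
  have hT0 : 0 < T := by linarith
  have hTQ : max Q1 Q2 ≤ Real.log T := by
    have h1 := Real.log_le_log (Real.exp_pos _) ((le_max_right _ _).trans hT)
    rwa [Real.log_exp] at h1
  have hq1 : Q1 ≤ Real.log T := (le_max_left _ _).trans hTQ
  have hq2 : Q2 ≤ Real.log T := (le_max_right _ _).trans hTQ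
  rcases A.eq_empty_or_nonempty with rfl | hAne
  · simp
  rcases B.eq_empty_or_nonempty with rfl | hBne
  · simp
  have hcard' : T ^ (2 + ε') ≤ (A.card : ℝ) * (B.card : ℝ) ^ 2 := by
    refine le_trans ?_ hcard
    exact Real.rpow_le_rpow_of_exponent_le (by linarith) (by linarith)
  obtain ⟨a1, ha1⟩ := hAne
  set A' := A.image (fun a => a - a1) with hA'
  set B' := B.image (fun b => b + a1) with hB'
  have hinjA : Function.Injective (fun a : ℝ => a - a1) := sub_left_injective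
  have hinjB : Function.Injective (fun b : ℝ => b + a1) := add_left_injective a1
  have hcA : A'.card = A.card := Finset.card_image_of_injective _ hinjA
  have hcB : B'.card = B.card := Finset.card_image_of_injective _ hinjB
  have hd : ∀ a ∈ A, |a - a1| ≤ T := by
    intro a ha
    obtain ⟨b, hb⟩ := hBne
    have h1 := hAB a ha b hb
    have h2 := hAB a1 ha1 b hb
    rw [abs_le]
    constructor <;> linarith [h1.1, h1.2, h2.1, h2.2]
  have hcd : CdT (ε' / 2) T A' B' := by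
    refine ⟨⟨a1 - a1, Finset.mem_image_of_mem _ ha1⟩, hBne.image _, ?_, ?_, ?_, ?_, ?_, ?_⟩
    · intro a ha b hb hab
      obtain ⟨a', ha', rfl⟩ := Finset.mem_image.mp ha
      obtain ⟨b', hb', rfl⟩ := Finset.mem_image.mp hb
      have h1 := hA a' ha' b' hb' (by rintro rfl; exact hab rfl)
      simpa using h1
    · intro a ha b hb hab
      obtain ⟨a', ha', rfl⟩ := Finset.mem_image.mp ha
      obtain ⟨b', hb', rfl⟩ := Finset.mem_image.mp hb
      have h1 := hB a' ha' b' hb' (by rintro rfl; exact hab rfl)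
      simpa using h1
    · intro a ha
      obtain ⟨a', ha', rfl⟩ := Finset.mem_image.mp ha
      have := hd a' ha'
      linarith
    · intro b hb
      obtain ⟨b', hb', rfl⟩ := Finset.mem_image.mp hb
      have h1 := hAB a1 ha1 b' hb'
      rw [abs_le]
      constructor <;> linarith [h1.1, h1.2]
    · intro a ha b hb
      obtain ⟨a', ha', rfl⟩ := Finset.mem_image.mp ha
      obtain ⟨b', hb', rfl⟩ := Finset.mem_image.mp hb
      have h1 := hAB a' ha' b' hb'
      constructor <;> linarith [h1.1, h1.2]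
    · refine hsize T (by linarith) hq2 A' B' ⟨a1 - a1, Finset.mem_image_of_mem _ ha1⟩
        (hBne.image _) ?_
      rw [hcA, hcB]
      exact hcard'
  set S' := S.image (fun x => (x.1 - a1, x.2 + a1)) with hS'
  have h1 := hcnt T hq1 A' B' hcd S' ?_
  · rw [hcA, hcB] at h1
    refine h1.trans ?_
    have h2 : S'.card ≤ S.card := Finset.card_image_le
    exact_mod_cast h2
  · intro x hx hx0
    obtain ⟨hx1, hx2⟩ := Finset.mem_product.mp hx
    obtain ⟨a', ha', h3⟩ := Finset.mem_image.mp hx1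
    obtain ⟨b', hb', h4⟩ := Finset.mem_image.mp hx2
    refine Finset.mem_image.mpr ⟨(a', b'), hS (a', b') (Finset.mem_product.mpr ⟨ha', hb'⟩) ?_, ?_⟩
    · have h5 : a' + b' = x.1 + x.2 := by
        rw [← h3, ← h4]; ring
      simp only
      rw [h5]
      exact hx0
    · exact Prod.ext h3 h4

end Pool.Agent.H74.ZS
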