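import Pool.Agent.H74.ZS.Lin

/-!
# Moving the line of integration

`even_line`: `f` entire and even, `‖f(x + iv)‖ ≤ M e^{-v²/2}` for `0 ≤ x ≤ σ`.  Put `F w = f w - f 0 * cexp (w^2)` (`F 0 = 0`) and
`g = dslope F 0`: entire (`Complex.differentiableOn_dslope` on `univ`), `g w = F w / w` for `w ≠ 0`, `g` odd
(for `w ≠ 0`: `F` is even; `g 0 = deriv F 0 = 0` as `F` is even, or avoid the value at `0`: a null set).
Rectangle `[0, σ] × [-R, R]` (`Complex.integral_boundary_rect_eq_zero_of_differentiableOn`):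
`∫_{-R}^{R} g(σ+iv) dv - ∫_{-R}^{R} g(iv) dv = O(σ sup_{0≤x≤σ} ‖g(x ± iR)‖) → 0` (`‖g(x ± iR)‖ ≤
(M e^{-R²/2} + ‖f 0‖ e^{σ² - R²})/R`), and `∫_{-R}^{R} g(iv) dv = 0` (odd).  So `∫_ℝ F(σ+iv)/(σ+iv) dv = 0`, i.e.
`∫ f(w)/w dv = f 0 ∫ e^{w²}/w dv = f 0 · 2π · 1/2 = π f 0` by `gauss_line` with `lam = 0` and `half_gs`
(`Pool/Agent/H74/ZS/Lin.lean`; use their statements).  (`MeasureTheory.intervalIntegral_tendsto_integral` for the limit `R → ∞`.)
-/

namespace Pool.Agent.H74.ZS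

open MeasureTheory Complex
open scoped Real

lemma contA_exp_norm (x v : ℝ) : ‖cexp (((x : ℂ) + v * I) ^ 2)‖ = Real.exp (x ^ 2 - v ^ 2) := by
  rw [Complex.norm_exp]
  congr 1
  simp [pow_two]

lemma contA_line (G : ℂ → ℂ) (hG : Differentiable ℂ G) (hodd : ∀ w, w ≠ 0 → G (-w) = -G w) (σ : ℝ)
    (hσ : 0 < σ) (K : ℝ) (hK : ∀ x v : ℝ, 0 ≤ x → x ≤ σ → 
      ‖G ((x : ℂ) + v * I)‖ * ‖((x : ℂ) + v * I)‖ ≤ K * Real.exp (-(v ^ 2) / 2)) :
    Integrable (fun v : ℝ => G ((σ : ℂ) + v * I)) ∧ ∫ v : ℝ, G ((σ : ℂ) + v * I) = 0 := by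
  have hKnn : 0 ≤ K := by
    have h := hK 0 0 le_rfl hσ.le
    simpa using h
  have hint : Integrable (fun v : ℝ => G ((σ : ℂ) + v * I)) := by
    have h1 : Integrable (fun v : ℝ => (K / σ) * Real.exp (-(1 / 2) * v ^ 2)) :=
      (integrable_exp_neg_mul_sq (by norm_num)).const_mul _
    refine h1.mono' (hG.continuous.comp (by fun_prop)).aestronglyMeasurable
      (Filter.Eventually.of_forall fun v => ?_)
    have h2 := hK σ v hσ.le le_rfl
    have h3 : σ ≤ ‖((σ : ℂ) + v * I)‖ := by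
      have h4 := Complex.abs_re_le_norm ((σ : ℂ) + v * I)
      have h5 : ((σ : ℂ) + v * I).re = σ := by simp
      rw [h5, abs_of_pos hσ] at h4
      exact h4
    have h6 : ‖G ((σ : ℂ) + v * I)‖ * σ ≤ K * Real.exp (-(v ^ 2) / 2) :=
      (mul_le_mul_of_nonneg_left h3 (norm_nonneg _)).trans h2
    rw [show -(1 / 2) * v ^ 2 = -(v ^ 2) / 2 by ring, div_mul_eq_mul_div, le_div_iff₀ hσ]
    exact h6
  refine ⟨hint, ?_⟩
  have hlim := intervalIntegral_tendsto_integral hint Filter.tendsto_neg_atTop_atBot Filter.tendsto_id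
  have hrect : ∀ R : ℝ, 1 ≤ R → ‖∫ v in (-R)..R, G ((σ : ℂ) + v * I)‖ ≤ 2 * (K * σ) / R := by
    intro R hR
    have hR0 : 0 < R := by linarith
    have h1 := Complex.integral_boundary_rect_eq_zero_of_differentiableOn G
      ((0 : ℂ) + ((-R : ℝ) : ℂ) * I) ((σ : ℂ) + (R : ℂ) * I) hG.differentiableOn
    have e1 : ((0 : ℂ) + ((-R : ℝ) : ℂ) * I).re = 0 := by simp
    have e2 : ((0 : ℂ) + ((-R : ℝ) : ℂ) * I).im = -R := by simp
    have e3 : ((σ : ℂ) + (R : ℂ) * I).re = σ := by simp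
    have e4 : ((σ : ℂ) + (R : ℂ) * I).im = R := by simp
    rw [e1, e2, e3, e4] at h1
    have hB : ∫ y in (-R)..R, G (((0 : ℝ) : ℂ) + (y : ℂ) * I) = 0 := by
      have k1 : ∫ y in (-R)..R, G (((0 : ℝ) : ℂ) + ((-y : ℝ) : ℂ) * I) =
          ∫ y in (-R)..R, G (((0 : ℝ) : ℂ) + (y : ℂ) * I) := by
        have := intervalIntegral.integral_comp_neg (a := -R) (b := R)
          (fun y : ℝ => G (((0 : ℝ) : ℂ) + (y : ℂ) * I))
        simpa using this
      have k2 : ∫ y in (-R)..R, G (((0 : ℝ) : ℂ) + ((-y : ℝ) : ℂ) * I) =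
          ∫ y in (-R)..R, -G (((0 : ℝ) : ℂ) + (y : ℂ) * I) := by
        refine intervalIntegral.integral_congr_ae ?_
        have k3 : ∀ᵐ y : ℝ, y ≠ 0 := by
          rw [ae_iff]
          simp
        filter_upwards [k3] with y hy _
        have k4 : (((0 : ℝ) : ℂ) + ((-y : ℝ) : ℂ) * I) = -(((0 : ℝ) : ℂ) + (y : ℂ) * I) := by
          push_cast
          ring
        rw [k4]
        refine hodd _ ?_
        simp [hy]
      rw [intervalIntegral.integral_neg] at k2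
      rw [k1] at k2
      have k5 : (2 : ℂ) * ∫ y in (-R)..R, G (((0 : ℝ) : ℂ) + (y : ℂ) * I) = 0 := by
        linear_combination k2
      simpa using k5
    have hC : ∀ v : ℝ, |v| = R → ‖∫ x in (0 : ℝ)..σ, G ((x : ℂ) + (v : ℂ) * I)‖ ≤ K * σ / R := by
      intro v hv
      have k1 : ∀ x ∈ Set.uIoc (0 : ℝ) σ, ‖G ((x : ℂ) + (v : ℂ) * I)‖ ≤ K / R := by
        intro x hx
        rw [Set.uIoc_of_le hσ.le] at hx
        have k2 := hK x v hx.1.le hx.2
        have k3 : R ≤ ‖((x : ℂ) + v * I)‖ := by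
          have h4 := Complex.abs_im_le_norm ((x : ℂ) + v * I)
          have h5 : ((x : ℂ) + v * I).im = v := by simp
          rw [h5, hv] at h4
          exact h4
        have k4 : Real.exp (-(v ^ 2) / 2) ≤ 1 := by
          rw [Real.exp_le_one_iff]
          have := sq_nonneg v
          linarith
        rw [le_div_iff₀ hR0]
        calc ‖G ((x : ℂ) + (v : ℂ) * I)‖ * R ≤ ‖G ((x : ℂ) + (v : ℂ) * I)‖ * ‖((x : ℂ) + v * I)‖ :=
              mul_le_mul_of_nonneg_left k3 (norm_nonneg _)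
          _ ≤ K * Real.exp (-(v ^ 2) / 2) := k2
          _ ≤ K * 1 := mul_le_mul_of_nonneg_left k4 hKnn
          _ = K := mul_one _
      have k5 := intervalIntegral.norm_integral_le_of_norm_le_const k1
      rw [sub_zero, abs_of_pos hσ] at k5
      calc _ ≤ K / R * σ := k5
        _ = K * σ / R := by ring
    have hC1 := hC (-R) (by rw [abs_neg, abs_of_pos hR0])
    have hC2 := hC R (abs_of_pos hR0)
    rw [hB, smul_zero, sub_zero] at h1
    have h2 : I • (∫ y in (-R)..R, G ((σ : ℂ) + (y : ℂ) * I)) =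
        (∫ x in (0 : ℝ)..σ, G ((x : ℂ) + (R : ℂ) * I)) -
          ∫ x in (0 : ℝ)..σ, G ((x : ℂ) + ((-R : ℝ) : ℂ) * I) := by
      linear_combination h1
    have h3 : ‖∫ y in (-R)..R, G ((σ : ℂ) + (y : ℂ) * I)‖ =
        ‖I • (∫ y in (-R)..R, G ((σ : ℂ) + (y : ℂ) * I))‖ := by
      rw [norm_smul, Complex.norm_I, one_mul]
    rw [h3, h2]
    calc _ ≤ ‖∫ x in (0 : ℝ)..σ, G ((x : ℂ) + (R : ℂ) * I)‖ +
          ‖∫ x in (0 : ℝ)..σ, G ((x : ℂ) + ((-R : ℝ) : ℂ) * I)‖ := norm_sub_le _ _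
      _ ≤ K * σ / R + K * σ / R := add_le_add hC2 hC1
      _ = 2 * (K * σ) / R := by ring
  have hz : Filter.Tendsto (fun R : ℝ => ∫ v in (-R)..R, G ((σ : ℂ) + v * I)) Filter.atTop (nhds 0) := by
    rw [tendsto_zero_iff_norm_tendsto_zero]
    refine squeeze_zero' (Filter.Eventually.of_forall fun _ => norm_nonneg _)
      ((Filter.eventually_ge_atTop 1).mono hrect) ?_
    exact tendsto_const_nhds.div_atTop Filter.tendsto_id
  exact tendsto_nhds_unique hlim hz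

theorem even_line (f : ℂ → ℂ) (hf : Differentiable ℂ f) (heven : ∀ w, f (-w) = f w) (σ : ℝ)
    (hσ : 0 < σ) (M : ℝ) (hM : ∀ x v : ℝ, 0 ≤ x → x ≤ σ →
      ‖f ((x : ℂ) + v * I)‖ ≤ M * Real.exp (-(v ^ 2) / 2)) :
    ∫ v : ℝ, f ((σ : ℂ) + v * I) / ((σ : ℂ) + v * I) = π * f 0 := by
  set F : ℂ → ℂ := fun w => f w - f 0 * cexp (w ^ 2) with hF
  have hFd : Differentiable ℂ F := by
    have h1 : Differentiable ℂ (fun w : ℂ => f 0 * cexp (w ^ 2)) := by fun_prop
    exact hf.sub h1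
  have hF0 : F 0 = 0 := by simp [hF]
  have hFe : ∀ w, F (-w) = F w := by intro w; simp [hF, heven]
  have hgd : Differentiable ℂ (dslope F 0) := by
    rw [← differentiableOn_univ]
    exact (Complex.differentiableOn_dslope Filter.univ_mem).2 hFd.differentiableOn
  have hgne : ∀ w, w ≠ 0 → dslope F 0 w = F w / w := by
    intro w hw
    rw [dslope_of_ne _ hw, slope_def_field, hF0]
    simp
  have hgw : ∀ w, ‖dslope F 0 w‖ * ‖w‖ = ‖F w‖ := by
    intro w
    by_cases hw : w = 0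
    · rw [hw, hF0]; simp
    · rw [hgne w hw, ← norm_mul, div_mul_cancel₀ _ hw]
  have hne : ∀ v : ℝ, ((σ : ℂ) + v * I) ≠ 0 := by
    intro v h
    have h1 := congrArg Complex.re h
    simp at h1
    exact hσ.ne' h1
  obtain ⟨hi, h0⟩ := contA_line (dslope F 0) hgd (by
      intro w hw
      rw [hgne w hw, hgne (-w) (neg_ne_zero.2 hw), hFe, div_neg]) σ hσ
    (M + ‖f 0‖ * Real.exp (σ ^ 2)) (by
      intro x v hx hxσ
      rw [hgw]
      have h1 := hM x v hx hxσ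
      have h2 : ‖f 0 * cexp (((x : ℂ) + v * I) ^ 2)‖ ≤ ‖f 0‖ * Real.exp (σ ^ 2) * Real.exp (-(v ^ 2) / 2) := by
        rw [norm_mul, contA_exp_norm, mul_assoc, ← Real.exp_add]
        refine mul_le_mul_of_nonneg_left (Real.exp_le_exp.2 ?_) (norm_nonneg _)
        have h3 := sq_nonneg v
        nlinarith
      calc ‖F ((x : ℂ) + v * I)‖ ≤ ‖f ((x : ℂ) + v * I)‖ + ‖f 0 * cexp (((x : ℂ) + v * I) ^ 2)‖ :=
            norm_sub_le _ _
        _ ≤ _ := by linarith)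
  have hgl := gauss_line σ hσ 0
  rw [half_gs] at hgl
  have hgl' : ∫ v : ℝ, cexp (((σ : ℂ) + v * I) ^ 2) / ((σ : ℂ) + v * I) = π := by
    have h1 : ((2 * π * (1 / 2) : ℝ) : ℂ) = π := by push_cast; ring
    rw [h1] at hgl
    rw [← hgl]
    congr 1
    funext v
    congr 2
    push_cast
    ring
  have hgi : Integrable (fun v : ℝ => cexp (((σ : ℂ) + v * I) ^ 2) / ((σ : ℂ) + v * I)) := by
    have h1 : Integrable (fun v : ℝ => (Real.exp (σ ^ 2) / σ) * Real.exp (-1 * v ^ 2)) :=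
      (integrable_exp_neg_mul_sq (by norm_num)).const_mul _
    refine h1.mono' (Continuous.div (by fun_prop) (by fun_prop) hne).aestronglyMeasurable
      (Filter.Eventually.of_forall fun v => ?_)
    have h3 : σ ≤ ‖((σ : ℂ) + v * I)‖ := by
      have h4 := Complex.abs_re_le_norm ((σ : ℂ) + v * I)
      have h5 : ((σ : ℂ) + v * I).re = σ := by simp
      rw [h5, abs_of_pos hσ] at h4
      exact h4
    rw [norm_div, contA_exp_norm, div_mul_eq_mul_div, ← Real.exp_add]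
    rw [show σ ^ 2 + -1 * v ^ 2 = σ ^ 2 - v ^ 2 by ring]
    exact div_le_div_of_nonneg_left (Real.exp_pos _).le hσ h3
  have hfin : (fun v : ℝ => f ((σ : ℂ) + v * I) / ((σ : ℂ) + v * I)) =
      fun v : ℝ => dslope F 0 ((σ : ℂ) + v * I) + f 0 * (cexp (((σ : ℂ) + v * I) ^ 2) / ((σ : ℂ) + v * I)) := by
    funext v
    rw [hgne _ (hne v), hF]
    ring
  rw [hfin, integral_add hi (hgi.const_mul _), h0, integral_const_mul, hgl', zero_add, mul_comm]

end Pool.Agent.H74.ZS
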