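import Pool.Agent.H74.ZS.KG
import Pool.Agent.H74.PZ.Defs
import Pool.Agent.H14.PT.DN

/-!
# Definitions for the theorem on sums of real numbers

`nt t n = n^{-it}`; `Mt`, `TTt` are the mollifier and the hyperbola sum at height `t`; `fg A c p` is
the sum `∑_{a ∈ A} c_a (p.1/p.2)^{-ia}` and `vg A c` the corresponding weight on fractions.
-/

namespace Pool.Agent.H74.ZS

open Finset Pool.Agent.H14.PT Pool.Agent.H74.TS Pool.Agent.H74.PZ
open scoped ComplexConjugate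

/-- `n^{-it}` -/
noncomputable def nt (t : ℝ) (n : ℕ) : ℂ := ee t (Real.log n)

lemma norm_nt (t : ℝ) (n : ℕ) : ‖nt t n‖ = 1 := norm_ee _ _

lemma nt_one (t : ℝ) : nt t 1 = 1 := by simp [nt, ee_zero_right]

lemma nt_mul (t : ℝ) {m n : ℕ} (hm : m ≠ 0) (hn : n ≠ 0) : nt t (m * n) = nt t m * nt t n := by
  unfold nt
  rw [Nat.cast_mul, Real.log_mul (by exact_mod_cast hm) (by exact_mod_cast hn), ee_add_right]

lemma nt_add (s t : ℝ) (n : ℕ) : nt (s + t) n = nt s n * nt t n := ee_add_left _ _ _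

lemma nt_conj (t : ℝ) (n : ℕ) : nt t n * conj (nt t n) = 1 := by
  rw [Complex.mul_conj, Complex.normSq_eq_norm_sq, norm_nt]
  simp

/-- the Dirichlet polynomial with coefficients `w m / √m` -/
noncomputable def Mt (Mf : Finset ℕ) (w : ℕ → ℝ) (t : ℝ) : ℂ :=
  ∑ m ∈ Mf, ((w m * (m : ℝ) ^ (-(1 / 2) : ℝ) : ℝ) : ℂ) * nt t m

/-- the hyperbola sum -/
noncomputable def TTt (t : ℝ) (N : ℕ) : ℂ :=
  ∑ n ∈ hyp N, nt t n.1 * conj (nt t n.2) *
    (((((n.1 * n.2 : ℕ) : ℝ)) ^ (-(1 / 2) : ℝ) : ℝ) : ℂ)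

/-- the sum over `A` at the fraction `p.1 / p.2` -/
noncomputable def fg (A : Finset ℝ) (c : ℝ → ℂ) (p : ℕ × ℕ) : ℂ :=
  ∑ a ∈ A, c a * (nt a p.1 * conj (nt a p.2))

/-- the weight -/
noncomputable def vg (A : Finset ℝ) (c : ℝ → ℂ) (p : ℕ × ℕ) : ℝ := (‖fg A c p‖ / A.card) ^ 2

/-- separated sets of reals -/
def SepR (A : Finset ℝ) : Prop := ∀ a ∈ A, ∀ a' ∈ A, a ≠ a' → 1 ≤ |a - a'|

/-- the Gaussian density with variance `2` -/
noncomputable def gs (s : ℝ) : ℝ := Real.exp (-(s ^ 2) / 4) / (2 * Real.sqrt Real.pi)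

lemma gs_nonneg (s : ℝ) : 0 ≤ gs s := by unfold gs; positivity

lemma continuous_gs : Continuous gs := by unfold gs; fun_prop

end Pool.Agent.H74.ZS
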