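import Pool.Agent.H74.ZS.Lin
import Pool.Agent.H74.ZS.Cd

/-!
# Expansion of the main term: definitions
-/

namespace Pool.Agent.H74.ZS

open MeasureTheory Complex Pool.Agent.H14.PT
open scoped Real ComplexConjugate

/-- the coefficients -/
noncomputable def an (t : ℝ) (n : ℕ × ℕ) : ℂ := nt t (n.1 + 1) * conj (nt t (n.2 + 1)) *
  (((((n.1 + 1) * (n.2 + 1) : ℕ) : ℝ) ^ (-(1 / 2) : ℝ) : ℝ) : ℂ)

/-- the logarithms -/
noncomputable def ln (t : ℝ) (n : ℕ × ℕ) : ℝ :=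
  Real.log (2 * π * (((n.1 + 1) * (n.2 + 1) : ℕ) : ℝ) / t)

lemma norm_an (t : ℝ) (n : ℕ × ℕ) :
    ‖an t n‖ = (((n.1 + 1) * (n.2 + 1) : ℕ) : ℝ) ^ (-(1 / 2) : ℝ) := by
  unfold an
  rw [norm_mul, norm_mul, RCLike.norm_conj, norm_nt, norm_nt, Complex.norm_real,
    Real.norm_of_nonneg (by positivity)]
  ring

end Pool.Agent.H74.ZS
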