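import Pool.Agent.H74.ZS.Defs

/-!
# Splitting into separated sets

`split_sep`: if every interval `[x, x+1)` contains at most `K` points of `A`, then `A` is a union of `K` separated sets of
almost equal size.  For `a ∈ A` put `r a = #{a' ∈ A : a' < a}` (injective on `A`, with image `{0, ..., |A| - 1}`), and
`A_j = {a ∈ A : r a % K = j}`.  If `a < a'` are in the same class then `r a' - r a ≥ K`, so there are at least `K + 1` points of
`A` in `[a, a']` (`a'` and the points with rank `r a, ..., r a' - 1`), hence `a' ≥ a + 1`.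
Sizes: `|A_j| ≥ (|A| - K + 1)/K` (as `Nat.count` of residues), so `|A| ≤ K |A_j| + K - 1 ≤ 2 K |A_j|` if `A_j` is
nonempty, i.e. if `K ≤ |A|`; in general `|A| ≤ K * (|A_j| + 1)`.

`split_sum`: for the product set: `∑_{i,j < K} |A_i ×ˢ B_j ∩ S| = |S ∩ A ×ˢ B|`.
-/

namespace Pool.Agent.H74.ZS

open Finset

/-- the rank of `a` in `A` -/
noncomputable def splitRk (A : Finset ℝ) (a : ℝ) : ℕ := (A.filter (fun x => x < a)).card

lemma splitRk_lt (A : Finset ℝ) {a a' : ℝ} (ha : a ∈ A) (h : a < a') :
    splitRk A a < splitRk A a' := by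
  unfold splitRk
  apply Finset.card_lt_card
  rw [Finset.ssubset_iff_of_subset]
  · exact ⟨a, by simp [ha, h], by simp⟩
  · intro x hx
    rw [Finset.mem_filter] at hx ⊢
    exact ⟨hx.1, hx.2.trans h⟩

lemma splitRk_card (A : Finset ℝ) {a a' : ℝ} (ha' : a' ∈ A) (h : a < a') :
    splitRk A a' + 1 ≤ splitRk A a + (A.filter (fun x => a ≤ x ∧ x ≤ a')).card := by
  unfold splitRk
  have h1 : (A.filter (fun x => x < a')).card + 1 = (A.filter (fun x => x ≤ a')).card := by
    have : A.filter (fun x => x ≤ a') = insert a' (A.filter (fun x => x < a')) := by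
      ext x
      simp only [Finset.mem_filter, Finset.mem_insert]
      constructor
      · rintro ⟨hx, hxa⟩
        rcases eq_or_lt_of_le hxa with h | h
        · exact Or.inl h
        · exact Or.inr ⟨hx, h⟩
      · rintro (rfl | ⟨hx, hxa⟩)
        · exact ⟨ha', le_rfl⟩
        · exact ⟨hx, hxa.le⟩
    rw [this, Finset.card_insert_of_notMem (by simp)]
  rw [h1]
  have h2 : A.filter (fun x => x ≤ a') ⊆ A.filter (fun x => x < a) ∪
      A.filter (fun x => a ≤ x ∧ x ≤ a') := by
    intro x hx
    rw [Finset.mem_filter] at hx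
    rw [Finset.mem_union, Finset.mem_filter, Finset.mem_filter]
    rcases lt_or_ge x a with h | h
    · exact Or.inl ⟨hx.1, h⟩
    · exact Or.inr ⟨hx.1, h, hx.2⟩
  exact (Finset.card_le_card h2).trans (Finset.card_union_le _ _)

lemma split_lt (A : Finset ℝ) (K : ℕ)
    (hA : ∀ x : ℝ, (A.filter (fun a => x ≤ a ∧ a < x + 1)).card ≤ K)
    {a a' : ℝ} (ha : a ∈ A) (ha' : a' ∈ A) (h : a < a')
    (hr : splitRk A a % K = splitRk A a' % K) : a + 1 ≤ a' := by
  by_contra hc
  push Not at hc
  have h1 := splitRk_lt A ha h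
  have h2 : splitRk A a + K ≤ splitRk A a' := by
    have hd : K ∣ splitRk A a' - splitRk A a := (Nat.modEq_iff_dvd' h1.le).1 hr
    have := Nat.le_of_dvd (by omega) hd
    omega
  have h3 := splitRk_card A ha' h
  have h4 : (A.filter (fun x => a ≤ x ∧ x ≤ a')).card ≤ K := by
    refine le_trans (Finset.card_le_card ?_) (hA a)
    intro x hx
    rw [Finset.mem_filter] at hx ⊢
    exact ⟨hx.1, hx.2.1, lt_of_le_of_lt hx.2.2 hc⟩
  omega

lemma splitRk_image (A : Finset ℝ) : A.image (splitRk A) = Finset.range A.card := by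
  apply Finset.eq_of_subset_of_card_le
  · intro i hi
    rw [Finset.mem_image] at hi
    obtain ⟨a, ha, rfl⟩ := hi
    rw [Finset.mem_range]
    unfold splitRk
    apply Finset.card_lt_card
    rw [Finset.ssubset_iff_of_subset (Finset.filter_subset _ _)]
    exact ⟨a, ha, by simp⟩
  · rw [Finset.card_range, Finset.card_image_of_injOn]
    intro a ha a' ha' h
    rcases lt_trichotomy a a' with h1 | h1 | h1
    · exact absurd h (splitRk_lt A ha h1).ne
    · exact h1
    · exact absurd h (splitRk_lt A ha' h1).ne'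

lemma split_count (N K j : ℕ) (hK : 1 ≤ K) (hj : j < K) :
    N ≤ K * (((Finset.range N).filter (fun i => i % K = j)).card + 1) := by
  have h1 : N / K ≤ ((Finset.range N).filter (fun i => i % K = j)).card := by
    have h2 : ((Finset.range (N / K)).image (fun q => K * q + j)) ⊆
        (Finset.range N).filter (fun i => i % K = j) := by
      intro i hi
      rw [Finset.mem_image] at hi
      obtain ⟨q, hq, rfl⟩ := hi
      rw [Finset.mem_range] at hq
      rw [Finset.mem_filter, Finset.mem_range, Nat.mul_add_mod, Nat.mod_eq_of_lt hj]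
      refine ⟨?_, rfl⟩
      have h3 : K * (q + 1) ≤ K * (N / K) := Nat.mul_le_mul_left K hq
      have h4 : K * (N / K) ≤ N := Nat.mul_div_le N K
      rw [Nat.mul_add] at h3
      omega
    have h3 := Finset.card_le_card h2
    rw [Finset.card_image_of_injective, Finset.card_range] at h3
    · exact h3
    · intro q q' h
      have h' : K * q = K * q' := by simpa using h
      exact Nat.eq_of_mul_eq_mul_left hK h'
  have h2 : N < K * (N / K + 1) := by
    have := Nat.div_add_mod N K
    have := Nat.mod_lt N hK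
    rw [Nat.mul_add]
    omega
  exact h2.le.trans (Nat.mul_le_mul_left K (by omega))

theorem split_sep (A : Finset ℝ) (K : ℕ) (hK : 1 ≤ K)
    (hA : ∀ x : ℝ, (A.filter (fun a => x ≤ a ∧ a < x + 1)).card ≤ K) :
    ∃ f : ℝ → ℕ, (∀ a ∈ A, f a < K) ∧ ∀ j < K, SepR (A.filter (fun a => f a = j)) ∧
      A.card ≤ K * ((A.filter (fun a => f a = j)).card + 1) := by
  refine ⟨fun a => splitRk A a % K, fun a _ => Nat.mod_lt _ hK, fun j hj => ⟨?_, ?_⟩⟩
  · intro a ha a' ha' hne
    rw [Finset.mem_filter] at ha ha'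
    rcases lt_or_gt_of_ne hne with h | h
    · have h1 := split_lt A K hA ha.1 ha'.1 h (ha.2.trans ha'.2.symm)
      rw [abs_sub_comm, abs_of_pos (by linarith)]
      linarith
    · have h1 := split_lt A K hA ha'.1 ha.1 h (ha'.2.trans ha.2.symm)
      rw [abs_of_pos (by linarith)]
      linarith
  · refine (split_count A.card K j hK hj).trans (Nat.mul_le_mul_left K
      (Nat.add_le_add_right ?_ 1))
    have h1 : (Finset.range A.card).filter (fun i => i % K = j) =
        (A.filter (fun a => splitRk A a % K = j)).image (splitRk A) := by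
      rw [← splitRk_image A]
      ext i
      simp only [Finset.mem_filter, Finset.mem_image]
      constructor
      · rintro ⟨⟨a, ha, rfl⟩, h⟩
        exact ⟨a, ⟨ha, h⟩, rfl⟩
      · rintro ⟨a, ⟨ha, h⟩, rfl⟩
        exact ⟨⟨a, ha, rfl⟩, h⟩
    rw [h1]
    exact Finset.card_image_le

end Pool.Agent.H74.ZS
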