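import Pool.Agent.H74.ZS.CntT
import Pool.Agent.H74.ZS.Split

/-!
# The theorem for sets with at most `K` points in intervals of length one

`zs_main`: let `f`, `g` be the functions of `split_sep` for `A`, `B`; `A_i`, `B_j` the classes.  Suppose `K³ T^(2+ε) ≤ |A||B|²`.
`|A| ≤ K (2T + 2)`, `|B| ≤ K(2T+2)` if `A`, `B` nonempty (diameter `≤ T`, cover by intervals; or: `A_i` separated of diameter
`≤ T`, `zs_card_le`), so `|A| |B|² ≥ K³ T^(2+ε)` gives `|A| ≥ K T^ε/16 ≥ 2K`, `|B| ≥ 2 K` for large `T` (`|A| ≥ K³ T^(2+ε)/|B|²`).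
Then `|A_i| + 1 ≥ |A|/K ≥ 2`, so `|A_i| ≥ |A|/(2K)`, `|B_j| ≥ |B|/(2K)` and
`|A_i||B_j|² ≥ |A||B|²/(8K³) ≥ T^(2+ε)/8 ≥ T^(2+ε/2)` for `T^(ε/2) ≥ 8`.  `zs_count_sep'` with `ε/2` gives
`c |A_i||B_j| ≤ |S ∩ (A_i × B_j)|` for all `i, j < K`; sum over `i, j` (`Finset.card_eq_sum_card_fiberwise`):
`c |A||B| ≤ |S|`.  If `A` or `B` is empty then `|A||B|² = 0`, which contradicts `K ≥ 1`; if `K = 0` then `A = ∅` and the claim is
`0 ≤ |S|`.
-/

namespace Pool.Agent.H74.ZS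

open Finset
open scoped Real

/-- the classes of a function with values below `K` -/
lemma finT_card (A : Finset ℝ) (K : ℕ) (f : ℝ → ℕ) (hf : ∀ a ∈ A, f a < K) :
    (A.card : ℝ) = ∑ i ∈ range K, ((A.filter (fun a => f a = i)).card : ℝ) := by
  have h := Finset.card_eq_sum_card_fiberwise (s := A) (t := range K) (f := f)
    (fun a ha => by
      rw [Finset.mem_coe] at ha ⊢
      exact mem_range.2 (hf a ha))
  rw [h]
  push_cast
  rfl

lemma finT_upper {T : ℝ} (hT : 1 ≤ T) (A : Finset ℝ) (K : ℕ) (f : ℝ → ℕ) (hf : ∀ a ∈ A, f a < K)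
    (hs : ∀ j < K, SepR (A.filter (fun a => f a = j)))
    (hd : ∀ a ∈ A, ∀ a' ∈ A, |a - a'| ≤ T) : (A.card : ℝ) ≤ K * (4 * T) := by
  rw [finT_card A K f hf]
  calc ∑ i ∈ range K, ((A.filter (fun a => f a = i)).card : ℝ) ≤ ∑ i ∈ range K, (4 * T) := by
        refine Finset.sum_le_sum fun i hi => ?_
        have h1 := zs_card_le (by linarith : (0 : ℝ) ≤ T) (A.filter (fun a => f a = i))
          (hs i (mem_range.1 hi)) (fun a ha a' ha' =>
            hd a (Finset.mem_filter.1 ha).1 a' (Finset.mem_filter.1 ha').1)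
        linarith
    _ = K * (4 * T) := by rw [sum_const, card_range, nsmul_eq_mul]

theorem zs_main (ε : ℝ) (hε : 0 < ε) : ∃ c T0 : ℝ, 0 < c ∧ ∀ T : ℝ, T0 ≤ T →
    ∀ (K : ℕ) (A B : Finset ℝ),
    (∀ x : ℝ, (A.filter (fun a => x ≤ a ∧ a < x + 1)).card ≤ K) →
    (∀ x : ℝ, (B.filter (fun b => x ≤ b ∧ b < x + 1)).card ≤ K) →
    (∀ a ∈ A, ∀ b ∈ B, T ≤ a + b ∧ a + b ≤ 2 * T) →
    (K : ℝ) ^ 3 * T ^ (2 + ε) ≤ (A.card : ℝ) * (B.card : ℝ) ^ 2 →
    ∀ S : Finset (ℝ × ℝ), (∀ x ∈ A ×ˢ B,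
      riemannZeta (1 / 2 + ((x.1 + x.2 : ℝ) : ℂ) * Complex.I) ≠ 0 → x ∈ S) →
    c * ((A.card : ℝ) * B.card) ≤ (S.card : ℝ) := by
  obtain ⟨c, T0, hc, hmain⟩ := zs_count_sep' (ε / 2) (by positivity)
  refine ⟨c, max T0 (max 1 ((64 : ℝ) ^ (2 / ε))), hc, ?_⟩
  intro T hT K A B hA hB hAB hsize S hS
  have hT0 : T0 ≤ T := (le_max_left _ _).trans hT
  have hT1 : 1 ≤ T := (le_max_left _ _).trans ((le_max_right _ _).trans hT)
  have hT2 : (64 : ℝ) ^ (2 / ε) ≤ T := (le_max_right _ _).trans ((le_max_right _ _).trans hT)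
  have hTpos : 0 < T := by linarith
  have hTe : (64 : ℝ) ≤ T ^ (ε / 2) := by
    have h1 : ((64 : ℝ) ^ (2 / ε)) ^ (ε / 2) ≤ T ^ (ε / 2) :=
      Real.rpow_le_rpow (by positivity) hT2 (by positivity)
    rw [← Real.rpow_mul (by norm_num), show 2 / ε * (ε / 2) = 1 by field_simp, Real.rpow_one] at h1
    exact h1
  rcases Nat.eq_zero_or_pos K with hK | hK
  · have hAe : A = ∅ := by
      rw [Finset.eq_empty_iff_forall_notMem]
      intro a ha
      have h1 := hA a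
      rw [hK, Nat.le_zero, Finset.card_eq_zero, Finset.filter_eq_empty_iff] at h1
      exact h1 ha ⟨le_rfl, by linarith⟩
    rw [hAe]
    simp
  have hKr : (1 : ℝ) ≤ K := by exact_mod_cast hK
  have hKpos : (0 : ℝ) < K := by linarith
  have hTT : 0 < T ^ (2 + ε) := Real.rpow_pos_of_pos hTpos _
  have hpos : 0 < (A.card : ℝ) * (B.card : ℝ) ^ 2 := lt_of_lt_of_le (by positivity) hsize
  have hAne : A.Nonempty := by
    rw [Finset.nonempty_iff_ne_empty]
    rintro rfl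
    simp at hpos
  have hBne : B.Nonempty := by
    rw [Finset.nonempty_iff_ne_empty]
    rintro rfl
    simp at hpos
  have hAc : (0 : ℝ) < A.card := by exact_mod_cast hAne.card_pos
  have hBc : (0 : ℝ) < B.card := by exact_mod_cast hBne.card_pos
  obtain ⟨a0, ha0⟩ := hAne
  obtain ⟨b0, hb0⟩ := hBne
  have hdA : ∀ a ∈ A, ∀ a' ∈ A, |a - a'| ≤ T := by
    intro a ha a' ha'
    have h1 := hAB a ha b0 hb0
    have h2 := hAB a' ha' b0 hb0
    rw [abs_le]
    constructor <;> linarith [h1.1, h1.2, h2.1, h2.2]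
  have hdB : ∀ b ∈ B, ∀ b' ∈ B, |b - b'| ≤ T := by
    intro b hb b' hb'
    have h1 := hAB a0 ha0 b hb
    have h2 := hAB a0 ha0 b' hb'
    rw [abs_le]
    constructor <;> linarith [h1.1, h1.2, h2.1, h2.2]
  obtain ⟨f, hf, hf2⟩ := split_sep A K hK hA
  obtain ⟨g, hg, hg2⟩ := split_sep B K hK hB
  have hAu := finT_upper hT1 A K f hf (fun j hj => (hf2 j hj).1) hdA
  have hBu := finT_upper hT1 B K g hg (fun j hj => (hg2 j hj).1) hdB
  -- lower bounds for the cardinalities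
  have e1 : T ^ (2 + ε) = T ^ 2 * T ^ ε := by
    rw [Real.rpow_add hTpos]
    norm_cast
  have e2 : T ^ ε = T ^ (ε / 2) * T ^ (ε / 2) := by
    rw [← Real.rpow_add hTpos]
    congr 1
    ring
  have hTe2 : (64 : ℝ) ≤ T ^ ε := by
    rw [e2]
    nlinarith
  have hA2 : 2 * (K : ℝ) ≤ A.card := by
    by_contra hcon
    rw [not_le] at hcon
    have h1 : (A.card : ℝ) * (B.card : ℝ) ^ 2 < 2 * K * (K * (4 * T)) ^ 2 := by
      calc (A.card : ℝ) * (B.card : ℝ) ^ 2 < (2 * K) * (B.card : ℝ) ^ 2 :=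
            mul_lt_mul_of_pos_right hcon (by positivity)
        _ ≤ (2 * K) * (K * (4 * T)) ^ 2 := by gcongr
    have h2 : (K : ℝ) ^ 3 * T ^ (2 + ε) ≥ (K : ℝ) ^ 3 * T ^ 2 * 64 := by
      rw [e1, ← mul_assoc]
      gcongr
    have h3 : 2 * (K : ℝ) * (K * (4 * T)) ^ 2 = (K : ℝ) ^ 3 * T ^ 2 * 32 := by ring
    have h4 : 0 < (K : ℝ) ^ 3 * T ^ 2 := by positivity
    linarith
  have hB2 : 2 * (K : ℝ) ≤ B.card := by
    by_contra hcon
    rw [not_le] at hcon
    have h1 : (A.card : ℝ) * (B.card : ℝ) ^ 2 ≤ K * (4 * T) * (2 * K) ^ 2 := by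
      gcongr
    have h2 : (K : ℝ) ^ 3 * T ^ (2 + ε) ≥ (K : ℝ) ^ 3 * T ^ 2 * 64 := by
      rw [e1, ← mul_assoc]
      gcongr
    have h3 : (K : ℝ) * (4 * T) * (2 * K) ^ 2 = (K : ℝ) ^ 3 * T * 16 := by ring
    have h4 : (K : ℝ) ^ 3 * T ≤ (K : ℝ) ^ 3 * T ^ 2 := by
      gcongr
      nlinarith
    have h5 : 0 < (K : ℝ) ^ 3 * T := by positivity
    linarith
  have hcl : ∀ i < K, ∀ j < K,
      c * (((A.filter (fun a => f a = i)).card : ℝ) * (B.filter (fun b => g b = j)).card) ≤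
        ((S.filter (fun x => x.1 ∈ A ∧ x.2 ∈ B ∧ (f x.1, g x.2) = (i, j))).card : ℝ) := by
    intro i hi j hj
    have hAi : (A.card : ℝ) ≤ 2 * K * (A.filter (fun a => f a = i)).card := by
      have h1 : (A.card : ℝ) ≤ K * ((A.filter (fun a => f a = i)).card + 1) := by
        exact_mod_cast (hf2 i hi).2
      linarith
    have hBj : (B.card : ℝ) ≤ 2 * K * (B.filter (fun b => g b = j)).card := by
      have h1 : (B.card : ℝ) ≤ K * ((B.filter (fun b => g b = j)).card + 1) := by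
        exact_mod_cast (hg2 j hj).2
      linarith
    refine hmain T hT0 (A.filter (fun a => f a = i)) (B.filter (fun b => g b = j)) (hf2 i hi).1
      (hg2 j hj).1 ?_ ?_ _ ?_
    · intro a ha b hb
      exact hAB a (Finset.mem_filter.1 ha).1 b (Finset.mem_filter.1 hb).1
    · have h1 : (A.card : ℝ) * (B.card : ℝ) ^ 2 ≤
          (2 * K * (A.filter (fun a => f a = i)).card) * (2 * K * (B.filter (fun b => g b = j)).card) ^ 2 := by
        gcongr
      have h2 : (2 * K * ((A.filter (fun a => f a = i)).card : ℝ)) * (2 * K * ((B.filter (fun b => g b = j)).card : ℝ)) ^ 2 =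
          (K : ℝ) ^ 3 * (8 * (((A.filter (fun a => f a = i)).card : ℝ) * ((B.filter (fun b => g b = j)).card : ℝ) ^ 2)) := by
        ring
      have h3 : (K : ℝ) ^ 3 * T ^ (2 + ε) ≤
          (K : ℝ) ^ 3 * (8 * (((A.filter (fun a => f a = i)).card : ℝ) * ((B.filter (fun b => g b = j)).card : ℝ) ^ 2)) := by
        rw [← h2]
        exact hsize.trans h1
      have h4 := le_of_mul_le_mul_left h3 (by positivity)
      have h5 : T ^ (2 + ε) = T ^ (2 + ε / 2) * T ^ (ε / 2) := by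
        rw [← Real.rpow_add hTpos]
        congr 1
        ring
      have h6 : 0 < T ^ (2 + ε / 2) := Real.rpow_pos_of_pos hTpos _
      rw [h5] at h4
      nlinarith
    · intro x hx hz
      rw [Finset.mem_product, Finset.mem_filter, Finset.mem_filter] at hx
      rw [Finset.mem_filter]
      refine ⟨hS x (Finset.mem_product.2 ⟨hx.1.1, hx.2.1⟩) hz, hx.1.1, hx.2.1, ?_⟩
      rw [hx.1.2, hx.2.2]
  have hsum : ∑ p ∈ range K ×ˢ range K,
      ((S.filter (fun x => x.1 ∈ A ∧ x.2 ∈ B ∧ (f x.1, g x.2) = p)).card : ℝ) ≤ (S.card : ℝ) := by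
    have h1 := Finset.card_eq_sum_card_fiberwise (s := S.filter (fun x => x.1 ∈ A ∧ x.2 ∈ B))
      (t := range K ×ˢ range K) (f := fun x : ℝ × ℝ => (f x.1, g x.2)) (fun x hx => by
        rw [Finset.mem_coe, Finset.mem_filter] at hx
        rw [Finset.mem_coe, Finset.mem_product]
        exact ⟨mem_range.2 (hf _ hx.2.1), mem_range.2 (hg _ hx.2.2)⟩)
    have h2 : (S.filter (fun x => x.1 ∈ A ∧ x.2 ∈ B)).card ≤ S.card := Finset.card_filter_le _ _
    have h3 : ∀ p : ℕ × ℕ, S.filter (fun x => x.1 ∈ A ∧ x.2 ∈ B ∧ (f x.1, g x.2) = p) =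
        (S.filter (fun x => x.1 ∈ A ∧ x.2 ∈ B)).filter (fun x => (f x.1, g x.2) = p) := by
      intro p
      rw [Finset.filter_filter]
      refine Finset.filter_congr fun x _ => ?_
      tauto
    simp_rw [h3]
    rw [h1] at h2
    exact_mod_cast h2
  calc c * ((A.card : ℝ) * B.card)
      = ∑ p ∈ range K ×ˢ range K,
          c * (((A.filter (fun a => f a = p.1)).card : ℝ) * (B.filter (fun b => g b = p.2)).card) := by
        rw [finT_card A K f hf, finT_card B K g hg, Finset.sum_mul_sum, Finset.mul_sum,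
          Finset.sum_product]
        refine Finset.sum_congr rfl fun i _ => ?_
        rw [Finset.mul_sum]
    _ ≤ ∑ p ∈ range K ×ˢ range K,
          ((S.filter (fun x => x.1 ∈ A ∧ x.2 ∈ B ∧ (f x.1, g x.2) = p)).card : ℝ) := by
        refine Finset.sum_le_sum fun p hp => ?_
        rw [Finset.mem_product, mem_range, mem_range] at hp
        exact hcl p.1 hp.1 p.2 hp.2
    _ ≤ (S.card : ℝ) := hsum

end Pool.Agent.H74.ZS
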