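import Pool.Agent.H74.PZ.Err2
import Pool.Agent.H74.PZ.Err3
import Pool.Agent.H74.PZ.Form2
import Pool.Agent.H74.ZS.Cd

/-!
# The error terms of the first moment

`zs_err`: `PZ.LFunction_half` with `q = 1`, `χ = 1`, `X = ⌈T'⌉₊` (so `q * X = ⌈T'⌉₊`), `τ = x.1 + x.2`, and
`DirichletCharacter.LFunction_modOne_eq`: the difference is the sum of the two terms treated by `PZ.err2` and `PZ.err3`
(apply them to the images of `A`, `B` under `a ↦ ((1 : DirichletCharacter ℂ 1), a)`; `hh (1, τ) n = nt τ n` as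
`(1 : DirichletCharacter ℂ 1) _ = 1`; `Finset.sum_image`, or write `A ×ˢ`-sums over `A.map`).  For `b ∈ B` let `V2 b`, `V3 b`
be the inner sums over `a ∈ A` with the coefficient `c a`.  The left side is `‖∑_b d b (V2 b + V3 b)‖ ≤
√|B| (∑_b ‖V2 b + V3 b‖²)^(1/2) ≤ √|B| (2 ∑ ‖V2‖² + 2 ∑ ‖V3‖²)^(1/2) ≤ √|B| (2 · 2 T' b² |A| + 2 · 1000 T' |A|)^(1/2)`,
`b = 2 (3 + l)`, `l = log (2T' + 1) ≥ 0`, and `16 (3+l)² + 2000 ≤ 400 (3+l)²`.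
-/

namespace Pool.Agent.H74.ZS

open Finset Pool.Agent.H14.PT Pool.Agent.H74.TS Pool.Agent.H74.PZ
open scoped ComplexConjugate

/-- the point `(1, a)` -/
noncomputable def firE_phi : ℝ ↪ DirichletCharacter ℂ 1 × ℝ :=
  ⟨fun a => (1, a), fun _ _ h => (Prod.ext_iff.1 h).2⟩

theorem firE_sep {S : Finset ℝ} (hS : SepR S) : Sep (S.map firE_phi) := by
  intro p hp p' hp' hne _
  obtain ⟨a, ha, rfl⟩ := Finset.mem_map.1 hp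
  obtain ⟨b, hb, rfl⟩ := Finset.mem_map.1 hp'
  exact hS a ha b hb fun h => hne (by rw [h])

/-- the first error term -/
noncomputable def firE_2 (X : ℕ) (τ : ℝ) : ℂ :=
  PZ.kap ((1 : DirichletCharacter ℂ 1) * 1) * ((Real.sqrt (1 * X : ℕ) : ℂ) *
    PZ.ee τ (Real.log (1 * X : ℕ))) / (-(1 / 2) + ((τ : ℝ) : ℂ) * Complex.I)

/-- the second error term -/
noncomputable def firE_3 (X : ℕ) (τ : ℝ) : ℂ :=
  (1 / 2 + ((τ : ℝ) : ℂ) * Complex.I) *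
    ∑ r : ZMod 1, ((1 : DirichletCharacter ℂ 1) * 1) r *
      ∫ y in Set.Ioi (Real.log (1 * X : ℕ)),
        ((er 1 r (Real.exp y) * Real.exp (-y / 2) : ℝ) : ℂ) * PZ.ee τ y

theorem firE_hh (τ : ℝ) (n : ℕ) :
    hh ((1 : DirichletCharacter ℂ 1), τ) n / (Real.sqrt n : ℂ) =
      nt τ n * (((n : ℝ) ^ (-(1 / 2) : ℝ) : ℝ) : ℂ) := by
  have h1 : hh ((1 : DirichletCharacter ℂ 1), τ) n = nt τ n := by
    unfold hh nt
    simp only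
    rw [Subsingleton.elim (n : ZMod 1) 1, map_one, one_mul]
  rw [h1, div_eq_mul_inv, Real.sqrt_eq_rpow, Real.rpow_neg (Nat.cast_nonneg n),
    Complex.ofReal_inv]

theorem firE_form (X : ℕ) (hX : 1 ≤ X) (τ : ℝ) :
    riemannZeta (1 / 2 + ((τ : ℝ) : ℂ) * Complex.I) -
      ∑ n ∈ Icc 1 X, nt τ n * (((n : ℝ) ^ (-(1 / 2) : ℝ) : ℝ) : ℂ) =
      firE_2 X τ + firE_3 X τ := by
  have h := LFunction_half (q := 1) (1 : DirichletCharacter ℂ 1) X hX τ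
  rw [DirichletCharacter.LFunction_modOne_eq] at h
  rw [h, firE_2, firE_3, mul_one (1 : DirichletCharacter ℂ 1)]
  have h2 : ∑ n ∈ Icc 1 (1 * X), hh ((1 : DirichletCharacter ℂ 1), τ) n / (Real.sqrt n : ℂ) =
      ∑ n ∈ Icc 1 X, nt τ n * (((n : ℝ) ^ (-(1 / 2) : ℝ) : ℝ) : ℂ) := by
    rw [one_mul]
    exact Finset.sum_congr rfl fun n _ => firE_hh τ n
  rw [h2]
  ring

theorem firE_sum2 (A B : Finset ℝ) (hA : SepR A) (hB : SepR B) (T' : ℝ) (hT : 1 ≤ T')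
    (hAT : ∀ a ∈ A, |a| ≤ T') (hBT : ∀ b ∈ B, |b| ≤ T') (c : ℝ → ℂ)
    (hc : ∀ a ∈ A, ‖c a‖ ≤ 1) :
    ∑ b ∈ B, ‖∑ a ∈ A, c a * firE_2 ⌈T'⌉₊ (a + b)‖ ^ 2 ≤
      2 * T' * (2 * (3 + Real.log (2 * T' + 1))) ^ 2 * A.card := by
  have h := err2 (q := 1) (A.map firE_phi) (B.map firE_phi) (firE_sep hA) (firE_sep hB) T' hT
    (fun p hp => by
      obtain ⟨a, ha, rfl⟩ := Finset.mem_map.1 hp
      exact hAT a ha)
    (fun p hp => by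
      obtain ⟨a, ha, rfl⟩ := Finset.mem_map.1 hp
      exact hBT a ha) (fun p => c p.2)
    (fun p hp => by
      obtain ⟨a, ha, rfl⟩ := Finset.mem_map.1 hp
      exact hc a ha)
  simp only [Finset.sum_map, Finset.card_map] at h
  rw [Nat.cast_one, one_mul T'] at h
  exact h

theorem firE_sum3 (A B : Finset ℝ) (hA : SepR A) (hB : SepR B) (T' : ℝ) (hT : 1 ≤ T')
    (hAT : ∀ a ∈ A, |a| ≤ T') (hBT : ∀ b ∈ B, |b| ≤ T') (c : ℝ → ℂ)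
    (hc : ∀ a ∈ A, ‖c a‖ ≤ 1) :
    ∑ b ∈ B, ‖∑ a ∈ A, c a * firE_3 ⌈T'⌉₊ (a + b)‖ ^ 2 ≤ 1000 * T' * A.card := by
  have h := err3 (q := 1) (A.map firE_phi) (B.map firE_phi) (firE_sep hA) (firE_sep hB) T' hT
    (fun p hp => by
      obtain ⟨a, ha, rfl⟩ := Finset.mem_map.1 hp
      exact hAT a ha)
    (fun p hp => by
      obtain ⟨a, ha, rfl⟩ := Finset.mem_map.1 hp
      exact hBT a ha) (fun p => c p.2)
    (fun p hp => by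
      obtain ⟨a, ha, rfl⟩ := Finset.mem_map.1 hp
      exact hc a ha)
  simp only [Finset.sum_map, Finset.card_map] at h
  rw [Nat.cast_one, one_mul T'] at h
  exact h

theorem zs_err (A B : Finset ℝ) (hA : SepR A) (hB : SepR B) (T' : ℝ) (hT : 1 ≤ T')
    (hAT : ∀ a ∈ A, |a| ≤ T') (hBT : ∀ b ∈ B, |b| ≤ T') (c d : ℝ → ℂ) (hc : ∀ a ∈ A, ‖c a‖ ≤ 1)
    (hd : ∀ b ∈ B, ‖d b‖ ≤ 1) :
    ‖∑ x ∈ A ×ˢ B, (c x.1 * d x.2) * (riemannZeta (1 / 2 + ((x.1 + x.2 : ℝ) : ℂ) * Complex.I) -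
      ∑ n ∈ Icc 1 ⌈T'⌉₊, nt (x.1 + x.2) n * (((n : ℝ) ^ (-(1 / 2) : ℝ) : ℝ) : ℂ))‖ ≤
      20 * (3 + Real.log (2 * T' + 1)) * Real.sqrt (T' * ((A.card : ℝ) * B.card)) := by
  have hX : 1 ≤ ⌈T'⌉₊ := Nat.one_le_ceil_iff.2 (by linarith)
  set l : ℝ := Real.log (2 * T' + 1) with hl
  have hl0 : 0 ≤ l := Real.log_nonneg (by linarith)
  set V2 : ℝ → ℂ := fun b => ∑ a ∈ A, c a * firE_2 ⌈T'⌉₊ (a + b) with hV2
  set V3 : ℝ → ℂ := fun b => ∑ a ∈ A, c a * firE_3 ⌈T'⌉₊ (a + b) with hV3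
  have h2 : ∑ b ∈ B, ‖V2 b‖ ^ 2 ≤ 2 * T' * (2 * (3 + l)) ^ 2 * A.card :=
    firE_sum2 A B hA hB T' hT hAT hBT c hc
  have h3 : ∑ b ∈ B, ‖V3 b‖ ^ 2 ≤ 1000 * T' * A.card :=
    firE_sum3 A B hA hB T' hT hAT hBT c hc
  have h4 : ∑ x ∈ A ×ˢ B, (c x.1 * d x.2) *
      (riemannZeta (1 / 2 + ((x.1 + x.2 : ℝ) : ℂ) * Complex.I) -
        ∑ n ∈ Icc 1 ⌈T'⌉₊, nt (x.1 + x.2) n * (((n : ℝ) ^ (-(1 / 2) : ℝ) : ℝ) : ℂ)) =
      ∑ b ∈ B, d b * (V2 b + V3 b) := by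
    rw [Finset.sum_product_right]
    refine Finset.sum_congr rfl fun b _ => ?_
    rw [hV2, hV3]
    simp only
    rw [← Finset.sum_add_distrib, Finset.mul_sum]
    refine Finset.sum_congr rfl fun a _ => ?_
    rw [firE_form _ hX]
    ring
  rw [h4]
  have h5 : ‖∑ b ∈ B, d b * (V2 b + V3 b)‖ ≤ ∑ b ∈ B, ‖V2 b + V3 b‖ := by
    refine (norm_sum_le _ _).trans (Finset.sum_le_sum fun b hb => ?_)
    rw [norm_mul]
    exact mul_le_of_le_one_left (norm_nonneg _) (hd b hb)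
  refine h5.trans ?_
  have h6 : (∑ b ∈ B, ‖V2 b + V3 b‖) ^ 2 ≤ (B.card : ℝ) * ∑ b ∈ B, ‖V2 b + V3 b‖ ^ 2 :=
    sq_sum_le_card_mul_sum_sq
  have h7 : ∑ b ∈ B, ‖V2 b + V3 b‖ ^ 2 ≤ 2 * ∑ b ∈ B, ‖V2 b‖ ^ 2 + 2 * ∑ b ∈ B, ‖V3 b‖ ^ 2 := by
    rw [Finset.mul_sum, Finset.mul_sum, ← Finset.sum_add_distrib]
    refine Finset.sum_le_sum fun b _ => ?_
    have h8 : ‖V2 b + V3 b‖ ≤ ‖V2 b‖ + ‖V3 b‖ := norm_add_le _ _
    nlinarith [norm_nonneg (V2 b + V3 b), norm_nonneg (V2 b), norm_nonneg (V3 b),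
      sq_nonneg (‖V2 b‖ - ‖V3 b‖)]
  have hS0 : 0 ≤ T' * ((A.card : ℝ) * B.card) := by positivity
  have h9 : ∑ b ∈ B, ‖V2 b + V3 b‖ ^ 2 ≤ 400 * (3 + l) ^ 2 * (T' * A.card) := by
    have h10 : (0 : ℝ) ≤ T' * A.card := by positivity
    have h11 : (9 : ℝ) ≤ (3 + l) ^ 2 := by nlinarith
    have h12 : 9 * (T' * (A.card : ℝ)) ≤ (3 + l) ^ 2 * (T' * A.card) :=
      mul_le_mul_of_nonneg_right h11 h10
    nlinarith
  have h13 : (∑ b ∈ B, ‖V2 b + V3 b‖) ^ 2 ≤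
      (20 * (3 + l) * Real.sqrt (T' * ((A.card : ℝ) * B.card))) ^ 2 := by
    rw [mul_pow, Real.sq_sqrt hS0]
    refine h6.trans ?_
    have h14 := mul_le_mul_of_nonneg_left h9 (Nat.cast_nonneg (α := ℝ) B.card)
    refine h14.trans (le_of_eq ?_)
    ring
  exact (pow_le_pow_iff_left₀ (Finset.sum_nonneg fun _ _ => norm_nonneg _) (by positivity)
    two_ne_zero).1 h13

end Pool.Agent.H74.ZS
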