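import Pool.Agent.H74.ZS.FirE

/-!
# The mollified error terms and the main term of the first moment

`zs_err_moll`: insert `Mt Mf w (x.1 + x.2) = ∑_m w m m^(-1/2) nt x.1 m nt x.2 m` (`nt_add`) and use `zs_err` for each `m` with
`c a = nt a m`, `d b = nt b m`; `|w m m^(-1/2)| ≤ 1` and `|Mf| ≤ Y` (see `norm_Mt_le` in `Cd.lean`).

`zs_main_sum`: exchange of finite sums, `nt_add`, `nt_mul`, `Finset.sum_product`, `Finset.sum_mul_sum`; `fg A (fun _ => 1) (x, 1) = ∑_a nt a x`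
(`nt_one`); for `i.2 ≥ 1`, `i.1 ≠ 0`: `(i.1 i.2)^(-1/2) = i.1^(-1/2) i.2^(-1/2)` (`Real.mul_rpow`).
-/

namespace Pool.Agent.H74.ZS

open Finset Pool.Agent.H14.PT Pool.Agent.H74.TS Pool.Agent.H74.PZ
open scoped ComplexConjugate

theorem zs_err_moll (A B : Finset ℝ) (hA : SepR A) (hB : SepR B) (T' : ℝ) (hT : 1 ≤ T')
    (hAT : ∀ a ∈ A, |a| ≤ T') (hBT : ∀ b ∈ B, |b| ≤ T') (Mf : Finset ℕ) (w : ℕ → ℝ) (Y : ℕ)
    (hM : ∀ m ∈ Mf, 1 ≤ m ∧ m ≤ Y) (hw : ∀ m, |w m| ≤ 1) :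
    ‖∑ x ∈ A ×ˢ B, Mt Mf w (x.1 + x.2) *
      (riemannZeta (1 / 2 + ((x.1 + x.2 : ℝ) : ℂ) * Complex.I) -
      ∑ n ∈ Icc 1 ⌈T'⌉₊, nt (x.1 + x.2) n * (((n : ℝ) ^ (-(1 / 2) : ℝ) : ℝ) : ℂ))‖ ≤
      Y * (20 * (3 + Real.log (2 * T' + 1)) * Real.sqrt (T' * ((A.card : ℝ) * B.card))) := by
  set Z : ℝ × ℝ → ℂ := fun x => riemannZeta (1 / 2 + ((x.1 + x.2 : ℝ) : ℂ) * Complex.I) -
      ∑ n ∈ Icc 1 ⌈T'⌉₊, nt (x.1 + x.2) n * (((n : ℝ) ^ (-(1 / 2) : ℝ) : ℝ) : ℂ) with hZ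
  set E : ℝ := 20 * (3 + Real.log (2 * T' + 1)) * Real.sqrt (T' * ((A.card : ℝ) * B.card)) with hE
  have hE0 : 0 ≤ E := by
    have : 0 ≤ Real.log (2 * T' + 1) := Real.log_nonneg (by linarith)
    positivity
  change ‖∑ x ∈ A ×ˢ B, Mt Mf w (x.1 + x.2) * Z x‖ ≤ Y * E
  have h1 : ∑ x ∈ A ×ˢ B, Mt Mf w (x.1 + x.2) * Z x =
      ∑ m ∈ Mf, ((w m * (m : ℝ) ^ (-(1 / 2) : ℝ) : ℝ) : ℂ) *
        ∑ x ∈ A ×ˢ B, (nt x.1 m * nt x.2 m) * Z x := by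
    simp only [Finset.mul_sum]
    rw [Finset.sum_comm]
    refine Finset.sum_congr rfl fun x _ => ?_
    unfold Mt
    rw [Finset.sum_mul]
    refine Finset.sum_congr rfl fun m _ => ?_
    rw [nt_add]
    ring
  rw [h1]
  refine (norm_sum_le _ _).trans ?_
  have h2 : ∀ m ∈ Mf, ‖((w m * (m : ℝ) ^ (-(1 / 2) : ℝ) : ℝ) : ℂ) *
      ∑ x ∈ A ×ˢ B, (nt x.1 m * nt x.2 m) * Z x‖ ≤ E := by
    intro m hm
    have h3 := zs_err A B hA hB T' hT hAT hBT (fun a => nt a m) (fun b => nt b m)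
      (fun a _ => (norm_nt a m).le) (fun b _ => (norm_nt b m).le)
    have h4 : ‖((w m * (m : ℝ) ^ (-(1 / 2) : ℝ) : ℝ) : ℂ)‖ ≤ 1 := by
      rw [Complex.norm_real, Real.norm_eq_abs, abs_mul,
        abs_of_nonneg (by positivity : (0 : ℝ) ≤ (m : ℝ) ^ (-(1 / 2) : ℝ))]
      have h5 : (m : ℝ) ^ (-(1 / 2) : ℝ) ≤ 1 :=
        Real.rpow_le_one_of_one_le_of_nonpos (by exact_mod_cast (hM m hm).1) (by norm_num)
      exact mul_le_one₀ (hw m) (by positivity) h5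
    rw [norm_mul]
    calc _ ≤ 1 * E := mul_le_mul h4 h3 (norm_nonneg _) zero_le_one
      _ = E := one_mul E
  refine (Finset.sum_le_sum h2).trans ?_
  rw [Finset.sum_const, nsmul_eq_mul]
  refine mul_le_mul_of_nonneg_right ?_ hE0
  have h3 : Mf ⊆ Icc 1 Y := fun m hm => Finset.mem_Icc.mpr (hM m hm)
  have h4 := Finset.card_le_card h3
  rw [Nat.card_Icc] at h4
  exact_mod_cast (by omega : Mf.card ≤ Y)

lemma firF_fg (A : Finset ℝ) (m : ℕ) : fg A (fun _ => 1) (m, 1) = ∑ a ∈ A, nt a m := by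
  unfold fg
  refine Finset.sum_congr rfl fun a _ => ?_
  rw [nt_one, map_one, mul_one, one_mul]

theorem zs_main_sum (A B : Finset ℝ) (Mf : Finset ℕ) (w : ℕ → ℝ) (hM : ∀ m ∈ Mf, m ≠ 0) (X : ℕ) :
    ∑ x ∈ A ×ˢ B, Mt Mf w (x.1 + x.2) *
      ∑ n ∈ Icc 1 X, nt (x.1 + x.2) n * (((n : ℝ) ^ (-(1 / 2) : ℝ) : ℝ) : ℂ) =
    ∑ i ∈ Mf ×ˢ Icc 1 X, ((w i.1 * (((i.1 * i.2 : ℕ) : ℝ)) ^ (-(1 / 2) : ℝ) : ℝ) : ℂ) *
      (fg A (fun _ => 1) (i.1 * i.2, 1) * fg B (fun _ => 1) (i.1 * i.2, 1)) := by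
  have h1 : ∀ i ∈ Mf ×ˢ Icc 1 X,
      ((w i.1 * (((i.1 * i.2 : ℕ) : ℝ)) ^ (-(1 / 2) : ℝ) : ℝ) : ℂ) *
      (fg A (fun _ => 1) (i.1 * i.2, 1) * fg B (fun _ => 1) (i.1 * i.2, 1)) =
      ∑ x ∈ A ×ˢ B, (((w i.1 * (i.1 : ℝ) ^ (-(1 / 2) : ℝ) : ℝ) : ℂ) * nt (x.1 + x.2) i.1) *
        (nt (x.1 + x.2) i.2 * (((i.2 : ℝ) ^ (-(1 / 2) : ℝ) : ℝ) : ℂ)) := by
    intro i hi
    rw [Finset.mem_product] at hi
    have hi1 : i.1 ≠ 0 := hM _ hi.1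
    have hi2 : i.2 ≠ 0 := by
      have := (Finset.mem_Icc.1 hi.2).1
      omega
    rw [firF_fg, firF_fg, Finset.sum_mul_sum, ← Finset.sum_product', Finset.mul_sum]
    refine Finset.sum_congr rfl fun x _ => ?_
    have h2 : (((i.1 * i.2 : ℕ) : ℝ)) ^ (-(1 / 2) : ℝ) =
        (i.1 : ℝ) ^ (-(1 / 2) : ℝ) * (i.2 : ℝ) ^ (-(1 / 2) : ℝ) := by
      rw [Nat.cast_mul, Real.mul_rpow (Nat.cast_nonneg _) (Nat.cast_nonneg _)]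
    rw [h2, nt_mul _ hi1 hi2, nt_mul _ hi1 hi2, nt_add, nt_add]
    push_cast
    ring
  rw [Finset.sum_congr rfl h1, Finset.sum_comm]
  refine Finset.sum_congr rfl fun x _ => ?_
  unfold Mt
  rw [Finset.sum_mul_sum, ← Finset.sum_product']

end Pool.Agent.H74.ZS
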