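import Pool.Agent.H14.PT.S1b

/-!
# The main term of the first moment

`wmain_t`: this is `wmain_term` of `Pool/Agent/H74/TS/FirM.lean` with `Icc 1 (q - 1)` replaced by `Icc 1 X`, `Y ≤ X` (instead of
`Y < q`); copy the proof (`hqp.two_le` is used only for `1 ≤ X`, and `x ≤ Y < q` becomes `x ≤ Y ≤ X`).
-/

namespace Pool.Agent.H74.ZS

open Finset Pool.Agent.H14.PT
open scoped ComplexConjugate Real

theorem wmain_t (z Y X : ℕ) (U : ℝ) (hY2 : 2 ≤ Y) (hUY : U ≤ Y) (hYX : Y ≤ X)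
    (c : ℕ → ℂ) (hc : c 1 = 1) (P : Finset ℕ)
    (hP : ∀ x, x ∈ P ↔ ∃ m ∈ MfS z Y Y, ∃ k ∈ Icc 1 X, x = m * k)
    [DecidablePred fun x : ℕ => (x : ℝ) ≤ U ∧ ∃ r, r.Prime ∧ r ≤ z ∧ r ∣ x] :
    ‖∑ i ∈ MfS z Y Y ×ˢ Icc 1 X,
        ((wS z Y Y i.1 * (((i.1 * i.2 : ℕ) : ℝ)) ^ (-(1 / 2) : ℝ) : ℝ) : ℂ) * c (i.1 * i.2) - 1‖ ≤
      ∑ x ∈ (P.erase 1).filter (fun x : ℕ => ¬ ((x : ℝ) ≤ U ∧ ∃ r, r.Prime ∧ r ≤ z ∧ r ∣ x)),
        ‖c x‖ * T0 (x, 1) := by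
  classical
  set I := MfS z Y Y ×ˢ Icc 1 X with hI
  have hX1 : 1 ≤ X := by omega
  have hmem : ∀ i ∈ I, (1 ≤ i.1 ∧ i.1 ∈ MfS z Y Y) ∧ (1 ≤ i.2 ∧ i.2 ≤ X) := by
    intro i hi
    obtain ⟨h3, h4⟩ := Finset.mem_product.mp hi
    exact ⟨⟨(MfS_bounds h3).1, h3⟩, Finset.mem_Icc.mp h4⟩
  have hmaps : ∀ i ∈ I, i.1 * i.2 ∈ P := by
    intro i hi
    obtain ⟨⟨_, h1⟩, h2⟩ := hmem i hi
    exact (hP _).mpr ⟨i.1, h1, i.2, Finset.mem_Icc.mpr h2, rfl⟩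
  set β : ℕ → ℝ := fun x => ∑ i ∈ I.filter (fun i => i.1 * i.2 = x), wS z Y Y i.1 with hβ
  have hsum : ∑ i ∈ I, ((wS z Y Y i.1 * (((i.1 * i.2 : ℕ) : ℝ)) ^ (-(1 / 2) : ℝ) : ℝ) : ℂ) *
          c (i.1 * i.2) =
      ∑ x ∈ P, ((β x * (x : ℝ) ^ (-(1 / 2) : ℝ) : ℝ) : ℂ) * c x := by
    rw [← Finset.sum_fiberwise_of_maps_to hmaps]
    refine Finset.sum_congr rfl fun x _ => ?_
    simp only [hβ]
    rw [Finset.sum_mul]
    push_cast
    rw [Finset.sum_mul]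
    refine Finset.sum_congr rfl fun i hi => ?_
    have := (Finset.mem_filter.mp hi).2
    rw [← this]
    push_cast
    ring
  have h11 : ((1, 1) : ℕ × ℕ) ∈ I := by
    rw [hI, Finset.mem_product]
    refine ⟨one_mem_MfS (by omega) hY2, Finset.mem_Icc.mpr ⟨le_rfl, hX1⟩⟩
  have h1P : 1 ∈ P := by
    have := hmaps _ h11
    simpa using this
  have hβ1 : β 1 = 1 := by
    simp only [hβ]
    have : I.filter (fun i => i.1 * i.2 = 1) = {((1, 1) : ℕ × ℕ)} := by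
      ext i
      rw [Finset.mem_filter, Finset.mem_singleton]
      constructor
      · rintro ⟨_, h⟩
        have h' : i.1 = 1 := Nat.dvd_one.mp ⟨i.2, h.symm⟩
        have h'' : i.2 = 1 := Nat.dvd_one.mp ⟨i.1, by rw [mul_comm]; exact h.symm⟩
        exact Prod.ext h' h''
      · rintro rfl
        exact ⟨h11, by simp⟩
    rw [this, Finset.sum_singleton]
    exact wS_one (by omega) hY2
  rw [hsum, ← Finset.add_sum_erase _ _ h1P, hβ1]
  have e1 : ((1 * ((1 : ℕ) : ℝ) ^ (-(1 / 2) : ℝ) : ℝ) : ℂ) * c 1 = 1 := by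
    simp [hc]
  rw [e1, add_sub_cancel_left]
  have hP0 : ∀ x ∈ P, x ≠ 0 := by
    intro x hx
    obtain ⟨m, hm, k, hk, rfl⟩ := (hP x).mp hx
    exact Nat.mul_ne_zero (by have := (MfS_bounds hm).1; omega)
      (by have := (Finset.mem_Icc.mp hk).1; omega)
  -- vanishing
  have hvan : ∀ x ∈ P.erase 1, ((x : ℝ) ≤ U ∧ ∃ r, r.Prime ∧ r ≤ z ∧ r ∣ x) → β x = 0 := by
    rintro x hx ⟨hxU, r, hr, hrz, hrx⟩
    have hxP := Finset.mem_of_mem_erase hx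
    have hx0 := hP0 x hxP
    have hxY : x ≤ Y := by exact_mod_cast hxU.trans hUY
    rw [← beta_zero (z := z) hx0 hxY hr hrz hrx, ← Finset.sum_filter]
    simp only [hβ]
    refine Finset.sum_bij' (fun i _ => i.1) (fun m _ => (m, x / m)) ?_ ?_ ?_ ?_ ?_
    · intro i hi
      obtain ⟨h1, h2⟩ := Finset.mem_filter.mp hi
      exact Finset.mem_filter.mpr ⟨(hmem i h1).1.2, ⟨i.2, h2.symm⟩⟩
    · intro m hm
      obtain ⟨h1, h2⟩ := Finset.mem_filter.mp hm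
      have hm1 := (MfS_bounds h1).1
      have h3 : m * (x / m) = x := Nat.mul_div_cancel' h2
      have h4 : m ≤ x := Nat.le_of_dvd (Nat.pos_of_ne_zero hx0) h2
      have h5 : 0 < x / m := Nat.div_pos h4 (by omega)
      have h6 : x / m ≤ x := Nat.div_le_self _ _
      refine Finset.mem_filter.mpr ⟨?_, h3⟩
      rw [hI, Finset.mem_product]
      refine ⟨h1, Finset.mem_Icc.mpr ⟨by omega, ?_⟩⟩
      show x / m ≤ X
      omega
    · intro i hi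
      obtain ⟨h1, h2⟩ := Finset.mem_filter.mp hi
      have hm1 := (hmem i h1).1.1
      refine Prod.ext rfl ?_
      show x / i.1 = i.2
      rw [← h2]
      exact Nat.mul_div_cancel_left _ (by omega)
    · intro m _; rfl
    · intro i _; rfl
  have hle : ∀ x ∈ P.erase 1, |β x| ≤ (x.divisors.card : ℝ) := by
    intro x hx
    have hx0 := hP0 x (Finset.mem_of_mem_erase hx)
    simp only [hβ]
    refine (Finset.abs_sum_le_sum_abs _ _).trans ?_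
    calc _ ≤ ∑ _i ∈ I.filter (fun i => i.1 * i.2 = x), (1 : ℝ) :=
          Finset.sum_le_sum fun i _ => abs_wS_le hY2 _
      _ = ((I.filter (fun i => i.1 * i.2 = x)).card : ℝ) := by simp
      _ ≤ _ := by exact_mod_cast card_filter_mul_eq_le I x hx0
  refine (norm_sum_le _ _).trans ?_
  rw [Finset.sum_filter]
  refine Finset.sum_le_sum fun x hx => ?_
  rw [norm_mul, Complex.norm_real, Real.norm_eq_abs, abs_mul,
    abs_of_nonneg (by positivity : (0 : ℝ) ≤ (x : ℝ) ^ (-(1 / 2) : ℝ))]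
  by_cases hc : ((x : ℝ) ≤ U ∧ ∃ r, r.Prime ∧ r ≤ z ∧ r ∣ x)
  · rw [if_neg (not_not.mpr hc), hvan x hx hc]
    simp
  · rw [if_pos hc]
    unfold T0
    simp only [mul_one]
    have h2 := hle x hx
    calc |β x| * (x : ℝ) ^ (-(1 / 2) : ℝ) * ‖c x‖
        ≤ (x.divisors.card : ℝ) * (x : ℝ) ^ (-(1 / 2) : ℝ) * ‖c x‖ := by gcongr
      _ = _ := by ring

end Pool.Agent.H74.ZS
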