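import Pool.Agent.H74.ZS.Cd
import Pool.Agent.H74.ZS.SecA

/-!
# The twisted second moment over a product set

`wmoment_t`: as `wmoment_le` of `Pool/Agent/H74/TS/Mom.lean` (the character `x.1 * x.2` is replaced by
the height `x.1 + x.2`, `χ(a) conj χ(b)` by `nt t a * conj (nt t b)`), without the problem of units:
`nt` is completely multiplicative on nonzero numbers and `nt_conj` holds always.

`mollified_t`: as `mollified_term` of `Pool/Agent/H14/PT/DN.lean` (all numbers occurring are nonzero by `hM`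
and `mem_hyp`; `nt_mul`).  `sum_pairs_t`: `Finset.sum_product`, `nt_add`.  `fg_red`: `nt_mul`, `nt_conj`.
-/

namespace Pool.Agent.H74.ZS

open Finset Pool.Agent.H14.PT Pool.Agent.H74.TS Pool.Agent.H74.PZ
open scoped ComplexConjugate

theorem sum_pairs_t (A B : Finset ℝ) (c d : ℝ → ℂ) (a b : ℕ) :
    ∑ x ∈ A ×ˢ B, (c x.1 * d x.2) * (nt (x.1 + x.2) a * conj (nt (x.1 + x.2) b)) =
      fg A c (a, b) * fg B d (a, b) := by
  unfold fg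
  rw [Finset.sum_mul_sum, Finset.sum_product]
  refine Finset.sum_congr rfl fun x _ => Finset.sum_congr rfl fun y _ => ?_
  simp only [nt_add, map_mul]
  ring

theorem fg_red (A : Finset ℝ) (c : ℝ → ℂ) (a b t : ℕ) (ha : a ≠ 0) (hb : b ≠ 0) (ht : t ≠ 0) :
    fg A c (a * t, b * t) = fg A c (a, b) := by
  unfold fg
  refine Finset.sum_congr rfl fun x _ => ?_
  simp only
  rw [nt_mul x ha ht, nt_mul x hb ht, map_mul]
  have h := nt_conj x t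
  linear_combination (c x * nt x a * conj (nt x b)) * h

theorem mollified_t (Mf : Finset ℕ) (w : ℕ → ℝ) (hM : ∀ m ∈ Mf, m ≠ 0) (t : ℝ) (N : ℕ) :
    ((‖Mt Mf w t‖ ^ 2 : ℝ) : ℂ) * TTt t N =
      ∑ i ∈ quads Mf N, ((qw w i : ℝ) : ℂ) *
        (nt t (i.1.1 * i.2.1) * conj (nt t (i.1.2 * i.2.2))) := by
  have h1 : ((‖Mt Mf w t‖ ^ 2 : ℝ) : ℂ) = Mt Mf w t * conj (Mt Mf w t) := by
    rw [Complex.mul_conj, Complex.normSq_eq_norm_sq]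
  rw [h1]
  unfold quads
  rw [Finset.sum_product, Finset.sum_product]
  unfold Mt TTt
  rw [map_sum, Finset.sum_mul_sum, Finset.sum_mul]
  refine Finset.sum_congr rfl fun m hm => ?_
  rw [Finset.sum_mul]
  refine Finset.sum_congr rfl fun m' hm' => ?_
  rw [Finset.mul_sum]
  refine Finset.sum_congr rfl fun n hn => ?_
  obtain ⟨n1, n2, _⟩ := mem_hyp.mp hn
  unfold qw
  simp only
  have h2 : (((m * m' * (n.1 * n.2) : ℕ) : ℝ)) ^ (-(1 / 2) : ℝ) =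
      (m : ℝ) ^ (-(1 / 2) : ℝ) * (m' : ℝ) ^ (-(1 / 2) : ℝ) *
        (((n.1 * n.2 : ℕ) : ℝ)) ^ (-(1 / 2) : ℝ) := by
    rw [Nat.cast_mul (m * m'), Nat.cast_mul m, Real.mul_rpow (by positivity) (by positivity),
      Real.mul_rpow (by positivity) (by positivity)]
  rw [h2, nt_mul t (hM m hm) (by omega : n.1 ≠ 0), nt_mul t (hM m' hm') (by omega : n.2 ≠ 0)]
  rw [map_mul, Complex.conj_ofReal]
  push_cast
  rw [map_mul]
  ring

lemma momT_quads (A B : Finset ℝ) (c d : ℝ → ℂ) (Mf : Finset ℕ) (w : ℕ → ℝ)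
    (hM : ∀ m ∈ Mf, m ≠ 0) (N : ℕ) :
    ∑ x ∈ A ×ˢ B, (c x.1 * d x.2) * (((‖Mt Mf w (x.1 + x.2)‖ ^ 2 : ℝ) : ℂ) * TTt (x.1 + x.2) N) =
      ∑ i ∈ quads Mf N, ((qw w i : ℝ) : ℂ) *
        (fg A c (i.1.1 * i.2.1, i.1.2 * i.2.2) * fg B d (i.1.1 * i.2.1, i.1.2 * i.2.2)) := by
  simp_rw [mollified_t Mf w hM, Finset.mul_sum]
  rw [Finset.sum_comm]
  refine Finset.sum_congr rfl fun i _ => ?_
  rw [← sum_pairs_t, Finset.mul_sum]
  refine Finset.sum_congr rfl fun x _ => ?_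
  ring

lemma momT_ww (A B : Finset ℝ) (hA : A.Nonempty) (hB : B.Nonempty) (c d : ℝ → ℂ) (p : ℕ × ℕ) :
    ‖fg A c p * fg B d p‖ = ((A.card : ℝ) * B.card) * ww (vg A c) (vg B d) p := by
  have hA : (0 : ℝ) < A.card := by exact_mod_cast hA.card_pos
  have hB : (0 : ℝ) < B.card := by exact_mod_cast hB.card_pos
  unfold ww vg
  rw [← mul_pow, Real.sqrt_sq (by positivity), norm_mul]
  field_simp

theorem wmoment_t (A B : Finset ℝ) (hA : A.Nonempty) (hB : B.Nonempty) (c d : ℝ → ℂ)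
    (Mf : Finset ℕ) (w : ℕ → ℝ) (N Y : ℕ) (hM : ∀ m ∈ Mf, 1 ≤ m ∧ m ≤ Y) :
    ‖∑ x ∈ A ×ˢ B, (c x.1 * d x.2) * (((‖Mt Mf w (x.1 + x.2)‖ ^ 2 : ℝ) : ℂ) * TTt (x.1 + x.2) N)‖ ≤
      ((A.card : ℝ) * B.card) * ∑ p ∈ RQ (Y ^ 2 * N), ww (vg A c) (vg B d) p *
        |DN Mf w N p.1 p.2| := by
  classical
  rw [momT_quads A B c d Mf w (fun m hm => by have := (hM m hm).1; omega)]
  set r : (ℕ × ℕ) × (ℕ × ℕ) → ℕ × ℕ := fun i =>
    ((i.1.1 * i.2.1) / Nat.gcd (i.1.1 * i.2.1) (i.1.2 * i.2.2),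
     (i.1.2 * i.2.2) / Nat.gcd (i.1.1 * i.2.1) (i.1.2 * i.2.2)) with hr
  have hquad : ∀ i ∈ quads Mf N, (1 ≤ i.1.1 ∧ i.1.1 ≤ Y) ∧ (1 ≤ i.1.2 ∧ i.1.2 ≤ Y) ∧
      1 ≤ i.2.1 ∧ 1 ≤ i.2.2 ∧ i.2.1 * i.2.2 ≤ N := by
    intro i hi
    unfold quads at hi
    simp only [mem_product, mem_hyp] at hi
    exact ⟨hM _ hi.1.1, hM _ hi.1.2, hi.2.1, hi.2.2.1, hi.2.2.2⟩
  have hpos : ∀ i ∈ quads Mf N, i.1.1 * i.2.1 ≠ 0 ∧ i.1.2 * i.2.2 ≠ 0 := by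
    intro i hi
    obtain ⟨⟨a1, a2⟩, ⟨a3, a4⟩, a5, a6, a7⟩ := hquad i hi
    exact ⟨Nat.mul_ne_zero (by omega) (by omega), Nat.mul_ne_zero (by omega) (by omega)⟩
  have hmaps : ∀ i ∈ quads Mf N, r i ∈ RQ (Y ^ 2 * N) := by
    intro i hiq
    obtain ⟨hx, hy⟩ := hpos i hiq
    obtain ⟨⟨a1, a2⟩, ⟨a3, a4⟩, a5, a6, a7⟩ := hquad i hiq
    have hg : 0 < Nat.gcd (i.1.1 * i.2.1) (i.1.2 * i.2.2) :=
      Nat.gcd_pos_of_pos_left _ (Nat.pos_of_ne_zero hx)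
    rw [mem_RQ]
    simp only [hr]
    refine ⟨⟨Nat.coprime_div_gcd_div_gcd hg, ?_, ?_⟩, ?_⟩
    · exact (Nat.div_pos (Nat.le_of_dvd (Nat.pos_of_ne_zero hx) (Nat.gcd_dvd_left _ _)) hg).ne'
    · exact (Nat.div_pos (Nat.le_of_dvd (Nat.pos_of_ne_zero hy) (Nat.gcd_dvd_right _ _)) hg).ne'
    · calc (i.1.1 * i.2.1) / Nat.gcd (i.1.1 * i.2.1) (i.1.2 * i.2.2) *
            ((i.1.2 * i.2.2) / Nat.gcd (i.1.1 * i.2.1) (i.1.2 * i.2.2))
          ≤ (i.1.1 * i.2.1) * (i.1.2 * i.2.2) := Nat.mul_le_mul (Nat.div_le_self _ _) (Nat.div_le_self _ _)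
        _ = (i.1.1 * i.1.2) * (i.2.1 * i.2.2) := by ring
        _ ≤ (Y * Y) * N := Nat.mul_le_mul (Nat.mul_le_mul a2 a4) a7
        _ = Y ^ 2 * N := by ring
  rw [← Finset.sum_fiberwise_of_maps_to hmaps, Finset.mul_sum]
  refine (norm_sum_le _ _).trans (Finset.sum_le_sum fun p hp => ?_)
  obtain ⟨⟨hcop, hp1, hp2⟩, _⟩ := mem_RQ.mp hp
  have hfib : (quads Mf N).filter (fun i => r i = p) =
      (quads Mf N).filter (fun i => i.1.1 * i.2.1 * p.2 = i.1.2 * i.2.2 * p.1) := by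
    ext i
    simp only [hr, mem_filter, Prod.ext_iff]
    constructor
    · rintro ⟨h1, h3⟩
      exact ⟨h1, (red_iff (hpos i h1).1 hcop).mp h3⟩
    · rintro ⟨h1, h2⟩
      exact ⟨h1, (red_iff (hpos i h1).1 hcop).mpr h2⟩
  rw [hfib]
  have hval : ∑ i ∈ (quads Mf N).filter (fun i => i.1.1 * i.2.1 * p.2 = i.1.2 * i.2.2 * p.1),
      ((qw w i : ℝ) : ℂ) * (fg A c (i.1.1 * i.2.1, i.1.2 * i.2.2) *
        fg B d (i.1.1 * i.2.1, i.1.2 * i.2.2)) =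
      (fg A c p * fg B d p) * ((DN Mf w N p.1 p.2 : ℝ) : ℂ) := by
    unfold DN
    rw [Complex.ofReal_sum, Finset.mul_sum]
    refine Finset.sum_congr rfl fun i hi => ?_
    obtain ⟨h1, h2⟩ := Finset.mem_filter.mp hi
    have h3 := (red_iff (hpos i h1).1 hcop).mpr h2
    have ex := Nat.div_mul_cancel (Nat.gcd_dvd_left (i.1.1 * i.2.1) (i.1.2 * i.2.2))
    have ey := Nat.div_mul_cancel (Nat.gcd_dvd_right (i.1.1 * i.2.1) (i.1.2 * i.2.2))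
    rw [h3.1] at ex
    rw [h3.2] at ey
    have hu : Nat.gcd (i.1.1 * i.2.1) (i.1.2 * i.2.2) ≠ 0 :=
      (Nat.gcd_pos_of_pos_left _ (Nat.pos_of_ne_zero (hpos i h1).1)).ne'
    have e1 := fg_red A c p.1 p.2 _ hp1 hp2 hu
    have e2 := fg_red B d p.1 p.2 _ hp1 hp2 hu
    rw [ex, ey] at e1 e2
    rw [e1, e2]
    ring
  rw [hval, norm_mul, momT_ww A B hA hB, Complex.norm_real, Real.norm_eq_abs]
  exact le_of_eq (by ring)

end Pool.Agent.H74.ZS
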