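import Pool.Agent.H74.ZS.KGI
import Pool.Agent.H74.ZS.MomT
import Pool.Agent.H74.ZS.SecS

/-!
# Bounds for the mollified hyperbola sums with coefficients

`wG_t`: as `wG_bounds` of `Pool/Agent/H74/TS/SecB.lean`, but simpler (no principal character): from `wmoment_t`
(with `Y` there equal to `ty * ty`), `vg_kg` (`q = T`), `wS2_mid`, `wS2_small` (`Pool/Agent/H74/ZS/SecA.lean`,
`SecS.lean`), `MfS_bounds`.  `4 ≤ T` from `hB.hL` (`100 ≤ log T`); the diameter of `A` is at most `T` by `CdT.sum`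
(fix `b ∈ B`), similarly for `B`.
-/

namespace Pool.Agent.H74.ZS

open Finset Pool.Agent.H14.PT Pool.Agent.H74.TS Pool.Agent.H74.PZ
open scoped ComplexConjugate

theorem gb_T {ε T : ℝ} {A B : Finset ℝ} (h : CdT ε T A B) : 0 ≤ T := by
  obtain ⟨a, ha⟩ := h.neA
  obtain ⟨b, hb⟩ := h.neB
  have h1 := h.sum a ha b hb
  linarith [h1.1, h1.2]

theorem gb_diamA {ε T : ℝ} {A B : Finset ℝ} (h : CdT ε T A B) :
    ∀ a ∈ A, ∀ a' ∈ A, |a - a'| ≤ T := by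
  intro a ha a' ha'
  obtain ⟨b, hb⟩ := h.neB
  have h1 := h.sum a ha b hb
  have h2 := h.sum a' ha' b hb
  rw [abs_le]
  constructor <;> linarith [h1.1, h1.2, h2.1, h2.2]

theorem gb_diamB {ε T : ℝ} {A B : Finset ℝ} (h : CdT ε T A B) :
    ∀ a ∈ B, ∀ a' ∈ B, |a - a'| ≤ T := by
  intro a ha a' ha'
  obtain ⟨b, hb⟩ := h.neA
  have h1 := h.sum b hb a ha
  have h2 := h.sum b hb a' ha'
  rw [abs_le]
  constructor <;> linarith [h1.1, h1.2, h2.1, h2.2]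

theorem CdT.kgA {ε T : ℝ} {A B : Finset ℝ} (h : CdT ε T A B) (hT : 4 ≤ T) (c : ℝ → ℂ)
    (hc : ∀ a ∈ A, ‖c a‖ ≤ 1) : KG T (hG T A) (vg A c) :=
  vg_kg hT A h.neA h.sepA (gb_diamA h) c hc

theorem CdT.kgB {ε T : ℝ} {A B : Finset ℝ} (h : CdT ε T A B) (hT : 4 ≤ T) (c : ℝ → ℂ)
    (hc : ∀ b ∈ B, ‖c b‖ ≤ 1) : KG T (hG T B) (vg B c) :=
  vg_kg hT B h.neB h.sepB (gb_diamB h) c hc

theorem gb_four {ε T : ℝ} {Z : ℕ} {A B : Finset ℝ} (h : CdT ε T A B)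
    (hB : Bg ε Z (Real.log T)) : 4 ≤ T := by
  have h0 := gb_T h
  have hL := hB.hL
  have h1 : T ≠ 0 := by
    intro h2
    rw [h2, Real.log_zero] at hL
    linarith
  have h2 : 0 < T := lt_of_le_of_ne h0 (Ne.symm h1)
  have h3 := Real.add_one_le_exp (Real.log T)
  rw [Real.exp_log h2] at h3
  linarith

theorem wG_t (ε : ℝ) (Z : ℕ) (hε : 0 < ε) (hε1 : ε ≤ 1 / 10) (hZ : 400 ≤ ε * Z) :
    ∃ C Q0 : ℝ, 0 < C ∧ ∀ T : ℝ, Q0 ≤ Real.log T → Bg ε Z (Real.log T) →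
    ∀ (A B : Finset ℝ), CdT ε T A B → ∀ c d : ℝ → ℂ, (∀ a ∈ A, ‖c a‖ ≤ 1) →
    (∀ b ∈ B, ‖d b‖ ≤ 1) → ∀ k : ℕ, 1 ≤ k → (k : ℝ) ≤ Real.exp ((1 + ε / 1000) * Real.log T) →
    ‖∑ x ∈ A ×ˢ B, (c x.1 * d x.2) *
      (((‖Mz ε Z T (x.1 + x.2)‖ ^ 2 : ℝ) : ℂ) * TTt (x.1 + x.2) k)‖ ≤
        Real.exp (3 * kap ε Z * Real.log T) * ((A.card : ℝ) * B.card) ∧
    (Real.exp ((1 - ε / 1000) * Real.log T) ≤ k →
    ‖∑ x ∈ A ×ˢ B, (c x.1 * d x.2) *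
      (((‖Mz ε Z T (x.1 + x.2)‖ ^ 2 : ℝ) : ℂ) * TTt (x.1 + x.2) k)‖ ≤
        C * ((A.card : ℝ) * B.card)) := by
  obtain ⟨C, Q1, hC, hmid⟩ := wS2_mid ε Z hε hε1 hZ
  obtain ⟨Q2, hsmall⟩ := wS2_small ε Z hε hε1 hZ
  refine ⟨C, max Q1 Q2, hC, ?_⟩
  intro T hQ hB A B hcd c d hc hd k hk1 hk2
  have hq1 : Q1 ≤ Real.log T := (le_max_left _ _).trans hQ
  have hq2 : Q2 ≤ Real.log T := (le_max_right _ _).trans hQ
  have hT := gb_four hcd hB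
  have hva := hcd.kgA hT c hc
  have hvb := hcd.kgB hT d hd
  have hm := hmid T hq1 hB _ _ _ _ hva hvb hcd.size k
  have hs := hsmall T hq2 hB _ _ _ _ hva hvb hcd.size k hk1 hk2
  have hfull := wmoment_t A B hcd.neA hcd.neB c d
    (MfS (tz Z (Real.log T)) (ty ε (Real.log T)) (ty ε (Real.log T)))
    (wS (tz Z (Real.log T)) (ty ε (Real.log T)) (ty ε (Real.log T))) k
    (ty ε (Real.log T) * ty ε (Real.log T)) (fun m hm => MfS_bounds hm)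
  have hAB0 : (0 : ℝ) ≤ (A.card : ℝ) * B.card := by positivity
  constructor
  · refine hfull.trans ?_
    rw [mul_comm (Real.exp _)]
    exact mul_le_mul_of_nonneg_left hs hAB0
  · intro hk3
    refine hfull.trans ?_
    rw [mul_comm C]
    exact mul_le_mul_of_nonneg_left (hm hk3 hk2) hAB0

end Pool.Agent.H74.ZS
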