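import Pool.Agent.H74.ZS.FirM
import Pool.Agent.H74.ZS.FirF
import Pool.Agent.H74.ZS.GB
import Pool.Agent.H74.ZS.ClsL
import Pool.Agent.H74.ZS.Cls

/-!
# The first moment: lower bound

`wS1_t`: as `wS1_total` of `Pool/Agent/H74/TS/FirB.lean` (copy it), without the principal character.
`L = log T`, `Y = ty ε L`, `Mf = MfS z Y Y ⊆ [1, Y²]`, `T' = 2T`, `X = ⌈2T⌉₊` (`Y ≤ X`), `M = |A||B|`,
`c x = fg A 1 (x,1) * fg B 1 (x,1) / M` (`1 = fun _ => 1`), `c 1 = 1` (`nt_one`), `‖c x‖ = ww (vg A 1) (vg B 1) (x,1)`.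
`zs_err_moll` (with `Y * Y`), `zs_main_sum`, `wmain_t` with `U = exp (κ L) ≤ Y`, `wsum_R1` for the `x ≤ U`, `wsum_L` for
the `x > U` (`KG`s by `CdT.kgA`, `CdT.kgB` with `c = fun _ => 1`; `x ≤ Y² X ≤ exp (2ε/1000 L) (2T+1) ≤ exp ((1 + ε/100) L)`,
`3 ≤ exp (ε/200 L)`), so the main term is within `M/8` of `M`.
Error: `E = Y² · 20 (3 + log (4T+1)) √(2T M) ≤ M/4`: `3 + log (4T+1) ≤ 2L` (`L ≥ 100`), and by `CdT.size`, `hG T B ≥ 1`
(`KG.one_le`): `log hG A + log hG B ≤ (1-ε) L`, i.e. `M ≥ (2400 T L)² exp (-(1-ε) L) = 2400² L² T exp (ε L)`, while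
`(4E/M)² = 16 · 400 (3+l)² Y⁴ 2T/M ≤ 51200 L² T exp (4ε/1000 L)/M ≤ 1`.
-/

namespace Pool.Agent.H74.ZS

open Finset Pool.Agent.H14.PT Pool.Agent.H74.TS Pool.Agent.H74.PZ
open scoped ComplexConjugate Real

lemma firT_T {ε T : ℝ} {Z : ℕ} (hB : Bg ε Z (Real.log T)) (hT0 : 0 < T) :
    4 ≤ T := by
  have h1 := hB.hL
  have h2 := Real.add_one_le_exp (Real.log T)
  rw [Real.exp_log hT0] at h2
  linarith

lemma CdT.Tpos {ε T : ℝ} {A B : Finset ℝ} (h : CdT ε T A B) : 0 ≤ T := by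
  obtain ⟨a, ha⟩ := h.neA
  obtain ⟨b, hb⟩ := h.neB
  have := h.sum a ha b hb
  linarith [this.1, this.2]

lemma CdT.Tpos' {ε T : ℝ} {Z : ℕ} (hB : Bg ε Z (Real.log T)) {A B : Finset ℝ}
    (h : CdT ε T A B) : 0 < T := by
  rcases h.Tpos.lt_or_eq with h1 | h1
  · exact h1
  · have h2 := hB.hL
    rw [← h1, Real.log_zero] at h2
    linarith

/-- size of the product set -/
theorem CdT.card_ge {ε T : ℝ} {Z : ℕ} (hB : Bg ε Z (Real.log T)) {A B : Finset ℝ}
    (h : CdT ε T A B) : 2400 ^ 2 * (Real.log T) ^ 2 * Real.exp ((1 + ε) * Real.log T) ≤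
      (A.card : ℝ) * B.card := by
  have hT0 := h.Tpos' hB
  have hT4 := firT_T hB hT0
  have h1B := (h.kgB hT4 (fun _ => 1) (fun _ _ => by simp)).one_le
  have h1A := (h.kgA hT4 (fun _ => 1) (fun _ _ => by simp)).one_le
  have hs := h.size
  have hLB : 0 ≤ Real.log (hG T B) := Real.log_nonneg h1B
  have hA0 : (0 : ℝ) < A.card := by exact_mod_cast h.neA.card_pos
  have hB0 : (0 : ℝ) < B.card := by exact_mod_cast h.neB.card_pos
  have hGA : 0 < hG T A := by linarith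
  have hGB : 0 < hG T B := by linarith
  have h2 : Real.log (hG T A * hG T B) ≤ (1 - ε) * Real.log T := by
    rw [Real.log_mul hGA.ne' hGB.ne']
    linarith
  have h3 : hG T A * hG T B ≤ Real.exp ((1 - ε) * Real.log T) := by
    rw [← Real.exp_log (mul_pos hGA hGB)]
    exact Real.exp_le_exp.mpr h2
  have h4 : (A.card : ℝ) * B.card * (hG T A * hG T B) = (2400 * T * Real.log T) ^ 2 := by
    unfold hG
    field_simp
  have h5 : (2400 * T * Real.log T) ^ 2 ≤ (A.card : ℝ) * B.card * Real.exp ((1 - ε) * Real.log T) := by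
    rw [← h4]
    gcongr
  have h6 : 2400 ^ 2 * (Real.log T) ^ 2 * Real.exp ((1 + ε) * Real.log T) *
      Real.exp ((1 - ε) * Real.log T) = (2400 * T * Real.log T) ^ 2 := by
    rw [mul_assoc, ← Real.exp_add]
    have : (1 + ε) * Real.log T + (1 - ε) * Real.log T = Real.log T + Real.log T := by ring
    rw [this, Real.exp_add, Real.exp_log hT0]
    ring
  rw [← h6] at h5
  exact le_of_mul_le_mul_right h5 (Real.exp_pos _)

/-- the normalised coefficient -/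
lemma norm_fg_mul (A B : Finset ℝ) (p : ℕ × ℕ) :
    ‖fg A (fun _ => 1) p * fg B (fun _ => 1) p / (((A.card : ℝ) * B.card : ℝ) : ℂ)‖ =
      ww (vg A (fun _ => 1)) (vg B (fun _ => 1)) p := by
  unfold ww vg
  rw [← mul_pow, Real.sqrt_sq (by positivity), norm_div, norm_mul, Complex.norm_real,
    Real.norm_of_nonneg (by positivity), div_mul_div_comm]

lemma fg_one (A : Finset ℝ) : fg A (fun _ => 1) (1, 1) = A.card := by
  unfold fg
  simp [nt_one]

theorem wS1_t (ε : ℝ) (Z : ℕ) (hε : 0 < ε) (hε1 : ε ≤ 1 / 10) (hZ : 400 ≤ ε * Z) :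
    ∃ Q0 : ℝ, ∀ T : ℝ, Q0 ≤ Real.log T → Bg ε Z (Real.log T) →
    ∀ (A B : Finset ℝ), CdT ε T A B →
    ((A.card : ℝ) * B.card) / 2 ≤ ‖∑ x ∈ A ×ˢ B, Mz ε Z T (x.1 + x.2) *
      riemannZeta (1 / 2 + ((x.1 + x.2 : ℝ) : ℂ) * Complex.I)‖ := by
  classical
  obtain ⟨Q1, hsumL⟩ := wsum_L ε Z hε hε1 hZ
  refine ⟨Q1, ?_⟩
  intro T hq1 hB A B hcd
  have hT0 := hcd.Tpos' hB
  have hT4 := firT_T hB hT0
  have hcard := hcd.card_ge hB
  have hTe : Real.exp (Real.log T) = T := Real.exp_log hT0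
  have hsz := hcd.size
  have kA := hcd.kgA hT4 (fun _ => 1) (fun _ _ => by simp)
  have kB := hcd.kgB hT4 (fun _ => 1) (fun _ _ => by simp)
  have hL' := hsumL T hq1 _ _ _ _ kA kB hsz
  have hR' := fun P hP => wsum_R1 hB kA kB hsz P hP
  unfold Mz
  set L := Real.log T with hL
  have hL100 := hB.hL
  have hLpos : 0 < L := by linarith
  have hLε := hB.hLε
  set Y := ty ε L with hY
  set z := tz Z L with hz
  have hYhi : (Y : ℝ) ≤ Real.exp (ε / 1000 * L) := hB.Y_hi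
  have hYlo : Real.exp (ε / 1000 * L) / 2 ≤ (Y : ℝ) := hB.Y_lo
  have hY2 : 2 ≤ Y := hB.Y_two
  have hYY : ((Y * Y : ℕ) : ℝ) ≤ Real.exp (2 * ε / 1000 * L) := by
    push_cast
    calc (Y : ℝ) * Y ≤ Real.exp (ε / 1000 * L) * Real.exp (ε / 1000 * L) := by gcongr
      _ = Real.exp (2 * ε / 1000 * L) := by rw [← Real.exp_add]; congr 1; ring
  set X : ℕ := ⌈2 * T⌉₊ with hX
  have hX1 : (X : ℝ) ≤ 3 * T := by
    have := Nat.ceil_lt_add_one (show (0 : ℝ) ≤ 2 * T by positivity)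
    rw [← hX] at this
    linarith
  have hX2 : 2 * T ≤ (X : ℝ) := Nat.le_ceil _
  have hYX : Y ≤ X := by
    have : (Y : ℝ) ≤ X := by
      calc (Y : ℝ) ≤ Real.exp (ε / 1000 * L) := hYhi
        _ ≤ Real.exp L := Real.exp_le_exp.mpr (by nlinarith)
        _ = T := hTe
        _ ≤ X := by linarith
    exact_mod_cast this
  set U : ℝ := Real.exp (kap ε Z * L) with hU
  have hkle := hB.kle
  have hkpos := hB.kpos
  have hUY : U ≤ Y := by
    refine le_trans ?_ hYlo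
    have h1 : (2 : ℝ) ≤ Real.exp (ε / 2000 * L) := by
      have := Real.add_one_le_exp (ε / 2000 * L)
      linarith
    have h2 : U * 2 ≤ Real.exp (ε / 1000 * L) := by
      calc U * 2 ≤ U * Real.exp (ε / 2000 * L) := by gcongr
        _ = Real.exp (kap ε Z * L + ε / 2000 * L) := by rw [hU, ← Real.exp_add]
        _ ≤ _ := Real.exp_le_exp.mpr (by nlinarith)
    linarith
  set Mf := MfS z Y Y with hMf
  set w := wS z Y Y with hw
  set P : Finset ℕ := (Mf ×ˢ Icc 1 X).image (fun i => i.1 * i.2) with hPdef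
  have hP : ∀ x, x ∈ P ↔ ∃ m ∈ MfS z Y Y, ∃ k ∈ Icc 1 X, x = m * k := by
    intro x
    rw [hPdef, Finset.mem_image]
    constructor
    · rintro ⟨i, hi, rfl⟩
      obtain ⟨h3, h4⟩ := Finset.mem_product.mp hi
      exact ⟨i.1, h3, i.2, h4, rfl⟩
    · rintro ⟨m, hm, k, hk, rfl⟩
      exact ⟨(m, k), Finset.mem_product.mpr ⟨hm, hk⟩, rfl⟩
  set M : ℝ := (A.card : ℝ) * B.card with hM
  have hA0 : (0 : ℝ) < A.card := by exact_mod_cast hcd.neA.card_pos
  have hB0' : (0 : ℝ) < B.card := by exact_mod_cast hcd.neB.card_pos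
  have hM0 : 0 < M := by positivity
  have hMc : (M : ℂ) ≠ 0 := by exact_mod_cast hM0.ne'
  set c : ℕ → ℂ := fun x => fg A (fun _ => 1) (x, 1) * fg B (fun _ => 1) (x, 1) / (M : ℂ) with hc
  have hc1 : c 1 = 1 := by
    simp only [hc]
    rw [fg_one, fg_one, hM]
    push_cast
    rw [div_self]
    push_cast [hM] at hMc
    exact hMc
  have hcn : ∀ x, ‖c x‖ = ww (vg A (fun _ => 1)) (vg B (fun _ => 1)) (x, 1) :=
    fun x => norm_fg_mul A B (x, 1)
  have hmain := wmain_t z Y X U hY2 hUY hYX c hc1 P hP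
  have herr := zs_err_moll A B hcd.sepA hcd.sepB (2 * T) (by linarith) hcd.bdA hcd.bdB Mf w (Y * Y)
    (fun m hm => MfS_bounds hm) (fun m => abs_wS_le hY2 m)
  have hms := zs_main_sum A B Mf w (fun m hm => by have := (MfS_bounds hm).1; omega) X
  rw [← hX, ← hM] at herr
  -- size facts for elements of P
  have hPx : ∀ x ∈ P, Red (x, 1) ∧ (x : ℝ) ≤ Real.exp ((1 + ε / 100) * L) := by
    intro x hx
    obtain ⟨m, hm, k, hk, rfl⟩ := (hP x).mp hx
    have hm1 := MfS_bounds hm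
    obtain ⟨hk1, hk2⟩ := Finset.mem_Icc.mp hk
    refine ⟨⟨Nat.coprime_one_right _, Nat.mul_ne_zero (by omega) (by omega), one_ne_zero⟩, ?_⟩
    have h1 : ((m * k : ℕ) : ℝ) ≤ ((Y * Y * X : ℕ) : ℝ) := by
      exact_mod_cast Nat.mul_le_mul hm1.2 hk2
    have h3 : (3 : ℝ) ≤ Real.exp (ε / 200 * L) := by
      have := Real.add_one_le_exp (ε / 200 * L)
      linarith
    calc ((m * k : ℕ) : ℝ) ≤ ((Y * Y * X : ℕ) : ℝ) := h1
      _ = ((Y * Y : ℕ) : ℝ) * X := by push_cast; ring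
      _ ≤ Real.exp (2 * ε / 1000 * L) * (Real.exp (ε / 200 * L) * Real.exp L) := by
          gcongr
          calc (X : ℝ) ≤ 3 * T := hX1
            _ ≤ Real.exp (ε / 200 * L) * T := by gcongr
            _ = Real.exp (ε / 200 * L) * Real.exp L := by rw [hTe]
      _ = Real.exp (2 * ε / 1000 * L + (ε / 200 * L + L)) := by
          rw [← Real.exp_add, ← Real.exp_add]
      _ ≤ _ := Real.exp_le_exp.mpr (by nlinarith)
  -- the sum of T0
  set Q := (P.erase 1).filter (fun x : ℕ => ¬ ((x : ℝ) ≤ U ∧ ∃ r, r.Prime ∧ r ≤ z ∧ r ∣ x)) with hQ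
  have hT : ∑ x ∈ Q, ‖c x‖ * T0 (x, 1) ≤ 1 / 8 := by
    rw [← Finset.sum_filter_add_sum_filter_not Q (fun x : ℕ => (x : ℝ) ≤ U)]
    have hpair : ∀ S : Finset ℕ, ∑ x ∈ S, ‖c x‖ * T0 (x, 1) =
        ∑ p ∈ S ×ˢ ({1} : Finset ℕ), ww (vg A (fun _ => 1)) (vg B (fun _ => 1)) p * T0 p := by
      intro S
      rw [Finset.sum_product]
      simp [hcn]
    have h16 : (0 : ℝ) < 16 * L ^ 4 := by positivity
    have h16' : 16 ≤ 16 * L ^ 4 := by
      have : 1 ≤ L ^ 4 := one_le_pow₀ (by linarith)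
      linarith
    have hmul : ∀ S : Finset ℕ, (∑ x ∈ S, ‖c x‖ * T0 (x, 1)) * (16 * L ^ 4) =
        ∑ p ∈ S ×ˢ ({1} : Finset ℕ), ww (vg A (fun _ => 1)) (vg B (fun _ => 1)) p *
          (T0 p * (16 * L ^ 4)) := by
      intro S
      rw [hpair, Finset.sum_mul]
      refine Finset.sum_congr rfl fun p _ => by ring
    have hA : (∑ x ∈ Q.filter (fun x : ℕ => (x : ℝ) ≤ U), ‖c x‖ * T0 (x, 1)) * (16 * L ^ 4) ≤ 1 := by
      rw [hmul]
      refine hR' _ ?_
      intro p hp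
      obtain ⟨h1, h2⟩ := Finset.mem_product.mp hp
      obtain ⟨h3, h4⟩ := Finset.mem_filter.mp h1
      obtain ⟨h5, h6⟩ := Finset.mem_filter.mp h3
      obtain ⟨h7, h8⟩ := Finset.mem_erase.mp h5
      have hp2 : p.2 = 1 := Finset.mem_singleton.mp h2
      have hpe : p = (p.1, 1) := Prod.ext rfl hp2
      obtain ⟨g1, g3⟩ := hPx p.1 h8
      have hx0 : p.1 ≠ 0 := g1.2.1
      have hrough : ∀ r, r.Prime → r ∣ p.1 → z < r := by
        intro r hr hrd
        by_contra hc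
        exact h6 ⟨h4, r, hr, by omega, hrd⟩
      rw [hpe]
      simp only [mul_one]
      refine ⟨g1, rough_ge hx0 h7 hrough, h4, ?_⟩
      unfold Few
      have h9 := rough_Omega p.1 hx0 hrough
      have hlz : 0 < Real.log z := by have := hB.logz_1000; linarith
      have h10 : (ArithmeticFunction.cardFactors p.1 : ℝ) ≤ Real.log p.1 / Real.log z := by
        rw [le_div_iff₀ hlz]; exact h9
      linarith
    have hBd : (∑ x ∈ Q.filter (fun x : ℕ => ¬ (x : ℝ) ≤ U), ‖c x‖ * T0 (x, 1)) * (16 * L ^ 4) ≤ 1 := by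
      rw [hmul]
      refine hL' _ ?_
      intro p hp
      obtain ⟨h1, h2⟩ := Finset.mem_product.mp hp
      obtain ⟨h3, h4⟩ := Finset.mem_filter.mp h1
      obtain ⟨h5, h6⟩ := Finset.mem_filter.mp h3
      obtain ⟨h7, h8⟩ := Finset.mem_erase.mp h5
      have hp2 : p.2 = 1 := Finset.mem_singleton.mp h2
      have hpe : p = (p.1, 1) := Prod.ext rfl hp2
      obtain ⟨g1, g3⟩ := hPx p.1 h8
      push Not at h4
      rw [hpe]
      simp only [mul_one]
      exact ⟨g1, h4.le, g3⟩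
    have hA0 : 0 ≤ ∑ x ∈ Q.filter (fun x : ℕ => (x : ℝ) ≤ U), ‖c x‖ * T0 (x, 1) :=
      Finset.sum_nonneg fun x _ => mul_nonneg (norm_nonneg _) (T0_nonneg _)
    have hB0 : 0 ≤ ∑ x ∈ Q.filter (fun x : ℕ => ¬ (x : ℝ) ≤ U), ‖c x‖ * T0 (x, 1) :=
      Finset.sum_nonneg fun x _ => mul_nonneg (norm_nonneg _) (T0_nonneg _)
    nlinarith
  -- the error term
  set l : ℝ := Real.log (2 * (2 * T) + 1) with hl
  have hl0 : 0 ≤ l := Real.log_nonneg (by linarith)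
  have hl1 : 3 + l ≤ 2 * L := by
    have h2 : l ≤ Real.log (5 * T) := Real.log_le_log (by positivity) (by linarith)
    rw [Real.log_mul (by norm_num) hT0.ne'] at h2
    have h3 := Real.log_le_sub_one_of_pos (show (0 : ℝ) < 5 by norm_num)
    linarith
  have hE : ((Y * Y : ℕ) : ℝ) * (20 * (3 + l) * Real.sqrt (2 * T * M)) ≤ M / 4 := by
    have h1 : Real.sqrt (2 * T * M) ≤ M / (Real.exp (2 * ε / 1000 * L) * (160 * L)) := by
      have hden : 0 < Real.exp (2 * ε / 1000 * L) * (160 * L) := by positivity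
      rw [Real.sqrt_le_left (by positivity), div_pow, le_div_iff₀ (by positivity)]
      have h2 : Real.exp (2 * ε / 1000 * L) ^ 2 * T ≤ Real.exp ((1 + ε) * L) := by
        rw [← Real.exp_nat_mul, ← hTe, ← Real.exp_add]
        apply Real.exp_le_exp.mpr
        push_cast
        nlinarith
      calc 2 * T * M * (Real.exp (2 * ε / 1000 * L) * (160 * L)) ^ 2
          = M * (51200 * L ^ 2 * (Real.exp (2 * ε / 1000 * L) ^ 2 * T)) := by ring
        _ ≤ M * (51200 * L ^ 2 * Real.exp ((1 + ε) * L)) := by gcongr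
        _ ≤ M * (2400 ^ 2 * L ^ 2 * Real.exp ((1 + ε) * L)) := by
            gcongr
            norm_num
        _ ≤ M * M := by gcongr
        _ = M ^ 2 := by ring
    calc ((Y * Y : ℕ) : ℝ) * (20 * (3 + l) * Real.sqrt (2 * T * M))
        ≤ Real.exp (2 * ε / 1000 * L) * (20 * (2 * L) *
          (M / (Real.exp (2 * ε / 1000 * L) * (160 * L)))) := by
          gcongr
      _ = M / 4 := by
          have := Real.exp_pos (2 * ε / 1000 * L)
          field_simp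
          norm_num
  set S0 := ∑ x ∈ A ×ˢ B, Mt Mf w (x.1 + x.2) *
      riemannZeta (1 / 2 + ((x.1 + x.2 : ℝ) : ℂ) * Complex.I) with hS0
  set S2 := ∑ i ∈ Mf ×ˢ Icc 1 X, ((w i.1 * (((i.1 * i.2 : ℕ) : ℝ)) ^ (-(1 / 2) : ℝ) : ℝ) : ℂ) *
      (fg A (fun _ => 1) (i.1 * i.2, 1) * fg B (fun _ => 1) (i.1 * i.2, 1)) with hS2
  have hS2' : S2 = (M : ℂ) * ∑ i ∈ MfS z Y Y ×ˢ Icc 1 X,
        ((wS z Y Y i.1 * (((i.1 * i.2 : ℕ) : ℝ)) ^ (-(1 / 2) : ℝ) : ℝ) : ℂ) * c (i.1 * i.2) := by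
    rw [hS2, Finset.mul_sum]
    refine Finset.sum_congr rfl fun i _ => ?_
    have h0 : ∀ a b : ℂ, a * b = (M : ℂ) * (a * (b / (M : ℂ))) := by
      intro a b
      field_simp
    exact h0 _ _
  have hS2n : ‖S2 - (M : ℂ)‖ ≤ M / 8 := by
    have h1 : S2 - (M : ℂ) = (M : ℂ) * (∑ i ∈ MfS z Y Y ×ˢ Icc 1 X,
        ((wS z Y Y i.1 * (((i.1 * i.2 : ℕ) : ℝ)) ^ (-(1 / 2) : ℝ) : ℝ) : ℂ) * c (i.1 * i.2) - 1) := by
      rw [hS2']; ring
    rw [h1, norm_mul, Complex.norm_real, Real.norm_of_nonneg hM0.le]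
    have h2 := hmain.trans hT
    calc M * _ ≤ M * (1 / 8) := by gcongr
      _ = M / 8 := by ring
  have hS1n : ‖S0 - S2‖ ≤ M / 4 := by
    have h1 : S0 - S2 = ∑ x ∈ A ×ˢ B, Mt Mf w (x.1 + x.2) *
      (riemannZeta (1 / 2 + ((x.1 + x.2 : ℝ) : ℂ) * Complex.I) -
      ∑ n ∈ Icc 1 X, nt (x.1 + x.2) n * (((n : ℝ) ^ (-(1 / 2) : ℝ) : ℝ) : ℂ)) := by
      rw [← hms, hS0, ← Finset.sum_sub_distrib]
      refine Finset.sum_congr rfl fun x _ => ?_
      ring
    rw [h1]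
    exact herr.trans hE
  have h1 : ‖(M : ℂ)‖ ≤ ‖S0‖ + ‖S0 - (M : ℂ)‖ := by
    have := norm_sub_le S0 (S0 - (M : ℂ))
    rwa [sub_sub_cancel] at this
  have h2 : ‖S0 - (M : ℂ)‖ ≤ M / 4 + M / 8 := by
    have h3 : S0 - (M : ℂ) = (S0 - S2) + (S2 - (M : ℂ)) := by ring
    rw [h3]
    exact (norm_add_le _ _).trans (add_le_add hS1n hS2n)
  rw [Complex.norm_real, Real.norm_of_nonneg hM0.le] at h1
  linarith

end Pool.Agent.H74.ZS
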