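import Pool.Agent.PairCorr.C_Chi

/-!
# The ratio of two values of the Gamma function

`gamma_ratio`: `Γ(z + h) = Γ(z) e^{h log z} (1 + O(e^b - 1))`, `z = x + i y`, `b = 4 (‖h‖ + ‖h‖²)/|y|`.

Proof.  For `n ≥ 1`, with `Complex.GammaSeq`: `GammaSeq (z+h) n / GammaSeq z n = n^h ∏_{j ≤ n} (z+j)/(z+h+j)`.
As `|z + j| ≥ |y| ≥ 2 ‖h‖`, `(z+h+j)/(z+j) = exp (log (1 + h/(z+j)))`, `log (1 + h/(z+j)) = h/(z+j) + δ_j`,
`‖δ_j‖ ≤ ‖h‖²/|z+j|²` (`Complex.norm_log_one_add_sub_self_le`, `‖h/(z+j)‖ ≤ 1/2`).  Similarly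
`log (1 + 1/(z+j)) = 1/(z+j) + δ'_j`, `‖δ'_j‖ ≤ 1/|z+j|²` (`|z+j| ≥ |y| ≥ 2`), and
`∑_{j ≤ n} log (1 + 1/(z+j)) = log (z+n+1) - log z` (telescoping: `log (1 + 1/(z+j)) = log (z+j+1) - log (z+j)`, because
both `z+j` and `z+j+1` have positive real part: exponentials agree and the imaginary parts are in `(-π, π)`;
`Complex.log_mul_eq_add_log_iff` with `Complex.abs_arg_lt_pi_div_two_iff`).  Hence
`GammaSeq (z+h) n / GammaSeq z n = exp (h log z) exp (E_n) exp (h (log n - log (z+n+1)))`,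
`E_n = h ∑ δ'_j - ∑ δ_j`, `‖E_n‖ ≤ (‖h‖ + ‖h‖²) ∑_j 1/|z+j|² ≤ b` (`|z+j|² ≥ j² + y²` and
`Pool.Agent.PairCorr.sum_inv_sq_le` with `a = |y|`), so `‖exp E_n - 1‖ ≤ e^b - 1`
(`Complex.norm_exp_sub_one_le..` or `‖exp w - 1‖ ≤ exp ‖w‖ - 1`).  Let `n → ∞`: `Complex.GammaSeq_tendsto_Gamma`, and
`log n - log (z+n+1) = - log ((z+n+1)/n) → 0`; `Γ(z) ≠ 0` (`Complex.Gamma_ne_zero_of_re_pos`).
-/

namespace Pool.Agent.H74.ZS

open Filter Topology Complex

lemma gamR_log_one_add_inv (a : ℂ) (ha : 0 < a.re) :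
    Complex.log (1 + 1 / a) = Complex.log (a + 1) - Complex.log a := by
  have ha0 : a ≠ 0 := by
    intro h
    rw [h] at ha
    simp at ha
  have h1 : 0 < (1 + 1 / a).re := by
    have h2 : 0 < (1 / a).re := by
      rw [one_div, Complex.inv_re]
      exact div_pos ha (Complex.normSq_pos.mpr ha0)
    rw [Complex.add_re, Complex.one_re]
    linarith
  have h10 : 1 + 1 / a ≠ 0 := by
    intro h
    rw [h] at h1
    simp at h1
  have h3 : (1 + 1 / a) * a = a + 1 := by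
    field_simp
  have h4 : Complex.log ((1 + 1 / a) * a) = Complex.log (1 + 1 / a) + Complex.log a := by
    rw [Complex.log_mul_eq_add_log_iff h10 ha0]
    have h5 := Complex.abs_arg_lt_pi_div_two_iff.mpr (Or.inl h1)
    have h6 := Complex.abs_arg_lt_pi_div_two_iff.mpr (Or.inl ha)
    rw [abs_lt] at h5 h6
    constructor
    · linarith [h5.1, h6.1]
    · linarith [h5.2, h6.2]
  rw [h3] at h4
  rw [h4]
  ring

/-- telescoping sum of logarithms -/
theorem sum_log_tele (x y : ℝ) (hx : 0 < x) (n : ℕ) :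
    ∑ j ∈ Finset.range (n + 1), Complex.log (1 + 1 / ((x : ℂ) + y * I + j)) =
      Complex.log ((x : ℂ) + y * I + (n + 1 : ℕ)) - Complex.log ((x : ℂ) + y * I) := by
  have h := Finset.sum_range_sub (fun j : ℕ => Complex.log ((x : ℂ) + y * I + j)) (n + 1)
  simp only [Nat.cast_zero, add_zero] at h
  rw [← h]
  refine Finset.sum_congr rfl fun j _ => ?_
  rw [gamR_log_one_add_inv]
  · push_cast
    rw [add_assoc]
  · have : ((x : ℂ) + y * I + j).re = x + j := by simp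
    rw [this]
    positivity

lemma gamR_norm_ge (x y : ℝ) (hx : 0 < x) (j : ℕ) :
    (j : ℝ) ^ 2 + |y| ^ 2 ≤ ‖(x : ℂ) + y * I + j‖ ^ 2 := by
  have h1 : (x : ℂ) + y * I + j = ((x + j : ℝ) : ℂ) + y * I := by push_cast; ring
  rw [h1, Complex.norm_add_mul_I, Real.sq_sqrt (by positivity), sq_abs]
  have : (0 : ℝ) ≤ j := Nat.cast_nonneg j
  nlinarith

lemma gamR_norm_ge' (x y : ℝ) (hx : 0 < x) (j : ℕ) :
    |y| ≤ ‖(x : ℂ) + y * I + j‖ := by
  have h1 := gamR_norm_ge x y hx j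
  have h2 : |y| ^ 2 ≤ ‖(x : ℂ) + y * I + j‖ ^ 2 := by
    have := sq_nonneg (j : ℝ)
    linarith
  exact (abs_le_of_sq_le_sq' h2 (norm_nonneg _)).2

lemma gamR_log_bound (u : ℂ) (hu : ‖u‖ ≤ 1 / 2) : ‖Complex.log (1 + u) - u‖ ≤ ‖u‖ ^ 2 := by
  have h1 := Complex.norm_log_one_add_sub_self_le (z := u) (by linarith)
  refine h1.trans ?_
  have h2 : (1 - ‖u‖)⁻¹ ≤ 2 := by
    rw [inv_le_comm₀ (by linarith) (by norm_num)]
    linarith
  have h3 : 0 ≤ ‖u‖ ^ 2 := by positivity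
  calc ‖u‖ ^ 2 * (1 - ‖u‖)⁻¹ / 2 ≤ ‖u‖ ^ 2 * 2 / 2 := by gcongr
    _ = ‖u‖ ^ 2 := by ring

/-- the ratio of the approximations -/
theorem gammaSeq_ratio (x y : ℝ) (hx : 0 < x) (hy : 2 ≤ |y|) (h : ℂ) (hh : ‖h‖ ≤ |y| / 2) (n : ℕ)
    (hn : n ≠ 0) : ∃ E : ℂ, ‖E‖ ≤ 4 * (‖h‖ + ‖h‖ ^ 2) / |y| ∧
    Complex.GammaSeq ((x : ℂ) + y * I + h) n = Complex.GammaSeq ((x : ℂ) + y * I) n *
      cexp (h * Complex.log ((x : ℂ) + y * I)) * cexp E *
      cexp (h * (Complex.log n - Complex.log ((x : ℂ) + y * I + (n + 1 : ℕ)))) := by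
  set z : ℂ := (x : ℂ) + y * I with hz
  have hzj : ∀ j : ℕ, |y| ≤ ‖z + j‖ := fun j => gamR_norm_ge' x y hx j
  have hzj0 : ∀ j : ℕ, z + j ≠ 0 := fun j => by
    rw [← norm_pos_iff]
    linarith [hzj j]
  have hzh : ∀ j : ℕ, ‖h / (z + j)‖ ≤ 1 / 2 := fun j => by
    rw [norm_div, div_le_iff₀ (by linarith [hzj j])]
    linarith [hzj j]
  have hz1 : ∀ j : ℕ, ‖1 / (z + j)‖ ≤ 1 / 2 := fun j => by
    rw [norm_div, norm_one, div_le_iff₀ (by linarith [hzj j])]
    linarith [hzj j]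
  have h1h : ∀ j : ℕ, 1 + h / (z + j) ≠ 0 := fun j hc => by
    have h1 : h / (z + j) = -1 := by linear_combination hc
    have h2 := hzh j
    rw [h1] at h2
    norm_num at h2
  set E : ℂ := ∑ j ∈ Finset.range (n + 1), (h * (Complex.log (1 + 1 / (z + j)) - 1 / (z + j)) -
    (Complex.log (1 + h / (z + j)) - h / (z + j))) with hE
  refine ⟨E, ?_, ?_⟩
  · have hb : ∀ j : ℕ, ‖h * (Complex.log (1 + 1 / (z + j)) - 1 / (z + j)) -
        (Complex.log (1 + h / (z + j)) - h / (z + j))‖ ≤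
        (‖h‖ + ‖h‖ ^ 2) * (1 / ((j : ℝ) ^ 2 + |y| ^ 2)) := by
      intro j
      have a1 := gamR_log_bound _ (hzh j)
      have a2 := gamR_log_bound _ (hz1 j)
      have a3 := gamR_norm_ge x y hx j
      have hpos : 0 < (j : ℝ) ^ 2 + |y| ^ 2 := by positivity
      have a4 : 1 / ‖z + j‖ ^ 2 ≤ 1 / ((j : ℝ) ^ 2 + |y| ^ 2) := one_div_le_one_div_of_le hpos a3
      refine (norm_sub_le _ _).trans ?_
      rw [norm_mul]
      calc ‖h‖ * ‖Complex.log (1 + 1 / (z + j)) - 1 / (z + j)‖ +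
            ‖Complex.log (1 + h / (z + j)) - h / (z + j)‖
          ≤ ‖h‖ * ‖1 / (z + j)‖ ^ 2 + ‖h / (z + j)‖ ^ 2 := by gcongr
        _ = (‖h‖ + ‖h‖ ^ 2) * (1 / ‖z + j‖ ^ 2) := by
            rw [norm_div, norm_div, norm_one]
            ring
        _ ≤ _ := by gcongr
    rw [hE]
    refine (norm_sum_le _ _).trans ((Finset.sum_le_sum fun j _ => hb j).trans ?_)
    rw [← Finset.mul_sum]
    have := Pool.Agent.PairCorr.sum_inv_sq_le (a := |y|) (by linarith) n
    calc (‖h‖ + ‖h‖ ^ 2) * ∑ j ∈ Finset.range (n + 1), 1 / ((j : ℝ) ^ 2 + |y| ^ 2)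
        ≤ (‖h‖ + ‖h‖ ^ 2) * (4 / |y|) := by gcongr
      _ = _ := by ring
  · have htele := sum_log_tele x y hx n
    rw [← hz] at htele
    have hEs : E = h * (Complex.log (z + (n + 1 : ℕ)) - Complex.log z) -
        ∑ j ∈ Finset.range (n + 1), Complex.log (1 + h / (z + j)) := by
      rw [← htele, hE, Finset.mul_sum, ← Finset.sum_sub_distrib]
      refine Finset.sum_congr rfl fun j _ => ?_
      ring
    have hn0 : (n : ℂ) ≠ 0 := by exact_mod_cast hn
    have hexp : cexp (h * Complex.log z) * cexp E *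
        cexp (h * (Complex.log n - Complex.log (z + (n + 1 : ℕ)))) =
        (n : ℂ) ^ h * (∏ j ∈ Finset.range (n + 1), (1 + h / (z + j)))⁻¹ := by
      have e1 : ∏ j ∈ Finset.range (n + 1), (1 + h / (z + j)) =
          cexp (∑ j ∈ Finset.range (n + 1), Complex.log (1 + h / (z + j))) := by
        rw [Complex.exp_sum]
        exact Finset.prod_congr rfl fun j _ => (Complex.exp_log (h1h j)).symm
      rw [e1, ← Complex.exp_neg, Complex.cpow_def_of_ne_zero hn0, ← Complex.exp_add,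
        ← Complex.exp_add, ← Complex.exp_add, hEs]
      congr 1
      ring
    have hprod : ∏ j ∈ Finset.range (n + 1), (z + h + j) =
        (∏ j ∈ Finset.range (n + 1), (z + j)) * ∏ j ∈ Finset.range (n + 1), (1 + h / (z + j)) := by
      rw [← Finset.prod_mul_distrib]
      refine Finset.prod_congr rfl fun j _ => ?_
      have := hzj0 j
      field_simp
      ring
    unfold Complex.GammaSeq
    rw [mul_assoc (_ / _), mul_assoc (_ / _), hexp, hprod, Complex.cpow_add _ _ hn0]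
    have hp1 : ∏ j ∈ Finset.range (n + 1), (z + j) ≠ 0 :=
      Finset.prod_ne_zero_iff.mpr fun j _ => hzj0 j
    have hp2 : ∏ j ∈ Finset.range (n + 1), (1 + h / (z + j)) ≠ 0 :=
      Finset.prod_ne_zero_iff.mpr fun j _ => h1h j
    field_simp

lemma gamR_norm_exp_sub_one (w : ℂ) : ‖cexp w - 1‖ ≤ Real.exp ‖w‖ - 1 := by
  have h := Complex.norm_exp_sub_sum_le_exp_norm_sub_sum w 1
  simpa using h

theorem gamma_ratio (x y : ℝ) (hx : 0 < x) (hy : 2 ≤ |y|) (h : ℂ) (hh : ‖h‖ ≤ |y| / 2) :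
    ‖Complex.Gamma ((x : ℂ) + y * I + h) -
      Complex.Gamma ((x : ℂ) + y * I) * cexp (h * Complex.log ((x : ℂ) + y * I))‖ ≤
      ‖Complex.Gamma ((x : ℂ) + y * I) * cexp (h * Complex.log ((x : ℂ) + y * I))‖ *
        (Real.exp (4 * (‖h‖ + ‖h‖ ^ 2) / |y|) - 1) := by
  set z : ℂ := (x : ℂ) + y * I with hz
  set b : ℝ := 4 * (‖h‖ + ‖h‖ ^ 2) / |y| with hb
  -- the correction tends to one
  have hcor : Tendsto (fun n : ℕ => cexp (-(h * (Complex.log n - Complex.log (z + (n + 1 : ℕ))))))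
      atTop (𝓝 1) := by
    have h1 : Tendsto (fun n : ℕ => (1 : ℂ) + (z + 1) / n) atTop (𝓝 1) := by
      have h2 : Tendsto (fun n : ℕ => (z + 1) / (n : ℂ)) atTop (𝓝 0) :=
        tendsto_const_div_atTop_nhds_zero_nat (z + 1)
      simpa using h2.const_add 1
    have h3 : Tendsto (fun n : ℕ => Complex.log ((1 : ℂ) + (z + 1) / n)) atTop (𝓝 0) := by
      have h4 : ContinuousAt Complex.log 1 := continuousAt_clog (by simp [Complex.slitPlane])
      have h5 := h4.tendsto.comp h1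
      simpa [Function.comp_def] using h5
    have h6 : ∀ᶠ n : ℕ in atTop, -(h * (Complex.log n - Complex.log (z + (n + 1 : ℕ)))) =
        h * Complex.log ((1 : ℂ) + (z + 1) / n) := by
      filter_upwards [eventually_gt_atTop 0] with n hn
      have hn0 : (0 : ℝ) < n := by exact_mod_cast hn
      have hnc : (n : ℂ) ≠ 0 := by exact_mod_cast hn0.ne'
      have h7 : z + ((n + 1 : ℕ) : ℂ) = ((n : ℝ) : ℂ) * (1 + (z + 1) / n) := by
        push_cast
        field_simp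
        ring
      have h8 : (1 : ℂ) + (z + 1) / n ≠ 0 := by
        intro hc
        rw [hc, mul_zero] at h7
        have h9 := congrArg Complex.re h7
        rw [hz] at h9
        simp at h9
        linarith
      rw [h7, Complex.log_ofReal_mul hn0 h8, Complex.ofReal_log hn0.le]
      simp
    have h9 : Tendsto (fun n : ℕ => -(h * (Complex.log n - Complex.log (z + (n + 1 : ℕ)))))
        atTop (𝓝 0) := by
      rw [tendsto_congr' h6]
      simpa using h3.const_mul h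
    have h10 := (Complex.continuous_exp.tendsto 0).comp h9
    simpa [Function.comp_def] using h10
  have hG1 := Complex.GammaSeq_tendsto_Gamma (z + h)
  have hG2 := Complex.GammaSeq_tendsto_Gamma z
  have hL : Tendsto (fun n : ℕ => ‖Complex.GammaSeq (z + h) n *
      cexp (-(h * (Complex.log n - Complex.log (z + (n + 1 : ℕ))))) -
      Complex.GammaSeq z n * cexp (h * Complex.log z)‖) atTop
      (𝓝 ‖Complex.Gamma (z + h) * 1 - Complex.Gamma z * cexp (h * Complex.log z)‖) :=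
    ((hG1.mul hcor).sub (hG2.mul_const _)).norm
  have hR : Tendsto (fun n : ℕ => ‖Complex.GammaSeq z n * cexp (h * Complex.log z)‖ *
      (Real.exp b - 1)) atTop (𝓝 (‖Complex.Gamma z * cexp (h * Complex.log z)‖ *
      (Real.exp b - 1))) := ((hG2.mul_const _).norm).mul_const _
  have hle := le_of_tendsto_of_tendsto hL hR ?_
  · rwa [mul_one] at hle
  · filter_upwards [eventually_gt_atTop 0] with n hn
    obtain ⟨E, hE1, hE2⟩ := gammaSeq_ratio x y hx hy h hh n hn.ne'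
    rw [← hz] at hE2
    rw [hE2]
    have e1 : Complex.GammaSeq z n * cexp (h * Complex.log z) * cexp E *
        cexp (h * (Complex.log n - Complex.log (z + (n + 1 : ℕ)))) *
        cexp (-(h * (Complex.log n - Complex.log (z + (n + 1 : ℕ))))) -
        Complex.GammaSeq z n * cexp (h * Complex.log z) =
        Complex.GammaSeq z n * cexp (h * Complex.log z) * (cexp E - 1) := by
      rw [mul_assoc _ (cexp (h * (Complex.log n - Complex.log (z + (n + 1 : ℕ))))), ← Complex.exp_add,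
        add_neg_cancel, Complex.exp_zero]
      ring
    rw [e1, norm_mul]
    gcongr
    refine (gamR_norm_exp_sub_one E).trans ?_
    have := Real.exp_le_exp.mpr hE1
    linarith

end Pool.Agent.H74.ZS
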