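import Pool.Agent.H74.TS.KF

/-!
# Weights with the `k`-fold product property, real conductor

The analogue of `KF` (`Pool/Agent/H74/TS/KF.lean`) for weights coming from sets of real numbers:
the prime `q` is replaced by a real number `q` (the height), and the property is stated for boxes.
It is required for all shifts `(x, y) ↦ (m x, n y)` of the weight.
-/

namespace Pool.Agent.H74.ZS

open Finset Pool.Agent.H14.PT Pool.Agent.H74.TS

/-- a weight on fractions with the `k`-fold product property of constant `h`, at height `q` -/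
structure KG (q : ℝ) (h : ℝ) (v : ℕ × ℕ → ℝ) : Prop where
  one_q : 1 ≤ q
  one_le : 1 ≤ h
  nonneg : ∀ p, 0 ≤ v p
  le_one : ∀ p, v p ≤ 1
  kf : ∀ (m n : ℕ), m ≠ 0 → n ≠ 0 → ∀ (P : Finset (ℕ × ℕ)) (A B : ℝ), 0 < A → 0 < B →
    ∀ k : ℕ, 1 ≤ k → (k : ℝ) * Real.log (8 * A * B) ≤ 3 * Real.log q →
    (∀ p ∈ P, ∀ p' ∈ P, Nat.Coprime p.1 p'.2) → (∀ p ∈ P, IB A B p) →
    ∀ D : ℕ, (∀ t : Fin k → ℕ × ℕ, (∀ i, t i ∈ P) →
      dk k (∏ i, (t i).1) * dk k (∏ i, (t i).2) ≤ D) →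
    (∑ p ∈ P, v (m * p.1, n * p.2)) ^ k ≤ h * (D * (1 + (8 * A * B) ^ k / q))

namespace KG

variable {q h : ℝ} {v : ℕ × ℕ → ℝ}

lemma qpos (hv : KG q h v) : 0 < q := lt_of_lt_of_le one_pos hv.one_q

/-- shifted weights -/
theorem shift (hv : KG q h v) {m n : ℕ} (hm : m ≠ 0) (hn : n ≠ 0) :
    KG q h (fun p => v (m * p.1, n * p.2)) := by
  refine ⟨hv.one_q, hv.one_le, fun p => hv.nonneg _, fun p => hv.le_one _, ?_⟩
  intro m' n' hm' hn' P A B hA hB k hk hk3 hcop hbox D hD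
  have h1 := hv.kf (m * m') (n * n') (Nat.mul_ne_zero hm hm') (Nat.mul_ne_zero hn hn') P A B hA hB
    k hk hk3 hcop hbox D hD
  refine le_trans (le_of_eq ?_) h1
  congr 1
  refine Finset.sum_congr rfl fun p _ => ?_
  simp only
  rw [Nat.mul_assoc, Nat.mul_assoc]

end KG

theorem kf_shiftL {q : ℝ} {h : ℝ} {v : ℕ × ℕ → ℝ} (hv : KG q h v) (m : ℕ) (hm : m ≠ 0) :
    KG q h (fun p => v (m * p.1, p.2)) := by
  have h1 := hv.shift hm one_ne_zero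
  simpa only [Nat.one_mul] using h1

theorem kf_shiftR {q : ℝ} {h : ℝ} {v : ℕ × ℕ → ℝ} (hv : KG q h v) (m : ℕ) (hm : m ≠ 0) :
    KG q h (fun p => v (p.1, m * p.2)) := by
  have h1 := hv.shift one_ne_zero hm
  simpa only [Nat.one_mul] using h1

lemma ww_le_one {q : ℝ} {h1 h2 : ℝ} {v1 v2 : ℕ × ℕ → ℝ} (hv1 : KG q h1 v1) (hv2 : KG q h2 v2)
    (p : ℕ × ℕ) : ww v1 v2 p ≤ 1 := by
  unfold ww
  rw [Real.sqrt_le_left (by norm_num), one_pow]
  exact mul_le_one₀ (hv1.le_one p) (hv2.nonneg p) (hv2.le_one p)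

theorem wkfold {q : ℝ} {h : ℝ} {v : ℕ × ℕ → ℝ} (hv : KG q h v) (P : Finset (ℕ × ℕ))
    (A B : ℝ) (hA : 0 < A) (hB : 0 < B) (k : ℕ) (hk : 1 ≤ k)
    (hk3 : (k : ℝ) * Real.log (8 * A * B) ≤ 3 * Real.log q)
    (hcop : ∀ p ∈ P, ∀ p' ∈ P, Nat.Coprime p.1 p'.2)
    (hbox : ∀ p ∈ P, IB A B p)
    (D : ℕ) (hD : ∀ t : Fin k → ℕ × ℕ, (∀ i, t i ∈ P) →
      dk k (∏ i, (t i).1) * dk k (∏ i, (t i).2) ≤ D) :
    (∑ p ∈ P, v p) ^ k ≤ h * (D * (1 + (8 * A * B) ^ k / q)) := by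
  have h1 := hv.kf 1 1 one_ne_zero one_ne_zero P A B hA hB k hk hk3 hcop hbox D hD
  simpa using h1

end Pool.Agent.H74.ZS
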