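import Pool.Agent.H74.ZS.Cd
import Pool.Agent.H74.TS.KF

/-!
# Products of fractions in a short window

`zs_window`: `P` a finite set of fractions with `IB A B` and cross-coprime.  As in `wkfold` of
`Pool/Agent/H74/TS/KF.lean` the map `Φ t = (∏ (t i).1, ∏ (t i).2)` has fibres of size at most `D`
(copy that part); so it suffices to show that the image `S` of the filtered set has at most
`1 + 2 (8AB)^k / U` elements.  The elements `(a, b) ∈ S` satisfy: `a, b` coprime, `1 ≤ a ≤ (2A)^k`,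
`B^k ≤ b ≤ (2B)^k`, `e^x ≤ a/b < e^(x + 1/U)`.  `(a, b) ↦ a/b` is injective on coprime pairs, and
two different such fractions differ by at least `1/(b b') ≥ (2B)^(-2k) =: δ`.  All lie in `[e^x, e^x e^(1/U)]` of length
`e^x (e^(1/U) - 1) ≤ 2 e^x / U ≤ 2 (2A)^k B^(-k) / U` (`S` nonempty: `e^x ≤ a/b ≤ (2A)^k/B^k`; `e^t - 1 ≤ 2 t` for
`0 ≤ t ≤ 1`).  So `|S| ≤ 1 + length/δ = 1 + 2 (2A)^k B^(-k) (2B)^(2k) / U = 1 + 2 (8AB)^k / U`
(`zs_spaced`: `v ↦ ⌊(v - l)/δ⌋₊` is injective on a `δ`-spaced set in `[l, l + h]`, values `≤ h/δ`).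
-/

namespace Pool.Agent.H74.ZS

open Finset Pool.Agent.H14.PT Pool.Agent.H74.TS

theorem zs_spaced (V : Finset ℝ) (l h δ : ℝ) (hδ : 0 < δ) (hh : 0 ≤ h)
    (hV : ∀ v ∈ V, l ≤ v ∧ v ≤ l + h) (hsp : ∀ v ∈ V, ∀ v' ∈ V, v < v' → δ ≤ v' - v) :
    (V.card : ℝ) ≤ 1 + h / δ := by
  have hinj : ∀ v ∈ V, ∀ v' ∈ V, v < v' → ⌊(v - l) / δ⌋₊ < ⌊(v' - l) / δ⌋₊ := by
    intro v hv v' hv' hlt
    have h1 := hsp v hv v' hv' hlt
    have h2 : 0 ≤ (v - l) / δ := div_nonneg (by linarith [(hV v hv).1]) hδ.le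
    have h3 : (v - l) / δ + 1 ≤ (v' - l) / δ := by
      rw [div_add_one hδ.ne']
      exact div_le_div_of_nonneg_right (by linarith) hδ.le
    have h4 : (⌊(v - l) / δ⌋₊ : ℝ) ≤ (v - l) / δ := Nat.floor_le h2
    have h5 : ⌊(v - l) / δ⌋₊ + 1 ≤ ⌊(v' - l) / δ⌋₊ := by
      refine Nat.le_floor ?_
      push_cast
      linarith
    omega
  have h1 : V.card ≤ (Finset.range (⌊h / δ⌋₊ + 1)).card := by
    refine Finset.card_le_card_of_injOn (fun v => ⌊(v - l) / δ⌋₊) ?_ ?_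
    · intro v hv
      have hv' := hV v (Finset.mem_coe.1 hv)
      refine Finset.mem_coe.2 (Finset.mem_range.2 ?_)
      have h2 : ⌊(v - l) / δ⌋₊ ≤ ⌊h / δ⌋₊ :=
        Nat.floor_le_floor (div_le_div_of_nonneg_right (by linarith) hδ.le)
      change ⌊(v - l) / δ⌋₊ < ⌊h / δ⌋₊ + 1
      omega
    · intro v hv v' hv' hvv
      have hvv' : ⌊(v - l) / δ⌋₊ = ⌊(v' - l) / δ⌋₊ := hvv
      rcases lt_trichotomy v v' with h2 | h2 | h2
      · have := hinj v (Finset.mem_coe.1 hv) v' (Finset.mem_coe.1 hv') h2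
        omega
      · exact h2
      · have := hinj v' (Finset.mem_coe.1 hv') v (Finset.mem_coe.1 hv) h2
        omega
  rw [Finset.card_range] at h1
  have h2 : (⌊h / δ⌋₊ : ℝ) ≤ h / δ := Nat.floor_le (div_nonneg hh hδ.le)
  have h3 : (V.card : ℝ) ≤ (⌊h / δ⌋₊ : ℝ) + 1 := by exact_mod_cast h1
  linarith

private lemma win_cop {a b a' b' : ℕ} (h : Nat.Coprime a b) (h' : Nat.Coprime a' b')
    (ha : a ≠ 0) (he : a * b' = a' * b) : (a, b) = (a', b') := by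
  have h1 : a ∣ a' := by
    have : a ∣ a' * b := by
      rw [← he]
      exact dvd_mul_right _ _
    exact h.dvd_of_dvd_mul_right this
  have h2 : a' ∣ a := by
    have : a' ∣ a * b' := by
      rw [he]
      exact dvd_mul_right _ _
    exact h'.dvd_of_dvd_mul_right this
  have h3 : a = a' := Nat.dvd_antisymm h1 h2
  subst h3
  have h4 : b' = b := Nat.eq_of_mul_eq_mul_left (Nat.pos_of_ne_zero ha) he
  rw [h4]

private lemma win_card (S : Finset (ℕ × ℕ)) (X Y Z x U : ℝ) (hX : 0 < X) (hY : 0 < Y) (hZ : 0 < Z)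
    (hU : 1 ≤ U) (hcop : ∀ p ∈ S, Nat.Coprime p.1 p.2) (h1 : ∀ p ∈ S, p.1 ≠ 0)
    (h1X : ∀ p ∈ S, (p.1 : ℝ) ≤ X) (h2Y : ∀ p ∈ S, Y ≤ (p.2 : ℝ)) (h2Z : ∀ p ∈ S, (p.2 : ℝ) ≤ Z)
    (hlo : ∀ p ∈ S, x ≤ Real.log (p.1 : ℝ) - Real.log (p.2 : ℝ))
    (hhi : ∀ p ∈ S, Real.log (p.1 : ℝ) - Real.log (p.2 : ℝ) < x + 1 / U) :
    (S.card : ℝ) ≤ 1 + 2 * (X / Y * (Z * Z)) / U := by
  classical
  have hU0 : 0 < U := by linarith
  rcases S.eq_empty_or_nonempty with hS | hS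
  · rw [hS, Finset.card_empty, Nat.cast_zero]
    positivity
  have hpos1 : ∀ p ∈ S, (0 : ℝ) < (p.1 : ℝ) := fun p hp => by
    exact_mod_cast Nat.pos_of_ne_zero (h1 p hp)
  have hpos2 : ∀ p ∈ S, (0 : ℝ) < (p.2 : ℝ) := fun p hp => lt_of_lt_of_le hY (h2Y p hp)
  have hexp : ∀ p ∈ S, Real.exp (Real.log (p.1 : ℝ) - Real.log (p.2 : ℝ)) =
      (p.1 : ℝ) / (p.2 : ℝ) := by
    intro p hp
    rw [Real.exp_sub, Real.exp_log (hpos1 p hp), Real.exp_log (hpos2 p hp)]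
  have hex : Real.exp x ≤ X / Y := by
    obtain ⟨p, hp⟩ := hS
    have h3 := Real.exp_le_exp.2 (hlo p hp)
    rw [hexp p hp] at h3
    refine h3.trans ?_
    exact div_le_div₀ hX.le (h1X p hp) hY (h2Y p hp)
  have hinj : ∀ p ∈ S, ∀ p' ∈ S, (p.1 : ℝ) / (p.2 : ℝ) = (p'.1 : ℝ) / (p'.2 : ℝ) → p = p' := by
    intro p hp p' hp' he
    rw [div_eq_div_iff (hpos2 p hp).ne' (hpos2 p' hp').ne'] at he
    have he' : p.1 * p'.2 = p'.1 * p.2 := by exact_mod_cast he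
    exact win_cop (hcop p hp) (hcop p' hp') (h1 p hp) he'
  have hcard : S.card = (S.image fun p => (p.1 : ℝ) / (p.2 : ℝ)).card := by
    symm
    refine Finset.card_image_of_injOn ?_
    intro p hp p' hp' he
    exact hinj p (Finset.mem_coe.1 hp) p' (Finset.mem_coe.1 hp') he
  have hU1 : |1 / U| ≤ 1 := by
    rw [abs_of_pos (by positivity), div_le_one hU0]
    exact hU
  have he1 : Real.exp (1 / U) - 1 ≤ 2 * (1 / U) := by
    have h3 := Real.abs_exp_sub_one_le hU1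
    rw [abs_of_pos (a := 1 / U) (by positivity)] at h3
    exact (le_abs_self _).trans h3
  have he0 : 0 ≤ Real.exp (1 / U) - 1 := by
    have h3 : (1 : ℝ) ≤ Real.exp (1 / U) := Real.one_le_exp (by positivity)
    linarith
  have hmain := zs_spaced (S.image fun p => (p.1 : ℝ) / (p.2 : ℝ)) (Real.exp x)
    (Real.exp x * (Real.exp (1 / U) - 1)) (1 / (Z * Z)) (by positivity)
    (mul_nonneg (Real.exp_pos _).le he0) (by
      intro v hv
      obtain ⟨p, hp, rfl⟩ := Finset.mem_image.1 hv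
      rw [← hexp p hp]
      constructor
      · exact Real.exp_le_exp.2 (hlo p hp)
      · have h3 := (Real.exp_lt_exp.2 (hhi p hp)).le
        rw [Real.exp_add] at h3
        linarith) (by
      intro v hv v' hv' hlt
      obtain ⟨p, hp, rfl⟩ := Finset.mem_image.1 hv
      obtain ⟨p', hp', rfl⟩ := Finset.mem_image.1 hv'
      have hlt' : (p.1 : ℝ) / (p.2 : ℝ) < (p'.1 : ℝ) / (p'.2 : ℝ) := hlt
      change 1 / (Z * Z) ≤ (p'.1 : ℝ) / (p'.2 : ℝ) - (p.1 : ℝ) / (p.2 : ℝ)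
      have hp2 := hpos2 p hp
      have hp2' := hpos2 p' hp'
      rw [div_lt_div_iff₀ hp2 hp2'] at hlt'
      have h3 : p.1 * p'.2 < p'.1 * p.2 := by exact_mod_cast hlt'
      have h4 : p.1 * p'.2 + 1 ≤ p'.1 * p.2 := h3
      have h5 : (p.1 : ℝ) * p'.2 + 1 ≤ (p'.1 : ℝ) * p.2 := by exact_mod_cast h4
      rw [div_sub_div _ _ hp2'.ne' hp2.ne']
      refine div_le_div₀ (by nlinarith) (by nlinarith) (mul_pos hp2' hp2) ?_
      exact mul_le_mul (h2Z p' hp') (h2Z p hp) hp2.le hZ.le)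
  rw [hcard]
  refine hmain.trans ?_
  have h6 : Real.exp x * (Real.exp (1 / U) - 1) / (1 / (Z * Z)) =
      Real.exp x * (Real.exp (1 / U) - 1) * (Z * Z) := by
    field_simp
  rw [h6]
  have h7 : Real.exp x * (Real.exp (1 / U) - 1) * (Z * Z) ≤ X / Y * (2 * (1 / U)) * (Z * Z) := by
    refine mul_le_mul_of_nonneg_right ?_ (by positivity)
    exact mul_le_mul hex he1 he0 (by positivity)
  have h8 : X / Y * (2 * (1 / U)) * (Z * Z) = 2 * (X / Y * (Z * Z)) / U := by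
    field_simp
  linarith

theorem zs_window (P : Finset (ℕ × ℕ)) (A B : ℝ) (hA : 0 < A) (hB : 0 < B) (k : ℕ) (hk : 1 ≤ k)
    (hcop : ∀ p ∈ P, ∀ p' ∈ P, Nat.Coprime p.1 p'.2) (hbox : ∀ p ∈ P, IB A B p)
    (D : ℕ) (hD : ∀ t : Fin k → ℕ × ℕ, (∀ i, t i ∈ P) →
      dk k (∏ i, (t i).1) * dk k (∏ i, (t i).2) ≤ D)
    (U : ℝ) (hU : 1 ≤ U) (x : ℝ) :
    (((Fintype.piFinset (fun _ : Fin k => P)).filter (fun t =>
      x ≤ Real.log ((∏ i, (t i).1 : ℕ) : ℝ) - Real.log ((∏ i, (t i).2 : ℕ) : ℝ) ∧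
      Real.log ((∏ i, (t i).1 : ℕ) : ℝ) - Real.log ((∏ i, (t i).2 : ℕ) : ℝ) < x + 1 / U)).card : ℝ) ≤
      D * (1 + 2 * (8 * A * B) ^ k / U) := by
  classical
  set T : Finset (Fin k → ℕ × ℕ) := (Fintype.piFinset (fun _ : Fin k => P)).filter (fun t =>
      x ≤ Real.log ((∏ i, (t i).1 : ℕ) : ℝ) - Real.log ((∏ i, (t i).2 : ℕ) : ℝ) ∧
      Real.log ((∏ i, (t i).1 : ℕ) : ℝ) - Real.log ((∏ i, (t i).2 : ℕ) : ℝ) < x + 1 / U) with hT
  set Φ : (Fin k → ℕ × ℕ) → ℕ × ℕ := fun t => (∏ i, (t i).1, ∏ i, (t i).2) with hΦ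
  have hmem : ∀ t ∈ T, ∀ i, t i ∈ P := fun t ht i =>
    Fintype.mem_piFinset.mp (Finset.mem_filter.mp ht).1 i
  have hwin := fun t (ht : t ∈ T) => (Finset.mem_filter.mp ht).2
  have hfib : ∀ b ∈ T.image Φ, (T.filter (fun t => Φ t = b)).card ≤ D := by
    intro b hb
    obtain ⟨t, ht, rfl⟩ := mem_image.mp hb
    refine le_trans ?_ (hD t (hmem t ht))
    unfold dk
    rw [← Finset.card_product]
    refine Finset.card_le_card_of_injOn (fun s => (fun i => (s i).1, fun i => (s i).2)) ?_ ?_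
    · intro s hs
      have hs' := Finset.mem_filter.mp (Finset.mem_coe.mp hs)
      simp only [hΦ, Prod.mk.injEq] at hs'
      simp only [coe_product, Set.mem_prod, mem_coe, Nat.mem_finMulAntidiag]
      refine ⟨⟨hs'.2.1, ?_⟩, hs'.2.2, ?_⟩
      · exact Finset.prod_ne_zero_iff.mpr fun i _ => (hbox _ (hmem t ht i)).2.1
      · exact Finset.prod_ne_zero_iff.mpr fun i _ => (hbox _ (hmem t ht i)).2.2.1
    · intro s _ s' _ hss
      simp only [Prod.mk.injEq] at hss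
      funext i
      exact Prod.ext (congrFun hss.1 i) (congrFun hss.2 i)
  have h1 := Finset.card_le_mul_card_image T D hfib
  have h2 : ((T.image Φ).card : ℝ) ≤
      1 + 2 * ((2 * A) ^ k / B ^ k * ((2 * B) ^ k * (2 * B) ^ k)) / U := by
    refine win_card _ ((2 * A) ^ k) (B ^ k) ((2 * B) ^ k) x U (by positivity) (by positivity)
      (by positivity) hU ?_ ?_ ?_ ?_ ?_ ?_ ?_
    · intro b hb
      obtain ⟨t, ht, rfl⟩ := mem_image.mp hb
      have htm := hmem t ht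
      change Nat.Coprime (∏ i, (t i).1) (∏ i, (t i).2)
      exact Nat.Coprime.prod_left fun i _ => Nat.Coprime.prod_right fun j _ =>
        hcop _ (htm i) _ (htm j)
    · intro b hb
      obtain ⟨t, ht, rfl⟩ := mem_image.mp hb
      change ∏ i, (t i).1 ≠ 0
      exact Finset.prod_ne_zero_iff.mpr fun i _ => (hbox _ (hmem t ht i)).2.1
    · intro b hb
      obtain ⟨t, ht, rfl⟩ := mem_image.mp hb
      have htm := hmem t ht
      change ((∏ i, (t i).1 : ℕ) : ℝ) ≤ _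
      push_cast
      calc ∏ i, ((t i).1 : ℝ) ≤ ∏ _i : Fin k, (2 * A) :=
            Finset.prod_le_prod (fun i _ => by positivity) fun i _ => (hbox _ (htm i)).2.2.2.1
        _ = (2 * A) ^ k := by simp
    · intro b hb
      obtain ⟨t, ht, rfl⟩ := mem_image.mp hb
      have htm := hmem t ht
      change _ ≤ ((∏ i, (t i).2 : ℕ) : ℝ)
      push_cast
      calc B ^ k = ∏ _i : Fin k, B := by
            rw [Finset.prod_const, Finset.card_univ, Fintype.card_fin]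
        _ ≤ ∏ i, ((t i).2 : ℝ) :=
            Finset.prod_le_prod (fun i _ => hB.le) fun i _ => (hbox _ (htm i)).2.2.2.2.1
    · intro b hb
      obtain ⟨t, ht, rfl⟩ := mem_image.mp hb
      have htm := hmem t ht
      change ((∏ i, (t i).2 : ℕ) : ℝ) ≤ _
      push_cast
      calc ∏ i, ((t i).2 : ℝ) ≤ ∏ _i : Fin k, (2 * B) :=
            Finset.prod_le_prod (fun i _ => by positivity) fun i _ => (hbox _ (htm i)).2.2.2.2.2
        _ = (2 * B) ^ k := by simp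
    · intro b hb
      obtain ⟨t, ht, rfl⟩ := mem_image.mp hb
      exact (hwin t ht).1
    · intro b hb
      obtain ⟨t, ht, rfl⟩ := mem_image.mp hb
      exact (hwin t ht).2
  have h1' : (T.card : ℝ) ≤ D * (T.image Φ).card := by exact_mod_cast h1
  refine h1'.trans ?_
  have h3 : (2 * A) ^ k / B ^ k * ((2 * B) ^ k * (2 * B) ^ k) = (8 * A * B) ^ k := by
    have hB' : B ^ k ≠ 0 := by positivity
    rw [div_mul_eq_mul_div, div_eq_iff hB', ← mul_pow, ← mul_pow, ← mul_pow]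
    congr 1
    ring
  rw [h3] at h2
  exact mul_le_mul_of_nonneg_left h2 (by positivity)

end Pool.Agent.H74.ZS
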