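import Pool.Agent.H74.ZS.LSD
import Pool.Agent.H74.ZS.Win
import Pool.Agent.H74.ZS.KG

/-!
# The weight of a separated set has the product property

`vg_kg`.  `one_q`: `1 ≤ T`.  `nonneg`, `le_one`: `‖fg A c p‖ ≤ |A|` (`norm_nt`).  `one_le` (`zs_card_le`): `a ↦ ⌊a - a0⌋` (`a0 ∈ A`
fixed) is injective on `A`, with values in `[-T-1, T]`, so `|A| ≤ 2 T + 2 ≤ 3 T ≤ 2400 T log T`.

`kf`: fix `m, n ≠ 0`, `P`, `k`.  If `P = ∅` the left side is `0`.  For `p ∈ P` (`p.1, p.2 ≠ 0` by `IB`):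
`fg A c (m p.1, n p.2) = fg A c' p` with `c' a = c a * (nt a m * conj (nt a n))`, `‖c' a‖ ≤ 1` (`nt_mul`).
Put `S = ∑_{p ∈ P} vg A c (m p.1, n p.2) = ∑_p ‖θ_p‖²`, `θ_p = conj (fg A c' p / |A|)`.
As in `chars_kf` of `Pool/Agent/H74/TS/Chars.lean`: `S = ∑_{a ∈ A} (1/|A|) c' a D(a)` with
`D(a) = ∑_p θ_p nt a p.1 conj (nt a p.2) = ∑_p θ_p ee a (log p.1 - log p.2)`, so
`S^(2k) ≤ (1/|A|) ∑_a ‖D(a)^k‖²` (power mean, `Real.pow_arith_mean_le_arith_mean_pow`).
`D(a)^k = ∑_{t ∈ P^k} (∏ θ_{t i}) ee a (lam t)`, `lam t = log ∏ (t i).1 - log ∏ (t i).2` (`Finset.sum_pow'`,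
`Real.log_prod`, `ee_add_right`).  Then `zs_discrete` with `s = Fintype.piFinset (fun _ => P)`, `U = T + 1`,
`Lam = 3 log T ≥ 1`, `a0` any element of `A`, `R = D (1 + 2 (8AB)^k / U)` (`zs_window`), gives
`∑_a ‖D(a)^k‖² ≤ 200 · 3 log T · (T+1) · R · S^k` (`∑_t ∏ ‖θ_{t i}‖² = S^k`), where
`(T+1) ≤ 2T` and `R ≤ 2 D (1 + (8AB)^k/T)`.  So `S^(2k) ≤ hG T A · D (1 + (8AB)^k/T) · S^k`; divide by `S^k` (if
`S = 0` trivial).  `|lam t| ≤ Lam`: `1 ≤ ∏ (t i).1 ≤ (2A)^k`, `1 ≤ ∏ (t i).2 ≤ (2B)^k`, so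
`|lam t| ≤ k max(log 2A, log 2B) ≤ k log (8AB) ≤ 3 log T` (as `2A, 2B ≥ 1` because `P` has an element).
-/

namespace Pool.Agent.H74.ZS

open Finset Pool.Agent.H14.PT Pool.Agent.H74.TS Pool.Agent.H74.PZ
open scoped ComplexConjugate

theorem zs_card_le {T : ℝ} (hT : 0 ≤ T) (A : Finset ℝ) (hsep : SepR A)
    (hd : ∀ a ∈ A, ∀ a' ∈ A, |a - a'| ≤ T) : (A.card : ℝ) ≤ 2 * T + 2 := by
  classical
  rcases A.eq_empty_or_nonempty with hE | ⟨a0, ha0⟩
  · rw [hE, Finset.card_empty, Nat.cast_zero]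
    linarith
  have hmaps : ∀ a ∈ A, ⌊a - a0⌋ ∈ Finset.Icc ⌊-T⌋ ⌊T⌋ := by
    intro a ha
    have h1 := abs_le.1 (hd a ha a0 ha0)
    rw [Finset.mem_Icc]
    exact ⟨Int.floor_le_floor h1.1, Int.floor_le_floor h1.2⟩
  have hinj : Set.InjOn (fun a : ℝ => ⌊a - a0⌋) (A : Set ℝ) := by
    intro a ha a' ha' h
    by_contra hne
    have h1 := hsep a ha a' ha' hne
    simp only at h
    have h2 := Int.abs_sub_lt_one_of_floor_eq_floor h
    have h3 : a - a0 - (a' - a0) = a - a' := by ring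
    rw [h3] at h2
    linarith
  have hcard := Finset.card_le_card_of_injOn _ hmaps hinj
  rw [Int.card_Icc] at hcard
  have h1 : ((⌊T⌋ + 1 - ⌊-T⌋ : ℤ) : ℝ) ≤ 2 * T + 2 := by
    have h2 := Int.floor_le T
    have h3 := Int.lt_floor_add_one (-T)
    push_cast
    linarith
  have h4 : 0 ≤ ⌊T⌋ + 1 - ⌊-T⌋ := by
    have : ⌊-T⌋ ≤ ⌊T⌋ := Int.floor_le_floor (by linarith)
    linarith
  calc (A.card : ℝ) ≤ (((⌊T⌋ + 1 - ⌊-T⌋).toNat : ℕ) : ℝ) := by exact_mod_cast hcard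
    _ = ((⌊T⌋ + 1 - ⌊-T⌋ : ℤ) : ℝ) := by
        rw [← Int.cast_natCast, Int.toNat_of_nonneg h4]
    _ ≤ 2 * T + 2 := h1

lemma kgi_nt_prod {ι : Type*} (s : Finset ι) (a : ℝ) (f : ι → ℕ) (hf : ∀ i ∈ s, f i ≠ 0) :
    nt a (∏ i ∈ s, f i) = ∏ i ∈ s, nt a (f i) := by
  classical
  induction s using Finset.induction_on with
  | empty => rw [Finset.prod_empty, Finset.prod_empty, nt_one]
  | insert i s hi ih =>
    rw [Finset.prod_insert hi, Finset.prod_insert hi, nt_mul a (hf i (Finset.mem_insert_self i s))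
      (Finset.prod_ne_zero_iff.2 fun j hj => hf j (Finset.mem_insert_of_mem hj)),
      ih fun j hj => hf j (Finset.mem_insert_of_mem hj)]

lemma kgi_conj_nt (a : ℝ) (n : ℕ) : conj (nt a n) = ee a (-Real.log n) := by
  unfold nt
  rw [conj_ee]
  unfold Pool.Agent.H74.PZ.ee
  congr 2
  push_cast
  ring

lemma kgi_fg_le (A : Finset ℝ) (c : ℝ → ℂ) (hc : ∀ a ∈ A, ‖c a‖ ≤ 1) (p : ℕ × ℕ) :
    ‖fg A c p‖ ≤ A.card := by
  unfold fg
  refine (norm_sum_le _ _).trans ?_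
  refine (Finset.sum_le_card_nsmul A _ 1 (fun a ha => ?_)).trans (by simp)
  rw [norm_mul, norm_mul, RCLike.norm_conj, norm_nt, norm_nt, mul_one, mul_one]
  exact hc a ha

lemma kgi_log4 {T : ℝ} (hT : 4 ≤ T) : 1 ≤ Real.log T := by
  rw [Real.le_log_iff_exp_le (by linarith)]
  have := Real.exp_one_lt_d9
  linarith

/-- the `k`-fold product property -/
lemma kgi_kf {T : ℝ} (hT : 4 ≤ T) (A : Finset ℝ) (hA : A.Nonempty) (hsep : SepR A)
    (hd : ∀ a ∈ A, ∀ a' ∈ A, |a - a'| ≤ T) (c : ℝ → ℂ) (hc : ∀ a ∈ A, ‖c a‖ ≤ 1)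
    (P : Finset (ℕ × ℕ)) (Ab Bb : ℝ) (hAb : 0 < Ab) (hBb : 0 < Bb) (k : ℕ) (hk : 1 ≤ k)
    (hk3 : (k : ℝ) * Real.log (8 * Ab * Bb) ≤ 3 * Real.log T)
    (hcop : ∀ p ∈ P, ∀ p' ∈ P, Nat.Coprime p.1 p'.2) (hbox : ∀ p ∈ P, IB Ab Bb p)
    (D : ℕ) (hD : ∀ t : Fin k → ℕ × ℕ, (∀ i, t i ∈ P) →
      dk k (∏ i, (t i).1) * dk k (∏ i, (t i).2) ≤ D) :
    (∑ p ∈ P, vg A c p) ^ k ≤ hG T A * (D * (1 + (8 * Ab * Bb) ^ k / T)) := by
  classical
  obtain ⟨a0, ha0⟩ := hA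
  have hN : (0 : ℝ) < A.card := by exact_mod_cast Finset.card_pos.2 ⟨a0, ha0⟩
  have hNC : (A.card : ℂ) ≠ 0 := by exact_mod_cast hN.ne'
  have hlogT := kgi_log4 hT
  set X : ℝ := (8 * Ab * Bb) ^ k with hX
  have hX0 : 0 ≤ X := by positivity
  set S := ∑ p ∈ P, vg A c p with hS
  set θ : ℕ × ℕ → ℂ := fun p => conj (fg A c p / A.card) with hθ
  have hθS : ∑ p ∈ P, ‖θ p‖ ^ 2 = S := by
    rw [hS]
    refine Finset.sum_congr rfl (fun p _ => ?_)
    rw [hθ, vg]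
    simp only
    rw [Complex.norm_conj, norm_div, Complex.norm_natCast]
  have hS0 : 0 ≤ S := by
    rw [← hθS]
    exact Finset.sum_nonneg (fun _ _ => by positivity)
  set Dd : ℝ → ℂ := fun a => ∑ p ∈ P, θ p * (nt a p.1 * conj (nt a p.2)) with hDd
  have h1 : (S : ℂ) = ∑ a ∈ A, (1 / (A.card : ℂ)) * (c a * Dd a) := by
    rw [← Finset.mul_sum, hDd]
    simp only [Finset.mul_sum]
    rw [Finset.sum_comm, ← hθS]
    push_cast
    refine Finset.sum_congr rfl (fun p _ => ?_)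
    have h2 : ∑ a ∈ A, c a * (nt a p.1 * conj (nt a p.2)) = fg A c p := rfl
    have h3 : ((‖θ p‖ : ℂ)) ^ 2 = conj (θ p) * θ p := by
      rw [mul_comm, Complex.mul_conj, Complex.normSq_eq_norm_sq]
      push_cast
      rfl
    have h4 : conj (θ p) = fg A c p / A.card := by
      rw [hθ]
      exact Complex.conj_conj _
    have h5 : ∑ a ∈ A, (1 / (A.card : ℂ)) * (c a * (θ p * (nt a p.1 * conj (nt a p.2)))) =
        (1 / (A.card : ℂ)) * θ p * ∑ a ∈ A, c a * (nt a p.1 * conj (nt a p.2)) := by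
      rw [Finset.mul_sum]
      refine Finset.sum_congr rfl fun a _ => ?_
      ring
    rw [h5, h2, h3, h4]
    field_simp
  have h2 : S ≤ ∑ a ∈ A, (1 / (A.card : ℝ)) * ‖Dd a‖ := by
    have h3 : ‖(S : ℂ)‖ = S := by
      rw [Complex.norm_real, Real.norm_of_nonneg hS0]
    rw [← h3, h1]
    refine (norm_sum_le _ _).trans ?_
    refine Finset.sum_le_sum (fun a ha => ?_)
    rw [norm_mul, norm_div, norm_one, Complex.norm_natCast, norm_mul]
    refine mul_le_mul_of_nonneg_left ?_ (by positivity)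
    calc ‖c a‖ * ‖Dd a‖ ≤ 1 * ‖Dd a‖ := mul_le_mul_of_nonneg_right (hc a ha) (norm_nonneg _)
      _ = ‖Dd a‖ := one_mul _
  -- expansion of the power
  set lam : (Fin k → ℕ × ℕ) → ℝ := fun t =>
    Real.log ((∏ i, (t i).1 : ℕ) : ℝ) - Real.log ((∏ i, (t i).2 : ℕ) : ℝ) with hlam
  have hpow : ∀ a : ℝ, (Dd a) ^ k =
      ∑ t ∈ Fintype.piFinset (fun _ : Fin k => P), (∏ i, θ (t i)) * ee a (lam t) := by
    intro a
    rw [hDd]
    simp only
    rw [Finset.sum_pow']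
    refine Finset.sum_congr rfl fun t ht => ?_
    rw [Fintype.mem_piFinset] at ht
    have e1 : nt a (∏ i, (t i).1) = ∏ i, nt a (t i).1 :=
      kgi_nt_prod _ a _ fun i _ => (hbox _ (ht i)).2.1
    have e2 : nt a (∏ i, (t i).2) = ∏ i, nt a (t i).2 :=
      kgi_nt_prod _ a _ fun i _ => (hbox _ (ht i)).2.2.1
    have e3 : ∏ i, conj (nt a (t i).2) = conj (nt a (∏ i, (t i).2)) := by
      rw [e2, map_prod]
    rw [Finset.prod_mul_distrib, Finset.prod_mul_distrib, ← e1, e3, kgi_conj_nt]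
    congr 1
    unfold nt
    rw [← ee_add_right, ← sub_eq_add_neg]
  have hdisc := zs_discrete (Fintype.piFinset (fun _ : Fin k => P)) lam
    (fun t => ∏ i, θ (t i)) (T + 1) (3 * Real.log T) (D * (1 + 2 * X / (T + 1))) a0
    (by linarith) (by linarith)
    (fun x => zs_window P Ab Bb hAb hBb k hk hcop hbox D hD (T + 1) (by linarith) x)
    (fun t ht => by
      rw [Fintype.mem_piFinset] at ht
      have hk0 : 0 < k := hk
      have h0 := hbox _ (ht ⟨0, hk0⟩)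
      have hp1 : (1 : ℝ) ≤ (t ⟨0, hk0⟩).1 := by exact_mod_cast Nat.one_le_iff_ne_zero.2 h0.2.1
      have hp2 : (1 : ℝ) ≤ (t ⟨0, hk0⟩).2 := by exact_mod_cast Nat.one_le_iff_ne_zero.2 h0.2.2.1
      have hA1 : 1 ≤ 2 * Ab := hp1.trans h0.2.2.2.1
      have hB1 : 1 ≤ 2 * Bb := hp2.trans h0.2.2.2.2.2
      have hlog8 : ∀ x : ℝ, 1 ≤ x → x ≤ 8 * Ab * Bb → (k : ℝ) * Real.log x ≤ 3 * Real.log T := by
        intro x hx1 hx2
        refine le_trans ?_ hk3
        exact mul_le_mul_of_nonneg_left (Real.log_le_log (by linarith) hx2) (Nat.cast_nonneg k)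
      have b1 : 2 * Ab ≤ 8 * Ab * Bb := by nlinarith
      have b2 : 2 * Bb ≤ 8 * Ab * Bb := by nlinarith
      have q1 : (1 : ℝ) ≤ ((∏ i, (t i).1 : ℕ) : ℝ) := by
        have : 1 ≤ ∏ i, (t i).1 := Nat.one_le_iff_ne_zero.2
          (Finset.prod_ne_zero_iff.2 fun i _ => (hbox _ (ht i)).2.1)
        exact_mod_cast this
      have q2 : (1 : ℝ) ≤ ((∏ i, (t i).2 : ℕ) : ℝ) := by
        have : 1 ≤ ∏ i, (t i).2 := Nat.one_le_iff_ne_zero.2
          (Finset.prod_ne_zero_iff.2 fun i _ => (hbox _ (ht i)).2.2.1)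
        exact_mod_cast this
      have r1 : ((∏ i, (t i).1 : ℕ) : ℝ) ≤ (2 * Ab) ^ k := by
        push_cast
        refine (Finset.prod_le_prod (fun i _ => Nat.cast_nonneg _)
          (fun i _ => (hbox _ (ht i)).2.2.2.1)).trans (le_of_eq ?_)
        rw [Finset.prod_const, Finset.card_univ, Fintype.card_fin]
      have r2 : ((∏ i, (t i).2 : ℕ) : ℝ) ≤ (2 * Bb) ^ k := by
        push_cast
        refine (Finset.prod_le_prod (fun i _ => Nat.cast_nonneg _)
          (fun i _ => (hbox _ (ht i)).2.2.2.2.2)).trans (le_of_eq ?_)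
        rw [Finset.prod_const, Finset.card_univ, Fintype.card_fin]
      have l1 : Real.log ((∏ i, (t i).1 : ℕ) : ℝ) ≤ 3 * Real.log T := by
        refine (Real.log_le_log (by linarith) r1).trans ?_
        rw [Real.log_pow]
        exact hlog8 _ hA1 b1
      have l2 : Real.log ((∏ i, (t i).2 : ℕ) : ℝ) ≤ 3 * Real.log T := by
        refine (Real.log_le_log (by linarith) r2).trans ?_
        rw [Real.log_pow]
        exact hlog8 _ hB1 b2
      have g1 := Real.log_nonneg q1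
      have g2 := Real.log_nonneg q2
      rw [hlam, abs_le]
      constructor <;> simp only <;> linarith)
    A hsep (fun a ha => by
      have := hd a ha a0 ha0
      linarith)
  have hprodsum : ∑ t ∈ Fintype.piFinset (fun _ : Fin k => P), ‖∏ i, θ (t i)‖ ^ 2 = S ^ k := by
    rw [← hθS, Finset.sum_pow']
    refine Finset.sum_congr rfl fun t _ => ?_
    rw [norm_prod, Finset.prod_pow]
  rw [hprodsum] at hdisc
  have hcon : (1 / (A.card : ℝ)) * (200 * (3 * Real.log T) * (T + 1) *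
      (D * (1 + 2 * X / (T + 1)))) ≤ hG T A * (D * (1 + X / T)) := by
    have hD0 : (0 : ℝ) ≤ D := Nat.cast_nonneg D
    have e1 : (T + 1) * (1 + 2 * X / (T + 1)) ≤ 2 * T * (2 * (1 + X / T)) := by
      have f1 : (T + 1) * (1 + 2 * X / (T + 1)) = T + 1 + 2 * X := by
        have : T + 1 ≠ 0 := by linarith
        field_simp
      have f2 : 2 * T * (2 * (1 + X / T)) = 4 * T + 4 * X := by
        have : T ≠ 0 := by linarith
        field_simp
        ring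
      rw [f1, f2]
      linarith
    have e2 : (1 / (A.card : ℝ)) * (200 * (3 * Real.log T) * (T + 1) *
        (D * (1 + 2 * X / (T + 1)))) =
        (600 * Real.log T * D / A.card) * ((T + 1) * (1 + 2 * X / (T + 1))) := by ring
    have e3 : hG T A * (D * (1 + X / T)) =
        (600 * Real.log T * D / A.card) * (2 * T * (2 * (1 + X / T))) := by
      unfold hG
      ring
    rw [e2, e3]
    exact mul_le_mul_of_nonneg_left e1 (by positivity)
  have h3 : S ^ (2 * k) ≤ hG T A * (D * (1 + X / T)) * S ^ k := by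
    calc S ^ (2 * k) ≤ (∑ a ∈ A, (1 / (A.card : ℝ)) * ‖Dd a‖) ^ (2 * k) :=
          pow_le_pow_left₀ hS0 h2 _
      _ ≤ ∑ a ∈ A, (1 / (A.card : ℝ)) * ‖Dd a‖ ^ (2 * k) := by
          refine Real.pow_arith_mean_le_arith_mean_pow _ _ _ (fun _ _ => by positivity) ?_
            (fun _ _ => norm_nonneg _) _
          rw [Finset.sum_const, nsmul_eq_mul]
          field_simp
      _ = (1 / (A.card : ℝ)) * ∑ a ∈ A, ‖(Dd a) ^ k‖ ^ 2 := by
          rw [Finset.mul_sum]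
          refine Finset.sum_congr rfl (fun a _ => ?_)
          rw [norm_pow, ← pow_mul, mul_comm k 2]
      _ = (1 / (A.card : ℝ)) * ∑ a ∈ A,
            ‖∑ t ∈ Fintype.piFinset (fun _ : Fin k => P), (∏ i, θ (t i)) * ee a (lam t)‖ ^ 2 := by
          simp only [hpow]
      _ ≤ (1 / (A.card : ℝ)) * (200 * (3 * Real.log T) * (T + 1) *
            (D * (1 + 2 * X / (T + 1))) * S ^ k) :=
          mul_le_mul_of_nonneg_left hdisc (by positivity)
      _ = (1 / (A.card : ℝ)) * (200 * (3 * Real.log T) * (T + 1) *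
            (D * (1 + 2 * X / (T + 1)))) * S ^ k := by ring
      _ ≤ hG T A * (D * (1 + X / T)) * S ^ k :=
          mul_le_mul_of_nonneg_right hcon (pow_nonneg hS0 k)
  have hh0 : 0 ≤ hG T A * (D * (1 + X / T)) := by
    unfold hG
    have : 0 ≤ Real.log T := by linarith
    positivity
  rcases hS0.lt_or_eq with hpos | hzero
  · rw [two_mul, pow_add] at h3
    exact le_of_mul_le_mul_right h3 (pow_pos hpos k)
  · rw [← hzero, zero_pow (by omega)]
    exact hh0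

theorem vg_kg {T : ℝ} (hT : 4 ≤ T) (A : Finset ℝ) (hA : A.Nonempty) (hsep : SepR A)
    (hd : ∀ a ∈ A, ∀ a' ∈ A, |a - a'| ≤ T) (c : ℝ → ℂ) (hc : ∀ a ∈ A, ‖c a‖ ≤ 1) :
    KG T (hG T A) (vg A c) := by
  have hN : (0 : ℝ) < A.card := by exact_mod_cast Finset.card_pos.2 hA
  have hlogT := kgi_log4 hT
  refine ⟨by linarith, ?_, fun p => by unfold vg; positivity, fun p => ?_, ?_⟩
  · unfold hG
    rw [one_le_div hN]
    have h1 := zs_card_le (by linarith) A hsep hd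
    nlinarith
  · unfold vg
    exact pow_le_one₀ (by positivity) ((div_le_one hN).2 (kgi_fg_le A c hc p))
  · intro m n hm hn P Ab Bb hAb hBb k hk hk3 hcop hbox D hD
    have hc' : ∀ a ∈ A, ‖c a * (nt a m * conj (nt a n))‖ ≤ 1 := by
      intro a ha
      rw [norm_mul, norm_mul, RCLike.norm_conj, norm_nt, norm_nt, mul_one, mul_one]
      exact hc a ha
    have h1 := kgi_kf hT A hA hsep hd (fun a => c a * (nt a m * conj (nt a n))) hc' P Ab Bb
      hAb hBb k hk hk3 hcop hbox D hD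
    refine le_trans (le_of_eq ?_) h1
    congr 1
    refine Finset.sum_congr rfl fun p hp => ?_
    have hp1 := (hbox p hp).2.1
    have hp2 := (hbox p hp).2.2.1
    unfold vg
    congr 3
    unfold fg
    refine Finset.sum_congr rfl fun a _ => ?_
    simp only
    rw [nt_mul a hm hp1, nt_mul a hn hp2, map_mul]
    ring

end Pool.Agent.H74.ZS
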