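import Pool.Agent.H74.ZS.LSW
import Pool.Agent.H74.PZ.Sob

/-!
# The discrete mean value

`zs_discrete`.  Replacing `th_i` by `th_i e^{-i a0 lam_i}` (`ee_add_left`, `norm_ee`) and `A` by `A - a0` one may
think of `a0 = 0`; put `F(y) = ∑_i th_i e^{-i (a0 + y) lam_i}`, `F'(y) = ∑_i (-i lam_i) th_i e^{-i(a0 + y) lam_i}`.
`PZ.sobolev` on `[y, y + 1]`, `y = a - a0`: `‖F(y)‖² ≤ ∫_y^{y+1} ‖F‖² + 2 ∫_y^{y+1} ‖F‖‖F'‖ ≤
∫_y^{y+1} ((1 + Lam) ‖F‖² + Lam⁻¹ ‖F'‖²)` (`2 u v ≤ Lam u² + Lam⁻¹ v²`).  The intervals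
`[a - a0, a - a0 + 1)`, `a ∈ A`, are disjoint (`SepR`) and contained in `[-U, U]` (`hAU`), so the sum over `A` is at most
`∫_{-U}^{U} ((1 + Lam) ‖F‖² + Lam⁻¹ ‖F'‖²)`, and by `zs_mean` (with `th` and with `lam_i th_i`, `|lam_i| ≤ Lam`)
this is `≤ (1 + Lam + Lam) 40 U R ∑ ‖th_i‖² ≤ 120 Lam U R ∑ ‖th_i‖²`.  (`R ≥ 0` by `hR`.)
For the sum of the integrals over disjoint intervals: `MeasureTheory.integral_finset_biUnion` or
`sum_setIntegral..` with `Set.Ioc`, or see how `Sob`/`Primal` in `Pool/Agent/H74/PZ` do it.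
-/

namespace Pool.Agent.H74.ZS

open Finset MeasureTheory Pool.Agent.H74.PZ

theorem lsd_sum_int (G : ℝ → ℝ) (hG : Continuous G) (hG0 : ∀ y, 0 ≤ G y) (U a0 : ℝ)
    (A : Finset ℝ) (hA : SepR A) (hU : 1 ≤ U) (hAU : ∀ a ∈ A, |a - a0| ≤ U - 1) :
    ∑ a ∈ A, ∫ y in (a - a0)..(a - a0 + 1), G y ≤ ∫ y in (-U)..U, G y := by
  have h1 : ∀ a ∈ A, ∫ y in (a - a0)..(a - a0 + 1), G y =
      ∫ y in Set.Ioc (a - a0) (a - a0 + 1), G y := fun a _ =>
    intervalIntegral.integral_of_le (by linarith)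
  rw [Finset.sum_congr rfl h1, intervalIntegral.integral_of_le (by linarith),
    ← integral_biUnion_finset A (fun a _ => measurableSet_Ioc) ?_
      (fun a _ => (hG.integrableOn_Icc).mono_set Set.Ioc_subset_Icc_self)]
  · refine setIntegral_mono_set ((hG.integrableOn_Icc).mono_set Set.Ioc_subset_Icc_self)
      (Filter.Eventually.of_forall fun y => hG0 y) (Filter.Eventually.of_forall ?_)
    intro y hy
    obtain ⟨a, ha, hy1, hy2⟩ := Set.mem_iUnion₂.1 hy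
    have := abs_le.1 (hAU a ha)
    exact ⟨by linarith [this.1], by linarith [this.2]⟩
  · intro a ha b hb hab
    rw [Function.onFun, Set.disjoint_left]
    rintro y ⟨h3, h4⟩ ⟨h5, h6⟩
    have h7 := hA a ha b hb hab
    rcases le_abs.1 h7 with h8 | h8
    · linarith
    · linarith

theorem lsd_hasDerivAt {ι : Type*} (s : Finset ι) (lam : ι → ℝ) (th : ι → ℂ) (y : ℝ) :
    HasDerivAt (fun y => ∑ i ∈ s, th i * ee y (lam i))
      (∑ i ∈ s, (th i * (-(lam i) * Complex.I)) * ee y (lam i)) y := by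
  refine HasDerivAt.fun_sum fun i _ => ?_
  have h1 : HasDerivAt (fun y : ℝ => (((-(y * lam i) : ℝ) : ℂ) * Complex.I))
      (-(lam i) * Complex.I) y := by
    have h2 : HasDerivAt (fun y : ℝ => -(y * lam i)) (-(lam i)) y := by
      have h5 := ((hasDerivAt_id y).mul_const (lam i)).neg
      rw [one_mul] at h5
      exact h5
    have h3 := (h2.ofReal_comp).mul_const Complex.I
    simpa using h3
  have h4 := (h1.cexp).const_mul (th i)
  unfold ee
  refine h4.congr_deriv ?_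
  ring

theorem zs_discrete {ι : Type*} (s : Finset ι) (lam : ι → ℝ) (th : ι → ℂ) (U Lam R a0 : ℝ)
    (hU : 1 ≤ U) (hLam : 1 ≤ Lam)
    (hR : ∀ x : ℝ, ((s.filter (fun i => x ≤ lam i ∧ lam i < x + 1 / U)).card : ℝ) ≤ R)
    (hlam : ∀ i ∈ s, |lam i| ≤ Lam) (A : Finset ℝ) (hA : SepR A)
    (hAU : ∀ a ∈ A, |a - a0| ≤ U - 1) :
    ∑ a ∈ A, ‖∑ i ∈ s, th i * ee a (lam i)‖ ^ 2 ≤ 200 * Lam * U * R * ∑ i ∈ s, ‖th i‖ ^ 2 := by
  have hR0 : 0 ≤ R := (Nat.cast_nonneg _).trans (hR 0)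
  set t1 : ι → ℂ := fun i => th i * ee a0 (lam i) with ht1
  set t2 : ι → ℂ := fun i => t1 i * (-(lam i) * Complex.I) with ht2
  set F : ℝ → ℂ := fun y => ∑ i ∈ s, t1 i * ee y (lam i) with hF
  set F' : ℝ → ℂ := fun y => ∑ i ∈ s, t2 i * ee y (lam i) with hF'
  set S : ℝ := ∑ i ∈ s, ‖th i‖ ^ 2 with hS
  have hS0 : 0 ≤ S := Finset.sum_nonneg fun _ _ => sq_nonneg _
  have hd : ∀ y, HasDerivAt F (F' y) y := fun y => lsd_hasDerivAt s lam t1 y
  have hFc : Continuous F := continuous_iff_continuousAt.2 fun y => (hd y).continuousAt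
  have hd' : ∀ y, HasDerivAt F' (∑ i ∈ s, (t2 i * (-(lam i) * Complex.I)) * ee y (lam i)) y :=
    fun y => lsd_hasDerivAt s lam t2 y
  have hF'c : Continuous F' := continuous_iff_continuousAt.2 fun y => (hd' y).continuousAt
  have hLam0 : 0 < Lam := by linarith
  have hc1 : Continuous fun y => ‖F y‖ ^ 2 := hFc.norm.pow 2
  have hc2 : Continuous fun y => ‖F' y‖ ^ 2 := hF'c.norm.pow 2
  have hc3 : Continuous fun y => 2 * (‖F y‖ * ‖F' y‖) :=
    continuous_const.mul (hFc.norm.mul hF'c.norm)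
  have hc4 : Continuous fun y => (1 + Lam) * ‖F y‖ ^ 2 := continuous_const.mul hc1
  have hc5 : Continuous fun y => Lam⁻¹ * ‖F' y‖ ^ 2 := continuous_const.mul hc2
  set G : ℝ → ℝ := fun y => (1 + Lam) * ‖F y‖ ^ 2 + Lam⁻¹ * ‖F' y‖ ^ 2 with hG
  have hGc : Continuous G := by
    rw [hG]
    exact hc4.add hc5
  have hG0 : ∀ y, 0 ≤ G y := fun y => by
    rw [hG]
    positivity
  have h1 : ∀ a ∈ A, ‖∑ i ∈ s, th i * ee a (lam i)‖ ^ 2 ≤
      ∫ y in (a - a0)..(a - a0 + 1), G y := by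
    intro a _
    have e1 : ∑ i ∈ s, th i * ee a (lam i) = F (a - a0) := by
      rw [hF]
      refine Finset.sum_congr rfl fun i _ => ?_
      rw [ht1]
      simp only
      rw [mul_assoc, ← ee_add_left]
      congr 2
      ring
    rw [e1]
    have h2 := sobolev F F' hd hF'c (a - a0) (a - a0 + 1) (by linarith)
    have e2 : a - a0 + 1 - (a - a0) = 1 := by ring
    rw [e2, div_one, one_mul, ← intervalIntegral.integral_const_mul,
      ← intervalIntegral.integral_add (hc1.intervalIntegrable _ _)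
        (hc3.intervalIntegrable _ _)] at h2
    refine h2.trans (intervalIntegral.integral_mono_on (by linarith)
      ((hc1.add hc3).intervalIntegrable _ _)
      (hGc.intervalIntegrable _ _) fun y _ => ?_)
    rw [hG]
    simp only
    have h3 : 2 * (‖F y‖ * ‖F' y‖) ≤ Lam * ‖F y‖ ^ 2 + Lam⁻¹ * ‖F' y‖ ^ 2 := by
      have h4 : 0 ≤ Lam⁻¹ * (Lam * ‖F y‖ - ‖F' y‖) ^ 2 := by positivity
      have h5 : Lam⁻¹ * (Lam * ‖F y‖ - ‖F' y‖) ^ 2 =
          Lam * ‖F y‖ ^ 2 + Lam⁻¹ * ‖F' y‖ ^ 2 - 2 * (‖F y‖ * ‖F' y‖) := by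
        field_simp
        ring
      linarith
    linarith
  refine (Finset.sum_le_sum h1).trans ((lsd_sum_int G hGc hG0 U a0 A hA hU hAU).trans ?_)
  have h6 : ∫ y in (-U)..U, G y = (1 + Lam) * (∫ y in (-U)..U, ‖F y‖ ^ 2) +
      Lam⁻¹ * ∫ y in (-U)..U, ‖F' y‖ ^ 2 := by
    rw [hG, ← intervalIntegral.integral_const_mul, ← intervalIntegral.integral_const_mul,
      ← intervalIntegral.integral_add (hc4.intervalIntegrable _ _)
        (hc5.intervalIntegrable _ _)]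
  have h7 : ∫ y in (-U)..U, ‖F y‖ ^ 2 ≤ 40 * U * R * S := by
    refine (zs_mean s lam t1 U hU R hR).trans (le_of_eq ?_)
    congr 1
    refine Finset.sum_congr rfl fun i _ => ?_
    rw [ht1]
    simp only
    rw [norm_mul, norm_ee, mul_one]
  have h8 : ∫ y in (-U)..U, ‖F' y‖ ^ 2 ≤ 40 * U * R * (Lam ^ 2 * S) := by
    refine (zs_mean s lam t2 U hU R hR).trans ?_
    refine mul_le_mul_of_nonneg_left ?_ (by positivity)
    rw [hS, Finset.mul_sum]
    refine Finset.sum_le_sum fun i hi => ?_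
    have e3 : ‖t2 i‖ = |lam i| * ‖th i‖ := by
      rw [ht2, ht1]
      simp only
      rw [norm_mul, norm_mul, norm_mul, norm_ee, norm_neg, Complex.norm_I, Complex.norm_real,
        Real.norm_eq_abs]
      ring
    rw [e3, mul_pow]
    refine mul_le_mul_of_nonneg_right ?_ (sq_nonneg _)
    exact pow_le_pow_left₀ (abs_nonneg _) (hlam i hi) 2
  rw [h6]
  have h9 : (1 + Lam) * (∫ y in (-U)..U, ‖F y‖ ^ 2) ≤ (1 + Lam) * (40 * U * R * S) :=
    mul_le_mul_of_nonneg_left h7 (by positivity)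
  have h10 : Lam⁻¹ * (∫ y in (-U)..U, ‖F' y‖ ^ 2) ≤ Lam⁻¹ * (40 * U * R * (Lam ^ 2 * S)) :=
    mul_le_mul_of_nonneg_left h8 (by positivity)
  have h11 : Lam⁻¹ * (40 * U * R * (Lam ^ 2 * S)) = Lam * (40 * U * R * S) := by
    field_simp
  have h12 : 0 ≤ U * R * S := by positivity
  have h13 : U * R * S ≤ Lam * (U * R * S) := le_mul_of_one_le_left h12 hLam
  rw [h11] at h10
  nlinarith

end Pool.Agent.H74.ZS
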