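import Pool.Agent.H74.ZS.Cd

/-!
# The mean value of a generalised Dirichlet polynomial

`zs_mean`.  Put `F(y) = ∑_i th_i e^{-i y lam_i}` and `W(y) = exp (-(y/U)^2)`, so `W ≥ e^{-1}` on `[-U, U]`
and `∫_{-U}^{U} ‖F‖² ≤ e ∫_ℝ W ‖F‖² = e ∑_{i,j} th_i conj(th_j) K(lam_i - lam_j)` with
`K(δ) = ∫_ℝ exp (-(y/U)²) e^{-i y δ} dy = √π U exp (-(U δ)²/4)`.

Schur's test (`zs_schur`): `|∑_{i,j} th_i conj(th_j) K_{ij}| ≤ ∑_i ‖th_i‖² ∑_j |K_{ij}|` (`K` symmetric, AM-GM).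
We bound `exp(-x²/4) ≤ e^{1/4} e^{-x/2}` and group the `j` by `⌊U (lam_j - lam_i)⌋` resp.
`⌈U (lam_i - lam_j)⌉`.
-/

namespace Pool.Agent.H74.ZS

open Finset MeasureTheory Pool.Agent.H74.PZ
open scoped ComplexConjugate

/-- Schur's test -/
theorem zs_schur {ι : Type*} (s : Finset ι) (th : ι → ℂ) (K : ι → ι → ℂ) (M : ℝ)
    (hK : ∀ i ∈ s, ∀ j ∈ s, ‖K i j‖ = ‖K j i‖) (hM : ∀ i ∈ s, ∑ j ∈ s, ‖K i j‖ ≤ M) :
    ‖∑ i ∈ s, ∑ j ∈ s, th i * conj (th j) * K i j‖ ≤ M * ∑ i ∈ s, ‖th i‖ ^ 2 := by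
  have h1 : ‖∑ i ∈ s, ∑ j ∈ s, th i * conj (th j) * K i j‖ ≤
      ∑ i ∈ s, ∑ j ∈ s, (‖th i‖ ^ 2 * ‖K i j‖ / 2 + ‖th j‖ ^ 2 * ‖K j i‖ / 2) := by
    refine (norm_sum_le _ _).trans (Finset.sum_le_sum fun i hi => ?_)
    refine (norm_sum_le _ _).trans (Finset.sum_le_sum fun j hj => ?_)
    rw [norm_mul, norm_mul, RCLike.norm_conj, ← hK i hi j hj]
    have h2 : ‖th i‖ * ‖th j‖ ≤ ‖th i‖ ^ 2 / 2 + ‖th j‖ ^ 2 / 2 := by
      nlinarith [sq_nonneg (‖th i‖ - ‖th j‖)]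
    have h3 : ‖th i‖ * ‖th j‖ * ‖K i j‖ ≤ (‖th i‖ ^ 2 / 2 + ‖th j‖ ^ 2 / 2) * ‖K i j‖ :=
      mul_le_mul_of_nonneg_right h2 (norm_nonneg _)
    linarith
  refine h1.trans ?_
  have h4 : ∑ i ∈ s, ∑ j ∈ s, (‖th i‖ ^ 2 * ‖K i j‖ / 2 + ‖th j‖ ^ 2 * ‖K j i‖ / 2) =
      ∑ i ∈ s, ‖th i‖ ^ 2 * ∑ j ∈ s, ‖K i j‖ := by
    simp only [Finset.sum_add_distrib]
    have h5 : ∑ i ∈ s, ∑ j ∈ s, ‖th j‖ ^ 2 * ‖K j i‖ / 2 =
        ∑ i ∈ s, ∑ j ∈ s, ‖th i‖ ^ 2 * ‖K i j‖ / 2 := Finset.sum_comm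
    rw [h5, ← Finset.sum_add_distrib]
    refine Finset.sum_congr rfl fun i _ => ?_
    rw [Finset.mul_sum, ← Finset.sum_add_distrib]
    refine Finset.sum_congr rfl fun j _ => ?_
    ring
  rw [h4, Finset.mul_sum]
  refine Finset.sum_le_sum fun i hi => ?_
  rw [mul_comm M]
  exact mul_le_mul_of_nonneg_left (hM i hi) (by positivity)

/-- a geometric sum over classes of bounded size -/
lemma lsw_geom {ι : Type*} (s : Finset ι) (k : ι → ℕ) (R r : ℝ) (hr0 : 0 ≤ r) (hr1 : r < 1)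
    (hR0 : 0 ≤ R) (hR : ∀ m : ℕ, ((s.filter (fun i => k i = m)).card : ℝ) ≤ R) :
    ∑ i ∈ s, r ^ (k i) ≤ R * (1 - r)⁻¹ := by
  classical
  obtain ⟨M, hM⟩ : ∃ M : ℕ, ∀ i ∈ s, k i ∈ Finset.range M := by
    refine ⟨s.sup k + 1, fun i hi => ?_⟩
    rw [Finset.mem_range]
    exact Nat.lt_succ_of_le (Finset.le_sup hi)
  rw [← Finset.sum_fiberwise_of_maps_to hM]
  have h1 : ∀ m ∈ Finset.range M, ∑ i ∈ s.filter (fun i => k i = m), r ^ (k i) ≤ R * r ^ m := by
    intro m _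
    have h2 : ∑ i ∈ s.filter (fun i => k i = m), r ^ (k i) =
        ∑ i ∈ s.filter (fun i => k i = m), r ^ m := by
      refine Finset.sum_congr rfl fun i hi => ?_
      rw [(Finset.mem_filter.1 hi).2]
    rw [h2, Finset.sum_const, nsmul_eq_mul]
    exact mul_le_mul_of_nonneg_right (hR m) (pow_nonneg hr0 m)
  refine (Finset.sum_le_sum h1).trans ?_
  rw [← Finset.mul_sum]
  refine mul_le_mul_of_nonneg_left ?_ hR0
  rw [← tsum_geometric_of_lt_one hr0 hr1]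
  exact (summable_geometric_of_lt_one hr0 hr1).sum_le_tsum _ (fun m _ => pow_nonneg hr0 m)

lemma lsw_gauss (x : ℝ) (k : ℕ) (hx : (k : ℝ) ≤ |x|) :
    Real.exp (-(x ^ 2) / 4) ≤ Real.exp (1 / 4) * Real.exp (-(1 / 2)) ^ k := by
  rw [← Real.exp_nat_mul, ← Real.exp_add]
  apply Real.exp_le_exp.2
  have h1 : x ^ 2 = |x| ^ 2 := (sq_abs x).symm
  rw [h1]
  nlinarith [sq_nonneg (|x| - 1)]

/-- the sum of the Gaussian weights -/
lemma lsw_sum {ι : Type*} (s : Finset ι) (lam : ι → ℝ) (U : ℝ) (hU : 1 ≤ U) (R : ℝ)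
    (hR : ∀ x : ℝ, ((s.filter (fun i => x ≤ lam i ∧ lam i < x + 1 / U)).card : ℝ) ≤ R)
    (a : ℝ) :
    ∑ j ∈ s, Real.exp (-((U * (a - lam j)) ^ 2) / 4) ≤
      2 * (Real.exp (1 / 4) * (R * (1 - Real.exp (-(1 / 2)))⁻¹)) := by
  classical
  have hU0 : 0 < U := by linarith
  have hR0 : 0 ≤ R := le_trans (Nat.cast_nonneg _) (hR 0)
  set r : ℝ := Real.exp (-(1 / 2)) with hr
  have hr0 : 0 ≤ r := (Real.exp_pos _).le
  have hr1 : r < 1 := by
    rw [hr, Real.exp_lt_one_iff]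
    norm_num
  rw [← Finset.sum_filter_add_sum_filter_not s (fun j => a ≤ lam j)]
  have hA : ∑ j ∈ s.filter (fun j => a ≤ lam j), Real.exp (-((U * (a - lam j)) ^ 2) / 4) ≤
      Real.exp (1 / 4) * (R * (1 - r)⁻¹) := by
    have h1 : ∀ j ∈ s.filter (fun j => a ≤ lam j), Real.exp (-((U * (a - lam j)) ^ 2) / 4) ≤
        Real.exp (1 / 4) * r ^ (⌊U * (lam j - a)⌋₊) := by
      intro j hj
      have hj2 := (Finset.mem_filter.1 hj).2
      refine lsw_gauss _ _ ?_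
      have h2 : |U * (a - lam j)| = U * (lam j - a) := by
        rw [abs_of_nonpos (by nlinarith)]
        ring
      rw [h2]
      exact Nat.floor_le (by nlinarith)
    refine (Finset.sum_le_sum h1).trans ?_
    rw [← Finset.mul_sum]
    refine mul_le_mul_of_nonneg_left ?_ (Real.exp_pos _).le
    refine lsw_geom _ _ R r hr0 hr1 hR0 (fun m => ?_)
    refine le_trans ?_ (hR (a + m / U))
    refine Nat.cast_le.2 (Finset.card_le_card ?_)
    intro j hj
    rw [Finset.mem_filter, Finset.mem_filter] at hj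
    obtain ⟨⟨hj1, hj2⟩, hj3⟩ := hj
    rw [Finset.mem_filter]
    have hnn : 0 ≤ U * (lam j - a) := by nlinarith
    have f1 := Nat.floor_le hnn
    have f2 := Nat.lt_floor_add_one (U * (lam j - a))
    rw [hj3] at f1 f2
    refine ⟨hj1, ?_, ?_⟩
    · have : (m : ℝ) / U ≤ lam j - a := by
        rw [div_le_iff₀ hU0]
        linarith
      linarith
    · have : lam j - a < ((m : ℝ) + 1) / U := by
        rw [lt_div_iff₀ hU0]
        linarith
      rw [add_div] at this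
      linarith
  have hB : ∑ j ∈ s.filter (fun j => ¬ a ≤ lam j), Real.exp (-((U * (a - lam j)) ^ 2) / 4) ≤
      Real.exp (1 / 4) * (R * (1 - r)⁻¹) := by
    have h1 : ∀ j ∈ s.filter (fun j => ¬ a ≤ lam j), Real.exp (-((U * (a - lam j)) ^ 2) / 4) ≤
        Real.exp (1 / 4) * r ^ (⌈U * (a - lam j)⌉₊ - 1) := by
      intro j hj
      have hj2 := (Finset.mem_filter.1 hj).2
      push Not at hj2
      have hpos : 0 < U * (a - lam j) := mul_pos hU0 (by linarith)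
      refine lsw_gauss _ _ ?_
      rw [abs_of_pos hpos]
      have h3 : 1 ≤ ⌈U * (a - lam j)⌉₊ := Nat.one_le_ceil_iff.2 hpos
      have h4 := Nat.ceil_lt_add_one hpos.le
      rw [Nat.cast_sub h3, Nat.cast_one]
      linarith
    refine (Finset.sum_le_sum h1).trans ?_
    rw [← Finset.mul_sum]
    refine mul_le_mul_of_nonneg_left ?_ (Real.exp_pos _).le
    refine lsw_geom _ _ R r hr0 hr1 hR0 (fun m => ?_)
    refine le_trans ?_ (hR (a - (m + 1) / U))
    refine Nat.cast_le.2 (Finset.card_le_card ?_)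
    intro j hj
    rw [Finset.mem_filter, Finset.mem_filter] at hj
    obtain ⟨⟨hj1, hj2⟩, hj3⟩ := hj
    push Not at hj2
    rw [Finset.mem_filter]
    have hpos : 0 < U * (a - lam j) := mul_pos hU0 (by linarith)
    have h3 : 1 ≤ ⌈U * (a - lam j)⌉₊ := Nat.one_le_ceil_iff.2 hpos
    have hc : ⌈U * (a - lam j)⌉₊ = m + 1 := by omega
    have f1 := Nat.le_ceil (U * (a - lam j))
    have f2 := Nat.ceil_lt_add_one hpos.le
    rw [hc] at f1 f2
    push_cast at f1 f2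
    refine ⟨hj1, ?_, ?_⟩
    · have : a - lam j ≤ ((m : ℝ) + 1) / U := by
        rw [le_div_iff₀ hU0]
        linarith
      linarith
    · have : (m : ℝ) / U < a - lam j := by
        rw [div_lt_iff₀ hU0]
        linarith
      rw [add_div]
      linarith
  linarith

/-- the Fourier transform of the Gaussian weight -/
lemma lsw_ft (U : ℝ) (hU : 0 < U) (d : ℝ) :
    ‖∫ y : ℝ, ((Real.exp (-(1 / U ^ 2) * y ^ 2) : ℝ) : ℂ) * ee y d‖ =
      Real.sqrt Real.pi * U * Real.exp (-((U * d) ^ 2) / 4) := by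
  have hb : 0 < (1 / U ^ 2 : ℝ) := by positivity
  have h1 := fourierIntegral_gaussian (b := ((1 / U ^ 2 : ℝ) : ℂ)) (by
    rw [Complex.ofReal_re]; exact hb) (-(d : ℂ))
  have h2 : (∫ y : ℝ, ((Real.exp (-(1 / U ^ 2) * y ^ 2) : ℝ) : ℂ) * ee y d) =
      ∫ x : ℝ, Complex.exp (Complex.I * (-(d : ℂ)) * x) *
        Complex.exp (-((1 / U ^ 2 : ℝ) : ℂ) * x ^ 2) := by
    refine integral_congr_ae (Filter.Eventually.of_forall fun y => ?_)
    change ((Real.exp (-(1 / U ^ 2) * y ^ 2) : ℝ) : ℂ) * ee y d = _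
    rw [mul_comm]
    unfold ee
    congr 1
    · congr 1
      push_cast
      ring
    · rw [Complex.ofReal_exp]
      congr 1
      push_cast
      ring
  rw [h2, h1, norm_mul]
  have h3 : ((Real.pi : ℂ) / ((1 / U ^ 2 : ℝ) : ℂ)) = ((Real.pi * U ^ 2 : ℝ) : ℂ) := by
    have hU' : (U : ℂ) ≠ 0 := by exact_mod_cast hU.ne'
    push_cast
    field_simp
  have hp : 0 < Real.pi * U ^ 2 := by positivity
  rw [h3, Complex.norm_cpow_eq_rpow_re_of_pos hp, Complex.norm_exp]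
  have h4 : ((1 / 2 : ℂ)).re = 1 / 2 := by norm_num
  rw [h4, ← Real.sqrt_eq_rpow, Real.sqrt_mul Real.pi_pos.le, Real.sqrt_sq hU.le]
  congr 2
  have h5 : (-(-(d : ℂ)) ^ 2 / (4 * ((1 / U ^ 2 : ℝ) : ℂ))) =
      ((-((U * d) ^ 2) / 4 : ℝ) : ℂ) := by
    have hU' : (U : ℂ) ≠ 0 := by exact_mod_cast hU.ne'
    push_cast
    field_simp
  rw [h5, Complex.ofReal_re]

lemma lsw_const : Real.exp 1 * (Real.sqrt Real.pi *
    (2 * (Real.exp (1 / 4) * (1 - Real.exp (-(1 / 2)))⁻¹))) ≤ 40 := by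
  have h1 : Real.exp 1 < 2.7182818286 := Real.exp_one_lt_d9
  have h2 : Real.sqrt Real.pi ≤ 1.78 := by
    rw [Real.sqrt_le_left (by norm_num)]
    have := Real.pi_lt_d2
    norm_num at this ⊢
    linarith
  have h3 : Real.exp (1 / 4) ≤ 1.29 := by
    by_contra hcon
    push Not at hcon
    have h4 : Real.exp (1 / 4) ^ 4 = Real.exp 1 := by
      rw [← Real.exp_nat_mul]
      norm_num
    have h5 : (1.29 : ℝ) ^ 4 < Real.exp (1 / 4) ^ 4 :=
      pow_lt_pow_left₀ hcon (by norm_num) (by norm_num)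
    rw [h4] at h5
    norm_num at h5
    linarith
  have h6 : Real.exp (-(1 / 2)) ≤ 0.61 := by
    by_contra hcon
    push Not at hcon
    have h4 : Real.exp (-(1 / 2)) ^ 2 = Real.exp (-1) := by
      rw [← Real.exp_nat_mul]
      norm_num
    have h5 : (0.61 : ℝ) ^ 2 < Real.exp (-(1 / 2)) ^ 2 :=
      pow_lt_pow_left₀ hcon (by norm_num) (by norm_num)
    rw [h4] at h5
    have h7 := Real.exp_neg_one_lt_d9
    norm_num at h5
    linarith
  have h7 : (1 - Real.exp (-(1 / 2)))⁻¹ ≤ (0.39 : ℝ)⁻¹ :=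
    inv_anti₀ (by norm_num) (by linarith)
  have h8 : 0 ≤ (1 - Real.exp (-(1 / 2)))⁻¹ := inv_nonneg.2 (by linarith)
  calc Real.exp 1 * (Real.sqrt Real.pi * (2 * (Real.exp (1 / 4) *
      (1 - Real.exp (-(1 / 2)))⁻¹))) ≤ 2.7182818286 * (1.78 * (2 * (1.29 * (0.39 : ℝ)⁻¹))) := by
        gcongr
    _ ≤ 40 := by norm_num

theorem zs_mean {ι : Type*} (s : Finset ι) (lam : ι → ℝ) (th : ι → ℂ) (U : ℝ) (hU : 1 ≤ U) (R : ℝ)
    (hR : ∀ x : ℝ, ((s.filter (fun i => x ≤ lam i ∧ lam i < x + 1 / U)).card : ℝ) ≤ R) :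
    ∫ y in (-U)..U, ‖∑ i ∈ s, th i * ee y (lam i)‖ ^ 2 ≤ 40 * U * R * ∑ i ∈ s, ‖th i‖ ^ 2 := by
  have hU0 : 0 < U := by linarith
  have hR0 : 0 ≤ R := le_trans (Nat.cast_nonneg _) (hR 0)
  set F : ℝ → ℂ := fun y => ∑ i ∈ s, th i * ee y (lam i) with hF
  set W : ℝ → ℝ := fun y => Real.exp (-(1 / U ^ 2) * y ^ 2) with hW
  have hb : 0 < (1 / U ^ 2 : ℝ) := by positivity
  have hcee : ∀ x : ℝ, Continuous (fun y : ℝ => ee y x) := by
    intro x
    unfold ee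
    fun_prop
  have hFc : Continuous F := continuous_finsetSum _ fun i _ => continuous_const.mul (hcee _)
  have hWi : Integrable W := integrable_exp_neg_mul_sq hb
  have hWc : Continuous W := by
    rw [hW]
    fun_prop
  have hFb : ∀ y, ‖F y‖ ≤ ∑ i ∈ s, ‖th i‖ := by
    intro y
    refine (norm_sum_le _ _).trans (le_of_eq (Finset.sum_congr rfl fun i _ => ?_))
    rw [norm_mul, norm_ee, mul_one]
  have hWF : Integrable (fun y => W y * ‖F y‖ ^ 2) := by
    refine (hWi.mul_const ((∑ i ∈ s, ‖th i‖) ^ 2)).mono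
      (hWc.mul (hFc.norm.pow 2)).aestronglyMeasurable
      (Filter.Eventually.of_forall fun y => ?_)
    have hs0 : 0 ≤ ∑ i ∈ s, ‖th i‖ := Finset.sum_nonneg fun i _ => norm_nonneg _
    have hWy : 0 ≤ W y := (Real.exp_pos _).le
    rw [Real.norm_of_nonneg (by positivity), Real.norm_of_nonneg (by positivity)]
    refine mul_le_mul_of_nonneg_left ?_ hWy
    exact pow_le_pow_left₀ (norm_nonneg _) (hFb y) 2
  -- comparison with the weight
  have hstep1 : ∫ y in (-U)..U, ‖F y‖ ^ 2 ≤ Real.exp 1 * ∫ y, W y * ‖F y‖ ^ 2 := by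
    rw [intervalIntegral.integral_of_le (by linarith), ← integral_const_mul]
    have hint2 : Integrable (fun y => Real.exp 1 * (W y * ‖F y‖ ^ 2)) := hWF.const_mul _
    refine le_trans ?_ (setIntegral_le_integral (s := Set.Ioc (-U) U) hint2
      (Filter.Eventually.of_forall fun y => ?_))
    · refine setIntegral_mono_on ?_ hint2.integrableOn measurableSet_Ioc (fun y hy => ?_)
      · exact ((hFc.norm.pow 2).integrableOn_Icc (a := -U) (b := U)).mono_set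
          Set.Ioc_subset_Icc_self
      · have hy2 : y ^ 2 ≤ U ^ 2 := by
          have h1 := hy.1
          have h2 := hy.2
          nlinarith
        have h3 : 1 ≤ Real.exp 1 * W y := by
          rw [hW]
          simp only
          rw [← Real.exp_add]
          apply Real.one_le_exp
          have h4 : 1 / U ^ 2 * y ^ 2 ≤ 1 := by
            rw [one_div, inv_mul_le_iff₀ (by positivity), mul_one]
            exact hy2
          linarith
        calc ‖F y‖ ^ 2 = 1 * ‖F y‖ ^ 2 := (one_mul _).symm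
          _ ≤ (Real.exp 1 * W y) * ‖F y‖ ^ 2 := mul_le_mul_of_nonneg_right h3 (by positivity)
          _ = Real.exp 1 * (W y * ‖F y‖ ^ 2) := by ring
    · exact mul_nonneg (Real.exp_pos _).le (mul_nonneg (Real.exp_pos _).le (by positivity))
  -- expansion
  set K : ι → ι → ℂ := fun i j => ∫ y : ℝ, ((W y : ℝ) : ℂ) * ee y (lam i - lam j) with hK
  have hKint : ∀ d : ℝ, Integrable (fun y : ℝ => ((W y : ℝ) : ℂ) * ee y d) := by
    intro d
    refine hWi.mono ((Complex.continuous_ofReal.comp hWc).mul (hcee d)).aestronglyMeasurable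
      (Filter.Eventually.of_forall fun y => ?_)
    rw [norm_mul, norm_ee, mul_one, Complex.norm_real]
  have hexp : ((∫ y, W y * ‖F y‖ ^ 2 : ℝ) : ℂ) =
      ∑ i ∈ s, ∑ j ∈ s, th i * conj (th j) * K i j := by
    rw [← integral_complex_ofReal]
    have h1 : ∀ y : ℝ, ((W y * ‖F y‖ ^ 2 : ℝ) : ℂ) =
        ∑ i ∈ s, ∑ j ∈ s, th i * conj (th j) * (((W y : ℝ) : ℂ) * ee y (lam i - lam j)) := by
      intro y
      have h2 : ((‖F y‖ ^ 2 : ℝ) : ℂ) = F y * conj (F y) := by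
        rw [Complex.mul_conj, Complex.normSq_eq_norm_sq]
      rw [Complex.ofReal_mul, h2, hF]
      simp only
      rw [map_sum, Finset.sum_mul_sum, Finset.mul_sum]
      refine Finset.sum_congr rfl fun i _ => ?_
      rw [Finset.mul_sum]
      refine Finset.sum_congr rfl fun j _ => ?_
      rw [map_mul, conj_ee]
      have h3 : ee y (lam i - lam j) = ee y (lam i) * ee (-y) (lam j) := by
        rw [sub_eq_add_neg, ee_add_right]
        congr 1
        unfold ee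
        congr 2
        push_cast
        ring
      rw [h3]
      ring
    have h4 : (fun y : ℝ => ((W y * ‖F y‖ ^ 2 : ℝ) : ℂ)) = fun y =>
        ∑ i ∈ s, ∑ j ∈ s, th i * conj (th j) * (((W y : ℝ) : ℂ) * ee y (lam i - lam j)) :=
      funext h1
    change ∫ y : ℝ, ((W y * ‖F y‖ ^ 2 : ℝ) : ℂ) = _
    rw [h4, integral_finset_sum _ (fun i _ => integrable_finset_sum _ fun j _ =>
      (hKint _).const_mul _)]
    refine Finset.sum_congr rfl fun i _ => ?_
    rw [integral_finset_sum _ (fun j _ => (hKint _).const_mul _)]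
    refine Finset.sum_congr rfl fun j _ => ?_
    rw [integral_const_mul]
  have hnonneg : 0 ≤ ∫ y, W y * ‖F y‖ ^ 2 :=
    integral_nonneg fun y => mul_nonneg (Real.exp_pos _).le (by positivity)
  have hKn : ∀ i j, ‖K i j‖ =
      Real.sqrt Real.pi * U * Real.exp (-((U * (lam i - lam j)) ^ 2) / 4) := fun i j =>
    lsw_ft U hU0 _
  set M : ℝ := Real.sqrt Real.pi * U *
    (2 * (Real.exp (1 / 4) * (R * (1 - Real.exp (-(1 / 2)))⁻¹))) with hM
  have hstep2 : ∫ y, W y * ‖F y‖ ^ 2 ≤ M * ∑ i ∈ s, ‖th i‖ ^ 2 := by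
    have h1 : ∫ y, W y * ‖F y‖ ^ 2 = ‖∑ i ∈ s, ∑ j ∈ s, th i * conj (th j) * K i j‖ := by
      rw [← hexp, Complex.norm_real, Real.norm_of_nonneg hnonneg]
    rw [h1]
    refine zs_schur s th K M ?_ ?_
    · intro i _ j _
      rw [hKn, hKn]
      congr 3
      ring
    · intro i _
      simp only [hKn]
      rw [← Finset.mul_sum, hM]
      exact mul_le_mul_of_nonneg_left (lsw_sum s lam U hU R hR (lam i)) (by positivity)
  refine hstep1.trans ?_
  have hs0 : 0 ≤ ∑ i ∈ s, ‖th i‖ ^ 2 := Finset.sum_nonneg fun i _ => by positivity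
  calc Real.exp 1 * ∫ y, W y * ‖F y‖ ^ 2 ≤ Real.exp 1 * (M * ∑ i ∈ s, ‖th i‖ ^ 2) :=
        mul_le_mul_of_nonneg_left hstep2 (Real.exp_pos _).le
    _ = (Real.exp 1 * (Real.sqrt Real.pi * (2 * (Real.exp (1 / 4) *
          (1 - Real.exp (-(1 / 2)))⁻¹)))) * (U * R * ∑ i ∈ s, ‖th i‖ ^ 2) := by
        rw [hM]
        ring
    _ ≤ 40 * (U * R * ∑ i ∈ s, ‖th i‖ ^ 2) :=
        mul_le_mul_of_nonneg_right lsw_const (by positivity)
    _ = 40 * U * R * ∑ i ∈ s, ‖th i‖ ^ 2 := by ring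

end Pool.Agent.H74.ZS
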