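import Pool.Agent.H74.ZS.Tau

/-!
# Box bound for two weights, large regime

Use `wbox_tau_log` of `Tau.lean`.

`wbox_large` (for two weights, with DIFFERENT exponents `k`).  Put `L = log q`, `λ = log (AB)`,
`T = log 8 + λ = log (8AB)`, `S1 = ∑ v1`, `S2 = ∑ v2`.  By Cauchy-Schwarz
`∑ ww v1 v2 ≤ √S1 √S2`; if `S1 = 0` or `S2 = 0` there is nothing to do.  Take
`η = ε ε3 / 40` and `C = C(η)` from `divisor_bound`, `c = ε ε3 / 8`.

Case `T ≤ L`.  Let `k = ⌊L / T⌋₊ ≥ 1`, so `k T ≤ L < (k+1) T`.  `wbox_tau_log` for `v1` with `k + 1`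
and for `v2` with `k` gives
`log S1 ≤ 3 log C + (k+2) η T + (log h1 + log 2 + ((k+1) T - L)) / (k+1)`,
`log S2 ≤ 3 log C + (k+1) η T + (log h2 + log 2) / k`.
Since `log h1/(k+1) + log h2/k ≤ (log h1 + 2 log h2)/(k+1) ≤ (1-ε) L/(k+1)`,
`log S1 + log S2 ≤ 6 log C + 2 log 2 + (2k+3) η T + T - ε L/(k+1)`.
Here `(2k+3) T ≤ 5 k T ≤ 5 L` and `L/(k+1) ≥ T/2 ≥ ε3 L/2` (as `k+1 ≤ 2L/T`), so this is at most
`λ + (log 8 + 6 log C + 2 log 2) + ε ε3 L/8 - ε ε3 L/2 ≤ λ - 2 c L` for large `L`.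

Case `T > L`.  Use `k = 1` for both:
`log S1 + log S2 ≤ 6 log C + 4 η T + 2 log 2 + (log h1 + log h2) + 2 (T - L)`, with
`log h1 + log h2 ≤ (1-ε) L` (as `log h2 ≥ 0`) and `T - L ≤ log 8 + ε L/10`, which is at most
`T + (T - L) - ε L + ... ≤ λ - 2 c L` for large `L`.
-/

namespace Pool.Agent.H74.ZS

open Finset Pool.Agent.H14.PT Pool.Agent.H74.TS

theorem wbox_large (ε ε3 : ℝ) (hε : 0 < ε) (hε3 : 0 < ε3) (hε1 : ε ≤ 1 / 10) (hε31 : ε3 ≤ 1 / 10) :
    ∃ c : ℝ, 0 < c ∧ c ≤ 1 / 100 ∧ ∃ Q0 : ℝ, ∀ (q : ℝ), Q0 ≤ Real.log q →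
      ∀ (h1 h2 : ℝ) (v1 v2 : ℕ × ℕ → ℝ), KG q h1 v1 → KG q h2 v2 →
      Real.log h1 + 2 * Real.log h2 ≤ (1 - ε) * Real.log q →
      ∀ (P : Finset (ℕ × ℕ)) (A B : ℝ), 1 ≤ A → 1 ≤ B →
      ε3 * Real.log q ≤ Real.log (A * B) → Real.log (A * B) ≤ (1 + ε / 10) * Real.log q →
      (∀ p ∈ P, IB A B p) →
      ∑ p ∈ P, ww v1 v2 p ≤ (A * B) ^ (1 / 2 : ℝ) * q ^ (-c) := by
  obtain ⟨C, hC, hdiv⟩ := divisor_bound (ε * ε3 / 40) (by positivity)
  have hee : 0 < ε * ε3 := by positivity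
  have hee1 : ε * ε3 ≤ 1 / 100 := by nlinarith
  have hee2 : ε * ε3 ≤ ε / 10 := by nlinarith
  set K0 : ℝ := 6 * Real.log C + 2 * Real.log 2 + 2 * Real.log 8 with hK0
  refine ⟨ε * ε3 / 8, by positivity, by linarith, (8 / (ε * ε3)) * K0 + 3, ?_⟩
  intro q hq h1 h2 v1 v2 hv1 hv2 hH P A B hA hB hlow hup hP
  set L := Real.log q with hL
  have hl8 : 0 < Real.log 8 := Real.log_pos (by norm_num)
  have hl8' : Real.log 8 ≤ 3 := by
    have h2 : Real.log 8 = 3 * Real.log 2 := by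
      rw [show (8 : ℝ) = 2 ^ (3 : ℕ) by norm_num, Real.log_pow]; norm_num
    have := Real.log_two_lt_d9
    rw [h2]; linarith
  have hl2 : 0 < Real.log 2 := Real.log_pos (by norm_num)
  have hlC : 0 ≤ Real.log C := Real.log_nonneg hC
  have hK00 : 0 < K0 := by rw [hK0]; positivity
  have hL3 : 3 ≤ L := by
    have : 0 ≤ (8 / (ε * ε3)) * K0 := by positivity
    linarith
  have hKL : K0 ≤ (ε * ε3 / 8) * L := by
    have : (8 / (ε * ε3)) * K0 ≤ L := by linarith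
    calc K0 = (ε * ε3 / 8) * ((8 / (ε * ε3)) * K0) := by field_simp
      _ ≤ (ε * ε3 / 8) * L := by gcongr
  have hAB : 0 < A * B := by positivity
  have hqpos : (0 : ℝ) < q := hv1.qpos
  have hCS : ∑ p ∈ P, ww v1 v2 p ≤ Real.sqrt (∑ p ∈ P, v1 p) * Real.sqrt (∑ p ∈ P, v2 p) := by
    refine le_trans (le_of_eq ?_) (Real.sum_sqrt_mul_sqrt_le P hv1.nonneg hv2.nonneg)
    refine Finset.sum_congr rfl fun p _ => ?_
    unfold ww
    exact Real.sqrt_mul (hv1.nonneg p) _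
  have hS1n : 0 ≤ ∑ p ∈ P, v1 p := Finset.sum_nonneg fun p _ => hv1.nonneg p
  have hS2n : 0 ≤ ∑ p ∈ P, v2 p := Finset.sum_nonneg fun p _ => hv2.nonneg p
  refine hCS.trans ?_
  rcases hS1n.eq_or_lt with h0 | hS1
  · rw [← h0, Real.sqrt_zero, zero_mul]; positivity
  rcases hS2n.eq_or_lt with h0 | hS2
  · rw [← h0, Real.sqrt_zero, mul_zero]; positivity
  set S1 := ∑ p ∈ P, v1 p with hS1d
  set S2 := ∑ p ∈ P, v2 p with hS2d
  set lam := Real.log (A * B) with hlam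
  have h8AB : Real.log (8 * A * B) = Real.log 8 + lam := by
    rw [mul_assoc, Real.log_mul (by norm_num) (by positivity)]
  -- reduce to logs
  have hgoal : Real.log S1 + Real.log S2 ≤ lam - 2 * (ε * ε3 / 8) * L →
      Real.sqrt S1 * Real.sqrt S2 ≤ (A * B) ^ (1 / 2 : ℝ) * q ^ (-(ε * ε3 / 8)) := by
    intro h
    have e1 : (A * B) ^ (1 / 2 : ℝ) * q ^ (-(ε * ε3 / 8))
        = Real.exp (1 / 2 * lam - ε * ε3 / 8 * L) := by
      rw [Real.rpow_def_of_pos hAB, Real.rpow_def_of_pos hqpos, ← Real.exp_add]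
      congr 1; ring
    have e2 : Real.sqrt S1 * Real.sqrt S2
        = Real.exp (1 / 2 * (Real.log S1 + Real.log S2)) := by
      rw [Real.sqrt_eq_rpow, Real.sqrt_eq_rpow, Real.rpow_def_of_pos hS1,
        Real.rpow_def_of_pos hS2, ← Real.exp_add]
      congr 1; ring
    rw [e1, e2]
    exact Real.exp_le_exp.mpr (by linarith)
  apply hgoal
  have hb1 := fun k hk hk3 => wbox_tau_log (ε * ε3 / 40) C (by positivity) hC hdiv hv1 P A B hA hB k
    hk hk3 hP hS1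
  have hb2 := fun k hk hk3 => wbox_tau_log (ε * ε3 / 40) C (by positivity) hC hdiv hv2 P A B hA hB k
    hk hk3 hP hS2
  rw [h8AB] at hb1 hb2
  have hh1 : 0 ≤ Real.log h1 := Real.log_nonneg hv1.one_le
  have hh2 : 0 ≤ Real.log h2 := Real.log_nonneg hv2.one_le
  have hlam0 : 0 < lam := by nlinarith
  set T := Real.log 8 + lam with hT
  have hT0 : 0 < T := by positivity
  have hTlow : ε3 * L ≤ T := by linarith
  by_cases hc : T ≤ L
  · set k := ⌊L / T⌋₊ with hk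
    have hk1 : 1 ≤ k := by
      rw [hk]
      apply Nat.le_floor
      rw [le_div_iff₀ hT0]
      push_cast
      linarith
    have hk0 : (0 : ℝ) < k := by exact_mod_cast hk1
    have hk1' : (1 : ℝ) ≤ k := by exact_mod_cast hk1
    have hkl : (k : ℝ) * T ≤ L := by
      have := Nat.floor_le (show 0 ≤ L / T by positivity)
      rw [← hk, le_div_iff₀ hT0] at this
      exact this
    have hkl2 : L ≤ (k + 1) * T := by
      have := Nat.lt_floor_add_one (L / T)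
      rw [← hk, div_lt_iff₀ hT0] at this
      linarith
    have e1 := hb1 (k + 1) (by omega) (by push_cast; nlinarith)
    have e2 := hb2 k hk1 (by nlinarith)
    have hmx1 : max 0 (((k + 1 : ℕ) : ℝ) * T - L) = ((k : ℝ) + 1) * T - L := by
      push_cast
      exact max_eq_right (by linarith)
    have hmx2 : max 0 ((k : ℝ) * T - L) = 0 := max_eq_left (by linarith)
    rw [hmx1] at e1
    rw [hmx2] at e2
    push_cast at e1
    -- the divisions
    have f1 : (Real.log h1 + Real.log 2 + (((k : ℝ) + 1) * T - L)) / ((k : ℝ) + 1)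
        = T + (Real.log h1 + Real.log 2 - L) / ((k : ℝ) + 1) := by
      field_simp
      ring
    have f2 : (Real.log h2 + Real.log 2 + 0) / (k : ℝ)
        ≤ 2 * (Real.log h2 + Real.log 2) / ((k : ℝ) + 1) := by
      rw [div_le_div_iff₀ hk0 (by positivity)]
      have : 0 ≤ Real.log h2 + Real.log 2 := by positivity
      nlinarith
    have f3 : (Real.log h1 + Real.log 2 - L) / ((k : ℝ) + 1)
        + 2 * (Real.log h2 + Real.log 2) / ((k : ℝ) + 1)
        ≤ 2 * Real.log 2 - ε * ε3 / 2 * L := by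
      rw [← add_div, div_le_iff₀ (by positivity)]
      have g1 : ε * ε3 / 2 * L * ((k : ℝ) + 1) ≤ ε * L := by
        have g2 : ((k : ℝ) + 1) * T ≤ 2 * L := by nlinarith
        have g3 : ((k : ℝ) + 1) * (ε3 * L) ≤ 2 * L :=
          le_trans (mul_le_mul_of_nonneg_left hTlow (by positivity)) g2
        calc ε * ε3 / 2 * L * ((k : ℝ) + 1) = ε / 2 * (((k : ℝ) + 1) * (ε3 * L)) := by ring
          _ ≤ ε / 2 * (2 * L) := by gcongr
          _ = ε * L := by ring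
      have g4 : 3 * Real.log 2 ≤ 2 * Real.log 2 * ((k : ℝ) + 1) := by nlinarith
      nlinarith
    have f4 : ((k : ℝ) + 1 + 1) * (ε * ε3 / 40) * T + ((k : ℝ) + 1) * (ε * ε3 / 40) * T
        ≤ ε * ε3 / 8 * L := by
      have g1 : (2 * (k : ℝ) + 3) * T ≤ 5 * L := by nlinarith
      calc ((k : ℝ) + 1 + 1) * (ε * ε3 / 40) * T + ((k : ℝ) + 1) * (ε * ε3 / 40) * T
          = (ε * ε3 / 40) * ((2 * (k : ℝ) + 3) * T) := by ring
        _ ≤ (ε * ε3 / 40) * (5 * L) := by gcongr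
        _ = _ := by ring
    rw [f1] at e1
    have : K0 = 6 * Real.log C + 2 * Real.log 2 + 2 * Real.log 8 := hK0
    linarith
  · push_neg at hc
    have hT3 : T ≤ 3 * L := by nlinarith
    have e1 := hb1 1 le_rfl (by push_cast; linarith)
    have e2 := hb2 1 le_rfl (by push_cast; linarith)
    push_cast at e1 e2
    rw [div_one, one_mul, max_eq_right (by linarith)] at e1 e2
    have f1 : (1 + 1) * (ε * ε3 / 40) * T ≤ ε * ε3 / 20 * (3 * L) := by
      calc (1 + 1) * (ε * ε3 / 40) * T = ε * ε3 / 20 * T := by ring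
        _ ≤ _ := by gcongr
    have f2 : ε * ε3 * L ≤ ε / 10 * L := by gcongr
    have f3 : 0 < ε * L := by positivity
    have : K0 = 6 * Real.log C + 2 * Real.log 2 + 2 * Real.log 8 := hK0
    nlinarith

end Pool.Agent.H74.ZS
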