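import Pool.Agent.H74.ZS.Defs

/-!
# The Gaussian integral on a vertical line

`gauss_line`.  `w = σ + iv`, `Re w = σ > 0`: `e^{-lam w}/w = ∫_{s > lam} e^{-s w} ds` (`integral_exp_mul_complex_Ioi` or
FTC).  Fubini (`MeasureTheory.integral_integral_swap`, absolutely integrable: `‖e^{-s w + w²}‖ = e^{-sσ + σ² - v²}` on
`(lam, ∞) × ℝ`): the left side is `∫_{s > lam} (∫_v e^{w² - s w} dv) ds`, and
`∫_v exp ((σ+iv)² - s (σ+iv)) dv = √π exp (-s²/4) = 2π gs s` (`gauss_inner`: the exponent is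
`-v² + i v (2σ - s) + σ² - sσ`; `integral_cexp_quadratic` (`Mathlib.Analysis.SpecialFunctions.Gaussian.FourierTransform`)
with `b = -1`, `c = i (2σ - s)`, `d = σ² - sσ` gives `(π/1)^(1/2) exp (d - c²/(4b)) = √π exp (σ² - sσ - (2σ-s)²/4) =
√π exp (-s²/4)`).

`integral_gs`: `∫ gs = 1` (`integral_gaussian` with `b = 1/4`).
`gs_tail`: `∫_{s > lam} gs ≤ e^{-3 lam/4} ∫_ℝ e^{3s/4} gs s ds` (`1 ≤ e^{3(s - lam)/4}` for `s > lam`), and
`∫ e^{3s/4} gs = e^{9/16} ≤ 2` (`3s/4 - s²/4 = 9/16 - (s - 3/2)²/4`).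
`half_gs`: `gs` is even, so `∫_{s > 0} gs = 1/2`.
-/

namespace Pool.Agent.H74.ZS

open MeasureTheory Complex
open scoped Real

theorem integrable_gs : Integrable gs := by
  have h := (integrable_exp_neg_mul_sq (b := 1 / 4) (by norm_num)).div_const (2 * Real.sqrt Real.pi)
  refine h.congr (Filter.Eventually.of_forall fun s => ?_)
  unfold gs
  simp only []
  congr 2
  ring

lemma Lin_gs_eq (s : ℝ) : gs s = Real.exp (-(1 / 4) * s ^ 2) * (1 / (2 * Real.sqrt Real.pi)) := by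
  unfold gs
  rw [mul_one_div]
  congr 2
  ring

lemma Lin_sqrt : Real.sqrt (Real.pi / (1 / 4)) = 2 * Real.sqrt Real.pi := by
  rw [show Real.pi / (1 / 4) = 2 ^ 2 * Real.pi by ring, Real.sqrt_mul (by norm_num),
    Real.sqrt_sq (by norm_num)]

theorem integral_gs : ∫ s : ℝ, gs s = 1 := by
  have hp : (0 : ℝ) < Real.sqrt Real.pi := Real.sqrt_pos.2 Real.pi_pos
  simp_rw [Lin_gs_eq]
  rw [integral_mul_const, integral_gaussian, Lin_sqrt]
  field_simp

theorem half_gs : ∫ s in Set.Ioi (0 : ℝ), gs s = 1 / 2 := by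
  have hp : (0 : ℝ) < Real.sqrt Real.pi := Real.sqrt_pos.2 Real.pi_pos
  simp_rw [Lin_gs_eq]
  rw [integral_mul_const, integral_gaussian_Ioi, Lin_sqrt]
  field_simp

lemma Lin_shift (s : ℝ) : Real.exp (3 / 4 * s) * gs s = Real.exp (9 / 16) * gs (s - 3 / 2) := by
  unfold gs
  rw [← mul_div_assoc, ← mul_div_assoc, ← Real.exp_add, ← Real.exp_add]
  congr 2
  ring

theorem gs_tail (lam : ℝ) : ∫ s in Set.Ioi lam, gs s ≤ 2 * Real.exp (-(3 / 4 * lam)) := by
  have hint : Integrable (fun s : ℝ => Real.exp (3 / 4 * s) * gs s) := by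
    simp_rw [Lin_shift]
    exact (integrable_gs.comp_sub_right (3 / 2)).const_mul _
  have hval : ∫ s : ℝ, Real.exp (3 / 4 * s) * gs s = Real.exp (9 / 16) := by
    simp_rw [Lin_shift]
    rw [integral_const_mul, integral_sub_right_eq_self gs (3 / 2), integral_gs, mul_one]
  have h2 : Real.exp (9 / 16) ≤ 2 := by
    have hl : (9 / 16 : ℝ) ≤ Real.log 2 := by
      have := Real.log_two_gt_d9
      linarith
    calc Real.exp (9 / 16) ≤ Real.exp (Real.log 2) := Real.exp_le_exp.2 hl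
      _ = 2 := Real.exp_log (by norm_num)
  calc ∫ s in Set.Ioi lam, gs s
      ≤ ∫ s in Set.Ioi lam, Real.exp (-(3 / 4 * lam)) * (Real.exp (3 / 4 * s) * gs s) := by
        refine setIntegral_mono_on integrable_gs.integrableOn (hint.const_mul _).integrableOn
          measurableSet_Ioi fun s hs => ?_
        rw [← mul_assoc, ← Real.exp_add]
        have h1 : 1 ≤ Real.exp (-(3 / 4 * lam) + 3 / 4 * s) := by
          apply Real.one_le_exp
          have : lam < s := hs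
          linarith
        nlinarith [gs_nonneg s]
    _ ≤ ∫ s : ℝ, Real.exp (-(3 / 4 * lam)) * (Real.exp (3 / 4 * s) * gs s) := by
        refine setIntegral_le_integral (hint.const_mul _) (Filter.Eventually.of_forall fun s => ?_)
        have := gs_nonneg s
        simp only [Pi.zero_apply]
        positivity
    _ = Real.exp (-(3 / 4 * lam)) * Real.exp (9 / 16) := by rw [integral_const_mul, hval]
    _ ≤ 2 * Real.exp (-(3 / 4 * lam)) := by
        have := Real.exp_pos (-(3 / 4 * lam))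
        nlinarith

theorem gauss_inner (σ s : ℝ) : ∫ v : ℝ, cexp ((σ + v * I) ^ 2 - (s : ℂ) * (σ + v * I)) =
    ((2 * π * gs s : ℝ) : ℂ) := by
  have h := integral_cexp_quadratic (b := -1) (by simp) (I * (2 * σ - s)) ((σ : ℂ) ^ 2 - s * σ)
  have he : ∀ v : ℝ, (σ + v * I) ^ 2 - (s : ℂ) * (σ + v * I) =
      -1 * (v : ℂ) ^ 2 + (I * (2 * σ - s)) * v + ((σ : ℂ) ^ 2 - s * σ) := by
    intro v
    have hI : I ^ 2 = -1 := I_sq
    linear_combination (v : ℂ) ^ 2 * hI
  simp_rw [he]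
  rw [h]
  have h1 : (σ : ℂ) ^ 2 - s * σ - (I * (2 * σ - s)) ^ 2 / (4 * -1) = ((-(s ^ 2) / 4 : ℝ) : ℂ) := by
    push_cast
    have hI : I ^ 2 = -1 := I_sq
    linear_combination ((2 * (σ : ℂ) - s) ^ 2 / 4) * hI
  rw [h1, ← Complex.ofReal_exp]
  have h2 : ((π : ℂ) / - -1) ^ (1 / 2 : ℂ) = ((Real.sqrt π : ℝ) : ℂ) := by
    rw [Real.sqrt_eq_rpow, Complex.ofReal_cpow Real.pi_pos.le]
    simp
  rw [h2, ← Complex.ofReal_mul]
  congr 1
  unfold gs
  have hp : (0 : ℝ) < Real.sqrt Real.pi := Real.sqrt_pos.2 Real.pi_pos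
  have hs : Real.sqrt Real.pi * Real.sqrt Real.pi = Real.pi := Real.mul_self_sqrt Real.pi_pos.le
  field_simp
  rw [sq, hs]

lemma Lin_norm (σ v s : ℝ) : ‖cexp ((σ + v * I) ^ 2 - (s : ℂ) * (σ + v * I))‖ =
    (Real.exp (σ ^ 2) * Real.exp (-1 * v ^ 2)) * Real.exp (-σ * s) := by
  rw [Complex.norm_exp, ← Real.exp_add, ← Real.exp_add]
  congr 1
  simp [sq]
  ring

theorem gauss_line (σ : ℝ) (hσ : 0 < σ) (lam : ℝ) :
    ∫ v : ℝ, cexp ((σ + v * I) ^ 2 - (lam : ℂ) * (σ + v * I)) / (σ + v * I) =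
      ((2 * π * ∫ s in Set.Ioi lam, gs s : ℝ) : ℂ) := by
  have h1 : ∀ v : ℝ, cexp ((σ + v * I) ^ 2 - (lam : ℂ) * (σ + v * I)) / (σ + v * I) =
      ∫ s in Set.Ioi lam, cexp ((σ + v * I) ^ 2 - (s : ℂ) * (σ + v * I)) := by
    intro v
    have ha : (-((σ : ℂ) + v * I)).re < 0 := by simp [hσ]
    have := integral_exp_mul_complex_Ioi ha lam
    have h3 : ∀ s : ℝ, cexp ((σ + v * I) ^ 2 - (s : ℂ) * (σ + v * I)) =
        cexp ((σ + v * I) ^ 2) * cexp (-((σ : ℂ) + v * I) * s) := by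
      intro s
      rw [← Complex.exp_add]
      congr 1
      ring
    simp_rw [h3]
    rw [integral_const_mul, this, neg_div_neg_eq, mul_div_assoc]
  simp_rw [h1]
  have hint : Integrable (Function.uncurry fun v s : ℝ =>
      cexp ((σ + v * I) ^ 2 - (s : ℂ) * (σ + v * I)))
      (volume.prod (volume.restrict (Set.Ioi lam))) := by
    have hb : Integrable (fun z : ℝ × ℝ => (Real.exp (σ ^ 2) * Real.exp (-1 * z.1 ^ 2)) *
        Real.exp (-σ * z.2)) (volume.prod (volume.restrict (Set.Ioi lam))) := by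
      apply Integrable.mul_prod (f := fun v : ℝ => Real.exp (σ ^ 2) * Real.exp (-1 * v ^ 2))
        (g := fun s : ℝ => Real.exp (-σ * s))
      · exact (integrable_exp_neg_mul_sq (b := 1) (by norm_num)).const_mul _
      · exact exp_neg_integrableOn_Ioi lam hσ
    refine hb.mono' ?_ (Filter.Eventually.of_forall fun z => ?_)
    · apply Continuous.aestronglyMeasurable
      simp only [Function.uncurry_def]
      fun_prop
    · simp only [Function.uncurry_def]
      rw [Lin_norm]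
  rw [integral_integral_swap hint]
  simp_rw [gauss_inner]
  rw [integral_complex_ofReal, integral_const_mul]

end Pool.Agent.H74.ZS
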