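import Pool.Agent.H74.ZS.Cd

/-!
# The sum over the product set at a fixed large `u`

`zs_point_far`.  `L = log T`, `k = ⌊e^u/2π⌋₊ > exp ((1 + ε/1000) L)`.  Then `e^u ≥ k` (`Nat.floor_le`, `2π ≥ 1`), so `u ≥ (1 + ε/1000) L`,
`s := u - L ≥ ε L/1000`.  Trivially `‖‖Mz‖² TTt‖ ≤ exp (ε/250 L) k² ≤ exp (ε/250 L + 2u)` (`norm_Mz_le`, `norm_TTt_le`, `k ≤ e^u`), and
`gs (u - log t) ≤ exp (-(s - 0.7)²/4)` for `t = x.1 + x.2 ∈ [T, 2T]` (`CdT.sum`; `0 ≤ log t - L ≤ log 2 ≤ 0.7`, `s ≥ 0.7`, `2√π ≥ 1`).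
The exponent is `-(s-0.7)²/4 + ε L/250 + 2 L + 2 s ≤ -s²/4 + 0.35 s + 3 L + 2 s ≤ -s²/8 ≤ -s²/32`, because
`L ≤ 1000 s/ε` and `s/8 ≥ 2.35 + 3000/ε` (as `s ≥ ε L/1000 ≥ 10^5/ε` by `hL`, `ε ≤ 1/10`).  Sum over the `|A||B|` pairs.
-/

namespace Pool.Agent.H74.ZS

open Finset Pool.Agent.H14.PT Pool.Agent.H74.TS Pool.Agent.H74.PZ
open scoped ComplexConjugate Real

lemma ptA_gs_le (y : ℝ) : gs y ≤ Real.exp (-(y ^ 2) / 4) := by
  unfold gs
  apply div_le_self (Real.exp_pos _).le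
  have h1 : (1 : ℝ) ≤ Real.sqrt Real.pi := by
    apply Real.le_sqrt_of_sq_le
    have := Real.pi_gt_three
    linarith
  linarith

lemma ptA_T_pos {T : ℝ} (h : 1 ≤ Real.log T) {x : ℝ} (hx : T ≤ x) (hx2 : x ≤ 2 * T) : 0 < T := by
  by_contra hc
  push Not at hc
  have h1 : x ≤ T := by linarith
  have h2 : x = T := le_antisymm h1 hx
  have h3 : T = 0 := by
    by_contra h0
    have h4 : T < 0 := lt_of_le_of_ne hc h0
    linarith
  rw [h3, Real.log_zero] at h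
  linarith

lemma ptA_log {T x : ℝ} (hT : 0 < T) (hx : T ≤ x) (hx2 : x ≤ 2 * T) :
    Real.log T ≤ Real.log x ∧ Real.log x ≤ Real.log T + 0.7 := by
  refine ⟨Real.log_le_log hT hx, ?_⟩
  have h1 : Real.log x ≤ Real.log (2 * T) := Real.log_le_log (by linarith) hx2
  rw [Real.log_mul (by norm_num) hT.ne'] at h1
  have h2 := Real.log_two_lt_d9
  linarith

lemma ptA_exponent {ε L s : ℝ} (hε : 0 < ε) (hε1 : ε ≤ 1 / 10)
    (hL : 10 ^ 8 / ε ^ 2 ≤ L) (hs : ε * L / 1000 ≤ s) :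
    0.7 ≤ s ∧ -(s - 0.7) ^ 2 / 4 + ε / 250 * L + 2 * (s + L) ≤ -s ^ 2 / 32 := by
  have h1 : 10 ^ 8 ≤ ε ^ 2 * L := by
    rw [div_le_iff₀ (by positivity)] at hL
    linarith
  have h2 : 10 ^ 5 ≤ ε * s := by
    have := mul_le_mul_of_nonneg_left hs hε.le
    nlinarith
  have hs0 : 0 < s := by
    by_contra hc
    push Not at hc
    have := mul_nonpos_of_nonneg_of_nonpos hε.le hc
    linarith
  have h3 : 10 ^ 6 ≤ s := by
    have : ε * s ≤ 1 / 10 * s := mul_le_mul_of_nonneg_right hε1 hs0.le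
    linarith
  have hL0 : 0 < L := by
    by_contra hc
    push Not at hc
    have : ε ^ 2 * L ≤ 0 := mul_nonpos_of_nonneg_of_nonpos (by positivity) hc
    linarith
  have h4 : L ≤ s ^ 2 / 100 := by
    have h5 : L * 10 ^ 5 ≤ L * (ε * s) := mul_le_mul_of_nonneg_left h2 hL0.le
    have h6 : ε * L * s ≤ 1000 * s * s := mul_le_mul_of_nonneg_right (by linarith) hs0.le
    nlinarith
  refine ⟨by linarith, ?_⟩
  nlinarith

/-- the last range -/
theorem zs_point_far {ε T : ℝ} {Z : ℕ} (hB : Bg ε Z (Real.log T))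
    (hL : 10 ^ 8 / ε ^ 2 ≤ Real.log T) {A B : Finset ℝ} (hcd : CdT ε T A B) (u : ℝ)
    (hk : Real.exp ((1 + ε / 1000) * Real.log T) < (⌊Real.exp u / (2 * π)⌋₊ : ℝ)) :
    ‖∑ x ∈ A ×ˢ B, ((gs (u - Real.log (x.1 + x.2)) : ℝ) : ℂ) *
      (((‖Mz ε Z T (x.1 + x.2)‖ ^ 2 : ℝ) : ℂ) * TTt (x.1 + x.2) ⌊Real.exp u / (2 * π)⌋₊)‖ ≤
      ((A.card : ℝ) * B.card) * Real.exp (-(u - Real.log T) ^ 2 / 32) := by
  set L := Real.log T with hLdef
  set k := ⌊Real.exp u / (2 * π)⌋₊ with hkdef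
  have hε := hB.hε
  have hε1 := hB.hε1
  have hL1 : 1 ≤ L := by
    have := hB.hL24
    linarith
  have hpi : (1 : ℝ) ≤ 2 * π := by
    have := Real.pi_gt_three
    linarith
  have hk1 : (k : ℝ) ≤ Real.exp u := by
    refine (Nat.floor_le (by positivity)).trans ?_
    exact div_le_self (Real.exp_pos _).le hpi
  have hu : (1 + ε / 1000) * L < u := Real.exp_lt_exp.mp (hk.trans_le hk1)
  obtain ⟨hs7, hexp⟩ := ptA_exponent (s := u - L) hε hε1 hL (by linarith)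
  refine (norm_sum_le _ _).trans ?_
  have hterm : ∀ x ∈ A ×ˢ B, ‖((gs (u - Real.log (x.1 + x.2)) : ℝ) : ℂ) *
      (((‖Mz ε Z T (x.1 + x.2)‖ ^ 2 : ℝ) : ℂ) * TTt (x.1 + x.2) k)‖ ≤
      Real.exp (-(u - L) ^ 2 / 32) := by
    intro x hx
    rw [Finset.mem_product] at hx
    obtain ⟨hT1, hT2⟩ := hcd.sum x.1 hx.1 x.2 hx.2
    have hT0 := ptA_T_pos hL1 hT1 hT2
    obtain ⟨hl1, hl2⟩ := ptA_log hT0 hT1 hT2
    rw [norm_mul, norm_mul, Complex.norm_real, Complex.norm_real, Real.norm_of_nonneg (gs_nonneg _),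
      Real.norm_of_nonneg (by positivity : (0 : ℝ) ≤ ‖Mz ε Z T (x.1 + x.2)‖ ^ 2)]
    have g1 : gs (u - Real.log (x.1 + x.2)) ≤ Real.exp (-((u - L) - 0.7) ^ 2 / 4) := by
      refine (ptA_gs_le _).trans (Real.exp_le_exp.mpr ?_)
      have h2 : (u - L - 0.7) ^ 2 ≤ (u - Real.log (x.1 + x.2)) ^ 2 := by
        apply pow_le_pow_left₀ (by linarith)
        linarith
      linarith
    have g2 : ‖Mz ε Z T (x.1 + x.2)‖ ^ 2 ≤ Real.exp (ε / 250 * L) := by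
      have h1 := pow_le_pow_left₀ (norm_nonneg _) (norm_Mz_le hB (x.1 + x.2)) 2
      rw [← Real.exp_nat_mul] at h1
      refine h1.trans (le_of_eq ?_)
      congr 1
      push_cast
      ring
    have g3 : ‖TTt (x.1 + x.2) k‖ ≤ Real.exp (2 * u) := by
      refine (norm_TTt_le _ _).trans ?_
      have h1 := pow_le_pow_left₀ (Nat.cast_nonneg _) hk1 2
      rw [← Real.exp_nat_mul] at h1
      refine h1.trans (le_of_eq ?_)
      norm_num
    calc gs (u - Real.log (x.1 + x.2)) * (‖Mz ε Z T (x.1 + x.2)‖ ^ 2 * ‖TTt (x.1 + x.2) k‖)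
        ≤ Real.exp (-((u - L) - 0.7) ^ 2 / 4) * (Real.exp (ε / 250 * L) * Real.exp (2 * u)) := by
          gcongr
      _ = Real.exp (-((u - L) - 0.7) ^ 2 / 4 + ε / 250 * L + 2 * ((u - L) + L)) := by
          rw [← Real.exp_add, ← Real.exp_add]
          congr 1
          ring
      _ ≤ _ := Real.exp_le_exp.mpr hexp
  refine (Finset.sum_le_sum hterm).trans ?_
  rw [Finset.sum_const, nsmul_eq_mul, Finset.card_product]
  push_cast
  exact le_refl _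

end Pool.Agent.H74.ZS
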