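import Pool.Agent.H74.ZS.SepA

/-!
# Separation of variables

`gs_sep`: the function `gs (u - log (a + b))` of `(a, b) ∈ A × B`, `T ≤ a + b ≤ 2T`, is a combination
`∑_n ∑_k c_{n,k}(a) d_{n,k}(b)` with small total coefficient.

Let `a0, b0` be the midpoints of `[min A, max A]`, `[min B, max B]` (`Finset.min'`, `max'`), `rA, rB ≥ 0` half the
lengths, `t0 = a0 + b0`, `r = rA + rB`.  Then `t0 - r = min A + min B ≥ T`, `t0 + r ≤ 2T`, so `r ≤ T/2`,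
`T ≤ t0 ≤ 2T`, `r / t0 ≤ 1/3` (`r ≤ T/2` and `t0 ≥ T + r`).  Put `α(a) = (a - a0)/t0`, `β(b) = (b - b0)/t0`, so
`|α| ≤ ρA := rA/t0 + 1/12`, `|β| ≤ ρB := rB/t0 + 1/12`, `ρA + ρB ≤ 1/2`, `ρA, ρB > 0` and
`a + b = t0 (1 + z)`, `z = α(a) + β(b)`, `|z| ≤ 1/2`.

`sep_pow`: `‖∑_x (α(x.1) + β(x.2))^n G x‖ ≤ (ρA + ρB)^n S`: binomial theorem (`add_pow`), for each `k` use `hS` with
`c a = (α a / ρA)^k`, `d b = (β b / ρB)^(n-k)`.

`gs_sep`: `gs (u - log (a + b)) = gs (y - log (1 + z)) = ∑_n h n z^n`, `y = u - log t0` (`gs_coeff`, `Real.log_mul`), so the sum is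
`∑_n h n (∑_x z^n G x)` (`hasSum_sum`), of norm `≤ ∑_n (4/3)^n exp (-y²/8) 2^{-n} S = 3 exp (-y²/8) S`, and
`y = (u - log T) - log (t0/T)`, `0 ≤ log (t0/T) ≤ log 2 ≤ 0.7`, `y² ≥ (u - log T)²/2 - 0.49`, so
`exp (-y²/8) ≤ 1.1 exp (-(u - log T)²/16)`.  (`S ≥ 0` by `hS` with `c = d = 0`.)
-/

namespace Pool.Agent.H74.ZS

open Finset
open scoped Real

theorem sep_pow (A B : Finset ℝ) (G : ℝ × ℝ → ℂ) (S : ℝ)
    (hS : ∀ c d : ℝ → ℂ, (∀ a ∈ A, ‖c a‖ ≤ 1) → (∀ b ∈ B, ‖d b‖ ≤ 1) →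
      ‖∑ x ∈ A ×ˢ B, (c x.1 * d x.2) * G x‖ ≤ S) (α β : ℝ → ℝ) (ρA ρB : ℝ) (hρA : 0 < ρA)
    (hρB : 0 < ρB) (hα : ∀ a ∈ A, |α a| ≤ ρA) (hβ : ∀ b ∈ B, |β b| ≤ ρB) (n : ℕ) :
    ‖∑ x ∈ A ×ˢ B, (((α x.1 + β x.2) ^ n : ℝ) : ℂ) * G x‖ ≤ (ρA + ρB) ^ n * S := by
  have h1 : ∑ x ∈ A ×ˢ B, (((α x.1 + β x.2) ^ n : ℝ) : ℂ) * G x =
      ∑ k ∈ Finset.range (n + 1), ((ρA ^ k * ρB ^ (n - k) * (n.choose k : ℝ) : ℝ) : ℂ) *
        ∑ x ∈ A ×ˢ B, ((((α x.1 / ρA) ^ k : ℝ) : ℂ) * (((β x.2 / ρB) ^ (n - k) : ℝ) : ℂ)) *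
          G x := by
    simp_rw [Finset.mul_sum]
    rw [Finset.sum_comm]
    refine Finset.sum_congr rfl fun x _ => ?_
    rw [add_pow, Complex.ofReal_sum, Finset.sum_mul]
    refine Finset.sum_congr rfl fun k _ => ?_
    rw [← mul_assoc, ← Complex.ofReal_mul, ← Complex.ofReal_mul]
    congr 2
    have h2 : ρA ^ k ≠ 0 := (pow_pos hρA k).ne'
    have h3 : ρB ^ (n - k) ≠ 0 := (pow_pos hρB (n - k)).ne'
    rw [div_pow, div_pow]
    field_simp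
  rw [h1]
  refine (norm_sum_le _ _).trans ?_
  rw [add_pow, Finset.sum_mul]
  refine Finset.sum_le_sum fun k _ => ?_
  have h2 : 0 ≤ ρA ^ k * ρB ^ (n - k) * (n.choose k : ℝ) := by positivity
  rw [norm_mul, Complex.norm_real, Real.norm_of_nonneg h2]
  refine mul_le_mul_of_nonneg_left ?_ h2
  refine hS (fun a => (((α a / ρA) ^ k : ℝ) : ℂ)) (fun b => (((β b / ρB) ^ (n - k) : ℝ) : ℂ))
    (fun a ha => ?_) (fun b hb => ?_)
  · rw [Complex.norm_real, norm_pow, Real.norm_eq_abs, abs_div, abs_of_pos hρA]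
    exact pow_le_one₀ (by positivity) ((div_le_one hρA).2 (hα a ha))
  · rw [Complex.norm_real, norm_pow, Real.norm_eq_abs, abs_div, abs_of_pos hρB]
    exact pow_le_one₀ (by positivity) ((div_le_one hρB).2 (hβ b hb))

/-- the elementary inequality for the exponentials -/
theorem sep_exp (u T t : ℝ) (hT : 0 < T) (h1 : T ≤ t) (h2 : t ≤ 2 * T) :
    3 * Real.exp (-((u - Real.log t) ^ 2) / 8) ≤ 10 * Real.exp (-(u - Real.log T) ^ 2 / 16) := by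
  have h3 : Real.log T ≤ Real.log t := Real.log_le_log hT h1
  have h4 : Real.log t ≤ Real.log 2 + Real.log T := by
    rw [← Real.log_mul (by norm_num) hT.ne']
    exact Real.log_le_log (by linarith) h2
  have h5 := Real.log_two_lt_d9
  have h6 : -((u - Real.log t) ^ 2) / 8 ≤ -(u - Real.log T) ^ 2 / 16 + 1 := by
    have h7 : 0 ≤ Real.log t - Real.log T := by linarith
    have h8 : Real.log t - Real.log T ≤ 1 := by linarith
    nlinarith [sq_nonneg (u - Real.log T - 2 * (Real.log t - Real.log T))]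
  have h7 := Real.exp_one_lt_d9
  have h8 := Real.exp_pos (-(u - Real.log T) ^ 2 / 16)
  calc 3 * Real.exp (-((u - Real.log t) ^ 2) / 8)
      ≤ 3 * Real.exp (-(u - Real.log T) ^ 2 / 16 + 1) :=
        mul_le_mul_of_nonneg_left (Real.exp_le_exp.2 h6) (by norm_num)
    _ = 3 * (Real.exp (-(u - Real.log T) ^ 2 / 16) * Real.exp 1) := by rw [Real.exp_add]
    _ ≤ 10 * Real.exp (-(u - Real.log T) ^ 2 / 16) := by nlinarith

theorem gs_sep (T : ℝ) (hT : 1 ≤ T) (A B : Finset ℝ) (hA : A.Nonempty) (hB : B.Nonempty)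
    (hAB : ∀ a ∈ A, ∀ b ∈ B, T ≤ a + b ∧ a + b ≤ 2 * T) (G : ℝ × ℝ → ℂ) (S : ℝ)
    (hS : ∀ c d : ℝ → ℂ, (∀ a ∈ A, ‖c a‖ ≤ 1) → (∀ b ∈ B, ‖d b‖ ≤ 1) →
      ‖∑ x ∈ A ×ˢ B, (c x.1 * d x.2) * G x‖ ≤ S) (u : ℝ) :
    ‖∑ x ∈ A ×ˢ B, ((gs (u - Real.log (x.1 + x.2)) : ℝ) : ℂ) * G x‖ ≤
      10 * Real.exp (-(u - Real.log T) ^ 2 / 16) * S := by
  have hS0 : 0 ≤ S := by
    have h1 := hS (fun _ => 0) (fun _ => 0) (fun _ _ => by simp) (fun _ _ => by simp)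
    exact (norm_nonneg _).trans h1
  have hmin := hAB _ (A.min'_mem hA) _ (B.min'_mem hB)
  have hmax := hAB _ (A.max'_mem hA) _ (B.max'_mem hB)
  have hAle : A.min' hA ≤ A.max' hA := A.min'_le_max' hA
  have hBle : B.min' hB ≤ B.max' hB := B.min'_le_max' hB
  obtain ⟨a0, ha0⟩ : ∃ a0, a0 = (A.min' hA + A.max' hA) / 2 := ⟨_, rfl⟩
  obtain ⟨b0, hb0⟩ : ∃ b0, b0 = (B.min' hB + B.max' hB) / 2 := ⟨_, rfl⟩
  obtain ⟨rA, hrA⟩ : ∃ rA, rA = (A.max' hA - A.min' hA) / 2 := ⟨_, rfl⟩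
  obtain ⟨rB, hrB⟩ : ∃ rB, rB = (B.max' hB - B.min' hB) / 2 := ⟨_, rfl⟩
  have hrA0 : 0 ≤ rA := by rw [hrA]; linarith
  have hrB0 : 0 ≤ rB := by rw [hrB]; linarith
  have ht1 : T ≤ a0 + b0 := by rw [ha0, hb0]; linarith
  have ht2 : a0 + b0 ≤ 2 * T := by rw [ha0, hb0]; linarith
  have ht0 : 0 < a0 + b0 := by linarith
  have ht3 : 3 * (rA + rB) ≤ a0 + b0 := by rw [ha0, hb0, hrA, hrB]; linarith
  have hA1 : ∀ a ∈ A, |(a - a0) / (a0 + b0)| ≤ rA / (a0 + b0) + 1 / 12 := by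
    intro a ha
    have h1 := A.min'_le a ha
    have h2 := A.le_max' a ha
    have h3 : |a - a0| ≤ rA := by
      rw [abs_le, ha0, hrA]
      constructor <;> linarith
    rw [abs_div, abs_of_pos ht0]
    have h4 : |a - a0| / (a0 + b0) ≤ rA / (a0 + b0) := div_le_div_of_nonneg_right h3 ht0.le
    linarith
  have hB1 : ∀ b ∈ B, |(b - b0) / (a0 + b0)| ≤ rB / (a0 + b0) + 1 / 12 := by
    intro b hb
    have h1 := B.min'_le b hb
    have h2 := B.le_max' b hb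
    have h3 : |b - b0| ≤ rB := by
      rw [abs_le, hb0, hrB]
      constructor <;> linarith
    rw [abs_div, abs_of_pos ht0]
    have h4 : |b - b0| / (a0 + b0) ≤ rB / (a0 + b0) := div_le_div_of_nonneg_right h3 ht0.le
    linarith
  have hρA : 0 < rA / (a0 + b0) + 1 / 12 := by positivity
  have hρB : 0 < rB / (a0 + b0) + 1 / 12 := by positivity
  have hρ : (rA / (a0 + b0) + 1 / 12) + (rB / (a0 + b0) + 1 / 12) ≤ 1 / 2 := by
    have h1 : rA / (a0 + b0) + rB / (a0 + b0) ≤ 1 / 3 := by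
      rw [← add_div, div_le_iff₀ ht0]
      linarith
    linarith
  obtain ⟨h, hh1, hh2⟩ := gs_coeff (u - Real.log (a0 + b0))
  have hz : ∀ x ∈ A ×ˢ B, |(x.1 - a0) / (a0 + b0) + (x.2 - b0) / (a0 + b0)| ≤ 1 / 2 := by
    intro x hx
    obtain ⟨hx1, hx2⟩ := Finset.mem_product.1 hx
    exact (abs_add_le _ _).trans ((add_le_add (hA1 _ hx1) (hB1 _ hx2)).trans hρ)
  have hsum : HasSum (fun n => ∑ x ∈ A ×ˢ B,
      (h n * ((((x.1 - a0) / (a0 + b0) + (x.2 - b0) / (a0 + b0) : ℝ)) : ℂ) ^ n) * G x)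
      (∑ x ∈ A ×ˢ B, ((gs (u - Real.log (x.1 + x.2)) : ℝ) : ℂ) * G x) := by
    apply hasSum_sum
    intro x hx
    apply HasSum.mul_right
    have h1 := hh2 _ (hz x hx)
    have h2 : u - Real.log (x.1 + x.2) = u - Real.log (a0 + b0) -
        Real.log (1 + ((x.1 - a0) / (a0 + b0) + (x.2 - b0) / (a0 + b0))) := by
      have h3 : x.1 + x.2 = (a0 + b0) *
          (1 + ((x.1 - a0) / (a0 + b0) + (x.2 - b0) / (a0 + b0))) := by
        field_simp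
        ring
      have h4 : (1 + ((x.1 - a0) / (a0 + b0) + (x.2 - b0) / (a0 + b0))) ≠ 0 := by
        have h5 := (abs_le.1 (hz x hx)).1
        intro h6
        linarith
      conv_lhs => rw [h3, Real.log_mul ht0.ne' h4]
      ring
    rw [h2]
    exact h1
  have hgeo : HasSum (fun n : ℕ => (2 / 3 : ℝ) ^ n *
      (Real.exp (-((u - Real.log (a0 + b0)) ^ 2) / 8) * S))
      (3 * (Real.exp (-((u - Real.log (a0 + b0)) ^ 2) / 8) * S)) := by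
    have h1 := (hasSum_geometric_of_lt_one (r := (2 / 3 : ℝ)) (by norm_num) (by norm_num)).mul_right
      (Real.exp (-((u - Real.log (a0 + b0)) ^ 2) / 8) * S)
    have h2 : (1 - 2 / 3 : ℝ)⁻¹ = 3 := by norm_num
    rw [h2] at h1
    exact h1
  have hbound := hsum.norm_le_of_bounded hgeo (by
    intro n
    have h1 : ∑ x ∈ A ×ˢ B,
        (h n * ((((x.1 - a0) / (a0 + b0) + (x.2 - b0) / (a0 + b0) : ℝ)) : ℂ) ^ n) * G x =
        h n * ∑ x ∈ A ×ˢ B, (((((x.1 - a0) / (a0 + b0) + (x.2 - b0) / (a0 + b0)) ^ n : ℝ)) : ℂ) *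
          G x := by
      rw [Finset.mul_sum]
      refine Finset.sum_congr rfl fun x _ => ?_
      rw [Complex.ofReal_pow, mul_assoc]
    have h2 := sep_pow A B G S hS (fun a => (a - a0) / (a0 + b0)) (fun b => (b - b0) / (a0 + b0))
      _ _ hρA hρB hA1 hB1 n
    rw [h1, norm_mul]
    have h3 : ((rA / (a0 + b0) + 1 / 12) + (rB / (a0 + b0) + 1 / 12)) ^ n * S ≤
        (1 / 2) ^ n * S :=
      mul_le_mul_of_nonneg_right (pow_le_pow_left₀ (by positivity) hρ n) hS0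
    refine (mul_le_mul (hh1 n) (h2.trans h3) (norm_nonneg _) (by positivity)).trans
      (le_of_eq ?_)
    have h4 : (2 / 3 : ℝ) = 4 / 3 * (1 / 2) := by norm_num
    rw [h4, mul_pow]
    ring)
  refine hbound.trans ?_
  rw [← mul_assoc]
  exact mul_le_mul_of_nonneg_right (sep_exp u T (a0 + b0) (by linarith) ht1 ht2) hS0

end Pool.Agent.H74.ZS
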