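import Pool.Agent.H74.ZS.GB
import Pool.Agent.H74.ZS.Sep
import Pool.Agent.H74.ZS.PtA

/-!
# The sum over the product set at a fixed `u`

`zs_point`.  `L = log T`, `k = ⌊e^u/2π⌋₊`, `G x = ‖Mz (x.1+x.2)‖² TTt (x.1+x.2) k`, `X = |A||B|`.  For large `L` (`L ≥ 10^8/ε²`, `Q0` of `wG_t`):

* `k = 0`: `TTt_zero`, the sum is `0`.
* `1 ≤ k < exp ((1 - ε/1000) L)`: `wG_t` and `gs_sep` with `S = exp (3 κ L) X` give `10 exp (-(u-L)²/16) exp (3 κ L) X`.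
  Here `e^u/2π < k + 1 ≤ 2 exp ((1-ε/1000) L)`, so `u ≤ (1 - ε/1000) L + log (4π) ≤ L - ε L/1000 + 3`, `|u - L| ≥ ε L/2000`
  (`hLε : 10^6 ≤ ε L`), so `exp (-(u-L)²/16) ≤ exp (-(u-L)²/32) exp (-(ε L/2000)²/32)` and
  `(ε L/2000)²/32 ≥ 3 κ L` (`κ = kap ε Z ≤ ε/10^8`, `Bg.kle`).
* `exp ((1 - ε/1000) L) ≤ k ≤ exp ((1 + ε/1000) L)`: `10 exp (-(u-L)²/16) C X`.
* `k > exp ((1 + ε/1000) L)`: `zs_point_far`.

In all cases the sum is at most `(10 C + 11) X exp (-(u - L)²/32)`.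
-/

namespace Pool.Agent.H74.ZS

open Finset Pool.Agent.H14.PT Pool.Agent.H74.TS Pool.Agent.H74.PZ
open scoped ComplexConjugate Real

lemma pt_small_u {ε L u : ℝ} (hLε : 10 ^ 6 ≤ ε * L)
    (h : Real.exp u / (2 * π) < 2 * Real.exp ((1 - ε / 1000) * L)) : ε * L / 2000 ≤ L - u := by
  have hpi := Real.pi_lt_d2
  have hpi0 := Real.pi_pos
  have h1 : Real.exp u < 4 * π * Real.exp ((1 - ε / 1000) * L) := by
    rw [div_lt_iff₀ (by positivity)] at h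
    linarith
  have h2 : 4 * π ≤ Real.exp 3 := by
    have h3 : Real.exp 3 = Real.exp 1 ^ 3 := by
      rw [← Real.exp_nat_mul]
      norm_num
    have h4 := Real.exp_one_gt_d9
    have h5 : (2.7 : ℝ) ^ 3 ≤ Real.exp 1 ^ 3 := pow_le_pow_left₀ (by norm_num) (by linarith) 3
    rw [h3]
    have : (2.7 : ℝ) ^ 3 = 19.683 := by norm_num
    linarith
  have h3 : Real.exp u < Real.exp (3 + (1 - ε / 1000) * L) := by
    rw [Real.exp_add]
    refine h1.trans_le ?_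
    exact mul_le_mul_of_nonneg_right h2 (Real.exp_pos _).le
  have h4 := Real.exp_lt_exp.mp h3
  linarith

lemma pt_gauss {ε L κ u : ℝ} (hLε : 10 ^ 6 ≤ ε * L) (hκ : κ ≤ ε / 10 ^ 8) (hL : 0 < L)
    (h : ε * L / 2000 ≤ L - u) : -(u - L) ^ 2 / 16 + 3 * κ * L ≤ -(u - L) ^ 2 / 32 := by
  have h1 : (ε * L / 2000) ^ 2 ≤ (L - u) ^ 2 := pow_le_pow_left₀ (by linarith) h 2
  have h2 : κ * L * 10 ^ 8 ≤ ε * L := by
    have := mul_le_mul_of_nonneg_right hκ hL.le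
    linarith
  have h3 : (L - u) ^ 2 = (u - L) ^ 2 := by ring
  rw [h3] at h1
  have h4 : ε * L * 10 ^ 6 ≤ (ε * L) ^ 2 := by
    rw [sq]
    exact mul_le_mul_of_nonneg_left hLε (by linarith)
  nlinarith

theorem zs_point (ε : ℝ) (Z : ℕ) (hε : 0 < ε) (hε1 : ε ≤ 1 / 10) (hZ : 400 ≤ ε * Z) :
    ∃ C Q0 : ℝ, 0 < C ∧ ∀ T : ℝ, Q0 ≤ Real.log T → Bg ε Z (Real.log T) →
    ∀ (A B : Finset ℝ), CdT ε T A B → ∀ u : ℝ,
    ‖∑ x ∈ A ×ˢ B, ((gs (u - Real.log (x.1 + x.2)) : ℝ) : ℂ) *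
      (((‖Mz ε Z T (x.1 + x.2)‖ ^ 2 : ℝ) : ℂ) * TTt (x.1 + x.2) ⌊Real.exp u / (2 * π)⌋₊)‖ ≤
      C * ((A.card : ℝ) * B.card) * Real.exp (-(u - Real.log T) ^ 2 / 32) := by
  obtain ⟨C, Q0, hC, hG⟩ := wG_t ε Z hε hε1 hZ
  refine ⟨10 * C + 11, max Q0 (10 ^ 8 / ε ^ 2), by positivity, ?_⟩
  intro T hQ hB A B hcd u
  have hQ1 : Q0 ≤ Real.log T := (le_max_left _ _).trans hQ
  have hQ2 : 10 ^ 8 / ε ^ 2 ≤ Real.log T := (le_max_right _ _).trans hQ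
  set L := Real.log T with hLdef
  set k := ⌊Real.exp u / (2 * π)⌋₊ with hkdef
  have hL24 := hB.hL24
  have hL0 : 0 < L := by linarith
  obtain ⟨a0, ha0⟩ := hcd.neA
  obtain ⟨b0, hb0⟩ := hcd.neB
  have hT0 : 0 < T := ptA_T_pos (by linarith) (hcd.sum a0 ha0 b0 hb0).1 (hcd.sum a0 ha0 b0 hb0).2
  have hT1 : 1 ≤ T := by
    by_contra hc
    push Not at hc
    have := Real.log_nonpos hT0.le hc.le
    linarith
  have hX : 0 ≤ (A.card : ℝ) * B.card := by positivity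
  set X : ℝ := (A.card : ℝ) * B.card with hXdef
  set E := Real.exp (-(u - L) ^ 2 / 32) with hE
  have hE0 : 0 < E := Real.exp_pos _
  have hfin : ∀ S : ℝ, S ≤ (10 * C + 1) * X * E → S ≤ (10 * C + 11) * X * E := by
    intro S hS
    refine hS.trans ?_
    have : 0 ≤ X * E := by positivity
    nlinarith
  by_cases hk0 : k = 0
  · rw [hk0]
    simp only [TTt_zero, mul_zero, Finset.sum_const_zero, norm_zero]
    positivity
  have hk1 : 1 ≤ k := Nat.one_le_iff_ne_zero.mpr hk0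
  by_cases hfar : Real.exp ((1 + ε / 1000) * L) < (k : ℝ)
  · have h1 := zs_point_far hB hQ2 hcd u hfar
    refine hfin _ (h1.trans ?_)
    have : 0 ≤ X * E := by positivity
    nlinarith
  push Not at hfar
  have hS := fun (c d : ℝ → ℂ) (hc : ∀ a ∈ A, ‖c a‖ ≤ 1) (hd : ∀ b ∈ B, ‖d b‖ ≤ 1) =>
    hG T hQ1 hB A B hcd c d hc hd k hk1 hfar
  by_cases hmid : Real.exp ((1 - ε / 1000) * L) ≤ (k : ℝ)
  · have h1 := gs_sep T hT1 A B hcd.neA hcd.neB hcd.sum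
      (fun x => ((‖Mz ε Z T (x.1 + x.2)‖ ^ 2 : ℝ) : ℂ) * TTt (x.1 + x.2) k) (C * X)
      (fun c d hc hd => (hS c d hc hd).2 hmid) u
    refine hfin _ (h1.trans ?_)
    have h2 : Real.exp (-(u - L) ^ 2 / 16) ≤ E := by
      rw [hE]
      apply Real.exp_le_exp.mpr
      nlinarith [sq_nonneg (u - L)]
    have h3 : 10 * Real.exp (-(u - L) ^ 2 / 16) * (C * X) ≤ 10 * E * (C * X) := by gcongr
    refine h3.trans ?_
    have : 0 ≤ X * E := by positivity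
    nlinarith
  · push Not at hmid
    have h1 := gs_sep T hT1 A B hcd.neA hcd.neB hcd.sum
      (fun x => ((‖Mz ε Z T (x.1 + x.2)‖ ^ 2 : ℝ) : ℂ) * TTt (x.1 + x.2) k)
      (Real.exp (3 * kap ε Z * L) * X)
      (fun c d hc hd => (hS c d hc hd).1) u
    have h2 : Real.exp u / (2 * π) < 2 * Real.exp ((1 - ε / 1000) * L) := by
      have h3 : Real.exp u / (2 * π) < (k : ℝ) + 1 := Nat.lt_floor_add_one _
      have h4 : (1 : ℝ) ≤ (k : ℝ) := by exact_mod_cast hk1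
      linarith
    have h3 := pt_small_u hB.hLε h2
    have h4 := pt_gauss (κ := kap ε Z) hB.hLε hB.kle hL0 h3
    have h5 : Real.exp (-(u - L) ^ 2 / 16) * Real.exp (3 * kap ε Z * L) ≤ E := by
      rw [← Real.exp_add, hE]
      exact Real.exp_le_exp.mpr h4
    refine h1.trans ?_
    calc 10 * Real.exp (-(u - L) ^ 2 / 16) * (Real.exp (3 * kap ε Z * L) * X)
        = 10 * (Real.exp (-(u - L) ^ 2 / 16) * Real.exp (3 * kap ε Z * L)) * X := by ring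
      _ ≤ 10 * E * X := by gcongr
      _ ≤ (10 * C + 11) * X * E := by
          have : 0 ≤ X * E := by positivity
          nlinarith

end Pool.Agent.H74.ZS
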