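import Pool.Agent.H74.ZS.FinT

/-!
# The symmetric form of the theorem
-/

namespace Pool.Agent.H74.ZS

open Finset

theorem zs_main_set (ε : ℝ) (hε : 0 < ε) : ∃ c T₀ : ℝ, 0 < c ∧ ∀ T : ℝ, T₀ ≤ T →
    ∀ (K : ℕ) (A B : Finset ℝ),
    (∀ x : ℝ, {a : ℝ | a ∈ A ∧ x ≤ a ∧ a < x + 1}.ncard ≤ K) →
    (∀ x : ℝ, {b : ℝ | b ∈ B ∧ x ≤ b ∧ b < x + 1}.ncard ≤ K) →
    (∀ a ∈ A, ∀ b ∈ B, T ≤ a + b ∧ a + b ≤ 2 * T) →
    (K : ℝ) ^ 3 * T ^ (2 + ε) ≤ (A.card : ℝ) * B.card * max (A.card : ℝ) B.card →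
    c * ((A.card : ℝ) * B.card) ≤ ({x : ℝ × ℝ | x.1 ∈ A ∧ x.2 ∈ B ∧
      riemannZeta (1 / 2 + ((x.1 + x.2 : ℝ) : ℂ) * Complex.I) ≠ 0}.ncard : ℝ) := by
  classical
  obtain ⟨c, T0, hc, hmain⟩ := zs_main ε hε
  refine ⟨c, T0, hc, fun T hT K A B hA hB hAB hcard => ?_⟩
  have hconv : ∀ D : Finset ℝ, (∀ x : ℝ, {a : ℝ | a ∈ D ∧ x ≤ a ∧ a < x + 1}.ncard ≤ K) →
      ∀ x : ℝ, (D.filter (fun a => x ≤ a ∧ a < x + 1)).card ≤ K := by
    intro D hD x
    refine le_trans (le_of_eq ?_) (hD x)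
    rw [← Set.ncard_coe_finset]
    congr 1
    ext a
    simp
  have hA' := hconv A hA
  have hB' := hconv B hB
  rcases le_total (A.card : ℝ) (B.card : ℝ) with h | h
  · rw [max_eq_right h] at hcard
    set S : Finset (ℝ × ℝ) := (A ×ˢ B).filter (fun x =>
      riemannZeta (1 / 2 + ((x.1 + x.2 : ℝ) : ℂ) * Complex.I) ≠ 0) with hS
    have h1 := hmain T hT K A B hA' hB' hAB (by rw [sq]; linarith) S
      (fun x hx hx0 => Finset.mem_filter.mpr ⟨hx, hx0⟩)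
    refine h1.trans (le_of_eq ?_)
    rw [← Set.ncard_coe_finset]
    congr 2
    ext x
    simp [hS, and_assoc]
  · rw [max_eq_left h] at hcard
    set S : Finset (ℝ × ℝ) := (B ×ˢ A).filter (fun x =>
      riemannZeta (1 / 2 + ((x.1 + x.2 : ℝ) : ℂ) * Complex.I) ≠ 0) with hS
    have h1 := hmain T hT K B A hB' hA' (fun b hb a ha => by
      have := hAB a ha b hb
      constructor <;> linarith [this.1, this.2]) (by rw [sq]; linarith) S
      (fun x hx hx0 => Finset.mem_filter.mpr ⟨hx, hx0⟩)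
    have h2 : (S.card : ℝ) = ({x : ℝ × ℝ | x.1 ∈ A ∧ x.2 ∈ B ∧
      riemannZeta (1 / 2 + ((x.1 + x.2 : ℝ) : ℂ) * Complex.I) ≠ 0}.ncard : ℝ) := by
      have h3 : S.card = (S.image Prod.swap).card :=
        (Finset.card_image_of_injective _ Prod.swap_injective).symm
      rw [h3, ← Set.ncard_coe_finset]
      congr 2
      ext x
      simp only [hS, Finset.coe_image, Set.mem_image, Finset.mem_coe, Finset.mem_filter,
        Finset.mem_product, Set.mem_ofPred_eq]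
      constructor
      · rintro ⟨y, ⟨⟨h4, h5⟩, h6⟩, rfl⟩
        refine ⟨h5, h4, ?_⟩
        have : (y.swap.1 + y.swap.2 : ℝ) = y.1 + y.2 := by
          rw [Prod.fst_swap, Prod.snd_swap]; ring
        rw [this]
        exact h6
      · rintro ⟨h4, h5, h6⟩
        refine ⟨x.swap, ⟨⟨h5, h4⟩, ?_⟩, Prod.swap_swap x⟩
        have : (x.swap.1 + x.swap.2 : ℝ) = x.1 + x.2 := by
          rw [Prod.fst_swap, Prod.snd_swap]; ring
        rw [this]
        exact h6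
    rw [← h2, mul_comm (A.card : ℝ)]
    exact h1

end Pool.Agent.H74.ZS
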