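import Pool.Agent.H74.ZS.RhoEq

/-!
# The factor in the approximate functional equation: all `w`

`rho_far` (`w = 3/4 + iv`, `t ≥ 16`): `‖rhoT t w‖ ≤ C t^(3/4) exp (C |v|)`.  Notation of `rho_eq`, `z = 5/4 ± it/2`, `‖h‖ = ‖w‖/2 ≤ (1 + |v|)/2`.
If `‖h‖ ≤ t/4`: by `gamma_ratio` `‖Γ(z+h)/Γ(z)‖ ≤ ‖exp (h log z)‖ exp (8 (‖h‖ + ‖h‖²)/t) ≤ |z|^(3/8) exp (π ‖h‖) exp (‖h‖ + 2 ‖h‖)`
(`Re (h log z) = Re h log |z| - Im h arg z`, `8 ‖h‖²/t ≤ 2 ‖h‖`, `8/t ≤ 1`), `|z| ≤ t`.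
If `‖h‖ > t/4`: `‖Γ(z+h)‖ ≤ Γ(5/4 + 3/8)` (`norm_Gamma_le`), and `‖Γ(z)‖` is bounded below by `norm_Gamma_ge`
(`Pool/Agent/PairCorr/GammaBounds.lean`, see there), i.e. by `c exp (-π t/4)/(1+t)` or so, `≥ c' exp (-8 ‖h‖)`.
The linear factors are `≤ 1 + ‖w‖/t ≤ exp ‖w‖`; `‖π^(-w)‖ ≤ 1`.
-/

namespace Pool.Agent.H74.ZS

open Complex Pool.Agent.PairCorr Pool.Agent.PairCorr.ERV
open scoped Real

lemma rhoFar_gamma {t : ℝ} (ht : 16 ≤ t) {w : ℂ} (hw : w.re = 3 / 4) (y : ℝ) (hy : |y| = t / 2) :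
    ‖Complex.Gamma (((5 / 4 : ℝ) : ℂ) + (y : ℂ) * I + w / 2) /
        Complex.Gamma (((5 / 4 : ℝ) : ℂ) + (y : ℂ) * I)‖ ≤
      (1 + Real.Gamma (13 / 8) / Real.Gamma (5 / 4)) * t ^ (3 / 8 : ℝ) *
        Real.exp (3 * (1 + |w.im|)) := by
  set z : ℂ := ((5 / 4 : ℝ) : ℂ) + (y : ℂ) * I with hz
  have ht0 : 0 < t := by linarith
  have hG : Complex.Gamma z ≠ 0 := by
    apply Complex.Gamma_ne_zero_of_re_pos
    rw [hz]; simp
  have hG0 : 0 < ‖Complex.Gamma z‖ := norm_pos_iff.mpr hG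
  have hw2 : ‖w / 2‖ = ‖w‖ / 2 := by rw [norm_div]; simp
  have hwn : ‖w‖ ≤ 1 + |w.im| := by
    have h1 := Complex.norm_le_abs_re_add_abs_im w
    rw [hw, abs_of_pos (by norm_num : (0 : ℝ) < 3 / 4)] at h1
    linarith
  have hK0 : 0 < Real.Gamma (13 / 8) / Real.Gamma (5 / 4) :=
    div_pos (Real.Gamma_pos_of_pos (by norm_num)) (Real.Gamma_pos_of_pos (by norm_num))
  have ht38 : 1 ≤ t ^ (3 / 8 : ℝ) := Real.one_le_rpow (by linarith) (by norm_num)
  by_cases hh : ‖w / 2‖ ≤ t / 4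
  · have h1 := gamma_ratio (5 / 4) y (by norm_num) (by rw [hy]; linarith) (w / 2)
      (by rw [hy]; linarith)
    rw [← hz] at h1
    set e : ℂ := cexp (w / 2 * Complex.log z) with he
    have h2 : ‖Complex.Gamma (z + w / 2)‖ ≤ ‖Complex.Gamma z * e‖ *
        Real.exp (4 * (‖w / 2‖ + ‖w / 2‖ ^ 2) / |y|) := by
      have h3 := norm_le_norm_add_norm_sub' (Complex.Gamma (z + w / 2)) (Complex.Gamma z * e)
      calc _ ≤ ‖Complex.Gamma z * e‖ + ‖Complex.Gamma z * e‖ *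
            (Real.exp (4 * (‖w / 2‖ + ‖w / 2‖ ^ 2) / |y|) - 1) := by linarith
        _ = _ := by ring
    have hb : 4 * (‖w / 2‖ + ‖w / 2‖ ^ 2) / |y| ≤ 5 / 2 * ‖w / 2‖ := by
      rw [hy, div_le_iff₀ (by linarith)]
      have h4 : 0 ≤ ‖w / 2‖ := norm_nonneg _
      nlinarith
    have hznorm : ‖z‖ ≤ t := by
      have h5 := Complex.norm_le_abs_re_add_abs_im z
      have h6 : z.re = 5 / 4 := by rw [hz]; simp
      have h7 : z.im = y := by rw [hz]; simp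
      rw [h6, h7, hy, abs_of_pos (by norm_num : (0 : ℝ) < 5 / 4)] at h5
      linarith
    have hz1 : 1 ≤ ‖z‖ := by
      have h5 := Complex.abs_re_le_norm z
      have h6 : z.re = 5 / 4 := by rw [hz]; simp
      rw [h6, abs_of_pos (by norm_num : (0 : ℝ) < 5 / 4)] at h5
      linarith
    have hen : ‖e‖ ≤ t ^ (3 / 8 : ℝ) * Real.exp (π * ‖w / 2‖) := by
      rw [he, Complex.norm_exp]
      have h8 : (w / 2 * Complex.log z).re = 3 / 8 * Real.log ‖z‖ - (w / 2).im * z.arg := by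
        rw [Complex.mul_re, Complex.log_re, Complex.log_im]
        have h9 : (w / 2).re = 3 / 8 := by
          have : w / 2 = ((1 / 2 : ℝ) : ℂ) * w := by push_cast; ring
          rw [this, Complex.re_ofReal_mul, hw]
          norm_num
        rw [h9]
      rw [h8]
      have h10 : |(w / 2).im * z.arg| ≤ ‖w / 2‖ * π := by
        rw [abs_mul]
        exact mul_le_mul (Complex.abs_im_le_norm _) (Complex.abs_arg_le_pi _) (abs_nonneg _)
          (norm_nonneg _)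
      have h11 : Real.log ‖z‖ ≤ Real.log t := Real.log_le_log (by linarith) hznorm
      have h12 := (abs_le.mp h10).1
      calc Real.exp (3 / 8 * Real.log ‖z‖ - (w / 2).im * z.arg)
          ≤ Real.exp (Real.log t * (3 / 8) + π * ‖w / 2‖) := by
            apply Real.exp_le_exp.mpr
            linarith
        _ = _ := by rw [Real.exp_add, Real.rpow_def_of_pos ht0]
    rw [norm_div, div_le_iff₀ hG0]
    have hpi : π ≤ 3.15 := Real.pi_lt_d2.le
    calc ‖Complex.Gamma (z + w / 2)‖ ≤ ‖Complex.Gamma z * e‖ *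
          Real.exp (4 * (‖w / 2‖ + ‖w / 2‖ ^ 2) / |y|) := h2
      _ ≤ (‖Complex.Gamma z‖ * (t ^ (3 / 8 : ℝ) * Real.exp (π * ‖w / 2‖))) *
          Real.exp (5 / 2 * ‖w / 2‖) := by
          rw [norm_mul]
          gcongr
      _ = t ^ (3 / 8 : ℝ) * Real.exp (π * ‖w / 2‖ + 5 / 2 * ‖w / 2‖) * ‖Complex.Gamma z‖ := by
          rw [Real.exp_add]; ring
      _ ≤ t ^ (3 / 8 : ℝ) * Real.exp (3 * (1 + |w.im|)) * ‖Complex.Gamma z‖ := by
          gcongr
          rw [hw2]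
          have : 0 ≤ ‖w‖ := norm_nonneg _
          nlinarith
      _ ≤ (1 + Real.Gamma (13 / 8) / Real.Gamma (5 / 4)) * t ^ (3 / 8 : ℝ) *
          Real.exp (3 * (1 + |w.im|)) * ‖Complex.Gamma z‖ := by
          gcongr
          nlinarith
  · push Not at hh
    have h1 : z + w / 2 = ((13 / 8 : ℝ) : ℂ) + ((y + w.im / 2 : ℝ) : ℂ) * I := by
      apply Complex.ext
      · rw [hz]
        simp [hw]
        norm_num
      · rw [hz]
        simp
    have h2 : ‖Complex.Gamma (z + w / 2)‖ ≤ Real.Gamma (13 / 8) := by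
      rw [h1]
      exact norm_Gamma_le (by norm_num) _
    have h3 := norm_Gamma_ge (x := 5 / 4) (by norm_num) y
    rw [← hz] at h3
    have hG54 : 0 < Real.Gamma (5 / 4) := Real.Gamma_pos_of_pos (by norm_num)
    rw [norm_div, div_le_iff₀ hG0]
    have hpi : π ≤ 3.15 := Real.pi_lt_d2.le
    have hexp : Real.exp (π * |y| / 2) ≤ Real.exp (3 * (1 + |w.im|)) := by
      apply Real.exp_le_exp.mpr
      rw [hy]
      rw [hw2] at hh
      have : π * (t / 2) / 2 ≤ 3.15 * (t / 2) / 2 := by gcongr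
      linarith
    have hone : Real.exp (-(π * |y| / 2)) * Real.exp (π * |y| / 2) = 1 := by
      rw [← Real.exp_add]; simp
    calc ‖Complex.Gamma (z + w / 2)‖ ≤ Real.Gamma (13 / 8) := h2
      _ = (Real.Gamma (13 / 8) / Real.Gamma (5 / 4)) * Real.exp (π * |y| / 2) *
          (Real.Gamma (5 / 4) * Real.exp (-(π * |y| / 2))) := by
          have : (Real.Gamma (13 / 8) / Real.Gamma (5 / 4)) * Real.exp (π * |y| / 2) *
            (Real.Gamma (5 / 4) * Real.exp (-(π * |y| / 2))) =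
            (Real.Gamma (13 / 8) / Real.Gamma (5 / 4)) * Real.Gamma (5 / 4) *
            (Real.exp (-(π * |y| / 2)) * Real.exp (π * |y| / 2)) := by ring
          rw [this, hone, div_mul_cancel₀ _ hG54.ne', mul_one]
      _ ≤ (Real.Gamma (13 / 8) / Real.Gamma (5 / 4)) * Real.exp (3 * (1 + |w.im|)) *
          ‖Complex.Gamma z‖ := by gcongr
      _ ≤ (1 + Real.Gamma (13 / 8) / Real.Gamma (5 / 4)) * t ^ (3 / 8 : ℝ) *
          Real.exp (3 * (1 + |w.im|)) * ‖Complex.Gamma z‖ := by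
          have h5 : Real.Gamma (13 / 8) / Real.Gamma (5 / 4) ≤
              (1 + Real.Gamma (13 / 8) / Real.Gamma (5 / 4)) * t ^ (3 / 8 : ℝ) := by nlinarith
          gcongr

lemma rhoFar_lin {t : ℝ} (ht : 16 ≤ t) {w : ℂ} (hw : w.re = 3 / 4) (d : ℂ) (hd : t ≤ ‖d‖) :
    ‖1 + w / d‖ ≤ Real.exp (1 + |w.im|) := by
  have hwn : ‖w‖ ≤ 1 + |w.im| := by
    have h1 := Complex.norm_le_abs_re_add_abs_im w
    rw [hw, abs_of_pos (by norm_num : (0 : ℝ) < 3 / 4)] at h1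
    linarith
  have h1 : ‖w / d‖ ≤ ‖w‖ := by
    rw [norm_div]
    exact div_le_self (norm_nonneg _) (by linarith)
  have h2 := norm_add_le 1 (w / d)
  rw [norm_one] at h2
  have h3 := Real.add_one_le_exp (1 + |w.im|)
  linarith

theorem rho_far : ∃ C : ℝ, 0 < C ∧ ∀ t : ℝ, 16 ≤ t → ∀ w : ℂ, w.re = 3 / 4 →
    ‖rhoT t w‖ ≤ C * t ^ (3 / 4 : ℝ) * Real.exp (C * |w.im|) := by
  set K : ℝ := 1 + Real.Gamma (13 / 8) / Real.Gamma (5 / 4) with hK
  have hK0 : 0 < Real.Gamma (13 / 8) / Real.Gamma (5 / 4) :=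
    div_pos (Real.Gamma_pos_of_pos (by norm_num)) (Real.Gamma_pos_of_pos (by norm_num))
  have hK1 : 1 ≤ K := by linarith
  set C : ℝ := K ^ 2 * Real.exp 8 with hC
  have hC8 : 8 ≤ C := by
    have h1 := Real.add_one_le_exp (8 : ℝ)
    have h2 : 1 ≤ K ^ 2 := one_le_pow₀ hK1
    nlinarith
  refine ⟨C, by linarith, fun t ht w hw => ?_⟩
  have ht0 : 0 < t := by linarith
  rw [rho_eq t (by linarith) w (by rw [hw]; norm_num)]
  have g1 := rhoFar_gamma ht hw (t / 2) (by rw [abs_of_pos (by linarith)])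
  have g2 := rhoFar_gamma ht hw (-(t / 2)) (by rw [abs_neg, abs_of_pos (by linarith)])
  rw [← hK] at g1 g2
  have hd1 : t ≤ ‖-(1 / 2) + (t : ℂ) * I‖ := by
    have h := Complex.abs_im_le_norm (-(1 / 2) + (t : ℂ) * I)
    have h2 : (-(1 / 2) + (t : ℂ) * I).im = t := by simp
    rw [h2] at h
    exact (le_abs_self t).trans h
  have hd2 : t ≤ ‖-(1 / 2) - (t : ℂ) * I‖ := by
    have h := Complex.abs_im_le_norm (-(1 / 2) - (t : ℂ) * I)
    have h2 : (-(1 / 2) - (t : ℂ) * I).im = -t := by simp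
    rw [h2, abs_neg] at h
    exact (le_abs_self t).trans h
  have g3 := rhoFar_lin ht hw _ hd1
  have g4 := rhoFar_lin ht hw _ hd2
  have g5 : ‖(π : ℂ) ^ (-w)‖ ≤ 1 := by
    rw [Complex.norm_cpow_eq_rpow_re_of_pos Real.pi_pos]
    refine Real.rpow_le_one_of_one_le_of_nonpos ?_ ?_
    · have := Real.pi_gt_three; linarith
    · rw [Complex.neg_re, hw]; norm_num
  rw [norm_mul, norm_mul, norm_mul, norm_mul]
  have ht34 : t ^ (3 / 8 : ℝ) * t ^ (3 / 8 : ℝ) = t ^ (3 / 4 : ℝ) := by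
    rw [← Real.rpow_add ht0]; norm_num
  have hexp : Real.exp (3 * (1 + |w.im|)) * Real.exp (3 * (1 + |w.im|)) *
      (Real.exp (1 + |w.im|) * Real.exp (1 + |w.im|)) = Real.exp 8 * Real.exp (8 * |w.im|) := by
    rw [← Real.exp_add, ← Real.exp_add, ← Real.exp_add, ← Real.exp_add]
    congr 1
    ring
  calc _ ≤ 1 * (K * t ^ (3 / 8 : ℝ) * Real.exp (3 * (1 + |w.im|))) *
        (K * t ^ (3 / 8 : ℝ) * Real.exp (3 * (1 + |w.im|))) *
        (Real.exp (1 + |w.im|) * Real.exp (1 + |w.im|)) := by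
        gcongr
    _ = K ^ 2 * (t ^ (3 / 8 : ℝ) * t ^ (3 / 8 : ℝ)) *
        (Real.exp (3 * (1 + |w.im|)) * Real.exp (3 * (1 + |w.im|)) *
      (Real.exp (1 + |w.im|) * Real.exp (1 + |w.im|))) := by ring
    _ = C * t ^ (3 / 4 : ℝ) * Real.exp (8 * |w.im|) := by
        rw [ht34, hexp, hC]; ring
    _ ≤ _ := by gcongr

end Pool.Agent.H74.ZS
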