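import Pool.Agent.H74.ZS.RhoNear
import Pool.Agent.H74.ZS.RhoFar

/-!
# The factor in the approximate functional equation

`rho_bound`: `w = 3/4 + iv`, `‖w‖² = 9/16 + v² ≤ 1 + v²`.  If `‖w‖² ≤ t` use `rho_near` (`1 + ‖w‖² ≤ 2 (1 + v²)`, `exp (C|v|) ≥ 1`).  Otherwise
`1 ≤ (1 + v²)/t`, and both terms are `≤ C t^(3/4) exp (C|v|) ≤ C t^(3/4) exp (C|v|) (1 + v²)/t`, `t^(3/4)/t = t^(-1/4)`
(`rho_far`; `‖(t/2π)^w‖ = (t/2π)^(3/4) ≤ t^(3/4)`, `Complex.norm_cpow_eq_rpow_re_of_pos`).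
-/

namespace Pool.Agent.H74.ZS

open Complex Pool.Agent.PairCorr Pool.Agent.PairCorr.ERV
open scoped Real

theorem rho_bound : ∃ C : ℝ, 0 < C ∧ ∀ t : ℝ, 16 ≤ t → ∀ v : ℝ,
    ‖rhoT t (((3 / 4 : ℝ) : ℂ) + v * I) - ((t / (2 * π) : ℝ) : ℂ) ^ (((3 / 4 : ℝ) : ℂ) + v * I)‖ ≤
      C * t ^ (-(1 / 4) : ℝ) * ((1 + v ^ 2) * Real.exp (C * |v|)) := by
  obtain ⟨C1, hC1, h1⟩ := rho_near
  obtain ⟨C2, hC2, h2⟩ := rho_far
  refine ⟨2 * C1 + (C2 + 1), by positivity, fun t ht v => ?_⟩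
  have ht0 : 0 < t := by linarith
  set w : ℂ := ((3 / 4 : ℝ) : ℂ) + v * I with hw
  have hre : w.re = 3 / 4 := by rw [hw]; simp
  have him : w.im = v := by rw [hw]; simp
  have hn : ‖w‖ ^ 2 = 9 / 16 + v ^ 2 := by
    rw [hw, Complex.norm_add_mul_I, Real.sq_sqrt (by positivity)]
    ring
  have hexp1 : ∀ K : ℝ, 0 ≤ K → 1 ≤ Real.exp (K * |v|) := fun K hK =>
    Real.one_le_exp (by positivity)
  have hp14 : 0 ≤ t ^ (-(1 / 4) : ℝ) := by positivity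
  by_cases hc : ‖w‖ ^ 2 ≤ t
  · refine (h1 t ht w hre hc).trans ?_
    rw [hn]
    have h3 : 1 + (9 / 16 + v ^ 2) ≤ 2 * (1 + v ^ 2) := by nlinarith [sq_nonneg v]
    calc C1 * t ^ (-(1 / 4) : ℝ) * (1 + (9 / 16 + v ^ 2))
        ≤ C1 * t ^ (-(1 / 4) : ℝ) * (2 * (1 + v ^ 2)) := by gcongr
      _ = 2 * C1 * t ^ (-(1 / 4) : ℝ) * ((1 + v ^ 2) * 1) := by ring
      _ ≤ (2 * C1 + (C2 + 1)) * t ^ (-(1 / 4) : ℝ) *
          ((1 + v ^ 2) * Real.exp ((2 * C1 + (C2 + 1)) * |v|)) := by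
          gcongr
          · linarith
          · exact hexp1 _ (by positivity)
  · push Not at hc
    rw [hn] at hc
    have h3 := h2 t ht w hre
    rw [him] at h3
    have hnorm : ‖((t / (2 * π) : ℝ) : ℂ) ^ w‖ ≤ t ^ (3 / 4 : ℝ) := by
      have hpos : (0 : ℝ) < t / (2 * π) := by positivity
      rw [Complex.norm_cpow_eq_rpow_re_of_pos hpos, hre]
      apply Real.rpow_le_rpow hpos.le _ (by norm_num)
      rw [div_le_iff₀ (by positivity)]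
      have := Real.pi_gt_three
      nlinarith
    have ht34 : t ^ (3 / 4 : ℝ) = t ^ (-(1 / 4) : ℝ) * t := by
      rw [← Real.rpow_add_one ht0.ne']
      norm_num
    have hE := hexp1 C2 hC2.le
    calc _ ≤ ‖rhoT t w‖ + ‖((t / (2 * π) : ℝ) : ℂ) ^ w‖ := norm_sub_le _ _
      _ ≤ C2 * t ^ (3 / 4 : ℝ) * Real.exp (C2 * |v|) + t ^ (3 / 4 : ℝ) := add_le_add h3 hnorm
      _ ≤ C2 * t ^ (3 / 4 : ℝ) * Real.exp (C2 * |v|) + t ^ (3 / 4 : ℝ) * Real.exp (C2 * |v|) := by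
          gcongr
          exact le_mul_of_one_le_right (by positivity) hE
      _ = (C2 + 1) * t ^ (-(1 / 4) : ℝ) * (t * Real.exp (C2 * |v|)) := by rw [ht34]; ring
      _ ≤ (2 * C1 + (C2 + 1)) * t ^ (-(1 / 4) : ℝ) *
          ((1 + v ^ 2) * Real.exp ((2 * C1 + (C2 + 1)) * |v|)) := by
          have h5 : C2 + 1 ≤ 2 * C1 + (C2 + 1) := by linarith
          have h6 : t ≤ 1 + v ^ 2 := by linarith
          have h7 : Real.exp (C2 * |v|) ≤ Real.exp ((2 * C1 + (C2 + 1)) * |v|) := by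
            apply Real.exp_le_exp.mpr
            apply mul_le_mul_of_nonneg_right _ (abs_nonneg v)
            linarith
          exact mul_le_mul (mul_le_mul_of_nonneg_right h5 hp14)
            (mul_le_mul h6 h7 (Real.exp_pos _).le (by positivity)) (by positivity) (by positivity)

end Pool.Agent.H74.ZS
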