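import Pool.Agent.H74.ZS.GamR
import Pool.Agent.PairCorr.E_Size
import Pool.Agent.PairCorr.GammaBounds

/-!
# The factor in the approximate functional equation: definition

`pref z = gfac z (z - 1)`, so `Xi z = pref z * ζ z`, and
`rhoT t w = pref (1/2 + it + w) pref (1/2 - it + w) / (pref (1/2 + it) pref (1/2 - it))`.  With `z = 5/4 + it/2`, `h = w/2`,
`gfac s = 2 π^(-s/2) Γ(s/2 + 1)` (`Pool/Agent/PairCorr/E_Xi.lean`), `s/2 + 1 = z + h` for `s = 1/2 + it + w`: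
`rhoT t w = π^(-w) (Γ(z+h)/Γ(z)) (Γ(conj z + h)/Γ(conj z)) (1 + w/(-1/2+it)) (1 + w/(-1/2-it))`   (`rho_eq`).

Nonvanishing: `Gamma_half_ne_zero`, `Complex.Gamma_ne_zero_of_re_pos`.
-/

namespace Pool.Agent.H74.ZS

open Complex Pool.Agent.PairCorr Pool.Agent.PairCorr.ERV
open scoped Real

/-- `Xi z = pref z * ζ z` -/
noncomputable def pref (z : ℂ) : ℂ := gfac z * (z - 1)

/-- the factor -/
noncomputable def rhoT (t : ℝ) (w : ℂ) : ℂ :=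
  pref (1 / 2 + t * I + w) * pref (1 / 2 - t * I + w) / (pref (1 / 2 + t * I) * pref (1 / 2 - t * I))

lemma rhoEq_pi_ne : (π : ℂ) ≠ 0 := by exact_mod_cast Real.pi_ne_zero

lemma rhoEq_pref (a w : ℂ) (ha : a - 1 ≠ 0) (hG : Complex.Gamma (a / 2 + 1) ≠ 0) :
    pref (a + w) = pref a * ((π : ℂ) ^ (-w / 2) *
      (Complex.Gamma (a / 2 + 1 + w / 2) / Complex.Gamma (a / 2 + 1)) * (1 + w / (a - 1))) := by
  unfold pref gfac
  have h1 : -(a + w) / 2 = -a / 2 + -w / 2 := by ring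
  have h2 : (a + w) / 2 + 1 = a / 2 + 1 + w / 2 := by ring
  have h3 : a + w - 1 = (a - 1) * (1 + w / (a - 1)) := by
    field_simp
    ring
  rw [h1, h2, h3, Complex.cpow_add _ _ rhoEq_pi_ne]
  generalize Complex.Gamma (a / 2 + 1 + w / 2) = G1
  generalize Complex.Gamma (a / 2 + 1) = G0 at hG
  generalize (1 + w / (a - 1)) = l
  generalize (π : ℂ) ^ (-a / 2) = P
  generalize (π : ℂ) ^ (-w / 2) = Q
  field_simp

lemma rhoEq_alg (p1 p2 x1 x2 g1 g2 l1 l2 : ℂ) (h1 : p1 ≠ 0) (h2 : p2 ≠ 0) :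
    (p1 * (x1 * g1 * l1)) * (p2 * (x2 * g2 * l2)) / (p1 * p2) = (x1 * x2) * g1 * g2 * (l1 * l2) := by
  field_simp

lemma rhoEq_pref_ne (a : ℂ) (ha : a - 1 ≠ 0) (hre : -2 < a.re) : pref a ≠ 0 :=
  mul_ne_zero (gfac_ne_zero hre) ha

theorem rho_eq (t : ℝ) (ht : 1 ≤ t) (w : ℂ) (hw : 0 ≤ w.re) :
    rhoT t w = (π : ℂ) ^ (-w) *
      (Complex.Gamma (((5 / 4 : ℝ) : ℂ) + ((t / 2 : ℝ) : ℂ) * I + w / 2) /
        Complex.Gamma (((5 / 4 : ℝ) : ℂ) + ((t / 2 : ℝ) : ℂ) * I)) *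
      (Complex.Gamma (((5 / 4 : ℝ) : ℂ) + ((-(t / 2) : ℝ) : ℂ) * I + w / 2) /
        Complex.Gamma (((5 / 4 : ℝ) : ℂ) + ((-(t / 2) : ℝ) : ℂ) * I)) *
      ((1 + w / (-(1 / 2) + t * I)) * (1 + w / (-(1 / 2) - t * I))) := by
  have hr1 : (1 / 2 + (t : ℂ) * I).re = 1 / 2 := by simp
  have hr2 : (1 / 2 - (t : ℂ) * I).re = 1 / 2 := by simp
  have ha1 : (1 / 2 + (t : ℂ) * I) - 1 ≠ 0 := by
    intro h
    have := congrArg Complex.re h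
    rw [Complex.sub_re, hr1] at this
    norm_num at this
  have ha2 : (1 / 2 - (t : ℂ) * I) - 1 ≠ 0 := by
    intro h
    have := congrArg Complex.re h
    rw [Complex.sub_re, hr2] at this
    norm_num at this
  have hG1 := Gamma_half_ne_zero (z := 1 / 2 + (t : ℂ) * I) (by rw [hr1]; norm_num)
  have hG2 := Gamma_half_ne_zero (z := 1 / 2 - (t : ℂ) * I) (by rw [hr2]; norm_num)
  have hp1 := rhoEq_pref_ne _ ha1 (by rw [hr1]; norm_num)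
  have hp2 := rhoEq_pref_ne _ ha2 (by rw [hr2]; norm_num)
  unfold rhoT
  rw [rhoEq_pref _ w ha1 hG1, rhoEq_pref _ w ha2 hG2, rhoEq_alg _ _ _ _ _ _ _ _ hp1 hp2]
  have e1 : (1 / 2 + (t : ℂ) * I) / 2 + 1 = ((5 / 4 : ℝ) : ℂ) + ((t / 2 : ℝ) : ℂ) * I := by
    push_cast; ring
  have e2 : (1 / 2 - (t : ℂ) * I) / 2 + 1 = ((5 / 4 : ℝ) : ℂ) + ((-(t / 2) : ℝ) : ℂ) * I := by
    push_cast; ring
  have e3 : (1 / 2 + (t : ℂ) * I) - 1 = -(1 / 2) + t * I := by ring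
  have e4 : (1 / 2 - (t : ℂ) * I) - 1 = -(1 / 2) - t * I := by ring
  have e5 : (π : ℂ) ^ (-w) = (π : ℂ) ^ (-w / 2) * (π : ℂ) ^ (-w / 2) := by
    rw [← Complex.cpow_add _ _ rhoEq_pi_ne]
    congr 1
    ring
  rw [e1, e2, e3, e4, e5]

end Pool.Agent.H74.ZS
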