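import Pool.Agent.H74.ZS.RhoEq

/-!
# The factor in the approximate functional equation: small `w`

`rho_near` (`‖w‖² ≤ t`, `t ≥ 16`, `Re w = 3/4`).  Notation of `rho_eq`.  `‖h‖ = ‖w‖/2 ≤ t/4 = |y|/2` (`y = ± t/2`), so by `gamma_ratio`
(and `Γ(z) ≠ 0`) the two Gamma ratios are `exp (h log z)(1 + δ1)`, `exp (h log conj z)(1 + δ2)` with
`‖δ_i‖ ≤ exp (8 (‖h‖ + ‖h‖²)/t) - 1`, `8(‖h‖+‖h‖²)/t ≤ (4‖w‖ + 2‖w‖²)/t ≤ 6 (1 + ‖w‖²)/t ≤ 12`, so `‖δ_i‖ ≤ C (1 + ‖w‖²)/t`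
(`exp b - 1 ≤ b exp b`).
`log z + log conj z = 2 log |z| = log (25/16 + t²/4)` (`Complex.log_conj` or: `log z = log |z| + i arg z`) `= 2 log (t/2) +
log (1 + 25/(4t²))`, so `exp (h (log z + log conj z)) = (t/2)^w (1 + δ5)`, `‖δ5‖ ≤ exp (‖h‖ 25/(4t²)) - 1`.
Linear factors: `‖w/(-1/2 ± it)‖ ≤ ‖w‖/t`.  `π^(-w) (t/2)^w = (t/(2π))^w`, of norm `(t/2π)^(3/4) ≤ t^(3/4)`.
So `‖rhoT t w - (t/2π)^w‖ ≤ t^(3/4) ‖(1+δ1)...(1+δ5) - 1‖ ≤ C t^(3/4) (1 + ‖w‖²)/t` (all `‖δ_i‖ ≤ C (1+‖w‖²)/t ≤ 2C`).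
-/

namespace Pool.Agent.H74.ZS

open Complex Pool.Agent.PairCorr Pool.Agent.PairCorr.ERV
open scoped Real

lemma rhoNear_comb {u v : ℂ} {α β X : ℝ} (hX0 : 0 ≤ X) (hX : X ≤ 2) (hα : 0 ≤ α) (hβ : 0 ≤ β)
    (hu : ‖u - 1‖ ≤ α * X) (hv : ‖v - 1‖ ≤ β * X) : ‖u * v - 1‖ ≤ (α + β + 2 * α * β) * X := by
  have h1 : u * v - 1 = (u - 1) * (v - 1) + (u - 1) + (v - 1) := by ring
  rw [h1]
  have h2 : ‖(u - 1) * (v - 1)‖ ≤ (α * X) * (β * X) := by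
    rw [norm_mul]
    gcongr
  have h3 := norm_add_le ((u - 1) * (v - 1) + (u - 1)) (v - 1)
  have h4 := norm_add_le ((u - 1) * (v - 1)) (u - 1)
  have h5 : (α * X) * (β * X) ≤ 2 * α * β * X := by
    have h6 : 0 ≤ α * β * X := by positivity
    nlinarith
  calc _ ≤ (α * X) * (β * X) + α * X + β * X := by linarith
    _ ≤ 2 * α * β * X + α * X + β * X := by linarith
    _ = _ := by ring

lemma rhoNear_exp_sub_one {b : ℝ} : Real.exp b - 1 ≤ b * Real.exp b := by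
  have h1 := Real.add_one_le_exp (-b)
  have h2 : Real.exp (-b) * Real.exp b = 1 := by rw [← Real.exp_add]; simp
  have h3 := Real.exp_pos b
  nlinarith

lemma rhoNear_ne (y : ℝ) : ((5 / 4 : ℝ) : ℂ) + (y : ℂ) * I ≠ 0 := by
  intro h
  have := congrArg Complex.re h
  simp at this

lemma rhoNear_gamma_ne (y : ℝ) : Complex.Gamma (((5 / 4 : ℝ) : ℂ) + (y : ℂ) * I) ≠ 0 := by
  apply Complex.Gamma_ne_zero_of_re_pos
  simp

/-- one Gamma ratio -/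
lemma rhoNear_gamma {t : ℝ} (ht : 16 ≤ t) {w : ℂ} (hwt : ‖w‖ ^ 2 ≤ t) (y : ℝ) (hy : |y| = t / 2) :
    ‖Complex.Gamma (((5 / 4 : ℝ) : ℂ) + (y : ℂ) * I + w / 2) /
        Complex.Gamma (((5 / 4 : ℝ) : ℂ) + (y : ℂ) * I) *
        cexp (-(w / 2 * Complex.log (((5 / 4 : ℝ) : ℂ) + (y : ℂ) * I))) - 1‖ ≤
      (4 * Real.exp 5) * ((1 + ‖w‖ ^ 2) / t) := by
  set z : ℂ := ((5 / 4 : ℝ) : ℂ) + (y : ℂ) * I with hz
  have hG := rhoNear_gamma_ne y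
  rw [← hz] at hG
  have hw2 : ‖w / 2‖ = ‖w‖ / 2 := by rw [norm_div]; simp
  have hwt' : ‖w‖ ≤ t / 2 := by
    have h1 : ‖w‖ ^ 2 ≤ (t / 2) ^ 2 := by nlinarith
    exact (abs_le_of_sq_le_sq' h1 (by linarith)).2
  have h1 := gamma_ratio (5 / 4) y (by norm_num) (by rw [hy]; linarith) (w / 2)
    (by rw [hw2, hy]; linarith)
  rw [← hz] at h1
  set e : ℂ := cexp (w / 2 * Complex.log z) with he
  have hene : e ≠ 0 := Complex.exp_ne_zero _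
  have h2 : Complex.Gamma (z + w / 2) / Complex.Gamma z *
      cexp (-(w / 2 * Complex.log z)) - 1 =
      (Complex.Gamma (z + w / 2) - Complex.Gamma z * e) / (Complex.Gamma z * e) := by
    rw [Complex.exp_neg, ← he]
    field_simp
  rw [h2, norm_div, div_le_iff₀ (norm_pos_iff.mpr (mul_ne_zero hG hene))]
  refine h1.trans ?_
  rw [mul_comm]
  refine mul_le_mul_of_nonneg_right ?_ (norm_nonneg _)
  rw [hw2, hy]
  set b : ℝ := 4 * (‖w‖ / 2 + (‖w‖ / 2) ^ 2) / (t / 2) with hb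
  have ht0 : 0 < t := by linarith
  have hbX : b ≤ 4 * ((1 + ‖w‖ ^ 2) / t) := by
    rw [hb, div_le_iff₀ (by linarith)]
    have h3 : 4 * ((1 + ‖w‖ ^ 2) / t) * (t / 2) = 2 * (1 + ‖w‖ ^ 2) := by field_simp; ring
    rw [h3]
    nlinarith [sq_nonneg (‖w‖ - 1)]
  have hX2 : (1 + ‖w‖ ^ 2) / t ≤ 17 / 16 := by
    rw [div_le_iff₀ ht0]
    linarith
  have hb5 : b ≤ 5 := by linarith
  have hX0 : 0 ≤ (1 + ‖w‖ ^ 2) / t := by positivity
  calc Real.exp b - 1 ≤ b * Real.exp b := rhoNear_exp_sub_one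
    _ ≤ (4 * ((1 + ‖w‖ ^ 2) / t)) * Real.exp 5 := by gcongr
    _ = _ := by ring

lemma rhoNear_lin {t : ℝ} (ht : 16 ≤ t) (w d : ℂ) (hd : t ≤ ‖d‖) :
    ‖(1 + w / d) - 1‖ ≤ 1 * ((1 + ‖w‖ ^ 2) / t) := by
  have ht0 : 0 < t := by linarith
  rw [add_sub_cancel_left, norm_div, one_mul]
  have h1 : ‖w‖ / ‖d‖ ≤ ‖w‖ / t := div_le_div_of_nonneg_left (norm_nonneg _) ht0 hd
  refine h1.trans ?_
  apply div_le_div_of_nonneg_right _ ht0.le
  nlinarith [sq_nonneg (‖w‖ - 1)]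

lemma rhoNear_log (t : ℝ) (ht : 0 < t) :
    Complex.log (((5 / 4 : ℝ) : ℂ) + ((t / 2 : ℝ) : ℂ) * I) +
      Complex.log (((5 / 4 : ℝ) : ℂ) + ((-(t / 2) : ℝ) : ℂ) * I) =
      ((2 * Real.log (t / 2) + Real.log (1 + 25 / (4 * t ^ 2)) : ℝ) : ℂ) := by
  set z : ℂ := ((5 / 4 : ℝ) : ℂ) + ((t / 2 : ℝ) : ℂ) * I with hz
  have h1 : ((5 / 4 : ℝ) : ℂ) + ((-(t / 2) : ℝ) : ℂ) * I = (starRingEnd ℂ) z := by
    rw [hz, map_add, map_mul, Complex.conj_ofReal, Complex.conj_ofReal, Complex.conj_I]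
    push_cast
    ring
  have hre : 0 < z.re := by rw [hz]; simp
  have harg : z.arg ≠ π := by
    have h2 := Complex.abs_arg_lt_pi_div_two_iff.mpr (Or.inl hre)
    intro h3
    rw [h3, abs_of_pos Real.pi_pos] at h2
    linarith [Real.pi_pos]
  rw [h1, Complex.log_conj _ harg, Complex.add_conj, Complex.log_re]
  congr 1
  have h3 : ‖z‖ = Real.sqrt (25 / 16 + t ^ 2 / 4) := by
    rw [hz, Complex.norm_add_mul_I]
    congr 1
    ring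
  have h4 : 25 / 16 + t ^ 2 / 4 = (t / 2) ^ 2 * (1 + 25 / (4 * t ^ 2)) := by
    field_simp
    ring
  rw [h3, Real.log_sqrt (by positivity), h4, Real.log_mul (by positivity) (by positivity),
    Real.log_pow]
  push_cast
  ring

lemma rhoNear_five {t : ℝ} (ht : 16 ≤ t) {w : ℂ} :
    ‖w‖ ^ 2 ≤ t → ‖cexp (w / 2 * ((Real.log (1 + 25 / (4 * t ^ 2)) : ℝ) : ℂ)) - 1‖ ≤
      Real.exp 2 * ((1 + ‖w‖ ^ 2) / t) := by
  intro hwt
  have ht0 : 0 < t := by linarith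
  refine (gamR_norm_exp_sub_one _).trans ?_
  have hX0 : 0 ≤ (1 + ‖w‖ ^ 2) / t := by positivity
  have hX2 : (1 + ‖w‖ ^ 2) / t ≤ 2 := by
    rw [div_le_iff₀ ht0]
    linarith
  have hl0 : 0 ≤ Real.log (1 + 25 / (4 * t ^ 2)) := Real.log_nonneg (by
    have : 0 ≤ 25 / (4 * t ^ 2) := by positivity
    linarith)
  have hl1 : Real.log (1 + 25 / (4 * t ^ 2)) ≤ 1 / t := by
    have h1 := Real.log_le_sub_one_of_pos (show 0 < 1 + 25 / (4 * t ^ 2) by positivity)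
    have h2 : 25 / (4 * t ^ 2) ≤ 1 / t := by
      rw [div_le_div_iff₀ (by positivity) ht0]
      nlinarith
    linarith
  have hn : ‖w / 2 * ((Real.log (1 + 25 / (4 * t ^ 2)) : ℝ) : ℂ)‖ ≤ (1 + ‖w‖ ^ 2) / t := by
    rw [norm_mul, norm_div, Complex.norm_real, Real.norm_of_nonneg hl0]
    have h3 : ‖(2 : ℂ)‖ = 2 := by simp
    rw [h3]
    calc ‖w‖ / 2 * Real.log (1 + 25 / (4 * t ^ 2)) ≤ ‖w‖ / 2 * (1 / t) := by gcongr
      _ = (‖w‖ / 2) / t := by ring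
      _ ≤ _ := by
        apply div_le_div_of_nonneg_right _ ht0.le
        nlinarith [sq_nonneg (‖w‖ - 1)]
  calc Real.exp ‖w / 2 * ((Real.log (1 + 25 / (4 * t ^ 2)) : ℝ) : ℂ)‖ - 1
      ≤ Real.exp ((1 + ‖w‖ ^ 2) / t) - 1 := by
        have := Real.exp_le_exp.mpr hn
        linarith
    _ ≤ (1 + ‖w‖ ^ 2) / t * Real.exp ((1 + ‖w‖ ^ 2) / t) := rhoNear_exp_sub_one
    _ ≤ (1 + ‖w‖ ^ 2) / t * Real.exp 2 := by gcongr
    _ = _ := by ring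

theorem rho_near : ∃ C : ℝ, 0 < C ∧ ∀ t : ℝ, 16 ≤ t → ∀ w : ℂ, w.re = 3 / 4 → ‖w‖ ^ 2 ≤ t →
    ‖rhoT t w - ((t / (2 * π) : ℝ) : ℂ) ^ w‖ ≤ C * t ^ (-(1 / 4) : ℝ) * (1 + ‖w‖ ^ 2) := by
  set K : ℝ := 4 * Real.exp 5 with hK
  have hK0 : 0 ≤ K := by positivity
  have hE0 : 0 ≤ Real.exp 2 := by positivity
  set C1 : ℝ := K + K + 2 * K * K with hC1
  set C2 : ℝ := C1 + 1 + 2 * C1 * 1 with hC2
  set C3 : ℝ := C2 + 1 + 2 * C2 * 1 with hC3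
  set C4 : ℝ := C3 + Real.exp 2 + 2 * C3 * Real.exp 2 with hC4
  have hC10 : 0 ≤ C1 := by positivity
  have hC20 : 0 ≤ C2 := by positivity
  have hC30 : 0 ≤ C3 := by positivity
  have hC40 : 0 < C4 := by positivity
  refine ⟨C4, hC40, fun t ht w hw hwt => ?_⟩
  have ht0 : 0 < t := by linarith
  set X : ℝ := (1 + ‖w‖ ^ 2) / t with hX
  have hX0 : 0 ≤ X := by positivity
  have hX2 : X ≤ 2 := by
    rw [hX, div_le_iff₀ ht0]
    linarith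
  have g1 := rhoNear_gamma ht hwt (t / 2) (by rw [abs_of_pos (by linarith)])
  have g2 := rhoNear_gamma ht hwt (-(t / 2)) (by rw [abs_neg, abs_of_pos (by linarith)])
  rw [← hX, ← hK] at g1 g2
  have hd1 : t ≤ ‖-(1 / 2) + (t : ℂ) * I‖ := by
    have h := Complex.abs_im_le_norm (-(1 / 2) + (t : ℂ) * I)
    have h2 : (-(1 / 2) + (t : ℂ) * I).im = t := by simp
    rw [h2] at h
    exact (le_abs_self t).trans h
  have hd2 : t ≤ ‖-(1 / 2) - (t : ℂ) * I‖ := by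
    have h := Complex.abs_im_le_norm (-(1 / 2) - (t : ℂ) * I)
    have h2 : (-(1 / 2) - (t : ℂ) * I).im = -t := by simp
    rw [h2, abs_neg] at h
    exact (le_abs_self t).trans h
  have g3 := rhoNear_lin ht w _ hd1
  have g4 := rhoNear_lin ht w _ hd2
  have g5 := rhoNear_five ht hwt
  rw [← hX] at g3 g4 g5
  have f1 := rhoNear_comb hX0 hX2 hK0 hK0 g1 g2
  have f2 := rhoNear_comb hX0 hX2 hC10 zero_le_one f1 g3
  have f3 := rhoNear_comb hX0 hX2 hC20 zero_le_one f2 g4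
  have f4 := rhoNear_comb hX0 hX2 hC30 hE0 f3 g5
  have hlog := rhoNear_log t ht0
  set z1 : ℂ := ((5 / 4 : ℝ) : ℂ) + ((t / 2 : ℝ) : ℂ) * I with hz1
  set z2 : ℂ := ((5 / 4 : ℝ) : ℂ) + ((-(t / 2) : ℝ) : ℂ) * I with hz2
  have hmain : rhoT t w = ((t / (2 * π) : ℝ) : ℂ) ^ w *
      (Complex.Gamma (z1 + w / 2) / Complex.Gamma z1 * cexp (-(w / 2 * Complex.log z1)) *
      (Complex.Gamma (z2 + w / 2) / Complex.Gamma z2 * cexp (-(w / 2 * Complex.log z2))) *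
      (1 + w / (-(1 / 2) + (t : ℂ) * I)) * (1 + w / (-(1 / 2) - (t : ℂ) * I)) *
      cexp (w / 2 * ((Real.log (1 + 25 / (4 * t ^ 2)) : ℝ) : ℂ))) := by
    rw [rho_eq t (by linarith) w (by rw [hw]; norm_num)]
    have hc1 : ((t / (2 * π) : ℝ) : ℂ) ^ w = cexp (w * ((Real.log (t / 2) : ℝ) : ℂ)) * (π : ℂ) ^ (-w) := by
      have hpos : (0 : ℝ) < t / (2 * π) := by positivity
      have h1 : ((t / (2 * π) : ℝ) : ℂ) ≠ 0 := by exact_mod_cast hpos.ne'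
      rw [Complex.cpow_def_of_ne_zero h1, Complex.cpow_def_of_ne_zero rhoEq_pi_ne,
        ← Complex.ofReal_log hpos.le, ← Complex.ofReal_log Real.pi_pos.le, ← Complex.exp_add]
      congr 1
      have h2 : Real.log (t / (2 * π)) = Real.log (t / 2) - Real.log π := by
        rw [← Real.log_div (by positivity) Real.pi_pos.ne']
        congr 1
        field_simp
      rw [h2]
      push_cast
      ring
    have hc2 : cexp (w * ((Real.log (t / 2) : ℝ) : ℂ)) *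
        (cexp (-(w / 2 * Complex.log z1)) * cexp (-(w / 2 * Complex.log z2)) *
        cexp (w / 2 * ((Real.log (1 + 25 / (4 * t ^ 2)) : ℝ) : ℂ))) = 1 := by
      rw [← Complex.exp_add, ← Complex.exp_add, ← Complex.exp_add, ← Complex.exp_zero]
      congr 1
      have : w * ((Real.log (t / 2) : ℝ) : ℂ) + (-(w / 2 * Complex.log z1) +
          -(w / 2 * Complex.log z2) + w / 2 * ((Real.log (1 + 25 / (4 * t ^ 2)) : ℝ) : ℂ)) =
          w * ((Real.log (t / 2) : ℝ) : ℂ) + w / 2 * ((Real.log (1 + 25 / (4 * t ^ 2)) : ℝ) : ℂ) -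
          w / 2 * (Complex.log z1 + Complex.log z2) := by ring
      rw [this, hlog]
      push_cast
      ring
    rw [hc1]
    calc _ = (π : ℂ) ^ (-w) * (Complex.Gamma (z1 + w / 2) / Complex.Gamma z1) *
          (Complex.Gamma (z2 + w / 2) / Complex.Gamma z2) *
          ((1 + w / (-(1 / 2) + (t : ℂ) * I)) * (1 + w / (-(1 / 2) - (t : ℂ) * I))) * 1 := by ring
      _ = _ := by
        rw [← hc2]
        ring
  have hnorm : ‖((t / (2 * π) : ℝ) : ℂ) ^ w‖ ≤ t ^ (3 / 4 : ℝ) := by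
    have hpos : (0 : ℝ) < t / (2 * π) := by positivity
    rw [Complex.norm_cpow_eq_rpow_re_of_pos hpos, hw]
    apply Real.rpow_le_rpow hpos.le _ (by norm_num)
    rw [div_le_iff₀ (by positivity)]
    have := Real.pi_gt_three
    nlinarith
  have hdiff : rhoT t w - ((t / (2 * π) : ℝ) : ℂ) ^ w = ((t / (2 * π) : ℝ) : ℂ) ^ w *
      (Complex.Gamma (z1 + w / 2) / Complex.Gamma z1 * cexp (-(w / 2 * Complex.log z1)) *
      (Complex.Gamma (z2 + w / 2) / Complex.Gamma z2 * cexp (-(w / 2 * Complex.log z2))) *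
      (1 + w / (-(1 / 2) + (t : ℂ) * I)) * (1 + w / (-(1 / 2) - (t : ℂ) * I)) *
      cexp (w / 2 * ((Real.log (1 + 25 / (4 * t ^ 2)) : ℝ) : ℂ)) - 1) := by
    rw [hmain]; ring
  rw [hdiff, norm_mul]
  have ht34 : t ^ (3 / 4 : ℝ) / t = t ^ (-(1 / 4) : ℝ) := by
    rw [← Real.rpow_sub_one ht0.ne']
    norm_num
  calc _ ≤ t ^ (3 / 4 : ℝ) * (C4 * X) := by gcongr
    _ = C4 * (t ^ (3 / 4 : ℝ) / t) * (1 + ‖w‖ ^ 2) := by rw [hX]; ring
    _ = _ := by rw [ht34]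

end Pool.Agent.H74.ZS
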