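import Pool.Agent.H74.ZS.KFB

/-!
# Box bound for the weights, rough regime

This is `box_rough` of `Pool/Agent/H14/PT/Box.lean` with the count `P.card` replaced by
`∑ p ∈ P, ww v1 v2 p`, with `Nat.card H` replaced by `√(h1 h2)` and with exponents depending on `ε`.
Copy that proof and make the following changes.

* `k = ⌊L / ℓ⌋₊` with `ℓ = log (8AB)`; now `k ≥ 90 / ε` and `k ≥ 900` (from
  `(100/ε) ℓ ≤ L`, `ε ≤ 1/10`: `L/ℓ ≥ 100/ε`, so `k ≥ 100/ε - 1 ≥ 90/ε`).
* use `wbox_bound2` instead of `box_bound`; `1 ≤ √(h1 h2)` replaces `1 ≤ Nat.card H`.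
* numerics at the end: `L / k ≤ (1 + ε/90) ℓ` (from `L ≤ (k+1) ℓ`),
  `log (2 √(h1 h2)) / k ≤ (1/2 - ε/4)(1 + ε/90) ℓ ≤ (1/2 - ε/4 + ε/180) ℓ`,
  `E log k / k ≤ log L + (1 + ε/90) ℓ (ε/100)` (as `log k / log z ≤ log L / log z ≤ ε/100`),
  `log 2 * (ℓ / log z) ≤ (ε/100) ℓ`.  The sum of the coefficients of `ℓ` is at most `1/2 - ε/8`.
-/

namespace Pool.Agent.H74.ZS

open Finset Pool.Agent.H14.PT Pool.Agent.H74.TS
open scoped ArithmeticFunction.Omega

/-- the numerics at the end of `wbox_rough` -/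
lemma wbox_rough_num {ε ℓ L lz k E X : ℝ} (hε : 0 < ε) (hε1 : ε ≤ 1 / 10) (hℓ0 : 0 < ℓ)
    (hLpos : 0 < L) (hlogz : 0 < lz) (hk0 : 0 < k) (hlogk : Real.log k ≤ Real.log L)
    (hlogk0 : 0 ≤ Real.log k) (hkε : 90 / ε ≤ k) (hkl2 : L ≤ (k + 1) * ℓ) (hz : 100 / ε ≤ lz)
    (hzL : (100 / ε) * Real.log L ≤ lz) (hd : X ≤ (1 / 2 - ε / 4) * L) (hE : E = k + L / lz) :
    Real.log 2 * (1 + ℓ / lz) + (E * Real.log k + X) / k ≤
      Real.log 2 + Real.log L + (1 / 2 - ε / 8) * ℓ := by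
  -- numerics
  have hLk : L / k ≤ (1 + ε / 90) * ℓ := by
    rw [div_le_iff₀ hk0]
    have e1 : 90 ≤ k * ε := by
      rw [div_le_iff₀ hε] at hkε
      exact hkε
    nlinarith
  have hLk0 : 0 ≤ L / k := by positivity
  have t1 : X / k ≤ (1 / 2 - ε / 4) * ((1 + ε / 90) * ℓ) := by
    calc X / k ≤ (1 / 2 - ε / 4) * L / k := by gcongr
      _ = (1 / 2 - ε / 4) * (L / k) := by ring
      _ ≤ _ := mul_le_mul_of_nonneg_left hLk (by linarith)
  have t2 : E * Real.log k / k ≤ Real.log L + ((1 + ε / 90) * ℓ) * (ε / 100) := by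
    have e1 : E * Real.log k / k = Real.log k + (L / k) * (Real.log k / lz) := by
      rw [hE, add_mul, add_div, mul_comm k (Real.log k), mul_div_cancel_right₀ _ hk0.ne']
      ring
    rw [e1]
    have e2 : Real.log k / lz ≤ ε / 100 := by
      rw [div_le_iff₀ hlogz]
      have e5 : Real.log L ≤ ε / 100 * lz := by
        have e6 := mul_le_mul_of_nonneg_left hzL (show 0 ≤ ε / 100 by positivity)
        have e7 : ε / 100 * (100 / ε * Real.log L) = Real.log L := by field_simp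
        rw [e7] at e6
        exact e6
      linarith
    have e3 : 0 ≤ Real.log k / lz := by positivity
    have e4 : (L / k) * (Real.log k / lz) ≤ ((1 + ε / 90) * ℓ) * (ε / 100) := by
      apply mul_le_mul hLk e2 e3 (by positivity)
    linarith
  have t3 : Real.log 2 * (ℓ / lz) ≤ (ε / 100) * ℓ := by
    have e1 : ℓ / lz ≤ (ε / 100) * ℓ := by
      rw [div_le_iff₀ hlogz]
      have e6 := mul_le_mul_of_nonneg_left hz (show 0 ≤ ε / 100 by positivity)
      have e7 : ε / 100 * (100 / ε) = 1 := by field_simp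
      rw [e7] at e6
      nlinarith
    have e2 : Real.log 2 ≤ 1 := by
      have := Real.log_two_lt_d9; linarith
    have e3 : 0 ≤ ℓ / lz := by positivity
    nlinarith
  have e5 : (E * Real.log k + X) / k
      = E * Real.log k / k + X / k := by ring
  rw [e5]
  have e6 : (1 / 2 - ε / 4) * ((1 + ε / 90) * ℓ) + ((1 + ε / 90) * ℓ) * (ε / 100) + (ε / 100) * ℓ ≤
      (1 / 2 - ε / 8) * ℓ := by
    have e7 : (1 / 2 - ε / 4) * (1 + ε / 90) + (1 + ε / 90) * (ε / 100) + ε / 100 ≤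
        1 / 2 - ε / 8 := by nlinarith
    have e8 := mul_le_mul_of_nonneg_right e7 hℓ0.le
    linarith
  linarith

theorem wbox_rough {q : ℝ} {h1 h2 : ℝ} {v1 v2 : ℕ × ℕ → ℝ} (hv1 : KG q h1 v1)
    (hv2 : KG q h2 v2) {ε : ℝ} (hε : 0 < ε) (hε1 : ε ≤ 1 / 10) (P : Finset (ℕ × ℕ))
    (A B : ℝ) (hA : 1 ≤ A) (hB : 1 ≤ B) (z : ℝ) (hz : 100 / ε ≤ Real.log z)
    (hL : 1 ≤ Real.log q)
    (hzL : (100 / ε) * Real.log (Real.log q) ≤ Real.log z)
    (hAB : (100 / ε) * Real.log (8 * A * B) ≤ Real.log q)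
    (hd : Real.log (2 * Real.sqrt (h1 * h2)) ≤ (1 / 2 - ε / 4) * Real.log q)
    (hP : ∀ p ∈ P, IB A B p)
    (hfew : ∀ p ∈ P, Few z (p.1 * p.2)) :
    ∑ p ∈ P, ww v1 v2 p ≤ 2 * Real.log q * (8 * A * B) ^ (1 / 2 - ε / 8) := by
  classical
  set h := Real.sqrt (h1 * h2) with hh
  set L := Real.log q with hLdef
  set ℓ := Real.log (8 * A * B) with hℓdef
  have hq : (0 : ℝ) < q := hv1.qpos
  have h8 : (8 : ℝ) ≤ 8 * A * B := by nlinarith [mul_le_mul hA hB (by norm_num) (by linarith)]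
  have hℓ2 : 2 ≤ ℓ := by
    have h1 : Real.log 8 ≤ ℓ := Real.log_le_log (by norm_num) h8
    have h2 : Real.log 8 = 3 * Real.log 2 := by
      rw [show (8 : ℝ) = 2 ^ 3 by norm_num, Real.log_pow]; norm_num
    have := Real.log_two_gt_d9
    linarith
  have hℓ0 : 0 < ℓ := by linarith
  have hlogz : 0 < Real.log z := lt_of_lt_of_le (by positivity) hz
  have hLpos : 0 < L := by linarith
  rcases P.eq_empty_or_nonempty with hemp | hne
  · rw [hemp, sum_empty]; positivity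
  set k := ⌊L / ℓ⌋₊ with hk
  have hε10 : 10 ≤ 1 / ε := by
    rw [le_div_iff₀ hε]
    linarith
  have hkε : 90 / ε ≤ (k : ℝ) := by
    have e1 := Nat.lt_floor_add_one (L / ℓ)
    rw [← hk] at e1
    have e2 : 100 / ε ≤ L / ℓ := by
      rw [le_div_iff₀ hℓ0]
      exact hAB
    have e3 : 100 / ε = 90 / ε + 10 * (1 / ε) := by ring
    linarith
  have hk100' : (100 : ℝ) ≤ k := by
    have e3 : 90 / ε = 90 * (1 / ε) := by ring
    linarith
  have hk0 : (0 : ℝ) < k := by linarith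
  have hk100 : 100 ≤ k := by exact_mod_cast hk100'
  have hkl : (k : ℝ) * ℓ ≤ L := by
    have := Nat.floor_le (show 0 ≤ L / ℓ by positivity)
    rw [← hk, le_div_iff₀ hℓ0] at this
    exact this
  have hkl2 : L ≤ (k + 1) * ℓ := by
    have := Nat.lt_floor_add_one (L / ℓ)
    rw [← hk, div_lt_iff₀ hℓ0] at this
    linarith
  have hkL : (k : ℝ) ≤ L := by nlinarith
  have hlogk : Real.log k ≤ Real.log L := Real.log_le_log hk0 hkL
  have hlogk0 : 0 ≤ Real.log k := Real.log_nonneg (by linarith)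
  -- bound of log (a b)
  have hlogab : ∀ p ∈ P, Real.log ((p.1 * p.2 : ℕ) : ℝ) ≤ ℓ := by
    intro p hp
    obtain ⟨_, h1, h2, h3, h4, h5⟩ := hP p hp
    have h10 : (0 : ℝ) < p.1 := by exact_mod_cast Nat.pos_of_ne_zero h1
    have h20 : (0 : ℝ) < p.2 := by exact_mod_cast Nat.pos_of_ne_zero h2
    apply Real.log_le_log (by push_cast; positivity)
    push_cast
    calc (p.1 : ℝ) * p.2 ≤ (2 * A) * (2 * B) := by gcongr
      _ ≤ 8 * A * B := by nlinarith
  set w := ⌊1 + ℓ / Real.log z⌋₊ with hw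
  have hwP : ∀ p ∈ P, (p.1 * p.2).primeFactors.card ≤ w := by
    intro p hp
    rw [hw]
    apply Nat.le_floor
    have h1 := hfew p hp
    have h2 := hlogab p hp
    have h3 : ((p.1 * p.2).primeFactors.card : ℝ) ≤ (Ω (p.1 * p.2) : ℝ) := by
      exact_mod_cast card_primeFactors_le_Omega _
    unfold Few at h1
    have h4 : Real.log ((p.1 * p.2 : ℕ) : ℝ) / Real.log z ≤ ℓ / Real.log z := by gcongr
    linarith
  set E : ℝ := k + L / Real.log z with hE
  set D := ⌊(k : ℝ) ^ E⌋₊ with hD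
  have hDt : ∀ t : Fin k → ℕ × ℕ, (∀ i, t i ∈ P) →
      dk k (∏ i, (t i).1) * dk k (∏ i, (t i).2) ≤ D := by
    intro t ht
    have hn1 : ∀ i, (t i).1 ≠ 0 := fun i => (hP _ (ht i)).2.1
    have hn2 : ∀ i, (t i).2 ≠ 0 := fun i => (hP _ (ht i)).2.2.1
    have h1 := dk_le_pow k _ (Finset.prod_ne_zero_iff.mpr fun i (_ : i ∈ Finset.univ) => hn1 i)
    have h2 := dk_le_pow k _ (Finset.prod_ne_zero_iff.mpr fun i (_ : i ∈ Finset.univ) => hn2 i)
    refine (Nat.mul_le_mul h1 h2).trans ?_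
    rw [← pow_add]
    apply Nat.le_floor
    push_cast
    rw [← Real.rpow_natCast]
    apply Real.rpow_le_rpow_of_exponent_le (by linarith)
    rw [cardFactors_prod _ hn1, cardFactors_prod _ hn2, ← Finset.sum_add_distrib]
    have h3 : ∀ i, Ω (t i).1 + Ω (t i).2 = Ω ((t i).1 * (t i).2) := fun i =>
      (ArithmeticFunction.cardFactors_mul (hn1 i) (hn2 i)).symm
    rw [Finset.sum_congr rfl fun i _ => h3 i]
    push_cast
    calc ∑ i, (Ω ((t i).1 * (t i).2) : ℝ) ≤ ∑ _i : Fin k, (1 + ℓ / Real.log z) := by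
          refine Finset.sum_le_sum fun i _ => ?_
          have h4 := hfew _ (ht i)
          have h5 := hlogab _ (ht i)
          unfold Few at h4
          have h6 : Real.log (((t i).1 * (t i).2 : ℕ) : ℝ) / Real.log z ≤ ℓ / Real.log z := by gcongr
          linarith
      _ = k + k * ℓ / Real.log z := by
          rw [Finset.sum_const, Finset.card_univ, Fintype.card_fin, nsmul_eq_mul]; ring
      _ ≤ E := by rw [hE]; gcongr
  have hbb := wbox_bound2 hv1 hv2 P A B (by linarith) (by linarith) k (by omega)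
    (hkl.trans (by linarith)) w D hP hwP hDt
  -- simplify
  have hpw : (8 * A * B) ^ k / q ≤ 1 := by
    rw [div_le_one hq]
    have h1 : (8 * A * B) ^ k = Real.exp (k * ℓ) := by
      rw [Real.exp_nat_mul, hℓdef, Real.exp_log (by linarith)]
    have h2 : (q : ℝ) = Real.exp L := by rw [hLdef, Real.exp_log hq]
    rw [h1, h2]
    exact Real.exp_le_exp.mpr hkl
  have hcH : (1 : ℝ) ≤ h := by
    rw [hh, Real.one_le_sqrt]
    have e1 := hv1.one_le
    have e2 := hv2.one_le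
    nlinarith
  have hDle : (D : ℝ) ≤ (k : ℝ) ^ E := Nat.floor_le (by positivity)
  have hX : (D : ℝ) * (h * (1 + (8 * A * B) ^ k / q)) ≤ (k : ℝ) ^ E * (2 * h) := by
    calc (D : ℝ) * (h * (1 + (8 * A * B) ^ k / q))
        ≤ (k : ℝ) ^ E * (h * (1 + 1)) := by gcongr
      _ = _ := by ring
  have hwle : ((2 : ℝ) ^ w) ≤ Real.exp (Real.log 2 * (1 + ℓ / Real.log z)) := by
    rw [← Real.rpow_natCast, Real.rpow_def_of_pos (by norm_num)]
    apply Real.exp_le_exp.mpr
    have := Nat.floor_le (show 0 ≤ 1 + ℓ / Real.log z by positivity)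
    rw [← hw] at this
    have hl2 : 0 < Real.log 2 := Real.log_pos (by norm_num)
    gcongr
  have hYle : ((k : ℝ) ^ E * (2 * h)) ^ (1 / (k : ℝ))
      = Real.exp ((E * Real.log k + Real.log (2 * h)) / k) := by
    rw [Real.rpow_def_of_pos (by positivity), Real.log_mul (by positivity) (by positivity),
      Real.log_rpow hk0]
    congr 1; ring
  have hfinal : ∑ p ∈ P, ww v1 v2 p ≤ Real.exp (Real.log 2 * (1 + ℓ / Real.log z)) *
      Real.exp ((E * Real.log k + Real.log (2 * h)) / k) := by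
    refine hbb.trans ?_
    rw [← hYle]
    apply mul_le_mul hwle _ (by positivity) (by positivity)
    apply Real.rpow_le_rpow _ hX (by positivity)
    positivity
  rw [← Real.exp_add] at hfinal
  refine hfinal.trans ?_
  have hR : 2 * L * (8 * A * B) ^ (1 / 2 - ε / 8) = Real.exp (Real.log 2 + Real.log L + (1 / 2 - ε / 8) * ℓ) := by
    rw [Real.exp_add, Real.exp_add, Real.exp_log (by norm_num), Real.exp_log hLpos,
      Real.rpow_def_of_pos (by linarith), ← hℓdef]
    ring_nf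
  rw [hR]
  apply Real.exp_le_exp.mpr
  exact wbox_rough_num hε hε1 hℓ0 hLpos hlogz hk0 hlogk hlogk0 hkε hkl2 hz hzL hd hE

end Pool.Agent.H74.ZS
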