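import Pool.Agent.H74.ZS.Defs

/-!
# Power series of the Gaussian of a logarithm

`gs_coeff`: `H(z) = exp (-(y - log (1 + z))²/4) / (2 √π)` is holomorphic on the unit disc (`Complex.log` on the right half
plane); for `‖z‖ = 3/4`: `‖H(z)‖ = exp (-Re (y - ℓ)²/4)/(2√π)`, `ℓ = log (1 + z) = ℓ1 + i ℓ2`, `Re (y - ℓ)² = (y - ℓ1)² - ℓ2²`,
`1/4 ≤ |1 + z| ≤ 7/4`, so `|ℓ1| ≤ log 4 ≤ 1.387`, and `|ℓ2| = |arg (1+z)| ≤ π/2 ≤ 1.571`
(`Complex.abs_arg_le_pi_div_two_iff`), so `Re (y-ℓ)² ≥ y²/2 - ℓ1² - ℓ2² ≥ y²/2 - 4.4`,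
`‖H‖ ≤ exp 1.1 exp (-y²/8)/(2√π) ≤ exp (-y²/8)` (`exp 1.1 ≤ 3.1`, `2√π ≥ 3.5`).
Cauchy: `H(z) = ∑_n H_n z^n` for `‖z‖ < 3/4` with `‖H_n‖ ≤ (4/3)^n exp (-y²/8)`
(`Complex.norm_iteratedDeriv_le_of_forall_mem_sphere_norm_le` and `Complex.hasSum_taylorSeries_on_ball`, or
`norm_cauchyPowerSeries_le` with `DifferentiableOn.hasFPowerSeriesOnBall`).
For real `z`, `|z| ≤ 1/2`: `H(z) = gs (y - log (1 + z))` (`Complex.ofReal_log`).
-/

namespace Pool.Agent.H74.ZS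

open Finset
open scoped Real

/-- the holomorphic extension -/
noncomputable def sepAH (y : ℝ) (z : ℂ) : ℂ :=
  Complex.exp (-((y : ℂ) - Complex.log (1 + z)) ^ 2 / 4) / ((2 * Real.sqrt Real.pi : ℝ) : ℂ)

theorem sepA_slit {z : ℂ} (hz : ‖z‖ < 1) : 1 + z ∈ Complex.slitPlane := by
  left
  have h1 := Complex.abs_re_le_norm z
  have h2 := (abs_lt.1 (h1.trans_lt hz)).1
  rw [Complex.add_re, Complex.one_re]
  linarith

theorem sepA_diff (y : ℝ) : DifferentiableOn ℂ (sepAH y) (Metric.ball 0 1) := by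
  intro z hz
  rw [mem_ball_zero_iff] at hz
  have h1 := sepA_slit hz
  unfold sepAH
  apply DifferentiableAt.differentiableWithinAt
  have h2 : DifferentiableAt ℂ (fun z : ℂ => Complex.log (1 + z)) z :=
    DifferentiableAt.clog (by fun_prop) h1
  fun_prop

theorem sepA_const : Real.exp (11 / 10) ≤ 2 * Real.sqrt Real.pi := by
  have h1 : (1.75 : ℝ) ≤ Real.sqrt Real.pi := by
    apply Real.le_sqrt_of_sq_le
    have := Real.pi_gt_d2
    norm_num
    linarith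
  have h2 : Real.exp (11 / 10) = Real.exp 1 * Real.exp (1 / 10) := by
    rw [← Real.exp_add]
    norm_num
  have h3 : Real.exp (1 / 10) ≤ 10 / 9 := by
    have h4 := Real.one_sub_le_exp_neg (1 / 10 : ℝ)
    rw [Real.exp_neg] at h4
    have h5 : (9 / 10 : ℝ) ≤ (Real.exp (1 / 10))⁻¹ := by linarith
    have h6 := Real.exp_pos (1 / 10 : ℝ)
    rw [le_inv_comm₀ (by norm_num) h6] at h5
    linarith
  have h4 := Real.exp_one_lt_d9
  rw [h2]
  nlinarith [Real.exp_pos (1 / 10 : ℝ), Real.exp_pos (1 : ℝ)]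

theorem sepA_log4 : Real.log 4 ≤ 1.387 := by
  have h1 : Real.log 4 = 2 * Real.log 2 := by
    have h2 : (4 : ℝ) = 2 ^ 2 := by norm_num
    rw [h2, Real.log_pow]
    norm_num
  have h3 := Real.log_two_lt_d9
  rw [h1]
  linarith

theorem sepA_bound (y : ℝ) {z : ℂ} (hz : ‖z‖ = 3 / 4) :
    ‖sepAH y z‖ ≤ Real.exp (-(y ^ 2) / 8) := by
  set l := Complex.log (1 + z) with hl
  have h1 : 1 / 4 ≤ ‖1 + z‖ := by
    have h2 : ‖(1 : ℂ)‖ ≤ ‖1 + z‖ + ‖z‖ := by
      have h3 : (1 : ℂ) = (1 + z) - z := by ring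
      conv_lhs => rw [h3]
      exact norm_sub_le _ _
    rw [norm_one, hz] at h2
    linarith
  have h2 : ‖1 + z‖ ≤ 4 := by
    have h3 := norm_add_le (1 : ℂ) z
    rw [norm_one, hz] at h3
    linarith
  have hre : |l.re| ≤ 1.387 := by
    rw [hl, Complex.log_re, abs_le]
    have h3 := sepA_log4
    constructor
    · have h4 : Real.log (1 / 4) ≤ Real.log ‖1 + z‖ := Real.log_le_log (by norm_num) h1
      rw [one_div, Real.log_inv] at h4
      linarith
    · have h4 : Real.log ‖1 + z‖ ≤ Real.log 4 := Real.log_le_log (by linarith) h2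
      linarith
  have him : |l.im| ≤ 1.571 := by
    rw [hl, Complex.log_im]
    have h3 : |(1 + z).arg| ≤ Real.pi / 2 := by
      rw [Complex.abs_arg_le_pi_div_two_iff]
      have h4 := Complex.abs_re_le_norm z
      rw [hz] at h4
      have h5 := (abs_le.1 h4).1
      rw [Complex.add_re, Complex.one_re]
      linarith
    have h4 := Real.pi_lt_d4
    linarith
  have hre2 : l.re ^ 2 ≤ 1.387 ^ 2 := by
    rw [← sq_abs]
    exact pow_le_pow_left₀ (abs_nonneg _) hre 2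
  have him2 : l.im ^ 2 ≤ 1.571 ^ 2 := by
    rw [← sq_abs]
    exact pow_le_pow_left₀ (abs_nonneg _) him 2
  have h3 : (-((y : ℂ) - l) ^ 2 / 4).re = -((y - l.re) ^ 2 - l.im ^ 2) / 4 := by
    have h4 : (4 : ℂ) = ((4 : ℝ) : ℂ) := by norm_num
    rw [h4, Complex.div_ofReal_re, Complex.neg_re, sq ((y : ℂ) - l), Complex.mul_re,
      Complex.sub_re, Complex.sub_im, Complex.ofReal_re, Complex.ofReal_im]
    ring
  have hpos : 0 < 2 * Real.sqrt Real.pi := by positivity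
  rw [sepAH, norm_div, Complex.norm_exp, ← hl, h3, Complex.norm_real, Real.norm_eq_abs,
    abs_of_pos hpos, div_le_iff₀ hpos]
  have h4 : -((y - l.re) ^ 2 - l.im ^ 2) / 4 ≤ -(y ^ 2) / 8 + 11 / 10 := by
    nlinarith [sq_nonneg (y - 2 * l.re)]
  calc Real.exp (-((y - l.re) ^ 2 - l.im ^ 2) / 4) ≤ Real.exp (-(y ^ 2) / 8 + 11 / 10) :=
        Real.exp_le_exp.2 h4
    _ = Real.exp (-(y ^ 2) / 8) * Real.exp (11 / 10) := Real.exp_add _ _
    _ ≤ Real.exp (-(y ^ 2) / 8) * (2 * Real.sqrt Real.pi) :=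
        mul_le_mul_of_nonneg_left sepA_const (Real.exp_pos _).le

theorem sepA_real (y z : ℝ) (hz : |z| ≤ 1 / 2) :
    sepAH y (z : ℂ) = ((gs (y - Real.log (1 + z)) : ℝ) : ℂ) := by
  have h1 : 0 ≤ 1 + z := by
    have := (abs_le.1 hz).1
    linarith
  rw [sepAH, gs, Complex.ofReal_div, Complex.ofReal_exp]
  congr 2
  have h2 : Complex.log (1 + (z : ℂ)) = ((Real.log (1 + z) : ℝ) : ℂ) := by
    rw [Complex.ofReal_log h1]
    push_cast
    rfl
  rw [h2]
  push_cast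
  ring

theorem gs_coeff (y : ℝ) : ∃ h : ℕ → ℂ, (∀ n, ‖h n‖ ≤ (4 / 3) ^ n * Real.exp (-(y ^ 2) / 8)) ∧
    ∀ z : ℝ, |z| ≤ 1 / 2 → HasSum (fun n => h n * (z : ℂ) ^ n) ((gs (y - Real.log (1 + z)) : ℝ) : ℂ) := by
  refine ⟨fun n => (n.factorial : ℂ)⁻¹ * iteratedDeriv n (sepAH y) 0, fun n => ?_,
    fun z hz => ?_⟩
  · have h1 : DiffContOnCl ℂ (sepAH y) (Metric.ball 0 (3 / 4)) := by
      apply (sepA_diff y).diffContOnCl_ball
      exact Metric.closedBall_subset_ball (by norm_num)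
    have h2 := Complex.norm_iteratedDeriv_le_of_forall_mem_sphere_norm_le n
      (by norm_num : (0 : ℝ) < 3 / 4) h1 (C := Real.exp (-(y ^ 2) / 8)) (by
        intro z hz
        rw [mem_sphere_iff_norm, sub_zero] at hz
        exact sepA_bound y hz)
    rw [norm_mul, norm_inv, Complex.norm_natCast]
    have h3 : (0 : ℝ) < n.factorial := by exact_mod_cast n.factorial_pos
    rw [inv_mul_le_iff₀ h3]
    refine h2.trans (le_of_eq ?_)
    rw [mul_div_assoc, div_eq_mul_inv (Real.exp (-(y ^ 2) / 8)), ← inv_pow]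
    have h4 : (3 / 4 : ℝ)⁻¹ = 4 / 3 := by norm_num
    rw [h4]
    ring
  · have h1 : (z : ℂ) ∈ Metric.ball (0 : ℂ) 1 := by
      rw [mem_ball_zero_iff, Complex.norm_real, Real.norm_eq_abs]
      linarith
    have h2 := Complex.hasSum_taylorSeries_on_ball (sepA_diff y) h1
    rw [sepA_real y z hz] at h2
    have h3 : (fun n : ℕ => (n.factorial : ℂ)⁻¹ * iteratedDeriv n (sepAH y) 0 * (z : ℂ) ^ n) =
        fun n : ℕ => (n.factorial : ℂ)⁻¹ • ((z : ℂ) - 0) ^ n • iteratedDeriv n (sepAH y) 0 := by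
      funext n
      rw [smul_eq_mul, smul_eq_mul, sub_zero]
      ring
    rw [h3]
    exact h2

end Pool.Agent.H74.ZS
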