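import Pool.Agent.H74.ZS.ZerA
import Pool.Agent.PairCorr.Growth

/-!
# The number of zeros in an interval of length one

`ordinates_card`: apply `zeros_disc` to `f = riemannZeta₁` (`(z - 1) ζ(z)`, entire: `differentiable_riemannZeta₁` or so; `zeta1_eq_mul`),
`Z` = the points `1/2 + iγ`, `c = 2 + i (x + 1/2)`, `r = 8/5` (`(3/2)² + (1/2)² ≤ (8/5)²`), `R = 6`, `M = C (2 + ‖c‖ + 6)^10`
(`zeta1_growth`, `Re z ≥ -4`), and `‖f c‖ ≥ |c - 1| |ζ(c)| ≥ 2 - ζ(2) ≥ 1/3` (`zeta_eq_tsum_one_div_nat_add_one_cpow`;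
`‖ζ(c) - 1‖ ≤ ∑_{n ≥ 2} n^(-2) = π²/6 - 1`, `hasSum_zeta_two`).
`log ((6 - 8/5)/(8/5)) = log (11/4) ≥ 1`, and `log (3 C (11 + |x|)^10) ≤ C' log (3 + |x|)`.
-/

namespace Pool.Agent.H74.ZS

open Complex Pool.Agent.PairCorr

theorem zer_zeta_two (c : ℂ) (hc : c.re = 2) : (1 / 3 : ℝ) ≤ ‖riemannZeta c‖ := by
  have h1 : 1 < c.re := by rw [hc]; norm_num
  have h2 := zeta_eq_tsum_one_div_nat_add_one_cpow h1
  have hn : ∀ n : ℕ, ‖(1 : ℂ) / ((n : ℂ) + 1) ^ c‖ = 1 / ((n : ℝ) + 1) ^ 2 := by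
    intro n
    rw [norm_div, norm_one]
    have h3 : ((n : ℂ) + 1) = (((n + 1 : ℕ) : ℝ) : ℂ) := by push_cast; ring
    rw [h3, Complex.norm_cpow_eq_rpow_re_of_pos (by positivity), hc]
    push_cast
    rw [← Real.rpow_natCast]
    norm_num
  have hz2 : HasSum (fun n : ℕ => (1 : ℝ) / ((n : ℝ) + 1) ^ 2) (Real.pi ^ 2 / 6) := by
    have h4 := hasSum_zeta_two
    rw [← hasSum_nat_add_iff' 1] at h4
    simpa using h4
  have hs : Summable (fun n : ℕ => (1 : ℂ) / ((n : ℂ) + 1) ^ c) := by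
    apply Summable.of_norm
    simp_rw [hn]
    exact hz2.summable
  have hs1 : Summable (fun n : ℕ => (1 : ℂ) / (((n + 1 : ℕ) : ℂ) + 1) ^ c) :=
    (summable_nat_add_iff 1).2 hs
  have hz3 : HasSum (fun n : ℕ => (1 : ℝ) / (((n + 1 : ℕ) : ℝ) + 1) ^ 2) (Real.pi ^ 2 / 6 - 1) := by
    have h4 := (hasSum_nat_add_iff' 1).2 hz2
    simpa using h4
  have h5 : riemannZeta c = 1 + ∑' n : ℕ, (1 : ℂ) / (((n + 1 : ℕ) : ℂ) + 1) ^ c := by
    rw [h2, hs.tsum_eq_zero_add]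
    simp
  have h6 : ‖∑' n : ℕ, (1 : ℂ) / (((n + 1 : ℕ) : ℂ) + 1) ^ c‖ ≤ Real.pi ^ 2 / 6 - 1 := by
    rw [← hz3.tsum_eq]
    have h7 : ∀ n : ℕ, ‖(1 : ℂ) / (((n + 1 : ℕ) : ℂ) + 1) ^ c‖ = 1 / (((n + 1 : ℕ) : ℝ) + 1) ^ 2 :=
      fun n => hn (n + 1)
    refine (norm_tsum_le_tsum_norm (by simp_rw [h7]; exact hz3.summable)).trans ?_
    simp_rw [h7]
    exact le_refl _
  have h8 : Real.pi ^ 2 / 6 - 1 ≤ 2 / 3 := by
    have := Real.pi_lt_d2
    have h0 := Real.pi_pos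
    nlinarith
  have h9 : ‖(1 : ℂ)‖ ≤ ‖riemannZeta c‖ + ‖∑' n : ℕ, (1 : ℂ) / (((n + 1 : ℕ) : ℂ) + 1) ^ c‖ := by
    have : (1 : ℂ) = riemannZeta c - ∑' n : ℕ, (1 : ℂ) / (((n + 1 : ℕ) : ℂ) + 1) ^ c := by
      rw [h5]; ring
    conv_lhs => rw [this]
    exact norm_sub_le _ _
  rw [norm_one] at h9
  linarith

theorem ordinates_card : ∃ C : ℝ, 0 < C ∧ ∀ (x : ℝ) (S : Finset ℝ),
    (∀ γ ∈ S, riemannZeta (1 / 2 + (γ : ℂ) * I) = 0 ∧ x ≤ γ ∧ γ < x + 1) →
    (S.card : ℝ) ≤ C * Real.log (3 + |x|) := by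
  obtain ⟨C, hC1, hC⟩ := zeta1_growth
  refine ⟨Real.log (3 * C) + 50, by
    have := Real.log_nonneg (show (1 : ℝ) ≤ 3 * C by linarith)
    linarith, fun x S hS => ?_⟩
  set c : ℂ := 2 + ((x + 1 / 2 : ℝ) : ℂ) * I with hcdef
  have hcre : c.re = 2 := by simp [hcdef]
  have hcim : c.im = x + 1 / 2 := by simp [hcdef]
  have hinj : Function.Injective (fun γ : ℝ => (1 / 2 + (γ : ℂ) * I : ℂ)) := by
    intro a b hab
    have := congrArg Complex.im hab
    simpa using this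
  set Z : Finset ℂ := S.image (fun γ : ℝ => (1 / 2 + (γ : ℂ) * I : ℂ)) with hZ
  have hcard : Z.card = S.card := Finset.card_image_of_injective _ hinj
  have hnc : ‖c‖ ≤ 3 + |x| := by
    calc ‖c‖ ≤ |c.re| + |c.im| := Complex.norm_le_abs_re_add_abs_im c
      _ ≤ 2 + (|x| + 1 / 2) := by
        rw [hcre, hcim]
        have := abs_add_le x (1 / 2)
        rw [abs_of_pos (by norm_num : (0 : ℝ) < 1 / 2)] at this
        norm_num
        norm_num at this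
        linarith
      _ ≤ 3 + |x| := by linarith
  set M : ℝ := C * (11 + |x|) ^ 10 with hM
  have hx0 := abs_nonneg x
  have hMb : ∀ z : ℂ, ‖z - c‖ ≤ 6 → ‖riemannZeta₁ z‖ ≤ M := by
    intro z hz
    have h1 : -6 ≤ z.re := by
      have h2 := (Complex.abs_re_le_norm (z - c)).trans hz
      rw [Complex.sub_re, hcre] at h2
      have := (abs_le.1 h2).1
      linarith
    refine (hC z h1).trans ?_
    have h3 : ‖z‖ ≤ 9 + |x| := by
      have : z = (z - c) + c := by ring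
      calc ‖z‖ = ‖(z - c) + c‖ := by rw [← this]
        _ ≤ ‖z - c‖ + ‖c‖ := norm_add_le _ _
        _ ≤ _ := by linarith
    rw [hM]
    have h4 : 0 ≤ ‖z‖ := norm_nonneg z
    have h5 : 2 + ‖z‖ ≤ 11 + |x| := by linarith
    gcongr
  have hc1 : c ≠ 1 := by
    intro h
    have := congrArg Complex.re h
    rw [hcre] at this
    norm_num at this
  have hfc : (1 / 3 : ℝ) ≤ ‖riemannZeta₁ c‖ := by
    rw [zeta1_eq_mul hc1, norm_mul]
    have h1 : (1 : ℝ) ≤ ‖c - 1‖ := by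
      have := Complex.abs_re_le_norm (c - 1)
      rw [Complex.sub_re, hcre] at this
      norm_num at this
      exact this
    have h2 := zer_zeta_two c hcre
    nlinarith
  have hfc0 : riemannZeta₁ c ≠ 0 := by
    intro h
    rw [h] at hfc
    norm_num at hfc
  have hZ2 : ∀ z ∈ Z, riemannZeta₁ z = 0 ∧ ‖z - c‖ ≤ 8 / 5 := by
    intro z hz
    obtain ⟨γ, hγ, rfl⟩ := Finset.mem_image.1 hz
    obtain ⟨h0, h1, h2⟩ := hS γ hγ
    constructor
    · have hne : (1 / 2 + (γ : ℂ) * I : ℂ) ≠ 1 := by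
        intro h
        have := congrArg Complex.re h
        norm_num at this
      rw [zeta1_eq_mul hne]
      rw [h0, mul_zero]
    · have h3 : ‖(1 / 2 + (γ : ℂ) * I : ℂ) - c‖ ^ 2 ≤ (8 / 5) ^ 2 := by
        rw [← Complex.normSq_eq_norm_sq, Complex.normSq_apply]
        have e1 : ((1 / 2 + (γ : ℂ) * I : ℂ) - c).re = -(3 / 2) := by
          rw [Complex.sub_re, hcre]; norm_num
        have e2 : ((1 / 2 + (γ : ℂ) * I : ℂ) - c).im = γ - (x + 1 / 2) := by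
          rw [Complex.sub_im, hcim]; simp
        rw [e1, e2]
        nlinarith
      exact le_of_sq_le_sq h3 (by norm_num)
  have hmain := zeros_disc riemannZeta₁ differentiable_riemannZeta₁ c (8 / 5) 6 M (by norm_num)
    (by norm_num) hMb hfc0 Z hZ2
  rw [hcard] at hmain
  have hlog1 : (1 : ℝ) ≤ Real.log ((6 - 8 / 5) / (8 / 5)) := by
    rw [Real.le_log_iff_exp_le (by norm_num)]
    have := Real.exp_one_lt_d9
    norm_num at this ⊢
    linarith
  have hcardn : (0 : ℝ) ≤ (S.card : ℝ) := Nat.cast_nonneg _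
  have h1 : (S.card : ℝ) ≤ Real.log (M / ‖riemannZeta₁ c‖) := by
    refine le_trans ?_ hmain
    nlinarith
  refine h1.trans ?_
  have hMpos : 0 < M := by rw [hM]; positivity
  have h2 : M / ‖riemannZeta₁ c‖ ≤ 3 * C * (11 + |x|) ^ 10 := by
    rw [div_le_iff₀ (by linarith)]
    have : 0 < (11 + |x|) ^ 10 := by positivity
    nlinarith
  have h3 : Real.log (M / ‖riemannZeta₁ c‖) ≤ Real.log (3 * C * (11 + |x|) ^ 10) :=
    Real.log_le_log (div_pos hMpos (by linarith)) h2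
  refine h3.trans ?_
  rw [Real.log_mul (by positivity) (by positivity), Real.log_pow]
  have hL1 : (1 : ℝ) ≤ Real.log (3 + |x|) := by
    rw [Real.le_log_iff_exp_le (by positivity)]
    have := Real.exp_one_lt_d9
    linarith
  have h4 : Real.log (11 + |x|) ≤ 5 * Real.log (3 + |x|) := by
    have h5 : (5 : ℝ) * Real.log (3 + |x|) = Real.log ((3 + |x|) ^ 5) := by
      rw [Real.log_pow]; norm_num
    rw [h5]
    apply Real.log_le_log (by positivity)
    have h6 : (3 : ℝ) ^ 4 ≤ (3 + |x|) ^ 4 := by gcongr; linarith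
    have h7 : (3 + |x|) ^ 5 = (3 + |x|) ^ 4 * (3 + |x|) := by ring
    rw [h7]
    nlinarith
  have h6 : 0 ≤ Real.log (3 * C) := Real.log_nonneg (by linarith)
  push_cast
  nlinarith

end Pool.Agent.H74.ZS
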