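import Mathlib

/-!
# The number of zeros in a disc

`zeros_disc`: induction on `|Z|` (or directly): if `f z1 = 0` then `f z = (z - z1) g z` with `g = dslope f z1` entire
(`Complex.differentiableOn_dslope`), `g z = 0` at the other points of `Z`, and so on: `f z = ∏_{z' ∈ Z} (z - z') · g z` with `g`
entire.  On the circle `‖z - c‖ = R`: `‖g z‖ ≤ M/(R - r)^n`, so by the maximum principle
(`Complex.norm_le_of_forall_mem_frontier_norm_le`) `‖f c‖ = ∏ ‖c - z'‖ ‖g c‖ ≤ r^n M/(R - r)^n`; take logarithms.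
-/

namespace Pool.Agent.H74.ZS

open Complex

theorem zerA_factor (Z : Finset ℂ) : ∀ f : ℂ → ℂ, Differentiable ℂ f → (∀ z ∈ Z, f z = 0) →
    ∃ g : ℂ → ℂ, Differentiable ℂ g ∧ ∀ z, f z = (∏ w ∈ Z, (z - w)) * g z := by
  induction Z using Finset.induction_on with
  | empty =>
    intro f hf _
    exact ⟨f, hf, fun z => by simp⟩
  | insert w Z hw ih =>
    intro f hf hZ
    have h1 : ∀ z, f z = (z - w) * dslope f w z := by
      intro z
      have h2 := sub_smul_dslope f w z
      rw [hZ w (Finset.mem_insert_self _ _), sub_zero, smul_eq_mul] at h2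
      exact h2.symm
    have h3 : Differentiable ℂ (dslope f w) := by
      rw [← differentiableOn_univ]
      exact (Complex.differentiableOn_dslope Filter.univ_mem).2 hf.differentiableOn
    obtain ⟨g, hg, hfg⟩ := ih (dslope f w) h3 (by
      intro z hz
      have h4 := h1 z
      rw [hZ z (Finset.mem_insert_of_mem hz)] at h4
      have h5 : z - w ≠ 0 := by
        rw [sub_ne_zero]
        rintro rfl
        exact hw hz
      exact (mul_eq_zero.1 h4.symm).resolve_left h5)
    refine ⟨g, hg, fun z => ?_⟩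
    rw [h1, hfg, Finset.prod_insert hw, mul_assoc]

theorem zeros_disc (f : ℂ → ℂ) (hf : Differentiable ℂ f) (c : ℂ) (r R M : ℝ) (hr : 0 < r)
    (hR : 2 * r < R) (hM : ∀ z, ‖z - c‖ ≤ R → ‖f z‖ ≤ M) (hc : f c ≠ 0) (Z : Finset ℂ)
    (hZ : ∀ z ∈ Z, f z = 0 ∧ ‖z - c‖ ≤ r) :
    (Z.card : ℝ) * Real.log ((R - r) / r) ≤ Real.log (M / ‖f c‖) := by
  obtain ⟨g, hg, hfg⟩ := zerA_factor Z f hf (fun z hz => (hZ z hz).1)
  have hR0 : 0 < R := by linarith
  have hRr : 0 < R - r := by linarith
  have hgc : ‖g c‖ ≤ M / (R - r) ^ Z.card := by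
    apply Complex.norm_le_of_forall_mem_frontier_norm_le (U := Metric.ball c R)
      Metric.isBounded_ball hg.diffContOnCl
    · intro z hz
      rw [frontier_ball c hR0.ne', mem_sphere_iff_norm] at hz
      have h1 : (R - r) ^ Z.card ≤ ‖∏ w ∈ Z, (z - w)‖ := by
        rw [norm_prod, ← Finset.prod_const]
        refine Finset.prod_le_prod (fun _ _ => hRr.le) fun w hw => ?_
        have h2 : ‖z - c‖ ≤ ‖z - w‖ + ‖w - c‖ := by
          have h3 : z - c = (z - w) + (w - c) := by ring
          rw [h3]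
          exact norm_add_le _ _
        have h4 := (hZ w hw).2
        linarith
      have h2 := hM z hz.le
      rw [hfg z, norm_mul] at h2
      rw [le_div_iff₀ (pow_pos hRr _), mul_comm]
      exact (mul_le_mul_of_nonneg_right h1 (norm_nonneg _)).trans h2
    · exact subset_closure (Metric.mem_ball_self hR0)
  have hfc : ‖f c‖ ≤ r ^ Z.card * (M / (R - r) ^ Z.card) := by
    rw [hfg c, norm_mul]
    refine mul_le_mul ?_ hgc (norm_nonneg _) (pow_nonneg hr.le _)
    rw [norm_prod, ← Finset.prod_const]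
    refine Finset.prod_le_prod (fun _ _ => norm_nonneg _) fun w hw => ?_
    rw [norm_sub_rev]
    exact (hZ w hw).2
  have hfc0 : 0 < ‖f c‖ := norm_pos_iff.2 hc
  have h1 : ((R - r) / r) ^ Z.card ≤ M / ‖f c‖ := by
    rw [le_div_iff₀ hfc0, div_pow, div_mul_eq_mul_div, div_le_iff₀ (pow_pos hr _)]
    have h2 : (R - r) ^ Z.card * ‖f c‖ ≤
        (R - r) ^ Z.card * (r ^ Z.card * (M / (R - r) ^ Z.card)) :=
      mul_le_mul_of_nonneg_left hfc (pow_nonneg hRr.le _)
    refine h2.trans (le_of_eq ?_)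
    field_simp
  rw [← Real.log_pow]
  exact Real.log_le_log (pow_pos (div_pos hRr hr) _) h1

end Pool.Agent.H74.ZS
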