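import Pool.Agent.H74.ZS.FinT
import Pool.Agent.H74.ZS.Zer

/-!
# Sums of zero ordinates

`zs_zeros`: apply `zs_main` with `ε/2` to `A = {α γ : γ ∈ S1}`, `B = {β γ : γ ∈ S2}` (images; the maps are injective) and the image `S'` of `S` under
`(γ, γ') ↦ (α γ, β γ')` (same cardinality).  If `S1 = ∅` or `S2 = ∅` trivial.  For `γ ∈ S1`: `0 < γ ≤ 2T/α` (as `β γ' > 0`).
`#{γ ∈ S1 : x ≤ α γ < x + 1}`: these `γ` lie in `[x/α, x/α + 1/α)`, a union of `⌈1/α⌉₊` intervals of length one, each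
containing at most `C log (3 + |y|)` (`ordinates_card`); if the set is nonempty then `|x| ≤ 2T + 1`, so all
`|y| ≤ (2T+1)/α + 1/α + 1` and the number is at most `K := ⌈(1/α + 1/β + 2) C log (...)⌉₊`, which is `≤ T^(ε/6)` for `T ≥ T0(α, β, ε)`
(`isLittleO_log_rpow_atTop` or `Real.log_le_rpow_div`), so `K³ T^(2+ε/2) ≤ T^(2+ε)`.
-/

namespace Pool.Agent.H74.ZS

open Finset
open scoped Real

theorem zerF_count {C : ℝ} (hC0 : 0 < C) (hC : ∀ (x : ℝ) (S : Finset ℝ),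
    (∀ γ ∈ S, riemannZeta (1 / 2 + (γ : ℂ) * Complex.I) = 0 ∧ x ≤ γ ∧ γ < x + 1) →
    (S.card : ℝ) ≤ C * Real.log (3 + |x|)) {α : ℝ} (hα : 0 < α) {Γ : ℝ} (hΓ : 0 ≤ Γ)
    (S1 : Finset ℝ) (hS : ∀ γ ∈ S1, 0 < γ ∧ riemannZeta (1 / 2 + (γ : ℂ) * Complex.I) = 0)
    (hG : ∀ γ ∈ S1, γ ≤ Γ) (x : ℝ) :
    (((S1.image (fun γ => α * γ)).filter (fun a => x ≤ a ∧ a < x + 1)).card : ℝ) ≤
      (⌈1 / α⌉₊ : ℝ) * (C * Real.log (4 + Γ)) := by
  classical
  set F : Finset ℝ := S1.filter (fun γ => x ≤ α * γ ∧ α * γ < x + 1) with hF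
  have h1 : (S1.image (fun γ => α * γ)).filter (fun a => x ≤ a ∧ a < x + 1) =
      F.image (fun γ => α * γ) := by
    ext a
    simp only [hF, Finset.mem_filter, Finset.mem_image]
    constructor
    · rintro ⟨⟨γ, hγ, rfl⟩, h⟩
      exact ⟨γ, ⟨hγ, h⟩, rfl⟩
    · rintro ⟨γ, ⟨hγ, h⟩, rfl⟩
      exact ⟨⟨γ, hγ, rfl⟩, h⟩
  rw [h1]
  have h2 : ((F.image (fun γ => α * γ)).card : ℝ) ≤ (F.card : ℝ) := by
    exact_mod_cast Finset.card_image_le
  refine h2.trans ?_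
  have hmap : ∀ γ ∈ F, ⌊γ - x / α⌋₊ ∈ Finset.range ⌈1 / α⌉₊ := by
    intro γ hγ
    obtain ⟨hγ1, hγ2, hγ3⟩ := Finset.mem_filter.1 hγ
    rw [Finset.mem_range]
    have h3 : 0 ≤ γ - x / α := by
      rw [sub_nonneg, div_le_iff₀ hα]
      linarith
    rw [Nat.floor_lt h3]
    have h4 : γ - x / α < 1 / α := by
      rw [sub_lt_iff_lt_add, ← add_div, lt_div_iff₀ hα]
      linarith
    exact h4.trans_le (Nat.le_ceil _)
  rw [Finset.card_eq_sum_card_fiberwise hmap]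
  push_cast
  have h5 : ∀ j ∈ Finset.range ⌈1 / α⌉₊,
      (((F.filter (fun γ => ⌊γ - x / α⌋₊ = j)).card : ℕ) : ℝ) ≤ C * Real.log (4 + Γ) := by
    intro j _
    have hlog : 0 ≤ C * Real.log (4 + Γ) :=
      mul_nonneg hC0.le (Real.log_nonneg (by linarith))
    rcases (F.filter (fun γ => ⌊γ - x / α⌋₊ = j)).eq_empty_or_nonempty with he | ⟨γ0, hγ0⟩
    · rw [he]; simpa using hlog
    have key : ∀ γ ∈ F.filter (fun γ => ⌊γ - x / α⌋₊ = j),
        riemannZeta (1 / 2 + (γ : ℂ) * Complex.I) = 0 ∧ x / α + j ≤ γ ∧ γ < x / α + j + 1 := by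
      intro γ hγ
      obtain ⟨hγ1, hγ2⟩ := Finset.mem_filter.1 hγ
      obtain ⟨hγ3, hγ4, hγ5⟩ := Finset.mem_filter.1 hγ1
      have h3 : 0 ≤ γ - x / α := by
        rw [sub_nonneg, div_le_iff₀ hα]
        linarith
      refine ⟨(hS γ hγ3).2, ?_, ?_⟩
      · have := Nat.floor_le h3
        rw [hγ2] at this
        linarith
      · have := Nat.lt_floor_add_one (γ - x / α)
        rw [hγ2] at this
        linarith
    refine (hC (x / α + j) _ key).trans ?_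
    have h6 : |x / α + j| ≤ Γ + 1 := by
      obtain ⟨_, h7, h8⟩ := key γ0 hγ0
      have h9 := (Finset.mem_filter.1 (Finset.mem_filter.1 hγ0).1).1
      have h10 := hG γ0 h9
      have h11 := (hS γ0 h9).1
      rw [abs_le]
      constructor <;> linarith
    refine mul_le_mul_of_nonneg_left ?_ hC0.le
    exact Real.log_le_log (by positivity) (by linarith)
  calc ∑ j ∈ Finset.range ⌈1 / α⌉₊, (((F.filter (fun γ => ⌊γ - x / α⌋₊ = j)).card : ℕ) : ℝ)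
      ≤ ∑ j ∈ Finset.range ⌈1 / α⌉₊, C * Real.log (4 + Γ) := Finset.sum_le_sum h5
    _ = (⌈1 / α⌉₊ : ℝ) * (C * Real.log (4 + Γ)) := by
      rw [Finset.sum_const, Finset.card_range, nsmul_eq_mul]

theorem zerF_size (ε : ℝ) (hε : 0 < ε) (m q : ℝ) (hm : 0 ≤ m) (hq : 0 ≤ q) :
    ∃ T0 : ℝ, 1 ≤ T0 ∧ ∀ T : ℝ, T0 ≤ T →
      ((⌈m * Real.log (4 + q * T)⌉₊ : ℕ) : ℝ) ^ 3 * T ^ (2 + ε / 2) ≤ T ^ (2 + ε) := by
  set δ : ℝ := ε / 12 with hδ
  have hδ0 : 0 < δ := by positivity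
  set D : ℝ := m * ((4 + q) ^ δ / δ) + 1 with hD
  have hD1 : 1 ≤ D := by
    rw [hD]
    have : 0 ≤ m * ((4 + q) ^ δ / δ) := by positivity
    linarith
  refine ⟨D ^ (12 / ε), Real.one_le_rpow hD1 (by positivity), fun T hT => ?_⟩
  have hT1 : 1 ≤ T := (Real.one_le_rpow hD1 (by positivity)).trans hT
  have hT0 : 0 < T := by linarith
  have hlogn : 0 ≤ Real.log (4 + q * T) := Real.log_nonneg (by nlinarith)
  have h1 : Real.log (4 + q * T) ≤ (4 + q) ^ δ / δ * T ^ δ := by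
    refine (Real.log_le_rpow_div (by positivity) hδ0).trans ?_
    rw [div_mul_eq_mul_div]
    apply div_le_div_of_nonneg_right _ hδ0.le
    rw [← Real.mul_rpow (by positivity) hT0.le]
    apply Real.rpow_le_rpow (by positivity) _ hδ0.le
    nlinarith
  have h2 : ((⌈m * Real.log (4 + q * T)⌉₊ : ℕ) : ℝ) ≤ D * T ^ δ := by
    refine (Nat.ceil_lt_add_one (mul_nonneg hm hlogn)).le.trans ?_
    have h3 : (1 : ℝ) ≤ T ^ δ := Real.one_le_rpow hT1 hδ0.le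
    rw [hD]
    have h4 := mul_le_mul_of_nonneg_left h1 hm
    nlinarith
  have h5 : ((⌈m * Real.log (4 + q * T)⌉₊ : ℕ) : ℝ) ^ 3 ≤ T ^ (ε / 2) := by
    have h6 : ((⌈m * Real.log (4 + q * T)⌉₊ : ℕ) : ℝ) ^ 3 ≤ (D * T ^ δ) ^ 3 := by
      gcongr
    refine h6.trans ?_
    have h7 : D ≤ T ^ δ := by
      have h8 : D = (D ^ (12 / ε)) ^ δ := by
        rw [← Real.rpow_mul (by linarith)]
        have : 12 / ε * δ = 1 := by rw [hδ]; field_simp
        rw [this, Real.rpow_one]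
      conv_lhs => rw [h8]
      exact Real.rpow_le_rpow (by positivity) hT hδ0.le
    have h9 : (D * T ^ δ) ^ 3 ≤ (T ^ δ * T ^ δ) ^ 3 := by
      gcongr
    refine h9.trans (le_of_eq ?_)
    rw [← Real.rpow_add hT0, ← Real.rpow_natCast, ← Real.rpow_mul hT0.le]
    congr 1
    rw [hδ]; push_cast; ring
  have h10 : T ^ (2 + ε) = T ^ (ε / 2) * T ^ (2 + ε / 2) := by
    rw [← Real.rpow_add hT0]; congr 1; ring
  rw [h10]
  gcongr

theorem zs_zeros (ε : ℝ) (hε : 0 < ε) : ∃ c : ℝ, 0 < c ∧ ∀ α β : ℝ, 0 < α → 0 < β →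
    ∃ T0 : ℝ, ∀ T : ℝ, T0 ≤ T → ∀ (S1 S2 : Finset ℝ),
    (∀ γ ∈ S1, 0 < γ ∧ riemannZeta (1 / 2 + (γ : ℂ) * Complex.I) = 0) →
    (∀ γ ∈ S2, 0 < γ ∧ riemannZeta (1 / 2 + (γ : ℂ) * Complex.I) = 0) →
    (∀ γ ∈ S1, ∀ γ' ∈ S2, T ≤ α * γ + β * γ' ∧ α * γ + β * γ' ≤ 2 * T) →
    T ^ (2 + ε) ≤ (S1.card : ℝ) * (S2.card : ℝ) ^ 2 →
    ∀ S : Finset (ℝ × ℝ), (∀ x ∈ S1 ×ˢ S2,
      riemannZeta (1 / 2 + ((α * x.1 + β * x.2 : ℝ) : ℂ) * Complex.I) ≠ 0 → x ∈ S) →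
    c * ((S1.card : ℝ) * S2.card) ≤ (S.card : ℝ) := by
  classical
  obtain ⟨c, T1, hc, hmain⟩ := zs_main (ε / 2) (by positivity)
  obtain ⟨C, hC0, hC⟩ := ordinates_card
  refine ⟨c, hc, fun α β hα hβ => ?_⟩
  set m : ℝ := ((⌈1 / α⌉₊ : ℝ) + (⌈1 / β⌉₊ : ℝ)) * C with hm
  set q : ℝ := 2 / α + 2 / β with hq
  have hm0 : 0 ≤ m := by positivity
  have hq0 : 0 ≤ q := by positivity
  obtain ⟨T2, hT21, hT2⟩ := zerF_size ε hε m q hm0 hq0
  refine ⟨max T1 T2, fun T hT S1 S2 hS1 hS2 hsum hcard S hS => ?_⟩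
  have hTT1 := (le_max_left T1 T2).trans hT
  have hTT2 := (le_max_right T1 T2).trans hT
  have hT0 : 0 < T := by linarith
  rcases S1.eq_empty_or_nonempty with he | ⟨γ1, hγ1⟩
  · rw [he]; simp
  rcases S2.eq_empty_or_nonempty with he | ⟨γ2, hγ2⟩
  · rw [he]; simp
  have hG1 : ∀ γ ∈ S1, γ ≤ 2 * T / α := by
    intro γ hγ
    rw [le_div_iff₀ hα]
    have h1 := (hsum γ hγ γ2 hγ2).2
    have h2 := mul_pos hβ (hS2 γ2 hγ2).1
    linarith
  have hG2 : ∀ γ ∈ S2, γ ≤ 2 * T / β := by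
    intro γ hγ
    rw [le_div_iff₀ hβ]
    have h1 := (hsum γ1 hγ1 γ hγ).2
    have h2 := mul_pos hα (hS1 γ1 hγ1).1
    linarith
  set K : ℕ := ⌈m * Real.log (4 + q * T)⌉₊ with hK
  have hlogn : 0 ≤ Real.log (4 + q * T) := Real.log_nonneg (by nlinarith)
  have hcK : ∀ {a : ℝ} {Γ : ℝ}, 0 ≤ a → a * C ≤ m → 0 ≤ Γ → Γ ≤ q * T →
      a * (C * Real.log (4 + Γ)) ≤ (K : ℝ) := by
    intro a Γ ha ham hΓ0 hΓ
    have h1 : Real.log (4 + Γ) ≤ Real.log (4 + q * T) :=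
      Real.log_le_log (by linarith) (by linarith)
    calc a * (C * Real.log (4 + Γ)) = (a * C) * Real.log (4 + Γ) := by ring
      _ ≤ m * Real.log (4 + q * T) :=
        mul_le_mul ham h1 (Real.log_nonneg (by linarith)) hm0
      _ ≤ K := Nat.le_ceil _
  have hA : ∀ x : ℝ, ((S1.image (fun γ => α * γ)).filter (fun a => x ≤ a ∧ a < x + 1)).card ≤ K := by
    intro x
    have h1 := zerF_count hC0 hC hα (Γ := 2 * T / α) (by positivity) S1 hS1 hG1 x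
    have h2 := hcK (a := (⌈1 / α⌉₊ : ℝ)) (Γ := 2 * T / α) (by positivity) (by
      rw [hm]
      have : 0 ≤ (⌈1 / β⌉₊ : ℝ) * C := by positivity
      linarith) (by positivity) (by
      rw [hq]
      have : 0 ≤ 2 / β * T := by positivity
      calc 2 * T / α = 2 / α * T := by ring
        _ ≤ _ := by linarith)
    exact_mod_cast h1.trans h2
  have hB : ∀ x : ℝ, ((S2.image (fun γ => β * γ)).filter (fun a => x ≤ a ∧ a < x + 1)).card ≤ K := by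
    intro x
    have h1 := zerF_count hC0 hC hβ (Γ := 2 * T / β) (by positivity) S2 hS2 hG2 x
    have h2 := hcK (a := (⌈1 / β⌉₊ : ℝ)) (Γ := 2 * T / β) (by positivity) (by
      rw [hm]
      have : 0 ≤ (⌈1 / α⌉₊ : ℝ) * C := by positivity
      linarith) (by positivity) (by
      rw [hq]
      have : 0 ≤ 2 / α * T := by positivity
      calc 2 * T / β = 2 / β * T := by ring
        _ ≤ _ := by linarith)
    exact_mod_cast h1.trans h2
  have hcA : (S1.image (fun γ => α * γ)).card = S1.card :=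
    Finset.card_image_of_injective _ (mul_right_injective₀ hα.ne')
  have hcB : (S2.image (fun γ => β * γ)).card = S2.card :=
    Finset.card_image_of_injective _ (mul_right_injective₀ hβ.ne')
  have hfin := hmain T hTT1 K (S1.image (fun γ => α * γ)) (S2.image (fun γ => β * γ)) hA hB
    (by
      intro a ha b hb
      obtain ⟨γ, hγ, rfl⟩ := Finset.mem_image.1 ha
      obtain ⟨γ', hγ', rfl⟩ := Finset.mem_image.1 hb
      exact hsum γ hγ γ' hγ')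
    (by
      rw [hcA, hcB]
      exact (hT2 T hTT2).trans hcard)
    (S.image (fun x => (α * x.1, β * x.2)))
    (by
      rintro ⟨a, b⟩ hx hz
      obtain ⟨ha, hb⟩ := Finset.mem_product.1 hx
      obtain ⟨γ, hγ, hγe⟩ := Finset.mem_image.1 ha
      obtain ⟨γ', hγ', hγe'⟩ := Finset.mem_image.1 hb
      simp only at hγe hγe' hz
      subst hγe
      subst hγe'
      exact Finset.mem_image.2 ⟨(γ, γ'), hS (γ, γ') (Finset.mem_product.2 ⟨hγ, hγ'⟩) hz, rfl⟩)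
  rw [hcA, hcB] at hfin
  refine hfin.trans ?_
  exact_mod_cast Finset.card_image_le

end Pool.Agent.H74.ZS
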